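import Pool.Agent.Lib.MP_05a445_an.LinChange

/-!
Averaged homotopy operators on weakly closed square integrable forms.
-/

set_option autoImplicit false
set_option linter.unusedSectionVars false

namespace Pool.Agent.Lib.MP_05a445_an

open MeasureTheory Set Filter Topology ContinuousAlternatingMap ContinuousLinearMap
open scoped ContDiff NNReal ENNReal

section measure

variable {X : Type*} [MeasurableSpace X]

lemma sq_lintegral_le (κ : Measure X) [IsProbabilityMeasure κ] {g : X → ℝ≥0∞}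
    (hg : AEMeasurable g κ) : (∫⁻ x, g x ∂κ) ^ 2 ≤ ∫⁻ x, g x ^ 2 ∂κ := by
  have h := ENNReal.lintegral_mul_le_Lp_mul_Lq κ (p := 2) (q := 2)
    (Real.HolderConjugate.two_two) hg (g := fun _ => 1) aemeasurable_const
  simp only [Pi.mul_apply, mul_one, ENNReal.one_rpow, lintegral_const, measure_univ] at h
  calc (∫⁻ x, g x ∂κ) ^ 2 ≤ ((∫⁻ x, g x ^ (2 : ℝ) ∂κ) ^ (1 / (2 : ℝ))) ^ 2 := by gcongr
    _ = ∫⁻ x, g x ^ 2 ∂κ := by
      rw [← ENNReal.rpow_natCast, ← ENNReal.rpow_mul]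
      norm_num

lemma memLp_two_iff {F : Type*} [NormedAddCommGroup F] {f : X → F} {μ : Measure X} :
    MemLp f 2 μ ↔ AEStronglyMeasurable f μ ∧ ∫⁻ x, ‖f x‖ₑ ^ 2 ∂μ < ⊤ := by
  unfold MemLp
  rw [eLpNorm_lt_top_iff_lintegral_rpow_enorm_lt_top (by norm_num) (by norm_num)]
  simp

end measure

variable {V : Type*} [NormedAddCommGroup V] [NormedSpace ℝ V] [FiniteDimensional ℝ V]
  [MeasureSpace V] [BorelSpace V] [(volume : Measure V).IsAddHaarMeasure]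

/-- A measured family of linear contractions of `O`. -/
structure LinFam (O : Set V) {C : Type*} [TopologicalSpace C] [MeasurableSpace C]
    (ν : Measure C) where
  /-- the maps -/
  A : C → ℝ → V →L[ℝ] V
  /-- their derivatives -/
  B : C → ℝ → V →L[ℝ] V
  hA : ∀ c t, HasDerivAt (A c) (B c t) t
  contA : Continuous (fun p : C × ℝ => A p.1 p.2)
  contB : Continuous (fun p : C × ℝ => B p.1 p.2)
  map : ∀ᵐ c ∂ν, ∀ t ∈ Icc (0 : ℝ) 1, ∀ x ∈ O, A c t x ∈ O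
  det : ∀ᵐ c ∂ν, ∀ t ∈ Ioc (0 : ℝ) 1, (A c t).det ≠ 0
  one : ∀ c, A c 1 = ContinuousLinearMap.id ℝ V
  /-- a bound for the norms -/
  M : ℝ
  hM : ∀ᵐ c ∂ν, ∀ t ∈ Icc (0 : ℝ) 1, ‖A c t‖ ≤ M ∧ ‖B c t‖ ≤ M
  /-- the constant in the averaged bound -/
  K : ℝ≥0
  bd : ∀ t ∈ Icc (0 : ℝ) 1, ∀ k : V → ℝ≥0∞, Measurable k →
    ∫⁻ c, (∫⁻ x in O, k (A c t x)) ∂ν ≤ K * ∫⁻ x in O, k x

section joint

omit [FiniteDimensional ℝ V] [MeasureSpace V] [BorelSpace V]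
  [(volume : Measure V).IsAddHaarMeasure]

/-- Composition with a linear map, as a function of both arguments. -/
noncomputable def cmj {q : ℕ} (p : (V →L[ℝ] V) × (V [⋀^Fin q]→L[ℝ] ℝ)) :
    V [⋀^Fin q]→L[ℝ] ℝ := p.2.compContinuousLinearMap p.1

/-- The homotopy integrand, as a function of its arguments. -/
noncomputable def ctj {q : ℕ} (p : (V →L[ℝ] V) × V × (V [⋀^Fin (q + 1)]→L[ℝ] ℝ)) :
    V [⋀^Fin q]→L[ℝ] ℝ := (p.2.2.curryLeft p.2.1).compContinuousLinearMap p.1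

lemma continuous_cmj {q : ℕ} : Continuous (cmj (V := V) (q := q)) := by
  have h := (continuous_compContinuousLinearMapCLM (𝕜 := ℝ) (E := V) (F := V) (G := ℝ)
    (ι := Fin q)).comp (continuous_fst (X := V →L[ℝ] V) (Y := V [⋀^Fin q]→L[ℝ] ℝ))
  exact h.clm_apply continuous_snd

lemma continuous_ctj {q : ℕ} : Continuous (ctj (V := V) (q := q)) := by
  have h1 : Continuous (fun p : (V →L[ℝ] V) × V × (V [⋀^Fin (q + 1)]→L[ℝ] ℝ) =>
      cl V q p.2.2 p.2.1) :=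
    ((cl V q).continuous.comp (continuous_snd.comp continuous_snd)).clm_apply
      (continuous_fst.comp continuous_snd)
  exact continuous_cmj.comp (continuous_fst.prodMk h1)

end joint

variable {C : Type*} [TopologicalSpace C] [MeasurableSpace C] [BorelSpace C]
  [SecondCountableTopology C] {ν : Measure C} {O : Set V}

/-- The parameter measure. -/
noncomputable def kap (ν : Measure C) : Measure (C × ℝ) := ν.prod (volume.restrict (Ioc 0 1))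

omit [TopologicalSpace C] [BorelSpace C] [SecondCountableTopology C] in
instance [IsProbabilityMeasure ν] : IsProbabilityMeasure (kap ν) := by
  have : IsProbabilityMeasure ((volume : Measure ℝ).restrict (Ioc 0 1)) :=
    ⟨by simp⟩
  unfold kap
  infer_instance

/-- The averaged homotopy operator. -/
noncomputable def LinFam.U {q : ℕ} (L : LinFam O ν) (f : V → V [⋀^Fin (q + 1)]→L[ℝ] ℝ) (x : V) :
    V [⋀^Fin q]→L[ℝ] ℝ :=
  ∫ p, ct (L.A p.1 p.2) (L.B p.1 p.2) f x ∂(kap ν)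

/-- The averaged end form. -/
noncomputable def LinFam.H {q : ℕ} (L : LinFam O ν) (f : V → V [⋀^Fin q]→L[ℝ] ℝ) (x : V) :
    V [⋀^Fin q]→L[ℝ] ℝ :=
  ∫ c, pb (L.A c 0) f x ∂ν

omit [FiniteDimensional ℝ V] [(volume : Measure V).IsAddHaarMeasure] in
lemma LinFam.sm_f {F : Type*} [TopologicalSpace F] (L : LinFam O ν)
    {f : V → F} (hf : StronglyMeasurable f) :
    StronglyMeasurable (fun z : V × (C × ℝ) => f (L.A z.2.1 z.2.2 z.1)) := by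
  have hc : Continuous (fun z : V × (C × ℝ) => L.A z.2.1 z.2.2 z.1) :=
    (L.contA.comp continuous_snd).clm_apply continuous_fst
  exact hf.comp_measurable hc.measurable

omit [(volume : Measure V).IsAddHaarMeasure] in
lemma LinFam.sm_ct {q : ℕ} (L : LinFam O ν) {f : V → V [⋀^Fin (q + 1)]→L[ℝ] ℝ}
    (hf : StronglyMeasurable f) :
    StronglyMeasurable (fun z : V × (C × ℝ) => ct (L.A z.2.1 z.2.2) (L.B z.2.1 z.2.2) f z.1) := by
  have h1 := L.sm_f hf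
  have hA : StronglyMeasurable (fun z : V × (C × ℝ) => L.A z.2.1 z.2.2) :=
    (L.contA.comp continuous_snd).stronglyMeasurable
  have hB : StronglyMeasurable (fun z : V × (C × ℝ) => L.B z.2.1 z.2.2 z.1) :=
    ((L.contB.comp continuous_snd).clm_apply continuous_fst).stronglyMeasurable
  have h2 : StronglyMeasurable (fun z : V × (C × ℝ) =>
      (L.A z.2.1 z.2.2, L.B z.2.1 z.2.2 z.1, f (L.A z.2.1 z.2.2 z.1))) :=
    hA.prodMk (hB.prodMk h1)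
  have h3 : StronglyMeasurable (fun z : V × (C × ℝ) =>
      ctj (L.A z.2.1 z.2.2, L.B z.2.1 z.2.2 z.1, f (L.A z.2.1 z.2.2 z.1))) :=
    continuous_ctj.comp_stronglyMeasurable h2
  exact h3

omit [(volume : Measure V).IsAddHaarMeasure] in
lemma LinFam.sm_pb {q : ℕ} (L : LinFam O ν) {f : V → V [⋀^Fin q]→L[ℝ] ℝ}
    (hf : StronglyMeasurable f) :
    StronglyMeasurable (fun z : V × (C × ℝ) => pb (L.A z.2.1 z.2.2) f z.1) := by
  have h1 := L.sm_f hf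
  have hA : StronglyMeasurable (fun z : V × (C × ℝ) => L.A z.2.1 z.2.2) :=
    (L.contA.comp continuous_snd).stronglyMeasurable
  have h2 : StronglyMeasurable (fun z : V × (C × ℝ) =>
      (L.A z.2.1 z.2.2, f (L.A z.2.1 z.2.2 z.1))) := hA.prodMk h1
  have h3 : StronglyMeasurable (fun z : V × (C × ℝ) =>
      cmj (L.A z.2.1 z.2.2, f (L.A z.2.1 z.2.2 z.1))) :=
    continuous_cmj.comp_stronglyMeasurable h2
  exact h3

section bounds

variable [IsProbabilityMeasure ν]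

omit [FiniteDimensional ℝ V] [(volume : Measure V).IsAddHaarMeasure] in
lemma LinFam.ae_bound (L : LinFam O ν) :
    ∀ᵐ p ∂(kap ν), ‖L.A p.1 p.2‖ ≤ L.M ∧ ‖L.B p.1 p.2‖ ≤ L.M := by
  have h1 : ∀ᵐ p ∂(kap ν), ∀ t ∈ Icc (0 : ℝ) 1, ‖L.A p.1 t‖ ≤ L.M ∧ ‖L.B p.1 t‖ ≤ L.M :=
    (Measure.quasiMeasurePreserving_fst).ae L.hM
  have h2 : ∀ᵐ p ∂(kap ν), p.2 ∈ Ioc (0 : ℝ) 1 :=
    (Measure.quasiMeasurePreserving_snd).ae (ae_restrict_mem measurableSet_Ioc)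
  filter_upwards [h1, h2] with p hp1 hp2
  exact hp1 p.2 (Ioc_subset_Icc_self hp2)

omit [FiniteDimensional ℝ V] [(volume : Measure V).IsAddHaarMeasure] in
lemma LinFam.lint_kap [SFinite (volume : Measure V)] (L : LinFam O ν) {k : V → ℝ≥0∞}
    (hk : Measurable k) :
    ∫⁻ x in O, (∫⁻ p, k (L.A p.1 p.2 x) ∂(kap ν)) ≤ L.K * ∫⁻ x in O, k x := by
  have hc : Continuous (fun z : V × (C × ℝ) => L.A z.2.1 z.2.2 z.1) :=
    (L.contA.comp continuous_snd).clm_apply continuous_fst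
  have hm : Measurable (fun z : V × (C × ℝ) => k (L.A z.2.1 z.2.2 z.1)) := hk.comp hc.measurable
  have h1 : ∫⁻ x in O, (∫⁻ p, k (L.A p.1 p.2 x) ∂(kap ν)) =
      ∫⁻ p, (∫⁻ x in O, k (L.A p.1 p.2 x)) ∂(kap ν) :=
    lintegral_lintegral_swap hm.aemeasurable
  have hm2 : Measurable (fun p : C × ℝ => ∫⁻ x in O, k (L.A p.1 p.2 x)) :=
    hm.lintegral_prod_left
  rw [h1, kap, lintegral_prod_symm _ hm2.aemeasurable]
  calc ∫⁻ t in Ioc (0 : ℝ) 1, (∫⁻ c, (∫⁻ x in O, k (L.A c t x)) ∂ν)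
      ≤ ∫⁻ t in Ioc (0 : ℝ) 1, L.K * ∫⁻ x in O, k x := by
        apply setLIntegral_mono' measurableSet_Ioc
        intro t ht
        exact L.bd t (Ioc_subset_Icc_self ht) k hk
    _ = _ := by simp

lemma LinFam.M_nonneg (L : LinFam O ν) : 0 ≤ L.M := by
  obtain ⟨c, hc⟩ := L.hM.exists
  exact (norm_nonneg _).trans (hc 1 (right_mem_Icc.2 zero_le_one)).1

lemma enorm_ct_le {q : ℕ} {A B : V →L[ℝ] V} {f : V → V [⋀^Fin (q + 1)]→L[ℝ] ℝ} {x : V}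
    {M R : ℝ} (hA : ‖A‖ ≤ M) (hB : ‖B‖ ≤ M) (hx : ‖x‖ ≤ R) :
    ‖ct A B f x‖ₑ ≤ ENNReal.ofReal (M * R * M ^ q) * ‖f (A x)‖ₑ := by
  have hM0 : 0 ≤ M := (norm_nonneg _).trans hA
  have hR0 : 0 ≤ R := (norm_nonneg _).trans hx
  have h1 : ‖ct A B f x‖ ≤ (M * R * M ^ q) * ‖f (A x)‖ := by
    refine (norm_ct_le A B f x).trans ?_
    have h2 : ‖B x‖ ≤ M * R := (B.le_opNorm x).trans (by gcongr)
    calc ‖f (A x)‖ * (‖B x‖ * ‖A‖ ^ q) ≤ ‖f (A x)‖ * ((M * R) * M ^ q) := by gcongr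
      _ = _ := by ring
  rw [← ofReal_norm, ← ofReal_norm, ← ENNReal.ofReal_mul (by positivity)]
  exact ENNReal.ofReal_le_ofReal h1

lemma enorm_pb_le {q : ℕ} {A : V →L[ℝ] V} {f : V → V [⋀^Fin q]→L[ℝ] ℝ} {x : V}
    {M : ℝ} (hA : ‖A‖ ≤ M) :
    ‖pb A f x‖ₑ ≤ ENNReal.ofReal (M ^ q) * ‖f (A x)‖ₑ := by
  have hM0 : 0 ≤ M := (norm_nonneg _).trans hA
  have h1 : ‖pb A f x‖ ≤ M ^ q * ‖f (A x)‖ := by
    refine (norm_pb_le A f x).trans ?_
    calc ‖f (A x)‖ * ‖A‖ ^ q ≤ ‖f (A x)‖ * M ^ q := by gcongr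
      _ = _ := by ring
  rw [← ofReal_norm, ← ofReal_norm, ← ENNReal.ofReal_mul (by positivity)]
  exact ENNReal.ofReal_le_ofReal h1

lemma LinFam.sm_U {q : ℕ} (L : LinFam O ν) {f : V → V [⋀^Fin (q + 1)]→L[ℝ] ℝ}
    (hf : StronglyMeasurable f) : StronglyMeasurable (L.U f) :=
  (L.sm_ct hf).integral_prod_right'

lemma LinFam.sm_pb0 {q : ℕ} (L : LinFam O ν) {f : V → V [⋀^Fin q]→L[ℝ] ℝ}
    (hf : StronglyMeasurable f) (t : ℝ) :
    StronglyMeasurable (fun z : V × C => pb (L.A z.2 t) f z.1) :=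
  (L.sm_pb hf).comp_measurable (g := fun z : V × C => (z.1, (z.2, t)))
    (measurable_fst.prodMk (measurable_snd.prodMk measurable_const))

lemma LinFam.sm_H {q : ℕ} (L : LinFam O ν) {f : V → V [⋀^Fin q]→L[ℝ] ℝ}
    (hf : StronglyMeasurable f) : StronglyMeasurable (L.H f) :=
  (L.sm_pb0 hf 0).integral_prod_right'

variable [SFinite (volume : Measure V)]

lemma LinFam.memLp_U {q : ℕ} (L : LinFam O ν) {R : ℝ} (hO : MeasurableSet O)
    (hR : ∀ x ∈ O, ‖x‖ ≤ R)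
    {f : V → V [⋀^Fin (q + 1)]→L[ℝ] ℝ} (hf : StronglyMeasurable f)
    (hf2 : ∫⁻ x in O, ‖f x‖ₑ ^ 2 < ⊤) : MemLp (L.U f) 2 (volume.restrict O) := by
  rw [memLp_two_iff]
  refine ⟨(L.sm_U hf).aestronglyMeasurable, ?_⟩
  set D : ℝ≥0∞ := ENNReal.ofReal (L.M * R * L.M ^ q) with hD
  have hpt : ∀ x ∈ O, ‖L.U f x‖ₑ ^ 2 ≤
      D ^ 2 * ∫⁻ p, ‖f (L.A p.1 p.2 x)‖ₑ ^ 2 ∂(kap ν) := by
    intro x hx
    have hm : Measurable (fun p : C × ℝ => ‖f (L.A p.1 p.2 x)‖ₑ) := by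
      have := (L.sm_f hf).comp_measurable (g := fun p : C × ℝ => (x, p))
        (measurable_const.prodMk measurable_id)
      exact this.enorm
    have h1 : ‖L.U f x‖ₑ ≤ D * ∫⁻ p, ‖f (L.A p.1 p.2 x)‖ₑ ∂(kap ν) := by
      rw [← lintegral_const_mul _ hm]
      refine (enorm_integral_le_lintegral_enorm _).trans (lintegral_mono_ae ?_)
      filter_upwards [L.ae_bound] with p hp
      exact enorm_ct_le hp.1 hp.2 (hR x hx)
    calc ‖L.U f x‖ₑ ^ 2 ≤ (D * ∫⁻ p, ‖f (L.A p.1 p.2 x)‖ₑ ∂(kap ν)) ^ 2 := by gcongr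
      _ = D ^ 2 * (∫⁻ p, ‖f (L.A p.1 p.2 x)‖ₑ ∂(kap ν)) ^ 2 := by rw [mul_pow]
      _ ≤ _ := by
        gcongr
        exact sq_lintegral_le _ hm.aemeasurable
  have hk : Measurable (fun y : V => ‖f y‖ₑ ^ 2) := (hf.enorm).pow_const 2
  have hmi : Measurable (fun x => ∫⁻ p, ‖f (L.A p.1 p.2 x)‖ₑ ^ 2 ∂(kap ν)) := by
    have := ((L.sm_f hf).enorm).pow_const 2
    exact this.lintegral_prod_right'
  calc ∫⁻ x in O, ‖L.U f x‖ₑ ^ 2
      ≤ ∫⁻ x in O, D ^ 2 * ∫⁻ p, ‖f (L.A p.1 p.2 x)‖ₑ ^ 2 ∂(kap ν) :=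
        setLIntegral_mono' hO hpt
    _ = D ^ 2 * ∫⁻ x in O, ∫⁻ p, ‖f (L.A p.1 p.2 x)‖ₑ ^ 2 ∂(kap ν) :=
        lintegral_const_mul _ hmi
    _ ≤ D ^ 2 * (L.K * ∫⁻ x in O, ‖f x‖ₑ ^ 2) := by
        gcongr
        exact L.lint_kap hk
    _ < ⊤ := by
        apply ENNReal.mul_lt_top (by simp [hD])
        exact ENNReal.mul_lt_top (by simp) hf2

lemma LinFam.memLp_H {q : ℕ} (L : LinFam O ν) (hO : MeasurableSet O)
    {f : V → V [⋀^Fin q]→L[ℝ] ℝ} (hf : StronglyMeasurable f)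
    (hf2 : ∫⁻ x in O, ‖f x‖ₑ ^ 2 < ⊤) : MemLp (L.H f) 2 (volume.restrict O) := by
  rw [memLp_two_iff]
  refine ⟨(L.sm_H hf).aestronglyMeasurable, ?_⟩
  set D : ℝ≥0∞ := ENNReal.ofReal (L.M ^ q) with hD
  have hjm : Measurable (fun z : V × C => ‖f (L.A z.2 0 z.1)‖ₑ) := by
    have := (L.sm_f hf).comp_measurable (g := fun z : V × C => (z.1, (z.2, (0 : ℝ))))
      (measurable_fst.prodMk (measurable_snd.prodMk measurable_const))
    exact this.enorm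
  have hpt : ∀ x ∈ O, ‖L.H f x‖ₑ ^ 2 ≤ D ^ 2 * ∫⁻ c, ‖f (L.A c 0 x)‖ₑ ^ 2 ∂ν := by
    intro x hx
    have hm : Measurable (fun c : C => ‖f (L.A c 0 x)‖ₑ) :=
      hjm.of_uncurry_left (f := fun (x : V) (c : C) => ‖f (L.A c 0 x)‖ₑ)
    have h1 : ‖L.H f x‖ₑ ≤ D * ∫⁻ c, ‖f (L.A c 0 x)‖ₑ ∂ν := by
      rw [← lintegral_const_mul _ hm]
      refine (enorm_integral_le_lintegral_enorm _).trans (lintegral_mono_ae ?_)
      filter_upwards [L.hM] with c hc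
      exact enorm_pb_le (hc 0 (left_mem_Icc.2 zero_le_one)).1
    calc ‖L.H f x‖ₑ ^ 2 ≤ (D * ∫⁻ c, ‖f (L.A c 0 x)‖ₑ ∂ν) ^ 2 := by gcongr
      _ = D ^ 2 * (∫⁻ c, ‖f (L.A c 0 x)‖ₑ ∂ν) ^ 2 := by rw [mul_pow]
      _ ≤ _ := by
        gcongr
        exact sq_lintegral_le _ hm.aemeasurable
  have hk : Measurable (fun y : V => ‖f y‖ₑ ^ 2) := (hf.enorm).pow_const 2
  have hjm2 : Measurable (fun z : V × C => ‖f (L.A z.2 0 z.1)‖ₑ ^ 2) := hjm.pow_const 2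
  calc ∫⁻ x in O, ‖L.H f x‖ₑ ^ 2
      ≤ ∫⁻ x in O, D ^ 2 * ∫⁻ c, ‖f (L.A c 0 x)‖ₑ ^ 2 ∂ν :=
        setLIntegral_mono' hO hpt
    _ = D ^ 2 * ∫⁻ x in O, ∫⁻ c, ‖f (L.A c 0 x)‖ₑ ^ 2 ∂ν :=
        lintegral_const_mul _ hjm2.lintegral_prod_right'
    _ = D ^ 2 * ∫⁻ c, (∫⁻ x in O, ‖f (L.A c 0 x)‖ₑ ^ 2) ∂ν := by
        rw [lintegral_lintegral_swap hjm2.aemeasurable]
    _ ≤ D ^ 2 * (L.K * ∫⁻ x in O, ‖f x‖ₑ ^ 2) := by
        gcongr
        exact L.bd 0 (left_mem_Icc.2 zero_le_one) _ hk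
    _ < ⊤ := by
        apply ENNReal.mul_lt_top (by simp [hD])
        exact ENNReal.mul_lt_top (by simp) hf2

end bounds

end Pool.Agent.Lib.MP_05a445_an
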