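import Pool.Agent.Lib.MP_05a445_an.Avg

/-!
The averaged homotopy formula for weakly closed square integrable forms.
-/

set_option autoImplicit false
set_option linter.unusedSectionVars false

namespace Pool.Agent.Lib.MP_05a445_an

open MeasureTheory Set Filter Topology ContinuousAlternatingMap ContinuousLinearMap
open scoped ContDiff NNReal ENNReal

variable {V : Type*} [NormedAddCommGroup V] [NormedSpace ℝ V] [FiniteDimensional ℝ V]
  [MeasureSpace V] [BorelSpace V] [(volume : Measure V).IsAddHaarMeasure]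
  {C : Type*} [TopologicalSpace C] [MeasurableSpace C] [BorelSpace C]
  [SecondCountableTopology C] {ν : Measure C} {O : Set V} [IsProbabilityMeasure ν]
  [SFinite (volume : Measure V)]

lemma tendsto_enorm_of {E : Type*} [NormedAddCommGroup E] {u : ℕ → E}
    (h : Tendsto u atTop (𝓝 0)) : Tendsto (fun n => ‖u n‖ₑ) atTop (𝓝 0) := by
  simpa using h.enorm

lemma integrable_of_zero_off {X E : Type*} [MeasurableSpace X] {μ : Measure X}
    [NormedAddCommGroup E] {O : Set X} {f : X → E} (hO : MeasurableSet O)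
    (h : IntegrableOn f O μ) (h0 : ∀ x ∉ O, f x = 0) : Integrable f μ := by
  have hind : O.indicator f = f := by
    funext x
    by_cases hx : x ∈ O
    · rw [indicator_of_mem hx]
    · rw [indicator_of_notMem hx, h0 x hx]
  rw [← hind]
  exact (integrable_indicator_iff hO).2 h

lemma enorm_three_le {E : Type*} [NormedAddCommGroup E] (a b c : E) :
    ‖a + b - c‖ₑ ≤ ‖a‖ₑ + ‖b‖ₑ + ‖c‖ₑ :=
  enorm_sub_le.trans (by gcongr; exact enorm_add_le _ _)

lemma LinFam.integrable_J {q : ℕ} (L : LinFam O ν) (hO : MeasurableSet O) {R : ℝ}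
    (hR : ∀ x ∈ O, ‖x‖ ≤ R) {f : V → V [⋀^Fin (q + 1)]→L[ℝ] ℝ} (hf : StronglyMeasurable f)
    (hfi : ∫⁻ x in O, ‖f x‖ₑ < ⊤) :
    Integrable (fun z : V × (C × ℝ) => ct (L.A z.2.1 z.2.2) (L.B z.2.1 z.2.2) f z.1)
      ((volume.restrict O).prod (kap ν)) := by
  have hsm := L.sm_ct hf
  refine ⟨hsm.aestronglyMeasurable, ?_⟩
  rw [HasFiniteIntegral, lintegral_prod _ hsm.enorm.aemeasurable]
  set D : ℝ≥0∞ := ENNReal.ofReal (L.M * R * L.M ^ q) with hD
  have hjm : Measurable (fun z : V × (C × ℝ) => ‖f (L.A z.2.1 z.2.2 z.1)‖ₑ) := (L.sm_f hf).enorm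
  calc ∫⁻ x in O, ∫⁻ p, ‖ct (L.A p.1 p.2) (L.B p.1 p.2) f x‖ₑ ∂(kap ν)
      ≤ ∫⁻ x in O, D * ∫⁻ p, ‖f (L.A p.1 p.2 x)‖ₑ ∂(kap ν) := by
        apply setLIntegral_mono' hO
        intro x hx
        rw [← lintegral_const_mul _
          (hjm.of_uncurry_left (f := fun (x : V) (p : C × ℝ) => ‖f (L.A p.1 p.2 x)‖ₑ))]
        apply lintegral_mono_ae
        filter_upwards [L.ae_bound] with p hp
        exact enorm_ct_le hp.1 hp.2 (hR x hx)
    _ = D * ∫⁻ x in O, ∫⁻ p, ‖f (L.A p.1 p.2 x)‖ₑ ∂(kap ν) :=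
        lintegral_const_mul _ hjm.lintegral_prod_right'
    _ ≤ D * (L.K * ∫⁻ x in O, ‖f x‖ₑ) := by
        gcongr
        exact L.lint_kap hf.enorm
    _ < ⊤ := by
        apply ENNReal.mul_lt_top (by simp [hD])
        exact ENNReal.mul_lt_top (by simp) hfi

lemma LinFam.lint_pb {q : ℕ} (L : LinFam O ν) (hO : MeasurableSet O)
    {f : V → V [⋀^Fin q]→L[ℝ] ℝ} (hf : StronglyMeasurable f) {t : ℝ} (ht : t ∈ Icc (0 : ℝ) 1) :
    ∫⁻ c, (∫⁻ x in O, ‖pb (L.A c t) f x‖ₑ) ∂ν ≤
      ENNReal.ofReal (L.M ^ q) * (L.K * ∫⁻ x in O, ‖f x‖ₑ) := by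
  have hjm : Measurable (fun z : C × V => ‖f (L.A z.1 t z.2)‖ₑ) := by
    have := (L.sm_f hf).comp_measurable (g := fun z : C × V => (z.2, (z.1, t)))
      (measurable_snd.prodMk (measurable_fst.prodMk measurable_const))
    exact this.enorm
  calc ∫⁻ c, (∫⁻ x in O, ‖pb (L.A c t) f x‖ₑ) ∂ν
      ≤ ∫⁻ c, ENNReal.ofReal (L.M ^ q) * (∫⁻ x in O, ‖f (L.A c t x)‖ₑ) ∂ν := by
        apply lintegral_mono_ae
        filter_upwards [L.hM] with c hc
        rw [← lintegral_const_mul _
          (hjm.of_uncurry_left (f := fun (c : C) (x : V) => ‖f (L.A c t x)‖ₑ))]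
        apply setLIntegral_mono' hO
        intro x hx
        exact enorm_pb_le (hc t ht).1
    _ = ENNReal.ofReal (L.M ^ q) * ∫⁻ c, (∫⁻ x in O, ‖f (L.A c t x)‖ₑ) ∂ν :=
        lintegral_const_mul _ hjm.lintegral_prod_right'
    _ ≤ _ := by
        gcongr
        exact L.bd t ht _ hf.enorm

lemma LinFam.integrable_pb {q : ℕ} (L : LinFam O ν) (hO : MeasurableSet O)
    {f : V → V [⋀^Fin q]→L[ℝ] ℝ} (hf : StronglyMeasurable f)
    (hfi : ∫⁻ x in O, ‖f x‖ₑ < ⊤) {t : ℝ} (ht : t ∈ Icc (0 : ℝ) 1) :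
    Integrable (fun z : V × C => pb (L.A z.2 t) f z.1) ((volume.restrict O).prod ν) := by
  have hsm := L.sm_pb0 hf t
  refine ⟨hsm.aestronglyMeasurable, ?_⟩
  rw [HasFiniteIntegral, lintegral_prod_symm _ hsm.enorm.aemeasurable]
  refine (L.lint_pb hO hf ht).trans_lt ?_
  apply ENNReal.mul_lt_top (by simp)
  exact ENNReal.mul_lt_top (by simp) hfi

lemma pb_id {q : ℕ} (f : V → V [⋀^Fin q]→L[ℝ] ℝ) :
    pb (ContinuousLinearMap.id ℝ V) f = f := by
  funext x
  rfl

/-- Continuity of the pullbacks at the end point, in the mean. -/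
lemma LinFam.tendsto_pb {q : ℕ} (L : LinFam O ν) (hO : MeasurableSet O)
    (hOfin : volume O ≠ ⊤)
    {f : V → V [⋀^Fin q]→L[ℝ] ℝ} (hf : StronglyMeasurable f) (hfi : Integrable f)
    {s : ℕ → ℝ} (hs : ∀ n, s n ∈ Icc (0 : ℝ) 1) (hs0 : Tendsto s atTop (𝓝 0)) :
    Tendsto (fun n => ∫⁻ c, (∫⁻ x in O, ‖pb (L.A c (s n)) f x - pb (L.A c 0) f x‖ₑ) ∂ν) atTop
      (𝓝 0) := by
  have h00 : (0 : ℝ) ∈ Icc (0 : ℝ) 1 := left_mem_Icc.2 zero_le_one
  rw [ENNReal.tendsto_nhds_zero]
  intro ε hε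
  set D : ℝ≥0∞ := ENNReal.ofReal (L.M ^ q) * L.K with hD
  have hDtop : D ≠ ⊤ := ENNReal.mul_ne_top (by simp) (by simp)
  -- choose the approximation
  obtain ⟨δ, hδ0, hδ⟩ : ∃ δ : ℝ≥0∞, δ ≠ 0 ∧ D * δ ≤ ε / 3 := by
    rcases eq_or_ne ε ⊤ with rfl | hεt
    · exact ⟨1, one_ne_zero, by simp [ENNReal.top_div]⟩
    refine ⟨ε / 3 / (D + 1), ?_, ?_⟩
    · apply (ENNReal.div_pos _ _).ne'
      · exact (ENNReal.div_pos hε.ne' (by simp)).ne'
      · exact ENNReal.add_ne_top.2 ⟨hDtop, by simp⟩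
    · calc D * (ε / 3 / (D + 1)) ≤ (D + 1) * (ε / 3 / (D + 1)) := by
            gcongr
            exact le_self_add
        _ ≤ ε / 3 := ENNReal.mul_div_le
  obtain ⟨k, hkc, hkε, hkcont, hkint⟩ := hfi.exists_hasCompactSupport_lintegral_sub_le hδ0
  have hksm : StronglyMeasurable k := hkcont.stronglyMeasurable
  have hdsm : StronglyMeasurable (fun x => f x - k x) := hf.sub hksm
  have hdle : ∫⁻ x in O, ‖f x - k x‖ₑ ≤ δ := (setLIntegral_le_lintegral _ _).trans hkε
  -- the continuous part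
  have hmid : Tendsto (fun n => ∫⁻ c, (∫⁻ x in O, ‖pb (L.A c (s n)) k x - pb (L.A c 0) k x‖ₑ) ∂ν)
      atTop (𝓝 0) := by
    obtain ⟨Ck, hCk⟩ := hkcont.bounded_above_of_compact_support hkc
    have hfin : IsFiniteMeasure (volume.restrict O) := ⟨by simpa using hOfin.lt_top⟩
    have hmeas : ∀ n, Measurable (fun z : C × V =>
        ‖pb (L.A z.1 (s n)) k z.2 - pb (L.A z.1 0) k z.2‖ₑ) := by
      intro n
      have h1 := (L.sm_pb0 hksm (s n)).sub (L.sm_pb0 hksm 0)
      have h2 := h1.comp_measurable (g := fun z : C × V => (z.2, z.1)) measurable_swap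
      exact h2.enorm
    have e1 : ∀ n, ∫⁻ c, (∫⁻ x in O, ‖pb (L.A c (s n)) k x - pb (L.A c 0) k x‖ₑ) ∂ν =
        ∫⁻ z, ‖pb (L.A z.1 (s n)) k z.2 - pb (L.A z.1 0) k z.2‖ₑ
          ∂(ν.prod (volume.restrict O)) := fun n =>
      (lintegral_prod _ (hmeas n).aemeasurable).symm
    simp_rw [e1]
    have h0 : (0 : ℝ≥0∞) = ∫⁻ _, 0 ∂(ν.prod ((volume : Measure V).restrict O)) := by simp
    rw [h0]
    apply tendsto_lintegral_of_dominated_convergence
      (fun _ => 2 * (ENNReal.ofReal (L.M ^ q) * ENNReal.ofReal Ck)) hmeas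
    · intro n
      have hb : ∀ᵐ z ∂(ν.prod ((volume : Measure V).restrict O)),
          ∀ t ∈ Icc (0 : ℝ) 1, ‖L.A z.1 t‖ ≤ L.M ∧ ‖L.B z.1 t‖ ≤ L.M :=
        (Measure.quasiMeasurePreserving_fst).ae L.hM
      filter_upwards [hb] with z hz
      have h3 : ∀ t ∈ Icc (0 : ℝ) 1, ‖pb (L.A z.1 t) k z.2‖ₑ ≤
          ENNReal.ofReal (L.M ^ q) * ENNReal.ofReal Ck := by
        intro t ht
        refine (enorm_pb_le (hz t ht).1).trans ?_
        gcongr
        rw [← ofReal_norm]
        exact ENNReal.ofReal_le_ofReal (hCk _)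
      calc ‖pb (L.A z.1 (s n)) k z.2 - pb (L.A z.1 0) k z.2‖ₑ
          ≤ ‖pb (L.A z.1 (s n)) k z.2‖ₑ + ‖pb (L.A z.1 0) k z.2‖ₑ := enorm_sub_le
        _ ≤ _ := by
          rw [two_mul]
          exact add_le_add (h3 _ (hs n)) (h3 _ h00)
    · rw [lintegral_const]
      apply ENNReal.mul_ne_top
      · exact ENNReal.mul_ne_top (by simp) (ENNReal.mul_ne_top (by simp) (by simp))
      · exact measure_ne_top _ _
    · refine Eventually.of_forall fun z => ?_
      have hc1 : Continuous (fun t : ℝ => cmj (L.A z.1 t, k (L.A z.1 t z.2))) := by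
        have hAt : Continuous (fun t : ℝ => L.A z.1 t) :=
          L.contA.comp (continuous_const.prodMk continuous_id)
        exact continuous_cmj.comp
          (hAt.prodMk (hkcont.comp (hAt.clm_apply continuous_const)))
      have hc2 : Continuous (fun t : ℝ => pb (L.A z.1 t) k z.2) := hc1
      have h4 : Tendsto (fun n => pb (L.A z.1 (s n)) k z.2 - pb (L.A z.1 0) k z.2) atTop
          (𝓝 (pb (L.A z.1 0) k z.2 - pb (L.A z.1 0) k z.2)) :=
        ((hc2.tendsto 0).comp hs0).sub_const _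
      rw [sub_self] at h4
      exact tendsto_enorm_of h4
  have hmid' := (ENNReal.tendsto_nhds_zero.1 hmid) (ε / 3) (ENNReal.div_pos hε.ne' (by simp))
  filter_upwards [hmid'] with n hn
  have hm1 : Measurable (fun z : C × V => ‖pb (L.A z.1 (s n)) (fun y => f y - k y) z.2‖ₑ) := by
    have h1 := (L.sm_pb0 hdsm (s n)).comp_measurable (g := fun z : C × V => (z.2, z.1))
      measurable_swap
    exact h1.enorm
  have hm2 : Measurable (fun z : C × V => ‖pb (L.A z.1 (s n)) k z.2 - pb (L.A z.1 0) k z.2‖ₑ) := by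
    have h1 := ((L.sm_pb0 hksm (s n)).sub (L.sm_pb0 hksm 0)).comp_measurable
      (g := fun z : C × V => (z.2, z.1)) measurable_swap
    exact h1.enorm
  have hm3 : Measurable (fun z : C × V => ‖pb (L.A z.1 0) (fun y => f y - k y) z.2‖ₑ) := by
    have h1 := (L.sm_pb0 hdsm 0).comp_measurable (g := fun z : C × V => (z.2, z.1))
      measurable_swap
    exact h1.enorm
  have hkey : ∫⁻ c, (∫⁻ x in O, ‖pb (L.A c (s n)) f x - pb (L.A c 0) f x‖ₑ) ∂ν ≤
      ∫⁻ c, (∫⁻ x in O, ‖pb (L.A c (s n)) (fun y => f y - k y) x‖ₑ) ∂ν +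
      ∫⁻ c, (∫⁻ x in O, ‖pb (L.A c (s n)) k x - pb (L.A c 0) k x‖ₑ) ∂ν +
      ∫⁻ c, (∫⁻ x in O, ‖pb (L.A c 0) (fun y => f y - k y) x‖ₑ) ∂ν := by
    rw [← lintegral_add_left hm1.lintegral_prod_right',
      ← lintegral_add_right _ hm3.lintegral_prod_right']
    apply lintegral_mono
    intro c
    simp only
    rw [← lintegral_add_left (hm1.of_uncurry_left
        (f := fun (c : C) (x : V) => ‖pb (L.A c (s n)) (fun y => f y - k y) x‖ₑ)),
      ← lintegral_add_right _ (hm3.of_uncurry_left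
        (f := fun (c : C) (x : V) => ‖pb (L.A c 0) (fun y => f y - k y) x‖ₑ))]
    apply lintegral_mono
    intro x
    simp only
    have e : pb (L.A c (s n)) f x - pb (L.A c 0) f x =
        pb (L.A c (s n)) (fun y => f y - k y) x +
        (pb (L.A c (s n)) k x - pb (L.A c 0) k x) -
        pb (L.A c 0) (fun y => f y - k y) x := by
      rw [pb_sub, pb_sub]; abel
    rw [e]
    exact enorm_three_le _ _ _
  have hb1 : ∫⁻ c, (∫⁻ x in O, ‖pb (L.A c (s n)) (fun y => f y - k y) x‖ₑ) ∂ν ≤ ε / 3 := by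
    refine (L.lint_pb hO hdsm (hs n)).trans ?_
    rw [← mul_assoc]
    exact (mul_le_mul_right hdle _).trans hδ
  have hb3 : ∫⁻ c, (∫⁻ x in O, ‖pb (L.A c 0) (fun y => f y - k y) x‖ₑ) ∂ν ≤ ε / 3 := by
    refine (L.lint_pb hO hdsm h00).trans ?_
    rw [← mul_assoc]
    exact (mul_le_mul_right hdle _).trans hδ
  calc _ ≤ ε / 3 + ε / 3 + ε / 3 := hkey.trans (add_le_add (add_le_add hb1 hn) hb3)
    _ = ε := ENNReal.add_thirds ε

/-- The averaged homotopy formula: `f - H f` is the weak exterior derivative of `U f`. -/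
theorem LinFam.main {q : ℕ} (L : LinFam O ν) (hO : IsOpen O) (hOfin : volume O ≠ ⊤) {R : ℝ}
    (hR : ∀ x ∈ O, ‖x‖ ≤ R) {f : V → V [⋀^Fin (q + 1)]→L[ℝ] ℝ} (hf : StronglyMeasurable f)
    (hf0 : ∀ x ∉ O, f x = 0) (hf2 : ∫⁻ x in O, ‖f x‖ₑ < ⊤) (hcl : ClosedOn O f)
    {ψ : V → ℝ} (hψ : IsTest O ψ) :
    ∫ x in O, ψ x • (f x - L.H f x) = - ∫ x in O, wd (fderiv ℝ ψ x) (L.U f x) := by
  have hOm : MeasurableSet O := hO.measurableSet
  have h00 : (0 : ℝ) ∈ Icc (0 : ℝ) 1 := left_mem_Icc.2 zero_le_one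
  have hfO : IntegrableOn f O := ⟨hf.aestronglyMeasurable, hf2⟩
  have hfi : Integrable f := by
    exact integrable_of_zero_off hOm hfO hf0
  have hψ1 : ContDiff ℝ 1 ψ := hψ.smooth.of_le (by simp)
  obtain ⟨Cψ, hC0, hC⟩ := exists_bound hψ1 hψ.compact
  have hψ0 : ∀ x ∉ O, ψ x = 0 := fun x hx =>
    image_eq_zero_of_notMem_tsupport fun h => hx (hψ.supp h)
  have hdψ0 : ∀ x ∉ O, fderiv ℝ ψ x = 0 := fun x hx =>
    image_eq_zero_of_notMem_tsupport fun h => hx (hψ.supp (tsupport_fderiv_subset ℝ h))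
  -- integrability of all the pieces
  have hJ := L.integrable_J hOm hR hf hf2
  have hP : ∀ {t : ℝ}, t ∈ Icc (0 : ℝ) 1 →
      Integrable (fun z : V × C => pb (L.A z.2 t) f z.1) ((volume.restrict O).prod ν) :=
    fun ht => L.integrable_pb hOm hf hf2 ht
  have hψm : AEStronglyMeasurable ψ (volume.restrict O) := hψ1.continuous.aestronglyMeasurable
  have hPψ : ∀ {t : ℝ}, t ∈ Icc (0 : ℝ) 1 → ∀ v : Fin (q + 1) → V,
      Integrable (fun z : V × C => ψ z.1 * pb (L.A z.2 t) f z.1 v)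
        ((volume.restrict O).prod ν) := by
    intro t ht v
    have h1 : Integrable (fun z : V × C => pb (L.A z.2 t) f z.1 v)
        ((volume.restrict O).prod ν) := (ev v).integrable_comp (hP ht)
    exact h1.bdd_mul (c := Cψ) (hψ1.continuous.comp continuous_fst).aestronglyMeasurable
      (Eventually.of_forall fun z => (hC z.1).1)
  have hWv : ∀ v : Fin (q + 1) → V, Integrable (fun z : V × (C × ℝ) =>
      wd (fderiv ℝ ψ z.1) (ct (L.A z.2.1 z.2.2) (L.B z.2.1 z.2.2) f z.1) v)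
        ((volume.restrict O).prod (kap ν)) := by
    intro v
    have hm : AEStronglyMeasurable (fun z : V × (C × ℝ) =>
        wd (fderiv ℝ ψ z.1) (ct (L.A z.2.1 z.2.2) (L.B z.2.1 z.2.2) f z.1))
        ((volume.restrict O).prod (kap ν)) :=
      ContinuousLinearMap.aestronglyMeasurable_comp₂ (wdL V q)
        ((hψ1.continuous_fderiv (by norm_num)).comp continuous_fst).aestronglyMeasurable
        hJ.aestronglyMeasurable
    have h1 : Integrable (fun z : V × (C × ℝ) =>
        wd (fderiv ℝ ψ z.1) (ct (L.A z.2.1 z.2.2) (L.B z.2.1 z.2.2) f z.1))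
        ((volume.restrict O).prod (kap ν)) := by
      apply (hJ.norm.const_mul ((q + 1) * Cψ)).mono' hm
      refine Eventually.of_forall fun z => ?_
      refine (norm_wd_le _ _).trans ?_
      rw [← mul_assoc]
      gcongr
      exact (hC z.1).2.1
    exact (ev v).integrable_comp h1
  have hHi : Integrable (L.H f) (volume.restrict O) := (hP h00).integral_prod_left
  have hUi : Integrable (L.U f) (volume.restrict O) := hJ.integral_prod_left
  have hwU : Integrable (fun x => wd (fderiv ℝ ψ x) (L.U f x)) (volume.restrict O) := by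
    apply (hUi.norm.const_mul ((q + 1) * Cψ)).mono' (aesm_wd hψ1 hUi.aestronglyMeasurable)
    refine Eventually.of_forall fun x => ?_
    refine (norm_wd_le _ _).trans ?_
    rw [← mul_assoc]
    gcongr
    exact (hC x).2.1
  have hψfH : Integrable (fun x => ψ x • (f x - L.H f x)) (volume.restrict O) := by
    have h1 : Integrable (fun x => f x - L.H f x) (volume.restrict O) :=
      Integrable.sub hfO hHi
    exact h1.bdd_smul Cψ hψm (Eventually.of_forall fun x => (hC x).1)
  ext v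
  rw [ContinuousAlternatingMap.neg_apply, integral_form_apply hψfH, integral_form_apply hwU]
  -- notation
  set W : V → C × ℝ → ℝ := fun x p =>
    wd (fderiv ℝ ψ x) (ct (L.A p.1 p.2) (L.B p.1 p.2) f x) v with hWdef
  have hW : Integrable (fun z : V × (C × ℝ) => W z.1 z.2) ((volume.restrict O).prod (kap ν)) :=
    hWv v
  set Φ : C × ℝ → ℝ := fun p => ∫ x in O, W x p with hΦdef
  have hΦ : Integrable Φ (kap ν) := hW.integral_prod_right
  set s : ℕ → ℝ := fun n => 1 / ((n : ℝ) + 1 + 1) with hsdef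
  have hs0 : ∀ n, 0 < s n := fun n => by simp only [hsdef]; positivity
  have hs1 : ∀ n, s n ≤ 1 := fun n => by
    simp only [hsdef]
    rw [div_le_one (by positivity)]
    have : (0 : ℝ) ≤ n := Nat.cast_nonneg n
    linarith
  have hsI : ∀ n, s n ∈ Icc (0 : ℝ) 1 := fun n => ⟨(hs0 n).le, hs1 n⟩
  have hst : Tendsto s atTop (𝓝 0) :=
    (tendsto_one_div_add_atTop_nhds_zero_nat (𝕜 := ℝ)).comp (tendsto_add_atTop_nat 1) |>.congr
      (fun n => by simp [hsdef])
  -- the formula for one parameter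
  have hone : ∀ n, ∀ᵐ c ∂ν, (∫ x in O, ψ x * f x v) - (∫ x in O, ψ x * pb (L.A c (s n)) f x v) =
      - ∫ t in Ioc (s n) 1, Φ (c, t) := by
    intro n
    filter_upwards [L.map, L.det] with c hmap hdet
    have hstar := star hfi hO hcl (L.hA c) (L.contB.comp (continuous_const.prodMk continuous_id))
      (hs1 n) (fun t ht => hmap t ⟨(hs0 n).le.trans ht.1, ht.2⟩)
      (fun t ht => hdet t ⟨(hs0 n).trans_le ht.1, ht.2⟩) hψ v
    rw [L.one c, pb_id, intervalIntegral.integral_of_le (hs1 n)] at hstar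
    have e1 : ∀ t, ∫ x, wd (fderiv ℝ ψ x) (ct (L.A c t) (L.B c t) f x) v = Φ (c, t) := by
      intro t
      simp only [hΦdef, hWdef]
      symm
      apply setIntegral_eq_integral_of_forall_compl_eq_zero
      intro x hx
      rw [hdψ0 x hx, wd_zero_left]
      rfl
    have hdetn : (L.A c (s n)).det ≠ 0 := hdet (s n) ⟨hs0 n, hs1 n⟩
    have i1 : Integrable (fun x => ψ x * f x v) := by
      have h1 : Integrable (fun x => ψ x • pb (ContinuousLinearMap.id ℝ V) f x) := by
        apply integrable_smul_pb _ hfi hψ1 hψ.compact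
        simp [ContinuousLinearMap.det]
      exact (ev v).integrable_comp h1
    have i2 : Integrable (fun x => ψ x * pb (L.A c (s n)) f x v) :=
      (ev v).integrable_comp (integrable_smul_pb hdetn hfi hψ1 hψ.compact)
    have e2 : ∫ x, ψ x * (f x v - pb (L.A c (s n)) f x v) =
        (∫ x in O, ψ x * f x v) - (∫ x in O, ψ x * pb (L.A c (s n)) f x v) := by
      simp_rw [mul_sub]
      rw [integral_sub i1 i2]
      congr 1
      · symm
        apply setIntegral_eq_integral_of_forall_compl_eq_zero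
        intro x hx
        rw [hψ0 x hx, zero_mul]
      · symm
        apply setIntegral_eq_integral_of_forall_compl_eq_zero
        intro x hx
        rw [hψ0 x hx, zero_mul]
    rw [e2] at hstar
    rw [hstar]
    simp only [e1]
  -- integrate over the parameter
  have hPsi : ∀ {t : ℝ}, t ∈ Icc (0 : ℝ) 1 →
      Integrable (fun c => ∫ x in O, ψ x * pb (L.A c t) f x v) ν :=
    fun ht => (hPψ ht v).integral_prod_right
  have hint : ∀ n, (∫ x in O, ψ x * f x v) - (∫ c, (∫ x in O, ψ x * pb (L.A c (s n)) f x v) ∂ν) =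
      - ∫ c, (∫ t in Ioc (s n) 1, Φ (c, t)) ∂ν := by
    intro n
    rw [← integral_neg, ← integral_congr_ae (hone n), integral_sub (integrable_const _)
      (hPsi (hsI n))]
    simp
  -- the limit on the right
  have hright : Tendsto (fun n => ∫ c, (∫ t in Ioc (s n) 1, Φ (c, t)) ∂ν) atTop
      (𝓝 (∫ p, Φ p ∂(kap ν))) := by
    have e3 : ∀ n, ∫ c, (∫ t in Ioc (s n) 1, Φ (c, t)) ∂ν =
        ∫ p, (univ ×ˢ Ioi (s n)).indicator Φ p ∂(kap ν) := by
      intro n
      have hmeas : MeasurableSet ((univ : Set C) ×ˢ Ioi (s n)) :=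
        MeasurableSet.univ.prod measurableSet_Ioi
      rw [kap, integral_prod _ ((hΦ.indicator hmeas))]
      refine integral_congr_ae (Eventually.of_forall fun c => ?_)
      simp only
      have e4 : ∀ t, (univ ×ˢ Ioi (s n)).indicator Φ (c, t) =
          (Ioi (s n)).indicator (fun t => Φ (c, t)) t := by
        intro t
        by_cases ht : t ∈ Ioi (s n)
        · rw [indicator_of_mem ht, indicator_of_mem
            (show (c, t) ∈ (univ : Set C) ×ˢ Ioi (s n) from ⟨mem_univ _, ht⟩)]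
        · rw [indicator_of_notMem ht, indicator_of_notMem (fun h => ht h.2)]
      simp_rw [e4]
      rw [setIntegral_indicator measurableSet_Ioi]
      congr 2
      ext t
      simp only [mem_inter_iff, mem_Ioc, mem_Ioi]
      constructor
      · rintro ⟨h1, h2⟩
        exact ⟨⟨(hs0 n).trans h1, h2⟩, h1⟩
      · rintro ⟨⟨-, h2⟩, h3⟩
        exact ⟨h3, h2⟩
    simp_rw [e3]
    apply tendsto_integral_of_dominated_convergence (fun p => ‖Φ p‖)
    · intro n
      exact (hΦ.indicator (MeasurableSet.univ.prod measurableSet_Ioi)).aestronglyMeasurable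
    · exact hΦ.norm
    · intro n
      exact Eventually.of_forall fun p => norm_indicator_le_norm_self _ _
    · have h2 : ∀ᵐ p ∂(kap ν), p.2 ∈ Ioc (0 : ℝ) 1 :=
        (Measure.quasiMeasurePreserving_snd).ae (ae_restrict_mem measurableSet_Ioc)
      filter_upwards [h2] with p hp
      apply tendsto_const_nhds.congr'
      filter_upwards [hst.eventually_lt_const hp.1] with n hn
      rw [indicator_of_mem (show p ∈ (univ : Set C) ×ˢ Ioi (s n) from ⟨mem_univ _, hn⟩)]
  -- the limit on the left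
  have hleft : Tendsto (fun n => ∫ c, (∫ x in O, ψ x * pb (L.A c (s n)) f x v) ∂ν) atTop
      (𝓝 (∫ c, (∫ x in O, ψ x * pb (L.A c 0) f x v) ∂ν)) := by
    have e5 : ∀ {t : ℝ}, t ∈ Icc (0 : ℝ) 1 →
        ∫ c, (∫ x in O, ψ x * pb (L.A c t) f x v) ∂ν =
        ∫ z, ψ z.1 * pb (L.A z.2 t) f z.1 v ∂((volume.restrict O).prod ν) := by
      intro t ht
      exact (integral_prod_symm _ (hPψ ht v)).symm
    simp_rw [fun n => e5 (hsI n), e5 h00]
    apply tendsto_integral_of_L1 _ (hPψ h00 v).aestronglyMeasurable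
      (Eventually.of_forall fun n => hPψ (hsI n) v)
    have hconv := L.tendsto_pb hOm hOfin hf hfi hsI hst
    set P : ℝ := ∏ i, ‖v i‖ with hPdef
    have hP0 : 0 ≤ P := Finset.prod_nonneg fun i _ => norm_nonneg _
    have hbig : Tendsto (fun n => ENNReal.ofReal (Cψ * P) *
        ∫⁻ c, (∫⁻ x in O, ‖pb (L.A c (s n)) f x - pb (L.A c 0) f x‖ₑ) ∂ν) atTop (𝓝 0) := by
      have := ENNReal.Tendsto.const_mul (a := ENNReal.ofReal (Cψ * P)) hconv
        (Or.inr ENNReal.ofReal_ne_top)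
      simpa using this
    refine tendsto_of_tendsto_of_tendsto_of_le_of_le tendsto_const_nhds hbig
      (fun n => bot_le) (fun n => ?_)
    have hm2 : StronglyMeasurable (fun z : V × C =>
        pb (L.A z.2 (s n)) f z.1 - pb (L.A z.2 0) f z.1) :=
      (L.sm_pb0 hf (s n)).sub (L.sm_pb0 hf 0)
    have e6 : ∫⁻ c, (∫⁻ x in O, ‖pb (L.A c (s n)) f x - pb (L.A c 0) f x‖ₑ) ∂ν =
        ∫⁻ z, ‖pb (L.A z.2 (s n)) f z.1 - pb (L.A z.2 0) f z.1‖ₑ
          ∂((volume.restrict O).prod ν) :=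
      (lintegral_prod_symm _ hm2.enorm.aemeasurable).symm
    simp only
    rw [e6, ← lintegral_const_mul _ hm2.enorm]
    apply lintegral_mono
    intro z
    have h7 : ‖ψ z.1 * pb (L.A z.2 (s n)) f z.1 v - ψ z.1 * pb (L.A z.2 0) f z.1 v‖ ≤
        (Cψ * P) * ‖pb (L.A z.2 (s n)) f z.1 - pb (L.A z.2 0) f z.1‖ := by
      have h8 : ψ z.1 * pb (L.A z.2 (s n)) f z.1 v - ψ z.1 * pb (L.A z.2 0) f z.1 v =
          ψ z.1 * (pb (L.A z.2 (s n)) f z.1 - pb (L.A z.2 0) f z.1) v := by
        rw [ContinuousAlternatingMap.sub_apply]; ring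
      rw [h8, norm_mul, Real.norm_eq_abs, Real.norm_eq_abs]
      calc |ψ z.1| * |(pb (L.A z.2 (s n)) f z.1 - pb (L.A z.2 0) f z.1) v|
          ≤ Cψ * (‖pb (L.A z.2 (s n)) f z.1 - pb (L.A z.2 0) f z.1‖ * P) := by
            gcongr
            · exact (hC z.1).1
            · exact norm_apply_le _ v
        _ = _ := by ring
    simp only
    rw [← ofReal_norm, ← ofReal_norm, ← ENNReal.ofReal_mul (by positivity)]
    exact ENNReal.ofReal_le_ofReal h7
  have hlim := tendsto_nhds_unique (tendsto_const_nhds.sub hleft)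
    ((hright.neg).congr fun n => (hint n).symm)
  -- rewrite both sides
  have hL : ∫ x in O, (ψ x • (f x - L.H f x)) v = (∫ x in O, ψ x * f x v) -
      ∫ c, (∫ x in O, ψ x * pb (L.A c 0) f x v) ∂ν := by
    have i1 : Integrable (fun x => ψ x * f x v) (volume.restrict O) := by
      have h1 : Integrable (fun x => f x v) (volume.restrict O) := (ev v).integrable_comp hfO
      exact h1.bdd_mul (c := Cψ) hψm (Eventually.of_forall fun x => (hC x).1)
    have i2 : Integrable (fun x => ψ x * L.H f x v) (volume.restrict O) := by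
      have h1 : Integrable (fun x => L.H f x v) (volume.restrict O) := (ev v).integrable_comp hHi
      exact h1.bdd_mul (c := Cψ) hψm (Eventually.of_forall fun x => (hC x).1)
    have e7 : ∫ c, (∫ x in O, ψ x * pb (L.A c 0) f x v) ∂ν = ∫ x in O, ψ x * L.H f x v := by
      have hsw := integral_integral_swap (f := fun (x : V) (c : C) => ψ x * pb (L.A c 0) f x v)
        (hPψ h00 v)
      rw [← hsw]
      apply integral_congr_ae
      filter_upwards [(hP h00).prod_right_ae] with x hx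
      rw [integral_const_mul]
      congr 1
      exact (integral_form_apply hx v).symm
    rw [e7, ← integral_sub i1 i2]
    refine integral_congr_ae (Eventually.of_forall fun x => ?_)
    simp only [ContinuousAlternatingMap.smul_apply, ContinuousAlternatingMap.sub_apply,
      smul_eq_mul]
    ring
  have hRr : ∫ x in O, wd (fderiv ℝ ψ x) (L.U f x) v = ∫ p, Φ p ∂(kap ν) := by
    have hsw := integral_integral_swap (f := fun (x : V) (p : C × ℝ) => W x p) hW
    rw [← hsw]
    apply integral_congr_ae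
    filter_upwards [hJ.prod_right_ae] with x hx
    have h1 := ContinuousLinearMap.integral_comp_comm ((ev v).comp (wdL V q (fderiv ℝ ψ x))) hx
    simp only [ContinuousLinearMap.comp_apply, ev_apply, wdL_apply] at h1
    exact h1.symm
  rw [hL, hRr]
  exact hlim

end Pool.Agent.Lib.MP_05a445_an
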