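import Pool.Agent.Lib.MP_05a445_an.Fiber

/-!
The rotation families of the Hartogs triangle.
-/

set_option autoImplicit false
set_option linter.unusedSectionVars false

namespace Pool.Agent.Lib.MP_05a445_an

open MeasureTheory Set Filter Topology ContinuousAlternatingMap ContinuousLinearMap
open scoped ContDiff NNReal ENNReal

/-- Multiplication of the second variable by `w`, with the first variable multiplied by `a`. -/
noncomputable def Mw (a : ℝ) (w : ℂ) : ℂ × ℂ →L[ℝ] ℂ × ℂ :=
  a • (ContinuousLinearMap.inl ℝ ℂ ℂ).comp (ContinuousLinearMap.fst ℝ ℂ ℂ) +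
  (ContinuousLinearMap.inr ℝ ℂ ℂ).comp
    ((ContinuousLinearMap.mul ℝ ℂ w).comp (ContinuousLinearMap.snd ℝ ℂ ℂ))

@[simp] lemma Mw_apply (a : ℝ) (w : ℂ) (z : ℂ × ℂ) : Mw a w z = (a * z.1, w * z.2) := by
  simp [Mw]

lemma continuous_Mw : Continuous (fun p : ℝ × ℂ => Mw p.1 p.2) := by
  apply Continuous.add
  · exact continuous_fst.smul continuous_const
  · exact continuous_const.clm_comp
      (((ContinuousLinearMap.mul ℝ ℂ).continuous.comp continuous_snd).clm_comp continuous_const)

lemma norm_Mw_le {a : ℝ} {w : ℂ} {M : ℝ} (ha : |a| ≤ M) (hw : ‖w‖ ≤ M) : ‖Mw a w‖ ≤ M := by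
  have hM : 0 ≤ M := (abs_nonneg _).trans ha
  apply ContinuousLinearMap.opNorm_le_bound _ hM
  intro z
  rw [Mw_apply, Prod.norm_def]
  apply max_le
  · rw [norm_mul, Complex.norm_real, Real.norm_eq_abs]
    exact mul_le_mul ha (norm_fst_le z) (norm_nonneg _) hM
  · rw [norm_mul]
    exact mul_le_mul hw (norm_snd_le z) (norm_nonneg _) hM

lemma hasDerivAt_Mw {g : ℝ → ℂ} {g' : ℂ} {t : ℝ} (hg : HasDerivAt g g' t) :
    HasDerivAt (fun t => Mw 1 (g t)) (Mw 0 g') t := by
  have h1 : HasDerivAt (fun t => ContinuousLinearMap.mul ℝ ℂ (g t))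
      (ContinuousLinearMap.mul ℝ ℂ g') t :=
    ((ContinuousLinearMap.mul ℝ ℂ).hasFDerivAt (x := g t)).comp_hasDerivAt t hg
  have h2 : HasDerivAt (fun t => (ContinuousLinearMap.mul ℝ ℂ (g t)).comp
      (ContinuousLinearMap.snd ℝ ℂ ℂ))
      ((ContinuousLinearMap.mul ℝ ℂ g').comp (ContinuousLinearMap.snd ℝ ℂ ℂ)) t := by
    have := h1.clm_comp (hasDerivAt_const t (ContinuousLinearMap.snd ℝ ℂ ℂ))
    simpa using this
  have h3 : HasDerivAt (fun t => (ContinuousLinearMap.inr ℝ ℂ ℂ).comp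
      ((ContinuousLinearMap.mul ℝ ℂ (g t)).comp (ContinuousLinearMap.snd ℝ ℂ ℂ)))
      ((ContinuousLinearMap.inr ℝ ℂ ℂ).comp
        ((ContinuousLinearMap.mul ℝ ℂ g').comp (ContinuousLinearMap.snd ℝ ℂ ℂ))) t := by
    have := (hasDerivAt_const t (ContinuousLinearMap.inr ℝ ℂ ℂ)).clm_comp h2
    simpa using this
  have h4 := h3.const_add ((1 : ℝ) • (ContinuousLinearMap.inl ℝ ℂ ℂ).comp
    (ContinuousLinearMap.fst ℝ ℂ ℂ))
  refine h4.congr_deriv ?_
  refine ContinuousLinearMap.ext fun z => ?_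
  rw [Mw_apply]
  simp

/-- The unit complex number of angle `2 pi s`. -/
noncomputable def eu (s : ℝ) : ℂ := Complex.exp ((2 * Real.pi * s : ℝ) * Complex.I)

lemma norm_eu (s : ℝ) : ‖eu s‖ = 1 := Complex.norm_exp_ofReal_mul_I _

lemma continuous_eu : Continuous eu := by
  unfold eu; fun_prop

lemma hasDerivAt_eu (s : ℝ) : HasDerivAt eu ((2 * Real.pi : ℝ) * Complex.I * eu s) s := by
  have h1 : HasDerivAt (fun s : ℝ => ((2 * Real.pi * s : ℝ) : ℂ) * Complex.I)
      ((2 * Real.pi : ℝ) * Complex.I) s := by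
    have := ((hasDerivAt_id s).const_mul (2 * Real.pi)).ofReal_comp.mul_const Complex.I
    simpa using this
  have h2 := h1.cexp
  refine h2.congr_deriv ?_
  unfold eu
  ring

@[simp] lemma eu_zero : eu 0 = 1 := by simp [eu]

@[simp] lemma eu_one : eu 1 = 1 := by
  simp only [eu, mul_one]
  push_cast
  exact Complex.exp_two_pi_mul_I

lemma Mw_one_mem {w : ℂ} (hw : ‖w‖ = 1) {z : ℂ × ℂ} (hz : z ∈ T) : Mw 1 w z ∈ T := by
  rw [Mw_apply, mem_T]
  simp only [Complex.ofReal_one, one_mul, norm_mul, hw]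
  exact hz

lemma Mw_one_mem_iff {w : ℂ} (hw : ‖w‖ = 1) {z : ℂ × ℂ} : Mw 1 w z ∈ T ↔ z ∈ T := by
  rw [Mw_apply, mem_T, mem_T]
  simp only [Complex.ofReal_one, one_mul, norm_mul, hw]

lemma det_Mw {w : ℂ} (hw : ‖w‖ = 1) : (Mw 1 w).det ≠ 0 := by
  have hw0 : w ≠ 0 := by
    intro h; rw [h, norm_zero] at hw; exact zero_ne_one hw
  intro h
  have h1 := LinearMap.bot_lt_ker_of_det_eq_zero (f := ((Mw 1 w : ℂ × ℂ →L[ℝ] ℂ × ℂ) :
    ℂ × ℂ →ₗ[ℝ] ℂ × ℂ)) h
  obtain ⟨z, hz, hz0⟩ := Submodule.exists_mem_ne_zero_of_ne_bot h1.ne'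
  apply hz0
  have h2 : Mw 1 w z = 0 := hz
  rw [Mw_apply] at h2
  have h3 : w * z.2 = 0 := congrArg Prod.snd h2
  have h4 : ((1 : ℝ) : ℂ) * z.1 = 0 := congrArg Prod.fst h2
  rw [Complex.ofReal_one, one_mul] at h4
  exact Prod.ext h4 ((mul_eq_zero.1 h3).resolve_left hw0)

/-- Rotation invariance of the measure on the triangle. -/
lemma rot_bd {w : ℂ} (hw : ‖w‖ = 1) {k : ℂ × ℂ → ℝ≥0∞} (hk : Measurable k) :
    ∫⁻ x in T, k (Mw 1 w x) = ∫⁻ x in T, k x := by
  have hw0 : w ≠ 0 := by
    intro h; rw [h, norm_zero] at hw; exact zero_ne_one hw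
  have hkm : Measurable (fun x => k (Mw 1 w x)) := hk.comp (Mw 1 w).continuous.measurable
  rw [lintegral_T hkm, lintegral_T hk]
  have h1 : ∀ b y : ℂ, T.indicator (fun x => k (Mw 1 w x)) (y, b) =
      T.indicator k (y, 0 + w * b) := by
    intro b y
    have e : Mw 1 w (y, b) = (y, 0 + w * b) := by simp
    by_cases hy : (y, b) ∈ T
    · rw [indicator_of_mem hy, ← e, indicator_of_mem (Mw_one_mem hw hy)]
    · rw [indicator_of_notMem hy, ← e, indicator_of_notMem (by rwa [Mw_one_mem_iff hw])]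
  change ∫⁻ b : ℂ, ∫⁻ y : ℂ, T.indicator (fun x => k (Mw 1 w x)) (y, b) = _
  simp_rw [h1]
  rw [lintegral_affine hw0 0 (g := fun b => ∫⁻ y, T.indicator k (y, b)), hw]
  simp

/-- The uniform measure on the unit interval. -/
noncomputable def νR : Measure ℝ := volume.restrict (Ioc 0 1)

instance : IsProbabilityMeasure νR := ⟨by simp [νR]⟩

/-- The family of rotations, averaged over the angle. -/
noncomputable def famR : LinFam T νR where
  A := fun s t => Mw 1 (eu (s * (1 - t)))
  B := fun s t => Mw 0 (-(s : ℂ) * ((2 * Real.pi : ℝ) * Complex.I * eu (s * (1 - t))))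
  hA := fun s t => by
    apply hasDerivAt_Mw
    have h1 : HasDerivAt (fun t : ℝ => s * (1 - t)) (-s) t := by
      have := ((hasDerivAt_id t).const_sub 1).const_mul s
      simpa using this
    have h2 := (hasDerivAt_eu (s * (1 - t))).scomp t h1
    refine h2.congr_deriv ?_
    simp
  contA := continuous_Mw.comp (continuous_const.prodMk
    (continuous_eu.comp (continuous_fst.mul (continuous_const.sub continuous_snd))))
  contB := continuous_Mw.comp (continuous_const.prodMk
    (((Complex.continuous_ofReal.comp continuous_fst).neg).mul (continuous_const.mul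
      (continuous_eu.comp (continuous_fst.mul (continuous_const.sub continuous_snd))))))
  map := Eventually.of_forall fun s t _ x hx => Mw_one_mem (norm_eu _) hx
  det := Eventually.of_forall fun s t _ => det_Mw (norm_eu _)
  one := fun s => by
    ext z <;> simp
  M := 7
  hM := by
    have h1 : ∀ᵐ s ∂νR, s ∈ Ioc (0 : ℝ) 1 := ae_restrict_mem measurableSet_Ioc
    filter_upwards [h1] with s hs t ht
    constructor
    · apply norm_Mw_le (by simp)
      rw [norm_eu]; norm_num
    · apply norm_Mw_le (by simp)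
      rw [norm_mul, norm_mul, norm_mul, norm_eu, norm_neg, Complex.norm_real, Complex.norm_real,
        Complex.norm_I, Real.norm_of_nonneg hs.1.le, Real.norm_of_nonneg (by positivity)]
      have := Real.pi_lt_d2
      have := Real.pi_pos
      nlinarith [hs.1, hs.2]
  K := 1
  bd := fun t ht k hk => by
    have h1 : ∀ s : ℝ, ∫⁻ x in T, k (Mw 1 (eu (s * (1 - t))) x) = ∫⁻ x in T, k x :=
      fun s => rot_bd (norm_eu _) hk
    simp only [h1]
    simp

/-- The full turn. -/
noncomputable def famP : LinFam T (Measure.dirac ()) where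
  A := fun _ t => Mw 1 (eu t)
  B := fun _ t => Mw 0 ((2 * Real.pi : ℝ) * Complex.I * eu t)
  hA := fun _ t => hasDerivAt_Mw (hasDerivAt_eu t)
  contA := continuous_Mw.comp (continuous_const.prodMk (continuous_eu.comp continuous_snd))
  contB := continuous_Mw.comp (continuous_const.prodMk
    (continuous_const.mul (continuous_eu.comp continuous_snd)))
  map := Eventually.of_forall fun s t _ x hx => Mw_one_mem (norm_eu _) hx
  det := Eventually.of_forall fun s t _ => det_Mw (norm_eu _)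
  one := fun s => by
    ext z <;> simp
  M := 7
  hM := by
    refine Eventually.of_forall fun s t ht => ⟨?_, ?_⟩
    · apply norm_Mw_le (by simp)
      rw [norm_eu]; norm_num
    · apply norm_Mw_le (by simp)
      rw [norm_mul, norm_mul, norm_eu, Complex.norm_real,
        Complex.norm_I, Real.norm_of_nonneg (by positivity)]
      have := Real.pi_lt_d2
      nlinarith
  K := 1
  bd := fun t ht k hk => by
    have h1 : ∫⁻ x in T, k (Mw 1 (eu t) x) = ∫⁻ x in T, k x :=
      rot_bd (norm_eu _) hk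
    simp only [h1]
    simp

end Pool.Agent.Lib.MP_05a445_an
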