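import Pool.Agent.Lib.MP_05a445_an.Const
import Pool.Agent.Lib.MP_05a445_an.Rotation

/-!
The angular form of the base.
-/

set_option autoImplicit false
set_option linter.unusedSectionVars false

namespace Pool.Agent.Lib.MP_05a445_an

open MeasureTheory Set Filter Topology ContinuousAlternatingMap ContinuousLinearMap
open scoped ContDiff NNReal ENNReal

/-- The linear functional `v ↦ Im (w v_2)`, linear in `w`. -/
noncomputable def imL : ℂ →L[ℝ] (ℂ × ℂ →L[ℝ] ℝ) :=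
  ((ContinuousLinearMap.compL ℝ (ℂ × ℂ) ℂ ℝ) Complex.imCLM).comp
    (((ContinuousLinearMap.compL ℝ (ℂ × ℂ) ℂ ℂ).flip (ContinuousLinearMap.snd ℝ ℂ ℂ)).comp
      (ContinuousLinearMap.mul ℝ ℂ))

@[simp] lemma imL_apply (w : ℂ) (v : ℂ × ℂ) : imL w v = (w * v.2).im := rfl

lemma norm_imL_le (w : ℂ) : ‖imL w‖ ≤ ‖w‖ := by
  apply ContinuousLinearMap.opNorm_le_bound _ (norm_nonneg _)
  intro v
  rw [imL_apply, Real.norm_eq_abs]
  calc |(w * v.2).im| ≤ ‖w * v.2‖ := Complex.abs_im_le_norm _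
    _ = ‖w‖ * ‖v.2‖ := norm_mul _ _
    _ ≤ ‖w‖ * ‖v‖ := by gcongr; exact norm_snd_le v

/-- The angular form of the base, as a linear functional. -/
noncomputable def th (x : ℂ × ℂ) : ℂ × ℂ →L[ℝ] ℝ := imL (x.2)⁻¹

lemma th_apply (x v : ℂ × ℂ) : th x v = ((x.2)⁻¹ * v.2).im := rfl

lemma hasFDerivAt_th {x : ℂ × ℂ} (hx : x.2 ≠ 0) :
    ∃ D : ℂ × ℂ →L[ℝ] (ℂ × ℂ →L[ℝ] ℝ), HasFDerivAt th D x ∧
      ∀ v w, D v w = (-((x.2)⁻¹ * v.2 * (x.2)⁻¹) * w.2).im := by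
  have h1 : HasFDerivAt (fun x : ℂ × ℂ => (x.2)⁻¹)
      ((-(mulLeftRight ℝ ℂ (x.2)⁻¹ (x.2)⁻¹)).comp (ContinuousLinearMap.snd ℝ ℂ ℂ)) x :=
    (hasFDerivAt_inv' hx).comp x hasFDerivAt_snd
  refine ⟨imL.comp ((-(mulLeftRight ℝ ℂ (x.2)⁻¹ (x.2)⁻¹)).comp (ContinuousLinearMap.snd ℝ ℂ ℂ)),
    imL.hasFDerivAt.comp x h1, fun v w => ?_⟩
  simp

/-- The constant function one, as a form. -/
noncomputable def one0 : (ℂ × ℂ) [⋀^Fin 0]→L[ℝ] ℝ :=
  ContinuousAlternatingMap.constOfIsEmpty ℝ (ℂ × ℂ) (Fin 0) 1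

@[simp] lemma one0_apply (v : Fin 0 → ℂ × ℂ) : one0 v = 1 := rfl

lemma norm_one0 : ‖one0‖ ≤ 1 := by
  refine ContinuousAlternatingMap.opNorm_le_bound _ zero_le_one fun v => ?_
  simp

/-- The angular form of the base. -/
noncomputable def om (x : ℂ × ℂ) : (ℂ × ℂ) [⋀^Fin 1]→L[ℝ] ℝ := wdL (ℂ × ℂ) 0 (th x) one0

lemma om_apply (x : ℂ × ℂ) (v : Fin 1 → ℂ × ℂ) : om x v = th x (v 0) := by
  simp [om, wd_apply]

lemma extDeriv_om {x : ℂ × ℂ} (hx : x.2 ≠ 0) : extDeriv om x = 0 := by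
  obtain ⟨D, hD, hDa⟩ := hasFDerivAt_th hx
  have h1 : HasFDerivAt om (((wdL (ℂ × ℂ) 0).flip one0).comp D) x :=
    ((wdL (ℂ × ℂ) 0).flip one0).hasFDerivAt.comp x hD
  ext v
  rw [extDeriv, h1.fderiv, alternatizeUncurryFin_apply]
  change _ = (0 : ℝ)
  rw [← sum_wd_symm D (fun a b => by rw [hDa, hDa]; congr 1; ring) one0 v]
  refine Finset.sum_congr rfl fun k _ => ?_
  rw [zsmul_eq_mul]
  push_cast
  rfl

lemma contDiffOn_om : ContDiffOn ℝ ∞ om {x | x.2 ≠ 0} := by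
  have h1 : ContDiffOn ℝ ∞ (fun x : ℂ × ℂ => (x.2)⁻¹) {x | x.2 ≠ 0} :=
    contDiffOn_snd.inv fun x hx => hx
  have h2 : ContDiffOn ℝ ∞ th {x | x.2 ≠ 0} := imL.contDiff.comp_contDiffOn h1
  exact ((wdL (ℂ × ℂ) 0).flip one0).contDiff.comp_contDiffOn h2

lemma isOpen_snd_ne : IsOpen {x : ℂ × ℂ | x.2 ≠ 0} := isOpen_ne_fun continuous_snd continuous_const

lemma T_subset_ne : T ⊆ {x : ℂ × ℂ | x.2 ≠ 0} := fun _ hx => snd_ne hx

lemma sm_om : StronglyMeasurable om := by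
  have h1 : StronglyMeasurable (fun x : ℂ × ℂ => (x.2)⁻¹) :=
    (measurable_snd.inv).stronglyMeasurable
  exact (((wdL (ℂ × ℂ) 0).flip one0).comp imL).continuous.comp_stronglyMeasurable h1

lemma norm_om_le (x : ℂ × ℂ) : ‖om x‖ ≤ ‖x.2‖⁻¹ := by
  have h1 := norm_wd_le (th x) one0
  have h2 : ‖th x‖ ≤ ‖x.2‖⁻¹ := (norm_imL_le _).trans (norm_inv _).le
  calc ‖om x‖ ≤ ((0 : ℕ) + 1) * (‖th x‖ * ‖one0‖) := h1
    _ ≤ ((0 : ℕ) + 1) * (‖x.2‖⁻¹ * 1) := by gcongr; exact norm_one0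
    _ = _ := by simp

lemma lint_om : ∫⁻ x in T, ‖om x‖ₑ ^ 2 < ⊤ := by
  have h1 : ∫⁻ x in T, ‖om x‖ₑ ^ 2 ≤ ∫⁻ x in T, ENNReal.ofReal (‖x.2‖⁻¹) ^ 2 := by
    refine lintegral_mono fun x => ?_
    gcongr
    rw [← ofReal_norm]
    exact ENNReal.ofReal_le_ofReal (norm_om_le x)
  refine h1.trans_lt ?_
  rw [lintegral_T (by fun_prop)]
  have h2 : ∀ b : ℂ, ∫⁻ y : ℂ, T.indicator (fun x => ENNReal.ofReal (‖x.2‖⁻¹) ^ 2) (y, b) ≤
      (Metric.closedBall (0 : ℂ) 1).indicator (fun _ => (NNReal.pi : ℝ≥0∞)) b := by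
    intro b
    by_cases hb : ‖b‖ < 1
    · rw [indicator_of_mem (by simpa using hb.le)]
      calc ∫⁻ y : ℂ, T.indicator (fun x => ENNReal.ofReal (‖x.2‖⁻¹) ^ 2) (y, b)
          = ∫⁻ y : ℂ, {y : ℂ | ‖y‖ < ‖b‖}.indicator (fun _ => ENNReal.ofReal (‖b‖⁻¹) ^ 2) y := by
            refine lintegral_congr fun y => ?_
            by_cases hy : ‖y‖ < ‖b‖
            · rw [indicator_of_mem (show (y, b) ∈ T from ⟨hy, hb⟩),
                indicator_of_mem (show y ∈ {y : ℂ | ‖y‖ < ‖b‖} from hy)]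
            · rw [indicator_of_notMem (fun h => hy h.1),
                indicator_of_notMem (show y ∉ {y : ℂ | ‖y‖ < ‖b‖} from hy)]
        _ = ENNReal.ofReal (‖b‖⁻¹) ^ 2 * (ENNReal.ofReal ‖b‖ ^ 2 * NNReal.pi) := by
            rw [lintegral_indicator (measurableSet_lt measurable_norm measurable_const),
              setLIntegral_const, volume_slice]
        _ = (ENNReal.ofReal (‖b‖⁻¹ * ‖b‖)) ^ 2 * NNReal.pi := by
            rw [ENNReal.ofReal_mul (by positivity), mul_pow]; ring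
        _ ≤ 1 ^ 2 * NNReal.pi := by
            gcongr
            rw [← ENNReal.ofReal_one]
            exact ENNReal.ofReal_le_ofReal (inv_mul_le_one)
        _ = _ := by simp
    · have h3 : ∀ y : ℂ, T.indicator (fun x => ENNReal.ofReal (‖x.2‖⁻¹) ^ 2) (y, b) = 0 :=
        fun y => indicator_of_notMem (fun h => hb h.2) _
      simp [h3]
  refine (lintegral_mono h2).trans_lt ?_
  rw [lintegral_indicator Metric.isClosed_closedBall.measurableSet, setLIntegral_const]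
  exact ENNReal.mul_lt_top (by simp) measure_closedBall_lt_top

lemma closedOn_om : ClosedOn T om := by
  intro ψ hψ
  have h1 := integral_smul_extDeriv (μ := (volume : Measure (ℂ × ℂ))) isOpen_snd_ne
    hψ.contDiff_one hψ.compact (hψ.supp.trans T_subset_ne) (contDiffOn_om.of_le (by simp))
  have h2 : ∫ x, ψ x • extDeriv om x = 0 := by
    rw [integral_eq_zero_of_ae]
    refine Eventually.of_forall fun x => ?_
    by_cases hx : x ∈ tsupport ψ
    · simp only [Pi.zero_apply]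
      rw [extDeriv_om (snd_ne (hψ.supp hx)), smul_zero]
    · simp only [Pi.zero_apply]
      rw [image_eq_zero_of_notMem_tsupport hx, zero_smul]
  rw [h2] at h1
  rw [setIntegral_eq_integral_of_forall_compl_eq_zero, ← neg_eq_zero, ← h1]
  intro x hx
  have h3 : fderiv ℝ ψ x = 0 :=
    image_eq_zero_of_notMem_tsupport fun h => hx (hψ.supp (tsupport_fderiv_subset ℝ h))
  rw [h3, wd_zero_left]

end Pool.Agent.Lib.MP_05a445_an
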