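import Pool.Agent.Lib.MP_05a445_an.Out
import Pool.Agent.Lib.MP_05a445_an.Theta

/-!
Reduction of closed square integrable forms on the triangle to basic forms.
-/

set_option autoImplicit false
set_option linter.unusedSectionVars false

namespace Pool.Agent.Lib.MP_05a445_an

open MeasureTheory Set Filter Topology ContinuousAlternatingMap ContinuousLinearMap
open scoped ContDiff NNReal ENNReal

/-- The form factors through the second coordinate. -/
def IsBasic {q : ℕ} (g : (ℂ × ℂ) [⋀^Fin q]→L[ℝ] ℝ) : Prop :=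
  g.compContinuousLinearMap (Pc 0) = g

lemma isBasic_zero {q : ℕ} : IsBasic (0 : (ℂ × ℂ) [⋀^Fin q]→L[ℝ] ℝ) := by
  ext v; rfl

lemma isBasic_integral {X : Type*} [MeasurableSpace X] {μ : Measure X} {q : ℕ}
    {G : X → (ℂ × ℂ) [⋀^Fin q]→L[ℝ] ℝ} (h : ∀ x, IsBasic (G x)) : IsBasic (∫ x, G x ∂μ) := by
  by_cases hG : Integrable G μ
  · have h1 := ContinuousLinearMap.integral_comp_comm (cc (q := q) (Pc 0)) hG
    simp only [cc_apply] at h1
    unfold IsBasic
    rw [← h1]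
    exact integral_congr_ae (Eventually.of_forall fun x => h x)
  · rw [integral_undef hG]
    exact isBasic_zero

lemma IsBasic.eq_zero {q : ℕ} (hq : 3 ≤ q) {g : (ℂ × ℂ) [⋀^Fin q]→L[ℝ] ℝ} (h : IsBasic g) :
    g = 0 := by
  ext v
  rw [← h]
  change g (fun i => Pc 0 (v i)) = 0
  apply AlternatingMap.map_linearDependent (g.toAlternatingMap)
  intro hli
  have h1 : (fun i => Pc 0 (v i)) = (LinearMap.inr ℝ ℂ ℂ) ∘ (fun i => (v i).2) := by
    funext i
    simp
  rw [h1] at hli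
  have h2 := (LinearIndependent.of_comp _ hli).fintype_card_le_finrank
  rw [Fintype.card_fin, Complex.finrank_real_complex] at h2
  omega

lemma IsBasic.wedge {q : ℕ} {g : (ℂ × ℂ) [⋀^Fin q]→L[ℝ] ℝ} (h : IsBasic g)
    {l : ℂ × ℂ →L[ℝ] ℝ} (hl : l.comp (Pc 0) = l) : IsBasic (wd l g) := by
  ext v
  change wd l g (fun i => Pc 0 (v i)) = _
  rw [wd_apply, wd_apply]
  refine Finset.sum_congr rfl fun i _ => ?_
  have h1 : l (Pc 0 (v i)) = l (v i) := congrArg (fun m => m (v i)) hl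
  have h2 : g (i.removeNth (fun i => Pc 0 (v i))) = g (i.removeNth v) :=
    congrArg (fun m => m (i.removeNth v)) h
  rw [h1, h2]

lemma lb_comp (x : ℂ × ℂ) : (lb x).comp (Pc 0) = lb x := by
  ext v <;> simp [lb]

lemma isBasic_pb_Af {q : ℕ} (f : ℂ × ℂ → (ℂ × ℂ) [⋀^Fin q]→L[ℝ] ℝ) (c : ℂ) (x : ℂ × ℂ) :
    IsBasic (pb (Af c 0) f x) := by
  ext v
  change f (Af c 0 x) (fun i => Af c 0 (Pc 0 (v i))) = f (Af c 0 x) (fun i => Af c 0 (v i))
  congr 1
  funext i
  simp [Af_apply]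

lemma isBasic_pb_Mw {q : ℕ} {f : ℂ × ℂ → (ℂ × ℂ) [⋀^Fin q]→L[ℝ] ℝ} (hf : ∀ x, IsBasic (f x))
    (w : ℂ) (x : ℂ × ℂ) : IsBasic (pb (Mw 1 w) f x) := by
  ext v
  change f (Mw 1 w x) (fun i => Mw 1 w (Pc 0 (v i))) = f (Mw 1 w x) (fun i => Mw 1 w (v i))
  have h1 := congrArg (fun m => m (fun i => Mw 1 w (v i))) (hf (Mw 1 w x))
  rw [← show f (Mw 1 w x) (fun i => Pc 0 (Mw 1 w (v i))) =
    f (Mw 1 w x) (fun i => Mw 1 w (v i)) from h1]
  congr 1
  funext i
  simp

/-- Square integrable functions on the triangle, extended by zero. -/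
structure L2Form {E : Type*} [NormedAddCommGroup E] (f : ℂ × ℂ → E) : Prop where
  sm : StronglyMeasurable f
  off : ∀ x ∉ T, f x = 0
  l2 : ∫⁻ x in T, ‖f x‖ₑ ^ 2 < ⊤

section L2Form

variable {E : Type*} [NormedAddCommGroup E] {f g : ℂ × ℂ → E}

lemma L2Form.memLp (h : L2Form f) : MemLp f 2 (volume.restrict T) :=
  memLp_two_iff.2 ⟨h.sm.aestronglyMeasurable, h.l2⟩

lemma L2Form.integrableOn (h : L2Form f) : IntegrableOn f T :=
  h.memLp.integrable (by norm_num)

lemma L2Form.integrable (h : L2Form f) : Integrable f :=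
  integrable_of_zero_off measurableSet_T h.integrableOn h.off

lemma L2Form.l1 (h : L2Form f) : ∫⁻ x in T, ‖f x‖ₑ < ⊤ := h.integrableOn.2

lemma L2Form.l2' (h : L2Form f) : ∫⁻ x, ‖f x‖ₑ ^ 2 < ⊤ := by
  have h1 : ∫⁻ x in T, ‖f x‖ₑ ^ 2 = ∫⁻ x, ‖f x‖ₑ ^ 2 := by
    apply setLIntegral_eq_of_support_subset
    intro x hx
    by_contra hxT
    apply hx
    simp [h.off x hxT]
  rw [← h1]
  exact h.l2

lemma L2Form.of_memLp (hsm : StronglyMeasurable f) (h : MemLp f 2 (volume.restrict T)) :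
    L2Form (T.indicator f) where
  sm := hsm.indicator measurableSet_T
  off := fun x hx => indicator_of_notMem hx _
  l2 := by
    have h1 : ∫⁻ x in T, ‖T.indicator f x‖ₑ ^ 2 = ∫⁻ x in T, ‖f x‖ₑ ^ 2 :=
      setLIntegral_congr_fun measurableSet_T fun x hx => by
        change ‖T.indicator f x‖ₑ ^ 2 = ‖f x‖ₑ ^ 2
        rw [indicator_of_mem hx]
    rw [h1]
    exact (memLp_two_iff.1 h).2

lemma L2Form.of_memLp' (hsm : StronglyMeasurable f) (h0 : ∀ x ∉ T, f x = 0)
    (h : MemLp f 2 (volume.restrict T)) : L2Form f where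
  sm := hsm
  off := h0
  l2 := (memLp_two_iff.1 h).2

lemma L2Form.add (hf : L2Form f) (hg : L2Form g) : L2Form (fun x => f x + g x) :=
  .of_memLp' (hf.sm.add hg.sm) (fun x hx => by rw [hf.off x hx, hg.off x hx, add_zero])
    (hf.memLp.add hg.memLp)

lemma L2Form.sub (hf : L2Form f) (hg : L2Form g) : L2Form (fun x => f x - g x) :=
  .of_memLp' (hf.sm.sub hg.sm) (fun x hx => by rw [hf.off x hx, hg.off x hx, sub_zero])
    (hf.memLp.sub hg.memLp)

lemma L2Form.smul [NormedSpace ℝ E] (c : ℝ) (hf : L2Form f) : L2Form (fun x => c • f x) :=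
  .of_memLp' (hf.sm.const_smul c) (fun x hx => by rw [hf.off x hx, smul_zero])
    (hf.memLp.const_smul c)

end L2Form

section weak

variable {V : Type*} [NormedAddCommGroup V] [NormedSpace ℝ V] [FiniteDimensional ℝ V]
  [MeasureSpace V] [BorelSpace V] [(volume : Measure V).IsAddHaarMeasure]

/-- `g` is the weak exterior derivative of `u` on `O`. -/
def WD {q : ℕ} (O : Set V) (u : V → V [⋀^Fin q]→L[ℝ] ℝ) (g : V → V [⋀^Fin (q + 1)]→L[ℝ] ℝ) :
    Prop :=
  ∀ ψ : V → ℝ, IsTest O ψ → ∫ x in O, ψ x • g x = - ∫ x in O, wd (fderiv ℝ ψ x) (u x)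

variable {q : ℕ} {O : Set V} {u u' : V → V [⋀^Fin q]→L[ℝ] ℝ}
  {g g' : V → V [⋀^Fin (q + 1)]→L[ℝ] ℝ}

lemma WD.congr (h : WD O u g) (hu : ∀ᵐ x ∂(volume.restrict O), u x = u' x)
    (hg : ∀ᵐ x ∂(volume.restrict O), g x = g' x) : WD O u' g' := by
  intro ψ hψ
  have h1 := h ψ hψ
  have e1 : ∫ x in O, ψ x • g x = ∫ x in O, ψ x • g' x := by
    apply integral_congr_ae
    filter_upwards [hg] with x hx
    rw [hx]
  have e2 : ∫ x in O, wd (fderiv ℝ ψ x) (u x) = ∫ x in O, wd (fderiv ℝ ψ x) (u' x) := by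
    apply integral_congr_ae
    filter_upwards [hu] with x hx
    rw [hx]
  rw [← e1, ← e2]
  exact h1

lemma ClosedOn.congr (h : ClosedOn O u) (hu : ∀ᵐ x ∂(volume.restrict O), u x = u' x) :
    ClosedOn O u' := by
  intro ψ hψ
  rw [← h ψ hψ]
  apply integral_congr_ae
  filter_upwards [hu] with x hx
  rw [hx]

lemma WD.add (h : WD O u g) (h' : WD O u' g') (hu : IntegrableOn u O) (hu' : IntegrableOn u' O)
    (hg : IntegrableOn g O) (hg' : IntegrableOn g' O) :
    WD O (fun x => u x + u' x) (fun x => g x + g' x) := by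
  intro ψ hψ
  have hψ1 := hψ.contDiff_one
  simp_rw [smul_add, wd_add_right]
  rw [integral_add (integrable_test_smul hg hψ1 hψ.compact)
    (integrable_test_smul hg' hψ1 hψ.compact),
    integral_add (integrable_test_wd hu hψ1 hψ.compact)
    (integrable_test_wd hu' hψ1 hψ.compact), h ψ hψ, h' ψ hψ]
  abel

lemma ClosedOn.add (h : ClosedOn O u) (h' : ClosedOn O u') (hu : IntegrableOn u O)
    (hu' : IntegrableOn u' O) : ClosedOn O (fun x => u x + u' x) := by
  intro ψ hψ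
  have hψ1 := hψ.contDiff_one
  simp_rw [wd_add_right]
  rw [integral_add (integrable_test_wd hu hψ1 hψ.compact)
    (integrable_test_wd hu' hψ1 hψ.compact), h ψ hψ, h' ψ hψ, add_zero]

lemma ClosedOn.smul (h : ClosedOn O u) (c : ℝ) : ClosedOn O (fun x => c • u x) := by
  intro ψ hψ
  simp_rw [wd_smul_right]
  rw [integral_smul, h ψ hψ, smul_zero]

lemma ClosedOn.sub (h : ClosedOn O u) (h' : ClosedOn O u') (hu : IntegrableOn u O)
    (hu' : IntegrableOn u' O) : ClosedOn O (fun x => u x - u' x) := by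
  intro ψ hψ
  have hψ1 := hψ.contDiff_one
  simp_rw [wd_sub_right]
  rw [integral_sub (integrable_test_wd hu hψ1 hψ.compact)
    (integrable_test_wd hu' hψ1 hψ.compact), h ψ hψ, h' ψ hψ, sub_zero]

end weak

end Pool.Agent.Lib.MP_05a445_an
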