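import Pool.Agent.Lib.MP_05a445_an.AvgMain

/-!
Forms with a weak primitive are weakly closed; weakly closed functions are locally constant.
-/

set_option autoImplicit false
set_option linter.unusedSectionVars false

namespace Pool.Agent.Lib.MP_05a445_an

open MeasureTheory Set Filter Topology ContinuousAlternatingMap ContinuousLinearMap
open scoped ContDiff NNReal ENNReal

section alg

variable {V : Type*} [NormedAddCommGroup V] [NormedSpace ℝ V]

lemma sum_wd_symm {q : ℕ} (D : V →L[ℝ] V →L[ℝ] ℝ) (hD : ∀ v w, D v w = D w v)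
    (u : V [⋀^Fin q]→L[ℝ] ℝ) (v : Fin (q + 2) → V) :
    ∑ k : Fin (q + 2), (-1 : ℝ) ^ (k : ℕ) * wd (D (v k)) u (k.removeNth v) = 0 := by
  have h := alternatizeUncurryFin_alternatizeUncurryFinCLM_comp_of_symmetric
    (f := (((ContinuousLinearMap.smulRightL ℝ V (V [⋀^Fin q]→L[ℝ] ℝ)).flip u).comp D))
    (fun x y => by
      change D x y • u = D y x • u
      rw [hD x y])
  have h2 : _ = (0 : ℝ) := congrArg (fun g => g v) h
  rw [← h2, alternatizeUncurryFin_apply]
  refine Finset.sum_congr rfl fun k _ => ?_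
  rw [zsmul_eq_mul]
  push_cast
  rfl

end alg

variable {V : Type*} [NormedAddCommGroup V] [NormedSpace ℝ V] [FiniteDimensional ℝ V]
  [MeasureSpace V] [BorelSpace V] [(volume : Measure V).IsAddHaarMeasure]

lemma IsTest.contDiff_one {O : Set V} {ψ : V → ℝ} (h : IsTest O ψ) : ContDiff ℝ 1 ψ :=
  h.smooth.of_le (by simp)

lemma IsTest.deriv {O : Set V} {ψ : V → ℝ} (h : IsTest O ψ) (v : V) :
    IsTest O (fun x => fderiv ℝ ψ x v) where
  smooth := (h.smooth.fderiv_right (m := ∞) (by simp)).clm_apply contDiff_const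
  compact := h.compact.fderiv_apply (𝕜 := ℝ) v
  supp := by
    refine (closure_mono fun y hy => ?_).trans ((tsupport_fderiv_subset ℝ).trans h.supp)
    simp only [Function.mem_support] at hy ⊢
    intro h
    exact hy (by rw [h]; rfl)

lemma IsTest.mono {O O' : Set V} {ψ : V → ℝ} (h : IsTest O ψ) (hO : O ⊆ O') : IsTest O' ψ :=
  ⟨h.smooth, h.compact, h.supp.trans hO⟩

lemma integrable_test_smul {F : Type*} [NormedAddCommGroup F] [NormedSpace ℝ F]
    {μ : Measure V} {g : V → F} (hg : Integrable g μ)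
    {ψ : V → ℝ} (hψ : ContDiff ℝ 1 ψ) (hc : HasCompactSupport ψ) :
    Integrable (fun x => ψ x • g x) μ := by
  obtain ⟨C, hC0, hC⟩ := exists_bound hψ hc
  apply (hg.norm.const_mul C).mono' (hψ.continuous.aestronglyMeasurable.smul
    hg.aestronglyMeasurable)
  refine Eventually.of_forall fun x => ?_
  change ‖ψ x • g x‖ ≤ _
  rw [norm_smul, Real.norm_eq_abs]
  gcongr
  exact (hC x).1

lemma integrable_test_wd {q : ℕ} {μ : Measure V} {u : V → V [⋀^Fin q]→L[ℝ] ℝ}
    (hu : Integrable u μ)
    {ψ : V → ℝ} (hψ : ContDiff ℝ 1 ψ) (hc : HasCompactSupport ψ) :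
    Integrable (fun x => wd (fderiv ℝ ψ x) (u x)) μ := by
  obtain ⟨C, hC0, hC⟩ := exists_bound hψ hc
  apply (hu.norm.const_mul ((q + 1) * C)).mono' (aesm_wd hψ hu.aestronglyMeasurable)
  refine Eventually.of_forall fun x => ?_
  refine (norm_wd_le _ _).trans ?_
  rw [mul_assoc]
  gcongr
  exact (hC x).2.1

/-- A form with a weak primitive is weakly closed. -/
lemma closedOn_of_primitive {q : ℕ} {O : Set V} {u : V → V [⋀^Fin q]→L[ℝ] ℝ}
    {g : V → V [⋀^Fin (q + 1)]→L[ℝ] ℝ}
    (hu : IntegrableOn u O) (hg : IntegrableOn g O)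
    (h : ∀ ψ, IsTest O ψ → ∫ x in O, ψ x • g x = - ∫ x in O, wd (fderiv ℝ ψ x) (u x)) :
    ClosedOn O g := by
  intro ψ hψ
  ext v
  have hψ1 := hψ.contDiff_one
  rw [integral_form_apply (integrable_test_wd hg hψ1 hψ.compact)]
  change _ = (0 : ℝ)
  simp only [wd_apply]
  have hi1 : ∀ k : Fin (q + 2), Integrable (fun x => fderiv ℝ ψ x (v k) • g x)
      (volume.restrict O) := fun k =>
    integrable_test_smul hg (hψ.deriv (v k)).contDiff_one (hψ.deriv (v k)).compact
  have hi2 : ∀ k : Fin (q + 2), Integrable (fun x =>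
      wd (fderiv ℝ (fun y => fderiv ℝ ψ y (v k)) x) (u x)) (volume.restrict O) := fun k =>
    integrable_test_wd hu (hψ.deriv (v k)).contDiff_one (hψ.deriv (v k)).compact
  have hk : ∀ k : Fin (q + 2), ∫ x in O, fderiv ℝ ψ x (v k) * g x (k.removeNth v) =
      - ∫ x in O, wd (fderiv ℝ (fun y => fderiv ℝ ψ y (v k)) x) (u x) (k.removeNth v) := by
    intro k
    have h1 := congrArg (fun G => G (k.removeNth v)) (h _ (hψ.deriv (v k)))
    simp only [ContinuousAlternatingMap.neg_apply] at h1
    rw [integral_form_apply (hi1 k), integral_form_apply (hi2 k)] at h1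
    exact h1
  rw [integral_finsetSum]
  · simp_rw [integral_const_mul, hk, mul_neg, ← integral_const_mul]
    rw [Finset.sum_neg_distrib, ← integral_finsetSum]
    · have h0 : ∀ x, ∑ k : Fin (q + 2), (-1 : ℝ) ^ (k : ℕ) *
          wd (fderiv ℝ (fun y => fderiv ℝ ψ y (v k)) x) (u x) (k.removeNth v) = 0 := by
        intro x
        have hd : DifferentiableAt ℝ (fderiv ℝ ψ) x :=
          (hψ.smooth.fderiv_right (m := ∞) (by simp)).differentiable (by simp) x
        have hsymm : IsSymmSndFDerivAt ℝ ψ x :=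
          (hψ.smooth.of_le (m := 2) ENat.LEInfty.out).contDiffAt.isSymmSndFDerivAt
            (by simp)
        have h1 : ∀ k, fderiv ℝ (fun y => fderiv ℝ ψ y (v k)) x =
            fderiv ℝ (fderiv ℝ ψ) x (v k) := by
          intro k
          ext w
          rw [fderiv_clm_apply hd (differentiableAt_const _)]
          simp only [fderiv_fun_const, Pi.zero_apply, _root_.add_apply,
            ContinuousLinearMap.flip_apply, ContinuousLinearMap.comp_apply,
            _root_.zero_apply, ContinuousLinearMap.map_zero, zero_add]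
          exact hsymm _ _
        simp_rw [h1]
        exact sum_wd_symm _ (fun a b => hsymm a b) _ _
      simp [h0]
    · intro k _
      exact ((ev (k.removeNth v)).integrable_comp (hi2 k)).const_mul _
  · intro k _
    exact ((ev (k.removeNth v)).integrable_comp (hi1 k)).const_mul _

end Pool.Agent.Lib.MP_05a445_an
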