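import Pool.Agent.Lib.MP_05a445_an.Defs

/-!
Abstract Hodge theory for a pair of closed linear relations between Hilbert spaces.
-/

set_option autoImplicit false
set_option linter.unusedSectionVars false

namespace Pool.Agent.Lib.MP_05a445_an

open Set Filter Topology

section adj

variable {H K : Type*} [NormedAddCommGroup H] [InnerProductSpace ℝ H] [CompleteSpace H]
  [NormedAddCommGroup K] [InnerProductSpace ℝ K] [CompleteSpace K]

/-- Solution of the adjoint equation, for a closed relation with closed range. -/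
theorem adj_solve (G : Submodule ℝ (H × K)) (hG : IsClosed (G : Set (H × K)))
    (hR : IsClosed {r : K | ∃ v, (v, r) ∈ G}) {f : H}
    (hf : ∀ v, (v, (0 : K)) ∈ G → inner ℝ v f = 0) :
    ∃ g : K, (∃ v, (v, g) ∈ G) ∧ ∀ v v', (v, v') ∈ G → inner ℝ v' g = inner ℝ v f := by
  set R : Submodule ℝ K := G.map (LinearMap.snd ℝ H K) with hRdef
  have hRset : (R : Set K) = {r : K | ∃ v, (v, r) ∈ G} := by
    ext r
    simp [hRdef]
  have hRc : IsClosed (R : Set K) := by rw [hRset]; exact hR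
  have : CompleteSpace G := hG.completeSpace_coe
  have : CompleteSpace R := hRc.completeSpace_coe
  set T : G →L[ℝ] R := ((ContinuousLinearMap.snd ℝ H K).comp G.subtypeL).codRestrict R
    (fun p => ⟨p, p.2, rfl⟩) with hT
  have hTs : Function.Surjective T := by
    rintro ⟨r, ⟨p, hp, hpr⟩⟩
    exact ⟨⟨p, hp⟩, Subtype.ext hpr⟩
  obtain ⟨C, hC0, hC⟩ := T.exists_preimage_norm_le hTs
  choose s hs hsn using hC
  have key : ∀ p : G, ∀ r : R, T p = r → inner ℝ (p : H × K).1 f = inner ℝ (s r : H × K).1 f := by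
    intro p r hp
    have h1 : T (p - s r) = 0 := by rw [map_sub, hp, hs, sub_self]
    have h2 : ((p - s r : G) : H × K).2 = 0 := congrArg (fun y : R => (y : K)) h1
    have h3 : (((p - s r : G) : H × K).1, (0 : K)) ∈ G := by
      rw [← h2]
      exact (p - s r).2
    have h4 := hf _ h3
    have h5 : ((p - s r : G) : H × K).1 = (p : H × K).1 - (s r : H × K).1 := rfl
    rw [h5, inner_sub_left] at h4
    linarith
  set φl : R →ₗ[ℝ] ℝ :=
    { toFun := fun r => inner ℝ (s r : H × K).1 f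
      map_add' := fun r r' => by
        rw [← key (s r + s r') (r + r') (by rw [map_add, hs, hs]), ← inner_add_left]
        rfl
      map_smul' := fun c r => by
        rw [← key (c • s r) (c • r) (by rw [map_smul, hs])]
        have h1 : ((c • s r : G) : H × K).1 = c • (s r : H × K).1 := rfl
        rw [h1, real_inner_smul_left]
        rfl } with hφl
  set φ : StrongDual ℝ R := φl.mkContinuous (C * ‖f‖) (fun r => by
    change ‖inner ℝ (s r : H × K).1 f‖ ≤ _
    calc ‖inner ℝ (s r : H × K).1 f‖ ≤ ‖(s r : H × K).1‖ * ‖f‖ := norm_inner_le_norm _ _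
      _ ≤ ‖s r‖ * ‖f‖ := by gcongr; exact norm_fst_le _
      _ ≤ (C * ‖r‖) * ‖f‖ := by gcongr; exact hsn r
      _ = _ := by ring) with hφ
  set g : R := (InnerProductSpace.toDual ℝ R).symm φ with hg
  refine ⟨g, ?_, ?_⟩
  · have h1 : (g : K) ∈ {r : K | ∃ v, (v, r) ∈ G} := by rw [← hRset]; exact g.2
    exact h1
  · intro v v' hv
    have hv' : v' ∈ R := ⟨(v, v'), hv, rfl⟩
    have h1 : inner ℝ g (⟨v', hv'⟩ : R) = φ ⟨v', hv'⟩ := InnerProductSpace.toDual_symm_apply
    have h2 : inner ℝ (g : K) v' = inner ℝ (s ⟨v', hv'⟩ : H × K).1 f := h1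
    rw [real_inner_comm, h2, ← key ⟨(v, v'), hv⟩ ⟨v', hv'⟩ rfl]

end adj

section hodge

variable {H0 H1 H2 : Type*} [NormedAddCommGroup H0] [InnerProductSpace ℝ H0] [CompleteSpace H0]
  [NormedAddCommGroup H1] [InnerProductSpace ℝ H1] [CompleteSpace H1]
  [NormedAddCommGroup H2] [InnerProductSpace ℝ H2] [CompleteSpace H2]

/-- The relation of a submodule. -/
def rel {H K : Type*} [AddCommGroup H] [Module ℝ H] [AddCommGroup K] [Module ℝ K]
    (G : Submodule ℝ (H × K)) (v : H) (v' : K) : Prop := (v, v') ∈ G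

/-- The abstract Laplacian, as a relation. -/
def lapRel (D0 : H0 → H1 → Prop) (D1 : H1 → H2 → Prop) (u f : H1) : Prop :=
  ∃ (v : H2) (a : H1) (w : H0) (b : H1), D1 u v ∧ IsAdj D1 v a ∧ IsAdj D0 u w ∧ D0 w b ∧ f = a + b

lemma lap_zero_iff (G0 : Submodule ℝ (H0 × H1)) (G1 : Submodule ℝ (H1 × H2)) (u : H1) :
    lapRel (rel G0) (rel G1) u 0 ↔ (u, (0 : H2)) ∈ G1 ∧ IsAdj (rel G0) u 0 := by
  constructor
  · rintro ⟨v, a, w, b, h1, h2, h3, h4, h5⟩
    have e1 : inner ℝ v v = inner ℝ u a := h2 u v h1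
    have e2 : inner ℝ b u = inner ℝ w w := h3 w b h4
    have e3 : inner ℝ u a + inner ℝ u b = 0 := by
      rw [← inner_add_right, ← h5, inner_zero_right]
    rw [real_inner_comm] at e2
    rw [real_inner_self_eq_norm_sq] at e1 e2
    have e4 : ‖v‖ ^ 2 + ‖w‖ ^ 2 = 0 := by linarith
    have hv : v = 0 := by
      have : ‖v‖ ^ 2 = 0 := by nlinarith [sq_nonneg ‖v‖, sq_nonneg ‖w‖]
      exact norm_eq_zero.1 (pow_eq_zero_iff (two_ne_zero) |>.1 this)
    have hw : w = 0 := by
      have : ‖w‖ ^ 2 = 0 := by nlinarith [sq_nonneg ‖v‖, sq_nonneg ‖w‖]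
      exact norm_eq_zero.1 (pow_eq_zero_iff (two_ne_zero) |>.1 this)
    subst hv hw
    exact ⟨h1, h3⟩
  · rintro ⟨h1, h2⟩
    exact ⟨0, 0, 0, 0, h1, fun v v' _ => by simp, h2, G0.zero_mem, by simp⟩

/-- The range of the Laplacian is the orthogonal complement of its kernel. -/
theorem lap_range (G0 : Submodule ℝ (H0 × H1)) (G1 : Submodule ℝ (H1 × H2))
    (hG0 : IsClosed (G0 : Set (H0 × H1))) (hG1 : IsClosed (G1 : Set (H1 × H2)))
    (hR0 : IsClosed {r : H1 | ∃ v, (v, r) ∈ G0}) (hR1 : IsClosed {r : H2 | ∃ v, (v, r) ∈ G1})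
    (hdd : ∀ v v', (v, v') ∈ G0 → (v', (0 : H2)) ∈ G1) :
    {f : H1 | ∃ u, lapRel (rel G0) (rel G1) u f} =
      {f : H1 | ∀ h, lapRel (rel G0) (rel G1) h 0 → inner ℝ h f = 0} := by
  ext f
  constructor
  · rintro ⟨u, v, a, w, b, h1, h2, h3, h4, h5⟩ h hh
    obtain ⟨hh1, hh2⟩ := (lap_zero_iff G0 G1 h).1 hh
    have e1 : inner ℝ (0 : H2) v = inner ℝ h a := h2 h 0 hh1
    have e2 : inner ℝ b h = inner ℝ w (0 : H0) := hh2 w b h4
    rw [h5, inner_add_right, ← e1, real_inner_comm b h, e2, inner_zero_left, inner_zero_right,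
      add_zero]
  · intro hf
    -- the closed subspaces
    set N1 : Submodule ℝ H1 := G1.comap (LinearMap.inl ℝ H1 H2) with hN1
    set N0 : Submodule ℝ H0 := G0.comap (LinearMap.inl ℝ H0 H1) with hN0
    set R0 : Submodule ℝ H1 := G0.map (LinearMap.snd ℝ H0 H1) with hR0def
    have hN1c : IsClosed (N1 : Set H1) :=
      hG1.preimage (ContinuousLinearMap.inl ℝ H1 H2).continuous
    have hN0c : IsClosed (N0 : Set H0) :=
      hG0.preimage (ContinuousLinearMap.inl ℝ H0 H1).continuous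
    have hR0set : (R0 : Set H1) = {r : H1 | ∃ v, (v, r) ∈ G0} := by
      ext r
      simp [hR0def]
    have hR0c : IsClosed (R0 : Set H1) := by rw [hR0set]; exact hR0
    have : CompleteSpace N1 := hN1c.completeSpace_coe
    have : CompleteSpace N0 := hN0c.completeSpace_coe
    have : CompleteSpace R0 := hR0c.completeSpace_coe
    have hRN : R0 ≤ N1 := by
      rintro _ ⟨p, hp, rfl⟩
      exact hdd p.1 p.2 hp
    have hperpR : ∀ z : H1, z ∈ R0ᗮ → IsAdj (rel G0) z 0 := by
      intro z hz v v' hv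
      rw [inner_zero_right]
      exact (Submodule.mem_orthogonal R0 z).1 hz v' ⟨(v, v'), hv, rfl⟩
    have hperpN : ∀ z : H1, z ∈ N1ᗮ → z ∈ R0ᗮ := fun z hz => Submodule.orthogonal_le hRN hz
    -- decomposition of `f`
    set f1 : H1 := R0.starProjection f with hf1
    set f3 : H1 := f - N1.starProjection f with hf3
    have hf1R : f1 ∈ R0 := Submodule.starProjection_apply_mem _ _
    have hf3N : f3 ∈ N1ᗮ := Submodule.sub_starProjection_mem_orthogonal _
    set f2 : H1 := f - f1 - f3 with hf2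
    have hf2N : f2 ∈ N1 := by
      have : f2 = N1.starProjection f - f1 := by rw [hf2, hf3]; abel
      rw [this]
      exact N1.sub_mem (Submodule.starProjection_apply_mem _ _) (hRN hf1R)
    have hf2R : f2 ∈ R0ᗮ := by
      have h1 : f - f1 ∈ R0ᗮ := Submodule.sub_starProjection_mem_orthogonal _
      exact R0ᗮ.sub_mem h1 (hperpN f3 hf3N)
    have hf2h : lapRel (rel G0) (rel G1) f2 0 :=
      (lap_zero_iff G0 G1 f2).2 ⟨hf2N, hperpR f2 hf2R⟩
    have hf20 : f2 = 0 := by
      have e1 : inner ℝ f2 f = 0 := hf f2 hf2h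
      have e2 : inner ℝ f2 f1 = 0 := by
        rw [real_inner_comm]
        exact (Submodule.mem_orthogonal R0 f2).1 hf2R f1 hf1R
      have e3 : inner ℝ f2 f3 = 0 := (Submodule.mem_orthogonal N1 f3).1 hf3N f2 hf2N
      have e4 : inner ℝ f2 f2 = 0 := by
        conv_lhs => rw [hf2]
        rw [← hf2, inner_sub_right, inner_sub_right, e1, e2, e3]
        ring
      exact inner_self_eq_zero.1 e4
    have hfsum : f = f3 + f1 := by
      have : f = f1 + f2 + f3 := by rw [hf2]; abel
      rw [this, hf20]; abel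
    -- the part orthogonal to the kernel
    obtain ⟨g3, ⟨u3', hu3'⟩, hg3⟩ := adj_solve G1 hG1 hR1 (f := f3) (fun v hv =>
      (Submodule.mem_orthogonal N1 f3).1 hf3N v hv)
    set u3 : H1 := u3' - N1.starProjection u3' with hu3
    have hu3N : u3 ∈ N1ᗮ := Submodule.sub_starProjection_mem_orthogonal _
    have hu3G : (u3, g3) ∈ G1 := by
      have h1 : (N1.starProjection u3', (0 : H2)) ∈ G1 :=
        (Submodule.starProjection_apply_mem N1 u3' : _)
      have h2 := G1.sub_mem hu3' h1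
      simpa using h2
    -- the exact part
    obtain ⟨w', hw'⟩ : ∃ w', (w', f1) ∈ G0 := by
      have : f1 ∈ (R0 : Set H1) := hf1R
      rw [hR0set] at this
      exact this
    set w : H0 := w' - N0.starProjection w' with hw
    have hwN : w ∈ N0ᗮ := Submodule.sub_starProjection_mem_orthogonal _
    have hwG : (w, f1) ∈ G0 := by
      have h1 : (N0.starProjection w', (0 : H1)) ∈ G0 :=
        (Submodule.starProjection_apply_mem N0 w' : _)
      have h2 := G0.sub_mem hw' h1
      simpa using h2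
    obtain ⟨u1, ⟨z, hz⟩, hu1⟩ := adj_solve G0 hG0 hR0 (f := w) (fun v hv =>
      (Submodule.mem_orthogonal N0 w).1 hwN v hv)
    have hu1N : (u1, (0 : H2)) ∈ G1 := hdd z u1 hz
    refine ⟨u3 + u1, g3, f3, w, f1, ?_, ?_, ?_, hwG, hfsum⟩
    · have h9 := G1.add_mem hu3G hu1N
      rw [Prod.mk_add_mk, add_zero] at h9
      exact h9
    · exact fun v v' hv => hg3 v v' hv
    · intro v v' hv
      rw [inner_add_right, hperpR u3 (hperpN u3 hu3N) v v' hv, hu1 v v' hv, inner_zero_right,
        zero_add]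

end hodge

end Pool.Agent.Lib.MP_05a445_an
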