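import Pool.Agent.Lib.MP_05a445_an.Solve
import Pool.Agent.Lib.MP_05a445_an.Hilbert

/-!
Coefficients of forms in the standard basis.
-/

set_option autoImplicit false
set_option linter.unusedSectionVars false

namespace Pool.Agent.Lib.MP_05a445_an

open MeasureTheory Set Filter Topology
open scoped ContDiff NNReal ENNReal

/-- Coordinates. -/
noncomputable def bbE : (ℂ × ℂ) ≃ₗ[ℝ] (Fin 4 → ℝ) where
  toFun z := ![z.1.re, z.1.im, z.2.re, z.2.im]
  map_add' z w := by
    ext i; fin_cases i <;> simp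
  map_smul' c z := by
    ext i; fin_cases i <;> simp
  invFun c := (⟨c 0, c 1⟩, ⟨c 2, c 3⟩)
  left_inv z := by simp
  right_inv c := by
    ext i; fin_cases i <;> simp

/-- The same basis, as a basis. -/
noncomputable def bb : Module.Basis (Fin 4) ℝ (ℂ × ℂ) := Module.Basis.ofEquivFun bbE

lemma bbE_symm (c : Fin 4 → ℝ) : bbE.symm c = ((⟨c 0, c 1⟩ : ℂ), (⟨c 2, c 3⟩ : ℂ)) := rfl

lemma bb_apply (i : Fin 4) : bb i = e i := by
  rw [bb, Module.Basis.coe_ofEquivFun]
  change bbE.symm (Pi.single i 1) = e i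
  rw [bbE_symm]
  fin_cases i <;> simp [e, Complex.ext_iff]

/-- The coefficients of a form. -/
noncomputable def cf (q : ℕ) : ((ℂ × ℂ) [⋀^Fin q]→L[ℝ] ℝ) →L[ℝ] Co q :=
  (EuclideanSpace.equiv (Fin q ↪o Fin 4) ℝ).symm.toContinuousLinearMap.comp
    (ContinuousLinearMap.pi fun I => ev (fun i => e (I i)))

@[simp] lemma cf_apply (q : ℕ) (g : (ℂ × ℂ) [⋀^Fin q]→L[ℝ] ℝ) (I : Fin q ↪o Fin 4) :
    cf q g I = g (fun i => e (I i)) := rfl

lemma cf_injective {q : ℕ} {g : (ℂ × ℂ) [⋀^Fin q]→L[ℝ] ℝ} (h : cf q g = 0) : g = 0 := by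
  apply ContinuousAlternatingMap.toAlternatingMap_injective
  apply bb.ext_alternating
  intro v hv
  simp only [bb_apply]
  set σ := Tuple.sort v with hσ
  have hm : StrictMono (v ∘ σ) :=
    (Tuple.monotone_sort v).strictMono_of_injective (hv.comp σ.injective)
  have h1 : g (fun i => e ((v ∘ σ) i)) = 0 := by
    have := congrArg (fun c : Co q => c (OrderEmbedding.ofStrictMono (v ∘ σ) hm)) h
    simpa using this
  have h2 := g.toAlternatingMap.map_perm (fun i => e (v i)) σ
  have h3 : g.toAlternatingMap ((fun i => e (v i)) ∘ σ) = 0 := h1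
  rw [h3] at h2
  change g (fun i => e (v i)) = 0
  have h4 : (Equiv.Perm.sign σ) • g.toAlternatingMap (fun i => e (v i)) = 0 := h2.symm
  rcases Int.units_eq_one_or (Equiv.Perm.sign σ) with h5 | h5
  · rw [h5, one_smul] at h4
    exact h4
  · rw [h5] at h4
    simpa using h4

/-- The basic form of a multiindex. -/
noncomputable def dx {q : ℕ} (I : Fin q ↪o Fin 4) : (ℂ × ℂ) [⋀^Fin q]→L[ℝ] ℝ :=
  { (Matrix.detRowAlternating (n := Fin q) (R := ℝ)).compLinearMap
      (LinearMap.pi fun i => bb.coord (I i)) with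
    cont := by
      change Continuous (fun v : Fin q → ℂ × ℂ =>
        (Matrix.of fun j i => bb.coord (I i) (v j)).det)
      apply Continuous.matrix_det
      refine continuous_pi fun j => continuous_pi fun i => ?_
      exact (LinearMap.continuous_of_finiteDimensional (bb.coord (I i))).comp
        (continuous_apply j) }

lemma dx_apply {q : ℕ} (I : Fin q ↪o Fin 4) (v : Fin q → ℂ × ℂ) :
    dx I v = (Matrix.of fun j i => bb.coord (I i) (v j)).det := rfl

lemma dx_self {q : ℕ} (I : Fin q ↪o Fin 4) : dx I (fun i => e (I i)) = 1 := by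
  rw [dx_apply]
  have h1 : (Matrix.of fun j i => bb.coord (I i) (e (I j))) = (1 : Matrix (Fin q) (Fin q) ℝ) := by
    ext j i
    rw [Matrix.of_apply, ← bb_apply, Module.Basis.coord_apply, Module.Basis.repr_self,
      Matrix.one_apply, Finsupp.single_apply]
    simp [I.injective.eq_iff]
  rw [h1, Matrix.det_one]

lemma exists_notMem {q : ℕ} {I J : Fin q ↪o Fin 4} (h : I ≠ J) : ∃ i, ∀ j, J j ≠ I i := by
  by_contra hcon
  push Not at hcon
  apply h
  have h1 : Finset.univ.image I ⊆ Finset.univ.image J := by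
    intro x hx
    obtain ⟨i, -, rfl⟩ := Finset.mem_image.1 hx
    obtain ⟨j, hj⟩ := hcon i
    exact Finset.mem_image.2 ⟨j, Finset.mem_univ _, hj⟩
  have h2 : Finset.univ.image I = Finset.univ.image J := by
    apply Finset.eq_of_subset_of_card_le h1
    rw [Finset.card_image_of_injective _ I.injective, Finset.card_image_of_injective _ J.injective]
  have h3 : range I = range J := by
    have := congrArg (fun s : Finset (Fin 4) => (s : Set (Fin 4))) h2
    simpa using this
  exact OrderEmbedding.range_inj.1 h3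

lemma dx_ne {q : ℕ} {I J : Fin q ↪o Fin 4} (h : I ≠ J) : dx I (fun i => e (J i)) = 0 := by
  obtain ⟨i, hi⟩ := exists_notMem h
  rw [dx_apply]
  apply Matrix.det_eq_zero_of_column_eq_zero i
  intro j
  rw [Matrix.of_apply, ← bb_apply, Module.Basis.coord_apply, Module.Basis.repr_self,
    Finsupp.single_apply, if_neg (hi j)]

/-- The form with given coefficients. -/
noncomputable def fm (q : ℕ) : Co q →L[ℝ] ((ℂ × ℂ) [⋀^Fin q]→L[ℝ] ℝ) :=
  ∑ I : Fin q ↪o Fin 4, (EuclideanSpace.proj I : Co q →L[ℝ] ℝ).smulRight (dx I)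

lemma fm_apply (q : ℕ) (c : Co q) : fm q c = ∑ I : Fin q ↪o Fin 4, c I • dx I := by
  simp [fm]

lemma cf_fm (q : ℕ) (c : Co q) : cf q (fm q c) = c := by
  ext J
  rw [cf_apply, fm_apply]
  have h1 : (∑ I : Fin q ↪o Fin 4, c I • dx I) (fun i => e (J i)) =
      ∑ I : Fin q ↪o Fin 4, c I * dx I (fun i => e (J i)) := by
    exact map_sum (ev (q := q) (fun i => e (J i))) (fun I => c I • dx I) Finset.univ
  rw [h1, Finset.sum_eq_single J]
  · rw [dx_self, mul_one]
  · intro I _ hI
    rw [dx_ne hI, mul_zero]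
  · intro hJ
    exact absurd (Finset.mem_univ _) hJ

lemma fm_cf (q : ℕ) (g : (ℂ × ℂ) [⋀^Fin q]→L[ℝ] ℝ) : fm q (cf q g) = g := by
  have h1 : fm q (cf q g) - g = 0 := by
    apply cf_injective
    rw [map_sub, cf_fm, sub_self]
  exact sub_eq_zero.1 h1

lemma form_ext {q : ℕ} {g g' : (ℂ × ℂ) [⋀^Fin q]→L[ℝ] ℝ}
    (h : ∀ I : Fin q ↪o Fin 4, g (fun i => e (I i)) = g' (fun i => e (I i))) : g = g' := by
  have h1 : g - g' = 0 := by
    apply cf_injective
    rw [map_sub, sub_eq_zero]
    ext I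
    exact h I
  exact sub_eq_zero.1 h1

end Pool.Agent.Lib.MP_05a445_an
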