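import Pool.Agent.Lib.MP_05a445_an.Closed

/-!
Weakly closed functions on a connected open set are constant.
-/

set_option autoImplicit false
set_option linter.unusedSectionVars false

namespace Pool.Agent.Lib.MP_05a445_an

open MeasureTheory Set Filter Topology ContinuousAlternatingMap ContinuousLinearMap
open scoped ContDiff NNReal ENNReal

variable {V : Type*} [NormedAddCommGroup V] [NormedSpace ℝ V]

lemma fderiv_eq_zero_of_extDeriv {g : V → V [⋀^Fin 0]→L[ℝ] ℝ} {x : V}
    (h : extDeriv g x = 0) : fderiv ℝ g x = 0 := by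
  ext w v
  have h1 : extDeriv g x (fun _ => w) = 0 := by rw [h]; rfl
  rw [extDeriv, alternatizeUncurryFin_apply, Fin.sum_univ_succ] at h1
  simp only [Finset.univ_eq_empty, Finset.sum_empty, add_zero, Fin.val_zero, pow_zero,
    one_smul] at h1
  have h2 : v = Fin.removeNth 0 (fun _ : Fin 1 => w) := Subsingleton.elim _ _
  rw [h2]
  exact h1

variable [FiniteDimensional ℝ V]
  [MeasureSpace V] [BorelSpace V] [(volume : Measure V).IsAddHaarMeasure]

lemma enorm_tri {E : Type*} [NormedAddCommGroup E] (a b c : E) :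
    ‖b - c‖ₑ ≤ ‖a - b‖ₑ + ‖a - c‖ₑ := by
  calc ‖b - c‖ₑ = ‖-(a - b) + (a - c)‖ₑ := by congr 1; abel
    _ ≤ ‖-(a - b)‖ₑ + ‖a - c‖ₑ := enorm_add_le _ _
    _ = _ := by rw [enorm_neg]

lemma enorm_zero_imp {E : Type*} [NormedAddCommGroup E] {a : E} (h : ‖a‖ₑ = 0) : a = 0 :=
  enorm_eq_zero.1 h

/-- A weakly closed integrable function on a connected open set is constant. -/
theorem closed_zero_const {O : Set V} (hO : IsOpen O) (hpc : IsPreconnected O)
    {f : V → V [⋀^Fin 0]→L[ℝ] ℝ} (hf : Integrable f) (hcl : ClosedOn O f) :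
    ∃ c, ∀ᵐ x ∂(volume.restrict O), f x = c := by
  rcases O.eq_empty_or_nonempty with hOe | ⟨x0, hx0⟩
  · exact ⟨0, by simp [hOe]⟩
  obtain ⟨F, hFs, hFi, hFb, hFt, hFc⟩ := exists_mollify hf hO hcl
  have hrad : ∀ x ∈ O, ∃ r > 0, Metric.closedBall x r ⊆ O := fun x hx =>
    Metric.nhds_basis_closedBall.mem_iff.1 (hO.mem_nhds hx)
  choose! r hr hrO using hrad
  have hev : ∀ x ∈ O, ∀ᶠ n in atTop, ∀ y ∈ Metric.ball x (r x), F n y = F n x := by
    intro x hx
    filter_upwards [hFc _ (isCompact_closedBall x (r x)) (hrO x hx)] with n hn y hy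
    apply Metric.isOpen_ball.is_const_of_fderiv_eq_zero (𝕜 := ℝ)
      (convex_ball x (r x)).isPreconnected ((hFs n).differentiable (by simp)).differentiableOn
      _ hy (Metric.mem_ball_self (hr x hx))
    intro z hz
    exact fderiv_eq_zero_of_extDeriv (hn z (Metric.ball_subset_closedBall hz))
  have hL1 : Tendsto (fun n => ∫⁻ x, ‖F n x - f x‖ₑ) atTop (𝓝 0) := by
    have h1 : ∀ n, ∫⁻ x, ‖F n x - f x‖ₑ = ENNReal.ofReal (∫ x, ‖F n x - f x‖) := fun n =>
      (ofReal_integral_norm_eq_lintegral_enorm ((hFi n).sub hf)).symm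
    simp_rw [h1]
    simpa [Function.comp_def] using (ENNReal.continuous_ofReal.tendsto 0).comp hFt
  set c : V → V [⋀^Fin 0]→L[ℝ] ℝ := fun x => ⨍ y in Metric.ball x (r x), f y with hc
  have hpos : ∀ x ∈ O, 0 < (volume : Measure V) (Metric.ball x (r x)) := fun x hx =>
    Metric.measure_ball_pos volume x (hr x hx)
  have hfin : ∀ x, (volume : Measure V) (Metric.ball x (r x)) ≠ ⊤ := fun x =>
    measure_ball_lt_top.ne
  have hlim : ∀ x ∈ O, Tendsto (fun n => F n x) atTop (𝓝 (c x)) := by
    intro x hx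
    have h1 : Tendsto (fun n => ⨍ y in Metric.ball x (r x), F n y) atTop (𝓝 (c x)) := by
      simp only [hc, setAverage_eq]
      exact (tendsto_setIntegral_of_L1 f hf.aestronglyMeasurable (Eventually.of_forall hFi)
        hL1 _).const_smul _
    refine h1.congr' ?_
    filter_upwards [hev x hx] with n hn
    rw [setAverage_congr_fun Metric.isOpen_ball.measurableSet
      (g := fun _ => F n x) (Eventually.of_forall fun y hy => hn y hy)]
    exact setAverage_const (hpos x hx).ne' (hfin x) _
  have hball : ∀ x ∈ O, ∀ᵐ y ∂(volume.restrict (Metric.ball x (r x))), f y = c x := by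
    intro x hx
    have h1 : Tendsto (fun n => ∫⁻ y in Metric.ball x (r x), ‖F n y - c x‖ₑ) atTop (𝓝 0) := by
      have h2 : Tendsto (fun n => ‖F n x - c x‖ₑ * volume (Metric.ball x (r x))) atTop (𝓝 0) := by
        have h3 := tendsto_enorm_of (tendsto_sub_nhds_zero_iff.2 (hlim x hx))
        simpa using ENNReal.Tendsto.mul_const h3 (Or.inr (hfin x))
      refine h2.congr' ?_
      filter_upwards [hev x hx] with n hn
      rw [setLIntegral_congr_fun (g := fun _ => ‖F n x - c x‖ₑ) Metric.isOpen_ball.measurableSet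
        (fun y hy => by rw [hn y hy])]
      rw [setLIntegral_const]
    have h2 : ∫⁻ y in Metric.ball x (r x), ‖f y - c x‖ₑ = 0 := by
      have h3 : ∀ n, ∫⁻ y in Metric.ball x (r x), ‖f y - c x‖ₑ ≤
          (∫⁻ y, ‖F n y - f y‖ₑ) + ∫⁻ y in Metric.ball x (r x), ‖F n y - c x‖ₑ := by
        intro n
        calc _ ≤ ∫⁻ y in Metric.ball x (r x), (‖F n y - f y‖ₑ + ‖F n y - c x‖ₑ) := by
              exact lintegral_mono fun y => enorm_tri _ _ _
          _ = _ := lintegral_add_left' ((hFi n).sub hf).aestronglyMeasurable.restrict.enorm _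
          _ ≤ _ := add_le_add_left (setLIntegral_le_lintegral _ _) _
      have h4 := hL1.add h1
      rw [add_zero] at h4
      exact le_antisymm (ge_of_tendsto' h4 h3) zero_le
    have h5 : AEMeasurable (fun y => ‖f y - c x‖ₑ) (volume.restrict (Metric.ball x (r x))) :=
      (hf.aestronglyMeasurable.sub aestronglyMeasurable_const).restrict.enorm
    rw [lintegral_eq_zero_iff' h5] at h2
    filter_upwards [h2] with y hy
    exact sub_eq_zero.1 (enorm_zero_imp hy)
  have hloc : ∀ x ∈ O, ∀ y ∈ Metric.ball x (r x), c y = c x := by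
    intro x hx y hy
    have h1 : Tendsto (fun n => F n y) atTop (𝓝 (c x)) := by
      refine (hlim x hx).congr' ?_
      filter_upwards [hev x hx] with n hn
      exact (hn y hy).symm
    exact tendsto_nhds_unique (hlim y (hrO x hx (Metric.ball_subset_closedBall hy))) h1
  have hconst : ∀ x ∈ O, c x = c x0 := by
    intro x hx
    have hd : ∀ z ∈ O, HasFDerivAt c (0 : V →L[ℝ] V [⋀^Fin 0]→L[ℝ] ℝ) z := by
      intro z hz
      apply (hasFDerivAt_const (c z) z).congr_of_eventuallyEq
      filter_upwards [Metric.ball_mem_nhds z (hr z hz)] with y hy using hloc z hz y hy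
    exact hO.is_const_of_fderiv_eq_zero (𝕜 := ℝ) hpc
      (fun z hz => (hd z hz).differentiableAt.differentiableWithinAt)
      (fun z hz => (hd z hz).fderiv) hx hx0
  refine ⟨c x0, ?_⟩
  rw [ae_restrict_iff' hO.measurableSet]
  apply measure_null_of_locally_null
  intro x hx
  have hxO : x ∈ O := by
    by_contra h
    exact hx fun h' => absurd h' h
  refine ⟨Metric.ball x (r x) ∩ {y | f y ≠ c x}, ?_, ?_⟩
  · rw [mem_nhdsWithin]
    refine ⟨Metric.ball x (r x), Metric.isOpen_ball, Metric.mem_ball_self (hr x hxO), ?_⟩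
    rintro y ⟨hy, hy2⟩
    refine ⟨hy, fun h => hy2 fun _ => ?_⟩
    change f y = c x0
    rw [h, hconst x hxO]
  · have h1 := hball x hxO
    rw [ae_restrict_iff' Metric.isOpen_ball.measurableSet] at h1
    refine measure_mono_null ?_ h1
    rintro y ⟨hy, hy2⟩ h
    exact hy2 (h hy)

end Pool.Agent.Lib.MP_05a445_an
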