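import Pool.Agent.Lib.MP_05a445_an.SmoothHom

/-!
Smooth de Rham theory of the Hartogs triangle.
-/

set_option autoImplicit false
set_option linter.unusedSectionVars false

namespace Pool.Agent.Lib.MP_05a445_an

open MeasureTheory Set Filter Topology ContinuousAlternatingMap
open scoped ContDiff

section forms

variable {X : Type} [NormedAddCommGroup X] [NormedSpace ℝ X]

lemma contDiffOn_form {q : ℕ} {n : WithTop ℕ∞} {s : Set X}
    {G : X → (ℂ × ℂ) [⋀^Fin q]→L[ℝ] ℝ} (h : ∀ v, ContDiffOn ℝ n (fun p => G p v) s) :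
    ContDiffOn ℝ n G s := by
  have h1 : ContDiffOn ℝ n (fun p => cf q (G p)) s := by
    rw [contDiffOn_euclidean]
    exact fun I => h _
  have h2 := (fm q).contDiff.comp_contDiffOn h1
  refine h2.congr fun p _ => ?_
  exact (fm_cf q (G p)).symm

lemma form_expand {q : ℕ} (g : (ℂ × ℂ) [⋀^Fin q]→L[ℝ] ℝ) (v : Fin q → ℂ × ℂ) :
    g v = ∑ I : Fin q ↪o Fin 4, g (fun i => e (I i)) * dx I v := by
  conv_lhs => rw [← fm_cf q g, fm_apply]
  exact map_sum (ev (q := q) v) (fun I => cf q g I • dx I) Finset.univ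

lemma contDiffOn_eval {q : ℕ} {n : WithTop ℕ∞} {s : Set X}
    {G : X → (ℂ × ℂ) [⋀^Fin q]→L[ℝ] ℝ} (hG : ContDiffOn ℝ n G s) {A : X → Fin q → ℂ × ℂ}
    (hA : ∀ i, ContDiffOn ℝ n (fun p => A p i) s) : ContDiffOn ℝ n (fun p => G p (A p)) s := by
  simp_rw [fun p => form_expand (G p) (A p)]
  apply ContDiffOn.sum
  intro I _
  apply ContDiffOn.mul
  · exact (ev (fun i => e (I i))).contDiff.comp_contDiffOn hG
  · have h1 : ContDiff ℝ n (fun v : Fin q → ℂ × ℂ => dx I v) :=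
      (dx I).toContinuousMultilinearMap.contDiff
    exact h1.comp_contDiffOn (contDiffOn_pi.2 hA)

end forms

/-- The pullback of a form by a family of maps. -/
noncomputable def pbF {q : ℕ} (Φ : ℝ × (ℂ × ℂ) → ℂ × ℂ)
    (f : ℂ × ℂ → (ℂ × ℂ) [⋀^Fin q]→L[ℝ] ℝ) (p : ℝ × (ℂ × ℂ)) :
    (ℝ × (ℂ × ℂ)) [⋀^Fin q]→L[ℝ] ℝ :=
  (f (Φ p)).compContinuousLinearMap (fderiv ℝ Φ p)

lemma isOpen_W : IsOpen ((univ : Set ℝ) ×ˢ T) := isOpen_univ.prod isOpen_T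

section pull

variable {q : ℕ} {Φ : ℝ × (ℂ × ℂ) → ℂ × ℂ} (hΦ : ContDiffOn ℝ ∞ Φ (univ ×ˢ T))
  (hmap : ∀ t, ∀ x ∈ T, Φ (t, x) ∈ T)
  {f : ℂ × ℂ → (ℂ × ℂ) [⋀^Fin (q + 1)]→L[ℝ] ℝ} (hf : ContDiffOn ℝ ∞ f T)
  (hcl : ∀ x ∈ T, extDeriv f x = 0)

include hΦ hmap hf

lemma contDiffOn_aL : ContDiffOn ℝ ∞ (fun p => aL (ℂ × ℂ) (q + 1) (pbF Φ f p)) (univ ×ˢ T) := by
  apply contDiffOn_form
  intro v
  have h1 : ContDiffOn ℝ ∞ (fun p => f (Φ p)) (univ ×ˢ T) :=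
    hf.comp hΦ fun p hp => hmap p.1 p.2 hp.2
  have h2 : ContDiffOn ℝ ∞ (fderiv ℝ Φ) (univ ×ˢ T) := hΦ.fderiv_of_isOpen isOpen_W (by simp)
  exact contDiffOn_eval h1 fun i => h2.clm_apply contDiffOn_const

lemma contDiffOn_gL : ContDiffOn ℝ ∞ (fun p => gL (ℂ × ℂ) q (pbF Φ f p)) (univ ×ˢ T) := by
  apply contDiffOn_form
  intro v
  have h1 : ContDiffOn ℝ ∞ (fun p => f (Φ p)) (univ ×ˢ T) :=
    hf.comp hΦ fun p hp => hmap p.1 p.2 hp.2
  have h2 : ContDiffOn ℝ ∞ (fderiv ℝ Φ) (univ ×ˢ T) := hΦ.fderiv_of_isOpen isOpen_W (by simp)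
  exact contDiffOn_eval h1 fun i => h2.clm_apply contDiffOn_const

include hcl

/-- The smooth homotopy formula on the triangle. -/
theorem hom_T {w w' : ℝ → ℝ} (hw : ContDiff ℝ ∞ w) (hww : ∀ t, HasDerivAt w (w' t) t)
    (hw' : Continuous w') :
    ContDiffOn ℝ ∞ (fun x => ∫ t in (0 : ℝ)..1, w t • gL (ℂ × ℂ) q (pbF Φ f (t, x))) T ∧
    ∀ x ∈ T, extDeriv (fun x => ∫ t in (0 : ℝ)..1, w t • gL (ℂ × ℂ) q (pbF Φ f (t, x))) x =
      w 1 • aL (ℂ × ℂ) (q + 1) (pbF Φ f (1, x)) - w 0 • aL (ℂ × ℂ) (q + 1) (pbF Φ f (0, x)) -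
        ∫ t in (0 : ℝ)..1, w' t • aL (ℂ × ℂ) (q + 1) (pbF Φ f (t, x)) := by
  have hα := contDiffOn_aL hΦ hmap hf
  have hγ := contDiffOn_gL hΦ hmap hf
  have hd : ∀ x ∈ T, DifferentiableAt ℝ f x := fun x hx =>
    (hf.differentiableOn (by simp)).differentiableAt (isOpen_T.mem_nhds hx)
  have hΦa : ∀ t, ∀ x ∈ T, ContDiffAt ℝ ∞ Φ (t, x) := fun t x hx =>
    hΦ.contDiffAt (isOpen_W.mem_nhds ⟨mem_univ _, hx⟩)
  refine ⟨?_, fun x hx => ?_⟩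
  · apply contDiffOn_param isOpen_T
      (f := fun p => w p.1 • gL (ℂ × ℂ) q (pbF Φ f p))
    exact (hw.comp contDiff_fst).contDiffOn.smul hγ
  · apply smooth_hom isOpen_T (F := pbF Φ f) _ _ (hα.of_le (by simp)) (hγ.of_le (by simp))
      (hw.of_le (by simp)) hww hw' hx
    · intro t y hy
      apply DifferentiableAt.continuousAlternatingMapCompContinuousLinearMap
      · exact (hd _ (hmap t y hy)).comp (t, y) ((hΦa t y hy).differentiableAt (by simp))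
      · exact ((hΦa t y hy).fderiv_right (m := ∞) (by simp)).differentiableAt (by simp)
    · intro t y hy
      have h1 := extDeriv_pullback (r := ∞) (hd _ (hmap t y hy)) (hΦa t y hy)
        (by simpa using (ENat.LEInfty.out : (2 : WithTop ℕ∞) ≤ ∞))
      change extDeriv (fun p => (f (Φ p)).compContinuousLinearMap (fderiv ℝ Φ p)) (t, y) = 0
      rw [h1, hcl _ (hmap t y hy)]
      rfl

end pull

/-- If the map at one time is the identity, the restricted pullback is the form itself. -/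
lemma aL_of_id {q : ℕ} {Φ : ℝ × (ℂ × ℂ) → ℂ × ℂ} (hΦ : ContDiffOn ℝ ∞ Φ (univ ×ˢ T))
    {f : ℂ × ℂ → (ℂ × ℂ) [⋀^Fin q]→L[ℝ] ℝ} {t : ℝ} (hid : ∀ x, Φ (t, x) = x) {x : ℂ × ℂ}
    (hx : x ∈ T) : aL (ℂ × ℂ) q (pbF Φ f (t, x)) = f x := by
  have h1 : DifferentiableAt ℝ Φ (t, x) :=
    (hΦ.contDiffAt (isOpen_W.mem_nhds ⟨mem_univ _, hx⟩)).differentiableAt (by simp)
  have h2 := hasFDerivAt_slice h1
  have h3 : (fderiv ℝ Φ (t, x)).comp (ContinuousLinearMap.inr ℝ ℝ (ℂ × ℂ)) =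
      ContinuousLinearMap.id ℝ (ℂ × ℂ) := by
    apply h2.unique
    have h4 : (fun x => Φ (t, x)) = fun x => x := funext hid
    rw [h4]
    exact hasFDerivAt_id x
  ext v
  change f (Φ (t, x)) (fun i => fderiv ℝ Φ (t, x) (0, v i)) = f x v
  rw [hid]
  congr 1
  funext i
  exact congrArg (fun L => L (v i)) h3

/-- The radial retraction of the base. -/
noncomputable def rho (y : ℂ × ℂ) : ℂ × ℂ := (0, (2 * ‖y.2‖)⁻¹ • y.2)

lemma rho_mem {x : ℂ × ℂ} (hx : x ∈ T) : rho x ∈ T := by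
  have h1 := snd_pos hx
  have h2 : ‖(2 * ‖x.2‖)⁻¹ • x.2‖ = 1 / 2 := by
    rw [norm_smul, Real.norm_of_nonneg (by positivity)]
    field_simp
  constructor
  · change ‖(0 : ℂ)‖ < ‖(2 * ‖x.2‖)⁻¹ • x.2‖
    rw [h2, norm_zero]; norm_num
  · change ‖(2 * ‖x.2‖)⁻¹ • x.2‖ < 1
    rw [h2]; norm_num

lemma fderiv_rho {x : ℂ × ℂ} (hx : x ∈ T) :
    HasFDerivAt rho ((th x).smulRight (0, Complex.I * (rho x).2)) x := by
  have hx0 := snd_ne hx
  have hn := snd_pos hx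
  have hnd : DifferentiableAt ℝ (fun b : ℂ => ‖b‖) x.2 :=
    (contDiffAt_norm ℝ (n := 1) hx0).differentiableAt (by norm_num)
  obtain ⟨n', hn'⟩ := hnd
  have hn2 : ∀ w : ℂ, ‖x.2‖ * n' w = inner ℝ x.2 w := by
    intro w
    have h1 := hn'.mul hn'
    have h2 : HasFDerivAt (fun b : ℂ => ‖b‖ * ‖b‖) ((2 : ℕ) • innerSL ℝ x.2) x.2 := by
      have h3 := (hasStrictFDerivAt_norm_sq x.2).hasFDerivAt
      simpa [sq] using h3
    have h3 := congrArg (fun L => L w) (h1.unique h2)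
    have h4 : ‖x.2‖ * n' w + ‖x.2‖ * n' w = (2 : ℕ) • inner ℝ x.2 w := h3
    rw [two_nsmul] at h4
    linarith
  have h5 : HasFDerivAt (fun y : ℂ × ℂ => (2 * ‖y.2‖)⁻¹ • y.2)
      ((2 * ‖x.2‖)⁻¹ • ContinuousLinearMap.snd ℝ ℂ ℂ +
        ((-((2 * ‖x.2‖) ^ 2)⁻¹) • ((2 : ℝ) • n'.comp (ContinuousLinearMap.snd ℝ ℂ ℂ))).smulRight
          x.2) x := by
    have h6 : HasFDerivAt (fun y : ℂ × ℂ => 2 * ‖y.2‖)
        ((2 : ℝ) • n'.comp (ContinuousLinearMap.snd ℝ ℂ ℂ)) x :=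
      (hn'.comp x hasFDerivAt_snd).const_mul 2
    have h7 : HasFDerivAt (fun y : ℂ × ℂ => (2 * ‖y.2‖)⁻¹)
        ((-((2 * ‖x.2‖) ^ 2)⁻¹) • ((2 : ℝ) • n'.comp (ContinuousLinearMap.snd ℝ ℂ ℂ))) x :=
      (hasDerivAt_inv (by positivity)).comp_hasFDerivAt x h6
    exact h7.smul hasFDerivAt_snd
  have h8 : HasFDerivAt rho ((0 : ℂ × ℂ →L[ℝ] ℂ).prod
      ((2 * ‖x.2‖)⁻¹ • ContinuousLinearMap.snd ℝ ℂ ℂ +
        ((-((2 * ‖x.2‖) ^ 2)⁻¹) • ((2 : ℝ) • n'.comp (ContinuousLinearMap.snd ℝ ℂ ℂ))).smulRight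
          x.2)) x := (hasFDerivAt_const (0 : ℂ) x).prodMk h5
  refine h8.congr_fderiv ?_
  refine ContinuousLinearMap.ext fun v => ?_
  refine Prod.ext ?_ ?_
  · simp
  · change (2 * ‖x.2‖)⁻¹ • v.2 + (-((2 * ‖x.2‖) ^ 2)⁻¹ * (2 * n' v.2)) • x.2 =
      (th x v) • (Complex.I * ((2 * ‖x.2‖)⁻¹ • x.2))
    rw [th_apply]
    obtain ⟨z, hz⟩ : ∃ z : ℂ, z = (x.2)⁻¹ * v.2 := ⟨_, rfl⟩
    have hw : v.2 = x.2 * z := by rw [hz, mul_inv_cancel_left₀ hx0]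
    rw [← hz]
    have hin : inner ℝ x.2 v.2 = ‖x.2‖ ^ 2 * z.re := by
      rw [hw, Complex.inner]
      have h9 : x.2 * z * (starRingEnd ℂ) x.2 = ((Complex.normSq x.2 : ℝ) : ℂ) * z := by
        rw [Complex.normSq_eq_conj_mul_self]; ring
      rw [h9, Complex.re_ofReal_mul, Complex.normSq_eq_norm_sq]
    have hn'w : n' v.2 = ‖x.2‖ * z.re := by
      have h9 := hn2 v.2
      rw [hin] at h9
      have h10 : ‖x.2‖ * n' v.2 = ‖x.2‖ * (‖x.2‖ * z.re) := by rw [h9]; ring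
      exact mul_left_cancel₀ hn.ne' h10
    have hnc : (‖x.2‖ : ℂ) ≠ 0 := by exact_mod_cast hn.ne'
    rw [hn'w, hw]
    simp only [Complex.real_smul]
    nth_rewrite 1 [← Complex.re_add_im z]
    push_cast
    field_simp
    ring

/-- The contraction of the triangle onto a circle. -/
noncomputable def PhiC (p : ℝ × (ℂ × ℂ)) : ℂ × ℂ :=
  (Real.smoothTransition p.1 • p.2.1,
    (Real.smoothTransition p.1 + (1 - Real.smoothTransition p.1) * (2 * ‖p.2.2‖)⁻¹) • p.2.2)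

lemma contDiffOn_PhiC : ContDiffOn ℝ ∞ PhiC (univ ×ˢ T) := by
  have h1 : ContDiff ℝ ∞ (fun p : ℝ × (ℂ × ℂ) => Real.smoothTransition p.1) :=
    Real.smoothTransition.contDiff.comp contDiff_fst
  have h2 : ContDiffOn ℝ ∞ (fun p : ℝ × (ℂ × ℂ) => ‖p.2.2‖) (univ ×ˢ T) := by
    apply (contDiff_snd.snd.contDiffOn (n := ∞)).norm ℝ
    intro p hp
    exact snd_ne hp.2
  have h3 : ContDiffOn ℝ ∞ (fun p : ℝ × (ℂ × ℂ) => (2 * ‖p.2.2‖)⁻¹) (univ ×ˢ T) := by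
    apply (contDiffOn_const.mul h2).inv
    intro p hp
    have := snd_pos hp.2
    positivity
  apply ContDiffOn.prodMk
  · exact h1.contDiffOn.smul contDiff_snd.fst.contDiffOn
  · exact (h1.contDiffOn.add ((contDiffOn_const.sub h1.contDiffOn).mul h3)).smul
      contDiff_snd.snd.contDiffOn

lemma PhiC_mem (t : ℝ) {x : ℂ × ℂ} (hx : x ∈ T) : PhiC (t, x) ∈ T := by
  set τ := Real.smoothTransition t with hτ
  have h0 : 0 ≤ τ := Real.smoothTransition.nonneg t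
  have h1 : τ ≤ 1 := Real.smoothTransition.le_one t
  have hn := snd_pos hx
  have e1 : ‖(PhiC (t, x)).1‖ = τ * ‖x.1‖ := by
    change ‖τ • x.1‖ = _
    rw [norm_smul, Real.norm_of_nonneg h0]
  have e2 : ‖(PhiC (t, x)).2‖ = τ * ‖x.2‖ + (1 - τ) / 2 := by
    change ‖(τ + (1 - τ) * (2 * ‖x.2‖)⁻¹) • x.2‖ = _
    have h2 : 0 ≤ (1 - τ) * (2 * ‖x.2‖)⁻¹ := mul_nonneg (by linarith) (by positivity)
    rw [norm_smul, Real.norm_of_nonneg (by linarith)]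
    field_simp
  rw [mem_T, e1, e2]
  have h3 := hx.1
  have h4 := hx.2
  rcases h0.eq_or_lt with h5 | h5
  · rw [← h5]; norm_num
  · constructor <;> nlinarith

lemma PhiC_one (x : ℂ × ℂ) : PhiC (1, x) = x := by
  simp [PhiC]

lemma PhiC_zero (x : ℂ × ℂ) : PhiC (0, x) = rho x := by
  simp [PhiC, rho]

/-- The pullback under the retraction. -/
lemma aL_zero {q : ℕ} (f : ℂ × ℂ → (ℂ × ℂ) [⋀^Fin q]→L[ℝ] ℝ) {x : ℂ × ℂ} (hx : x ∈ T)
    (v : Fin q → ℂ × ℂ) : aL (ℂ × ℂ) q (pbF PhiC f (0, x)) v =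
      f (rho x) (fun i => th x (v i) • (0, Complex.I * (rho x).2)) := by
  have h1 : DifferentiableAt ℝ PhiC (0, x) :=
    (contDiffOn_PhiC.contDiffAt (isOpen_W.mem_nhds ⟨mem_univ _, hx⟩)).differentiableAt (by simp)
  have h2 := hasFDerivAt_slice h1
  have h3 : (fderiv ℝ PhiC (0, x)).comp (ContinuousLinearMap.inr ℝ ℝ (ℂ × ℂ)) =
      (th x).smulRight (0, Complex.I * (rho x).2) := by
    apply h2.unique
    have h4 : (fun x => PhiC (0, x)) = rho := funext PhiC_zero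
    rw [h4]
    exact fderiv_rho hx
  change f (PhiC (0, x)) (fun i => fderiv ℝ PhiC (0, x) (0, v i)) = _
  rw [PhiC_zero]
  congr 1
  funext i
  exact congrArg (fun L => L (v i)) h3

/-- The contraction primitive. -/
lemma contract {q : ℕ} {f : ℂ × ℂ → (ℂ × ℂ) [⋀^Fin (q + 1)]→L[ℝ] ℝ} (hf : ContDiffOn ℝ ∞ f T)
    (hcl : ∀ x ∈ T, extDeriv f x = 0)
    (h0 : ∀ x ∈ T, aL (ℂ × ℂ) (q + 1) (pbF PhiC f (0, x)) = 0) :
    ∃ η : ℂ × ℂ → (ℂ × ℂ) [⋀^Fin q]→L[ℝ] ℝ, ContDiffOn ℝ ∞ η T ∧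
      ∀ x ∈ T, f x = extDeriv η x := by
  obtain ⟨h1, h2⟩ := hom_T contDiffOn_PhiC (fun t x hx => PhiC_mem t hx) hf hcl
    (w := fun _ => 1) (w' := fun _ => 0) contDiff_const (fun t => hasDerivAt_const t 1)
    continuous_const
  refine ⟨_, h1, fun x hx => ?_⟩
  rw [h2 x hx, aL_of_id contDiffOn_PhiC PhiC_one hx, h0 x hx]
  simp

/-- Closed forms of degree at least two are exact. -/
theorem dR_high {q : ℕ} (hq : 1 ≤ q) {f : ℂ × ℂ → (ℂ × ℂ) [⋀^Fin (q + 1)]→L[ℝ] ℝ}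
    (hf : ContDiffOn ℝ ∞ f T) (hcl : ∀ x ∈ T, extDeriv f x = 0) :
    ∃ η : ℂ × ℂ → (ℂ × ℂ) [⋀^Fin q]→L[ℝ] ℝ, ContDiffOn ℝ ∞ η T ∧
      ∀ x ∈ T, f x = extDeriv η x := by
  apply contract hf hcl
  intro x hx
  ext v
  rw [aL_zero f hx]
  have h1 := (f (rho x)).toMultilinearMap.map_smul_univ (fun i => th x (v i))
    (fun _ => ((0 : ℂ), Complex.I * (rho x).2))
  have h2 : f (rho x) (fun _ => ((0 : ℂ), Complex.I * (rho x).2)) = 0 := by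
    apply (f (rho x)).toAlternatingMap.map_eq_zero_of_eq _ (i := 0) (j := Fin.last q) rfl
    intro h
    have := congrArg Fin.val h
    simp at this
    omega
  have h3 : f (rho x) (fun i => th x (v i) • ((0 : ℂ), Complex.I * (rho x).2)) =
      (∏ i, th x (v i)) • f (rho x) (fun _ => ((0 : ℂ), Complex.I * (rho x).2)) := h1
  rw [h3, h2, smul_zero]
  rfl

/-- Closed forms of degree one vanishing on the angular field are exact. -/
lemma exact_of_radial {f : ℂ × ℂ → (ℂ × ℂ) [⋀^Fin (0 + 1)]→L[ℝ] ℝ}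
    (hf : ContDiffOn ℝ ∞ f T) (hcl : ∀ x ∈ T, extDeriv f x = 0)
    (h0 : ∀ x ∈ T, f x (fun _ => (0, Complex.I * x.2)) = 0) :
    ∃ η : ℂ × ℂ → (ℂ × ℂ) [⋀^Fin 0]→L[ℝ] ℝ, ContDiffOn ℝ ∞ η T ∧
      ∀ x ∈ T, f x = extDeriv η x := by
  apply contract hf hcl
  intro x hx
  ext v
  rw [aL_zero f hx]
  have h1 := (f (rho x)).toMultilinearMap.map_smul_univ (fun i => th x (v i))
    (fun _ => ((0 : ℂ), Complex.I * (rho x).2))
  have h3 : f (rho x) (fun i => th x (v i) • ((0 : ℂ), Complex.I * (rho x).2)) =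
      (∏ i, th x (v i)) • f (rho x) (fun _ => ((0 : ℂ), Complex.I * (rho x).2)) := h1
  rw [h3, h0 _ (rho_mem hx), smul_zero]
  rfl

end Pool.Agent.Lib.MP_05a445_an
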