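import Pool.Agent.Lib.MP_05a445_an.DeRham

/-!
Smooth de Rham theory of the Hartogs triangle in degrees zero and one.
-/

set_option autoImplicit false
set_option linter.unusedSectionVars false

namespace Pool.Agent.Lib.MP_05a445_an

open MeasureTheory Set Filter Topology ContinuousAlternatingMap
open scoped ContDiff

/-- Rotation of the base variable. -/
noncomputable def PhiR (p : ℝ × (ℂ × ℂ)) : ℂ × ℂ := (p.2.1, eu p.1 * p.2.2)

lemma contDiff_eu : ContDiff ℝ ∞ eu := by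
  unfold eu
  apply ContDiff.cexp
  apply ContDiff.mul _ contDiff_const
  exact Complex.ofRealCLM.contDiff.comp (contDiff_const.mul contDiff_id)

lemma contDiff_PhiR : ContDiff ℝ ∞ PhiR :=
  contDiff_snd.fst.prodMk ((contDiff_eu.comp contDiff_fst).mul contDiff_snd.snd)

lemma PhiR_mem (t : ℝ) {x : ℂ × ℂ} (hx : x ∈ T) : PhiR (t, x) ∈ T := by
  have := Mw_one_mem (norm_eu t) hx
  rw [Mw_apply] at this
  simpa [PhiR] using this

lemma PhiR_one (x : ℂ × ℂ) : PhiR (1, x) = x := by simp [PhiR]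

lemma PhiR_zero (x : ℂ × ℂ) : PhiR (0, x) = x := by simp [PhiR]

lemma fderiv_PhiR (t : ℝ) (x : ℂ × ℂ) (s : ℝ) (v : ℂ × ℂ) :
    fderiv ℝ PhiR (t, x) (s, v) =
      (v.1, eu t * v.2 + s • ((2 * Real.pi : ℝ) * Complex.I * eu t * x.2)) := by
  have h1 : HasFDerivAt (fun p : ℝ × (ℂ × ℂ) => eu p.1)
      ((ContinuousLinearMap.toSpanSingleton ℝ ((2 * Real.pi : ℝ) * Complex.I * eu t)).comp
        (ContinuousLinearMap.fst ℝ ℝ (ℂ × ℂ))) (t, x) :=
    HasFDerivAt.comp (g := eu) (f := fun p : ℝ × (ℂ × ℂ) => p.1) (t, x)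
      (hasDerivAt_eu t).hasFDerivAt hasFDerivAt_fst
  have h2 : HasFDerivAt (fun p : ℝ × (ℂ × ℂ) => p.2.2)
      ((ContinuousLinearMap.snd ℝ ℂ ℂ).comp (ContinuousLinearMap.snd ℝ ℝ (ℂ × ℂ))) (t, x) :=
    ((ContinuousLinearMap.snd ℝ ℂ ℂ).comp (ContinuousLinearMap.snd ℝ ℝ (ℂ × ℂ))).hasFDerivAt
  have h3 : HasFDerivAt (fun p : ℝ × (ℂ × ℂ) => p.2.1)
      ((ContinuousLinearMap.fst ℝ ℂ ℂ).comp (ContinuousLinearMap.snd ℝ ℝ (ℂ × ℂ))) (t, x) :=
    ((ContinuousLinearMap.fst ℝ ℂ ℂ).comp (ContinuousLinearMap.snd ℝ ℝ (ℂ × ℂ))).hasFDerivAt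
  have h4 := h3.prodMk (h1.mul h2)
  have h5 : fderiv ℝ PhiR (t, x) = _ := h4.fderiv
  rw [h5]
  refine Prod.ext rfl ?_
  simp
  ring

/-- Closed functions are constant. -/
theorem dR_zero {f : ℂ × ℂ → (ℂ × ℂ) [⋀^Fin 0]→L[ℝ] ℝ}
    (hf : ContDiffOn ℝ ∞ f T) (hcl : ∀ x ∈ T, extDeriv f x = 0) :
    ∃ c, ∀ x ∈ T, f x = c := by
  have h8 : (T : Set (ℂ × ℂ)).Nonempty := ⟨(0, 1 / 2), by
    constructor <;> norm_num⟩
  obtain ⟨x0, hx0⟩ := h8
  refine ⟨f x0, fun x hx => ?_⟩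
  exact isOpen_T.is_const_of_fderiv_eq_zero (𝕜 := ℝ) isPreconnected_T
    (hf.differentiableOn (by simp)) (fun y hy => fderiv_eq_zero_of_extDeriv (hcl y hy)) hx hx0

section ext

variable {V : Type} [NormedAddCommGroup V] [NormedSpace ℝ V] {q : ℕ}
  {g h : V → V [⋀^Fin q]→L[ℝ] ℝ} {x : V}

lemma extDeriv_sub' (hg : DifferentiableAt ℝ g x) (hh : DifferentiableAt ℝ h x) :
    extDeriv (fun y => g y - h y) x = extDeriv g x - extDeriv h x := by
  unfold extDeriv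
  rw [fderiv_fun_sub hg hh]
  exact map_sub (alternatizeUncurryFinCLM ℝ V ℝ) _ _

lemma extDeriv_add' (hg : DifferentiableAt ℝ g x) (hh : DifferentiableAt ℝ h x) :
    extDeriv (fun y => g y + h y) x = extDeriv g x + extDeriv h x := by
  unfold extDeriv
  rw [fderiv_fun_add hg hh]
  exact map_add (alternatizeUncurryFinCLM ℝ V ℝ) _ _

lemma extDeriv_smul' (c : ℝ) (hg : DifferentiableAt ℝ g x) :
    extDeriv (fun y => c • g y) x = c • extDeriv g x := by
  unfold extDeriv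
  rw [fderiv_fun_const_smul hg]
  exact map_smul (alternatizeUncurryFinCLM ℝ V ℝ) _ _

lemma extDeriv_congr' (hgh : g =ᶠ[𝓝 x] h) : extDeriv g x = extDeriv h x := by
  unfold extDeriv
  rw [hgh.fderiv_eq]

lemma differentiableAt_extDeriv (hg : ContDiffAt ℝ ∞ g x) :
    DifferentiableAt ℝ (extDeriv g) x := by
  have h1 : ContDiffAt ℝ ∞ (fderiv ℝ g) x := hg.fderiv_right (by simp)
  have h2 : DifferentiableAt ℝ (fderiv ℝ g) x := h1.differentiableAt (by simp)
  exact (alternatizeUncurryFinCLM ℝ V ℝ).differentiableAt.comp x h2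

lemma extDeriv_extDeriv' (hg : ContDiffAt ℝ ∞ g x) : extDeriv (extDeriv g) x = 0 :=
  extDeriv_extDeriv_apply hg (by simpa using (ENat.LEInfty.out : (2 : WithTop ℕ∞) ≤ ∞))

end ext

section one

variable {f : ℂ × ℂ → (ℂ × ℂ) [⋀^Fin (0 + 1)]→L[ℝ] ℝ}

/-- Closed forms of degree one. -/
theorem dR_one (hf : ContDiffOn ℝ ∞ f T) (hcl : ∀ x ∈ T, extDeriv f x = 0) :
    ∃ (c : ℝ) (η : ℂ × ℂ → (ℂ × ℂ) [⋀^Fin 0]→L[ℝ] ℝ), ContDiffOn ℝ ∞ η T ∧
      ∀ x ∈ T, f x = c • om x + extDeriv η x := by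
  have hΦ : ContDiffOn ℝ ∞ PhiR (univ ×ˢ T) := contDiff_PhiR.contDiffOn
  have hmap : ∀ t, ∀ x ∈ T, PhiR (t, x) ∈ T := fun t x hx => PhiR_mem t hx
  -- averaging
  obtain ⟨h1, h2⟩ := hom_T hΦ hmap hf hcl (w := fun t => t) (w' := fun _ => 1) contDiff_id
    (fun t => hasDerivAt_id t) continuous_const
  set K : ℂ × ℂ → (ℂ × ℂ) [⋀^Fin 0]→L[ℝ] ℝ :=
    fun x => ∫ t in (0 : ℝ)..1, t • gL (ℂ × ℂ) 0 (pbF PhiR f (t, x)) with hK
  set m : ℂ × ℂ → (ℂ × ℂ) [⋀^Fin (0 + 1)]→L[ℝ] ℝ :=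
    fun x => ∫ t in (0 : ℝ)..1, aL (ℂ × ℂ) (0 + 1) (pbF PhiR f (t, x)) with hm
  have hfm : ∀ x ∈ T, f x = m x + extDeriv K x := by
    intro x hx
    rw [h2 x hx, aL_of_id hΦ PhiR_one hx]
    simp only [one_smul, zero_smul, sub_zero]
    rw [hm]
    abel
  -- the period
  obtain ⟨h3, h4⟩ := hom_T hΦ hmap hf hcl (w := fun _ => 1) (w' := fun _ => 0) contDiff_const
    (fun t => hasDerivAt_const t 1) continuous_const
  have h5 : ∀ x ∈ T, extDeriv (fun x => ∫ t in (0 : ℝ)..1, (1 : ℝ) •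
      gL (ℂ × ℂ) 0 (pbF PhiR f (t, x))) x = 0 := by
    intro x hx
    rw [h4 x hx, aL_of_id hΦ PhiR_one hx, aL_of_id hΦ PhiR_zero hx]
    simp
  obtain ⟨c, hc⟩ := dR_zero h3 h5
  have hcα := contDiffOn_aL hΦ hmap hf
  have hcγ := contDiffOn_gL hΦ hmap hf
  have hmI : ∀ x ∈ T, m x (fun _ => (0, Complex.I * x.2)) = (2 * Real.pi)⁻¹ * c ![] := by
    intro x hx
    have i1 : IntervalIntegrable (fun t => aL (ℂ × ℂ) (0 + 1) (pbF PhiR f (t, x))) volume 0 1 :=
      (continuous_slice (f := fun p => aL (ℂ × ℂ) (0 + 1) (pbF PhiR f p)) hcα.continuousOn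
        hx).intervalIntegrable 0 1
    have i2 : IntervalIntegrable (fun t => (1 : ℝ) • gL (ℂ × ℂ) 0 (pbF PhiR f (t, x))) volume 0 1 :=
      ((continuous_slice (f := fun p => gL (ℂ × ℂ) 0 (pbF PhiR f p)) hcγ.continuousOn
        hx).const_smul (1 : ℝ)).intervalIntegrable 0 1
    have e1 : m x (fun _ => (0, Complex.I * x.2)) =
        ∫ t in (0 : ℝ)..1, aL (ℂ × ℂ) (0 + 1) (pbF PhiR f (t, x)) (fun _ => (0, Complex.I * x.2)) :=
      (ContinuousLinearMap.intervalIntegral_comp_comm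
        (ev (fun _ : Fin (0 + 1) => ((0 : ℂ), Complex.I * x.2))) i1).symm
    have e2 : c ![] = ∫ t in (0 : ℝ)..1, ((1 : ℝ) • gL (ℂ × ℂ) 0 (pbF PhiR f (t, x))) ![] := by
      rw [← hc x hx]
      exact (ContinuousLinearMap.intervalIntegral_comp_comm
        (ev (![] : Fin 0 → ℂ × ℂ)) i2).symm
    rw [e1, e2, ← intervalIntegral.integral_const_mul]
    apply intervalIntegral.integral_congr
    intro t _
    simp only [one_smul]
    rw [aL_apply, gL_apply]
    change f (PhiR (t, x)) (fun i => fderiv ℝ PhiR (t, x) (0, (0, Complex.I * x.2))) =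
      _ * f (PhiR (t, x)) (fun i => fderiv ℝ PhiR (t, x)
        ((Fin.cons (1, 0) (fun i => (0, ![] i)) : Fin 1 → ℝ × (ℂ × ℂ)) i))
    have e3 : (fun i => fderiv ℝ PhiR (t, x)
        ((Fin.cons (1, 0) (fun i => (0, ![] i)) : Fin 1 → ℝ × (ℂ × ℂ)) i)) =
        fun i : Fin (0 + 1) => (2 * Real.pi : ℝ) •
          fderiv ℝ PhiR (t, x) (0, (0, Complex.I * x.2)) := by
      funext i
      rw [Fin.fin_one_eq_zero i, Fin.cons_zero, fderiv_PhiR, fderiv_PhiR]
      refine Prod.ext (by simp) ?_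
      simp
      ring
    have e4 := (f (PhiR (t, x))).toMultilinearMap.map_smul_univ (fun _ => 2 * Real.pi)
      (fun _ => fderiv ℝ PhiR (t, x) (0, (0, Complex.I * x.2)))
    have e5 : f (PhiR (t, x)) (fun i : Fin (0 + 1) => (2 * Real.pi : ℝ) •
          fderiv ℝ PhiR (t, x) (0, (0, Complex.I * x.2))) = (2 * Real.pi) *
        f (PhiR (t, x)) (fun _ => fderiv ℝ PhiR (t, x) (0, (0, Complex.I * x.2))) := by
      simpa using e4
    rw [e3, e5, ← mul_assoc, inv_mul_cancel₀ (by positivity), one_mul]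
  -- the radial part
  have hms : ContDiffOn ℝ ∞ m T := contDiffOn_param isOpen_T hcα
  have homs : ContDiffOn ℝ ∞ om T := contDiffOn_om.mono T_subset_ne
  set c0 : ℝ := (2 * Real.pi)⁻¹ * c ![] with hc0
  have hσs : ContDiffOn ℝ ∞ (fun x => m x - c0 • om x) T := hms.sub (homs.const_smul c0)
  have hdT : ∀ {q : ℕ} {g : ℂ × ℂ → (ℂ × ℂ) [⋀^Fin q]→L[ℝ] ℝ}, ContDiffOn ℝ ∞ g T →
      ∀ x ∈ T, DifferentiableAt ℝ g x := fun hg x hx =>
    (hg.differentiableOn (by simp)).differentiableAt (isOpen_T.mem_nhds hx)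
  have hmc : ∀ x ∈ T, extDeriv m x = 0 := by
    intro x hx
    have h6 : m =ᶠ[𝓝 x] fun y => f y - extDeriv K y := by
      filter_upwards [isOpen_T.mem_nhds hx] with y hy
      rw [hfm y hy]
      abel
    have hKa : ContDiffAt ℝ ∞ K x := h1.contDiffAt (isOpen_T.mem_nhds hx)
    rw [extDeriv_congr' h6, extDeriv_sub' (hdT hf x hx) (differentiableAt_extDeriv hKa),
      hcl x hx, extDeriv_extDeriv' hKa, sub_zero]
  have hσc : ∀ x ∈ T, extDeriv (fun x => m x - c0 • om x) x = 0 := by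
    intro x hx
    have h7 : DifferentiableAt ℝ (fun x => c0 • om x) x := (hdT homs x hx).const_smul c0
    rw [extDeriv_sub' (hdT hms x hx) h7, extDeriv_smul' c0 (hdT homs x hx), hmc x hx,
      extDeriv_om (snd_ne hx), smul_zero, sub_zero]
  have hσ0 : ∀ x ∈ T, (m x - c0 • om x) (fun _ => (0, Complex.I * x.2)) = 0 := by
    intro x hx
    rw [ContinuousAlternatingMap.sub_apply, hmI x hx, ContinuousAlternatingMap.smul_apply,
      om_apply, th_apply]
    have h1 : ((x.2)⁻¹ * (Complex.I * x.2)) = Complex.I := by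
      have := snd_ne hx
      field_simp
    simp [h1]
  obtain ⟨η, hη, hη2⟩ := exact_of_radial hσs hσc hσ0
  refine ⟨c0, fun x => K x + η x, h1.add hη, fun x hx => ?_⟩
  rw [extDeriv_add' (hdT h1 x hx) (hdT hη x hx), ← hη2 x hx, hfm x hx]
  abel

end one

/-- The angular form is not exact. -/
theorem dR_om {c : ℝ} {η : ℂ × ℂ → (ℂ × ℂ) [⋀^Fin 0]→L[ℝ] ℝ} (hη : ContDiffOn ℝ ∞ η T)
    (h : ∀ x ∈ T, c • om x = extDeriv η x) : c = 0 := by
  have hx : ((0, 1 / 2) : ℂ × ℂ) ∈ T := by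
    constructor <;> norm_num
  set x : ℂ × ℂ := (0, 1 / 2) with hxdef
  have hd : ∀ t : ℝ, HasDerivAt (fun t => η (PhiR (t, x)) ![]) (2 * Real.pi * c) t := by
    intro t
    have hxt := PhiR_mem t hx
    have h1 : HasDerivAt (fun t => PhiR (t, x)) (0, (2 * Real.pi : ℝ) * Complex.I * eu t * x.2)
        t := by
      have h2 := hasDerivAt_slice (f := PhiR) (t := t) (x := x)
        (contDiff_PhiR.differentiable (by simp) (t, x))
      rw [show fderiv ℝ PhiR (t, x) (1, 0) =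
        (0, (2 * Real.pi : ℝ) * Complex.I * eu t * x.2) by rw [fderiv_PhiR]; simp] at h2
      exact h2
    have h3 : DifferentiableAt ℝ η (PhiR (t, x)) :=
      (hη.differentiableOn (by simp)).differentiableAt (isOpen_T.mem_nhds hxt)
    have h4 := h3.hasFDerivAt.comp_hasDerivAt t h1
    have h5 := (ev (![] : Fin 0 → ℂ × ℂ)).hasFDerivAt.comp_hasDerivAt t h4
    refine h5.congr_deriv ?_
    set w : ℂ × ℂ := (0, (2 * Real.pi : ℝ) * Complex.I * eu t * x.2) with hw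
    have h6 : extDeriv η (PhiR (t, x)) (fun _ => w) = fderiv ℝ η (PhiR (t, x)) w ![] := by
      rw [extDeriv, alternatizeUncurryFin_apply, Fin.sum_univ_succ]
      simp only [Finset.univ_eq_empty, Finset.sum_empty, add_zero, Fin.val_zero, pow_zero,
        one_smul]
      congr 1
      exact Subsingleton.elim _ _
    change fderiv ℝ η (PhiR (t, x)) w ![] = _
    rw [← h6, ← h _ hxt, ContinuousAlternatingMap.smul_apply, om_apply, th_apply]
    have h7 : ((PhiR (t, x)).2)⁻¹ * w.2 = (2 * Real.pi : ℝ) * Complex.I := by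
      change (eu t * x.2)⁻¹ * ((2 * Real.pi : ℝ) * Complex.I * eu t * x.2) = _
      have h8 : eu t * x.2 ≠ 0 := snd_ne hxt
      have h9 : eu t ≠ 0 := left_ne_zero_of_mul h8
      have h10 : x.2 ≠ 0 := right_ne_zero_of_mul h8
      field_simp
    rw [h7]
    simp
    ring
  have h1 := intervalIntegral.integral_eq_sub_of_hasDerivAt (a := 0) (b := 1)
    (fun t _ => hd t) intervalIntegrable_const
  rw [PhiR_one, PhiR_zero] at h1
  simpa using h1

end Pool.Agent.Lib.MP_05a445_an
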