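import Mathlib

/-!
All definitions used in the statements about the Hodge theorem on the Hartogs triangle.
-/

set_option autoImplicit false

namespace Pool.Agent.Lib.MP_05a445_an

open MeasureTheory Set Filter Topology
open scoped ContDiff

/-- The Hartogs triangle, a bounded open subset of the real four dimensional space `ℂ × ℂ`. -/
def T : Set (ℂ × ℂ) := {z | ‖z.1‖ < ‖z.2‖ ∧ ‖z.2‖ < 1}

/-- The standard real basis of `ℂ × ℂ`. -/
def e : Fin 4 → ℂ × ℂ := ![(1, 0), (Complex.I, 0), (0, 1), (0, Complex.I)]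

/-- The coefficient space of forms of degree `q`: one real coefficient for every increasing
multiindex of length `q`. -/
abbrev Co (q : ℕ) : Type := EuclideanSpace ℝ (Fin q ↪o Fin 4)

/-- The Hilbert space of square integrable forms of degree `q` on the triangle, a form being
given by its coefficients. -/
abbrev L2q (q : ℕ) : Type := Lp (Co q) 2 ((volume : Measure (ℂ × ℂ)).restrict T)

/-- `psi` is a test function in `O`: smooth, with compact support contained in `O`. -/
structure IsTest {V : Type*} [NormedAddCommGroup V] [NormedSpace ℝ V] (O : Set V) (ψ : V → ℝ) :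
    Prop where
  smooth : ContDiff ℝ ∞ ψ
  compact : HasCompactSupport ψ
  supp : tsupport ψ ⊆ O

/-- The weak maximal exterior derivative: `v` is the distributional exterior derivative of `u`,
that is, for every increasing multiindex `J` of length `q + 1`, the coefficient `v J` is the sum
over `k` of `(-1) ^ k` times the distributional derivative in the direction `J k` of the
coefficient of `u` whose multiindex is `J` with its entry `J k` removed. -/
def WeakD (q : ℕ) (u : L2q q) (v : L2q (q + 1)) : Prop :=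
  ∀ ψ : ℂ × ℂ → ℝ, IsTest T ψ → ∀ J : Fin (q + 1) ↪o Fin 4,
    ∫ x in T, ψ x * v x J = - ∑ k : Fin (q + 1), (-1 : ℝ) ^ (k : ℕ) *
      ∫ x in T, fderiv ℝ ψ x (e (J k)) * u x ((Fin.succAboveOrderEmb k).trans J)

/-- The square integrable form `u` has the same coefficients on the triangle as the
differential form `α`. -/
def HasCoef (q : ℕ) (u : L2q q) (α : ℂ × ℂ → (ℂ × ℂ) [⋀^Fin q]→L[ℝ] ℝ) : Prop :=
  ∀ᵐ x ∂((volume : Measure (ℂ × ℂ)).restrict T), ∀ I : Fin q ↪o Fin 4,
    u x I = α x (fun i => e (I i))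

/-- The strong maximal exterior derivative: there are smooth differential forms `w n` on the whole
space whose restrictions to the triangle converge to `u` and whose exterior derivatives converge
to `v`, both in the mean square. -/
def StrongD (q : ℕ) (u : L2q q) (v : L2q (q + 1)) : Prop :=
  ∃ (w : ℕ → ℂ × ℂ → (ℂ × ℂ) [⋀^Fin q]→L[ℝ] ℝ) (a : ℕ → L2q q) (b : ℕ → L2q (q + 1)),
    (∀ n, ContDiff ℝ ∞ (w n)) ∧ (∀ n, HasCoef q (a n) (w n)) ∧
    (∀ n, HasCoef (q + 1) (b n) (extDeriv (w n))) ∧
    Tendsto a atTop (𝓝 u) ∧ Tendsto b atTop (𝓝 v)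

/-- The graph of the Hilbert space adjoint of an operator with graph `D`: `w` lies in the domain
of the adjoint, with value `u`. -/
def IsAdj {H K : Type*} [NormedAddCommGroup H] [InnerProductSpace ℝ H]
    [NormedAddCommGroup K] [InnerProductSpace ℝ K] (D : H → K → Prop) (w : K) (u : H) : Prop :=
  ∀ v v', D v v' → inner ℝ v' w = inner ℝ v u

/-- The graph of the Laplacian `d* d + d d*` of the operators with graphs `D`, with its natural
domain: `f` is the value of the Laplacian at `u`. -/
def IsLap (D : ∀ q : ℕ, L2q q → L2q (q + 1) → Prop) : ∀ q : ℕ, L2q q → L2q q → Prop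
  | 0, u, f => ∃ v : L2q 1, D 0 u v ∧ IsAdj (D 0) v f
  | q + 1, u, f => ∃ (v : L2q (q + 2)) (a : L2q (q + 1)) (w : L2q q) (b : L2q (q + 1)),
      D (q + 1) u v ∧ IsAdj (D (q + 1)) v a ∧ IsAdj (D q) u w ∧ D q w b ∧ f = a + b

/-- Smooth closed forms on the triangle. -/
def SmoothClosed (q : ℕ) (α : ℂ × ℂ → (ℂ × ℂ) [⋀^Fin q]→L[ℝ] ℝ) : Prop :=
  ContDiffOn ℝ ∞ α T ∧ ∀ x ∈ T, extDeriv α x = 0

/-- Smooth exact forms on the triangle. -/
def SmoothExact : ∀ q : ℕ, (ℂ × ℂ → (ℂ × ℂ) [⋀^Fin q]→L[ℝ] ℝ) → Prop
  | 0, α => ∀ x ∈ T, α x = 0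
  | q + 1, α => ∃ η : ℂ × ℂ → (ℂ × ℂ) [⋀^Fin q]→L[ℝ] ℝ,
      ContDiffOn ℝ ∞ η T ∧ ∀ x ∈ T, α x = extDeriv η x

/-- The Hodge theorem for the Laplacian of the operators with graphs `D`, in every degree `q`.
The Laplacian has closed range. Every element `u` of its kernel is (represented by) a smooth closed
form. If that form is exact then `u = 0`, so the map from the kernel to the de Rham cohomology of
the triangle is injective. Every smooth closed form differs from the form of some element of the
kernel by an exact form, so the map is surjective. -/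
def HodgeTheorem (D : ∀ q : ℕ, L2q q → L2q (q + 1) → Prop) : Prop :=
  ∀ q : ℕ, IsClosed {f : L2q q | ∃ u, IsLap D q u f} ∧
    (∀ u, IsLap D q u 0 → ∃ α, SmoothClosed q α ∧ HasCoef q u α) ∧
    (∀ u α, IsLap D q u 0 → SmoothClosed q α → HasCoef q u α → SmoothExact q α → u = 0) ∧
    (∀ α, SmoothClosed q α → ∃ u β, IsLap D q u 0 ∧ SmoothClosed q β ∧ HasCoef q u β ∧
      SmoothExact q (fun x => α x - β x))

end Pool.Agent.Lib.MP_05a445_an
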