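import Pool.Agent.Lib.MP_05a445_an.AvgMain

/-!
The Hartogs triangle and the linear families used on it.
-/

set_option autoImplicit false
set_option linter.unusedSectionVars false

namespace Pool.Agent.Lib.MP_05a445_an

open MeasureTheory Set Filter Topology ContinuousAlternatingMap ContinuousLinearMap
open scoped ContDiff NNReal ENNReal

lemma mem_T {z : ℂ × ℂ} : z ∈ T ↔ ‖z.1‖ < ‖z.2‖ ∧ ‖z.2‖ < 1 := Iff.rfl

lemma isOpen_T : IsOpen T :=
  (isOpen_lt continuous_fst.norm continuous_snd.norm).inter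
    (isOpen_lt continuous_snd.norm continuous_const)

lemma measurableSet_T : MeasurableSet T := isOpen_T.measurableSet

lemma snd_pos {z : ℂ × ℂ} (hz : z ∈ T) : 0 < ‖z.2‖ := (norm_nonneg _).trans_lt hz.1

lemma snd_ne {z : ℂ × ℂ} (hz : z ∈ T) : z.2 ≠ 0 := norm_pos_iff.1 (snd_pos hz)

lemma norm_le_of_T {z : ℂ × ℂ} (hz : z ∈ T) : ‖z‖ ≤ 1 := by
  rw [Prod.norm_def]
  exact max_le (hz.1.trans hz.2).le hz.2.le

lemma isPreconnected_T : IsPreconnected T := by
  have h1 : T = (fun p : ℂ × (ℝ × ℝ) => (p.1 * (p.2.1 * Complex.exp (p.2.2 * Complex.I)),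
      p.2.1 * Complex.exp (p.2.2 * Complex.I))) ''
      (Metric.ball (0 : ℂ) 1 ×ˢ (Ioo (0 : ℝ) 1 ×ˢ (univ : Set ℝ))) := by
    ext z
    simp only [mem_T, mem_image, mem_prod, mem_ball_zero_iff, mem_Ioo, mem_univ, and_true]
    constructor
    · rintro ⟨h1, h2⟩
      have hb : z.2 ≠ 0 := norm_pos_iff.1 ((norm_nonneg _).trans_lt h1)
      have hb' : 0 < ‖z.2‖ := norm_pos_iff.2 hb
      have he : (‖z.2‖ : ℂ) * Complex.exp (Complex.arg z.2 * Complex.I) = z.2 :=
        Complex.norm_mul_exp_arg_mul_I z.2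
      refine ⟨(z.1 / z.2, (‖z.2‖, Complex.arg z.2)), ⟨?_, hb', h2⟩, ?_⟩
      · rw [norm_div, div_lt_one hb']
        exact h1
      · simp only [he]
        rw [div_mul_cancel₀ _ hb]
    · rintro ⟨p, ⟨h1, h2, h3⟩, rfl⟩
      have hn : ‖(p.2.1 : ℂ) * Complex.exp (p.2.2 * Complex.I)‖ = p.2.1 := by
        rw [norm_mul, Complex.norm_exp_ofReal_mul_I, mul_one, Complex.norm_real,
          Real.norm_of_nonneg h2.le]
      simp only [norm_mul] at hn ⊢
      rw [hn]
      exact ⟨by nlinarith [norm_nonneg p.1], h3⟩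
  rw [h1]
  apply IsPreconnected.image
  · exact (convex_ball (0 : ℂ) 1).isPreconnected.prod
      ((convex_Ioo (0 : ℝ) 1).isPreconnected.prod isPreconnected_univ)
  · apply Continuous.continuousOn
    fun_prop

instance isHaarV : (volume : Measure (ℂ × ℂ)).IsAddHaarMeasure := by
  rw [Measure.volume_eq_prod]; infer_instance

lemma volume_T_lt : volume T < ⊤ := by
  have : T ⊆ Metric.closedBall 0 1 := fun z hz => by
    rw [mem_closedBall_zero_iff]; exact norm_le_of_T hz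
  exact (measure_mono this).trans_lt measure_closedBall_lt_top

instance : IsFiniteMeasure ((volume : Measure (ℂ × ℂ)).restrict T) :=
  ⟨by simpa using volume_T_lt⟩

/-- The slice measure of the triangle. -/
lemma volume_slice (b : ℂ) : volume {y : ℂ | ‖y‖ < ‖b‖} = ENNReal.ofReal ‖b‖ ^ 2 * NNReal.pi := by
  have : {y : ℂ | ‖y‖ < ‖b‖} = Metric.ball 0 ‖b‖ := by
    ext y; simp
  rw [this, Complex.volume_ball]

/-- Integration over the triangle as an iterated integral. -/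
lemma lintegral_T {k : ℂ × ℂ → ℝ≥0∞} (hk : Measurable k) :
    ∫⁻ z in T, k z = ∫⁻ b : ℂ, ∫⁻ y : ℂ, T.indicator k (y, b) := by
  rw [← lintegral_indicator measurableSet_T, Measure.volume_eq_prod,
    lintegral_prod_symm _ (hk.indicator measurableSet_T).aemeasurable]

/-- Change of variables for an affine map of `ℂ`. -/
lemma lintegral_affine {w : ℂ} (hw : w ≠ 0) (a : ℂ) {g : ℂ → ℝ≥0∞} :
    ∫⁻ c : ℂ, g (a + w * c) = ENNReal.ofReal (‖w‖ ^ 2)⁻¹ * ∫⁻ c, g c := by
  have hdet : (ContinuousLinearMap.mul ℝ ℂ w).det = ‖w‖ ^ 2 := by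
    have h1 : (ContinuousLinearMap.mul ℝ ℂ w).det = Algebra.norm ℝ w := by
      rw [Algebra.norm_apply]; rfl
    rw [h1, Algebra.norm_complex_apply, Complex.normSq_eq_norm_sq]
  have hd0 : (ContinuousLinearMap.mul ℝ ℂ w).det ≠ 0 := by
    rw [hdet]; exact pow_ne_zero _ (norm_ne_zero_iff.2 hw)
  have h1 : ∫⁻ c : ℂ, g (a + w * c) =
      ENNReal.ofReal |(ContinuousLinearMap.mul ℝ ℂ w).det|⁻¹ * ∫⁻ x, g (a + x) :=
    lintegral_comp_lin hd0 (fun x => g (a + x))
  rw [h1, lintegral_add_left_eq_self, hdet, abs_of_nonneg (by positivity)]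

end Pool.Agent.Lib.MP_05a445_an
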