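import Pool.Agent.Lib.MP_05a445_an.Domain

/-!
The fibre contraction of the Hartogs triangle, averaged over the centre.
-/

set_option autoImplicit false
set_option linter.unusedSectionVars false

namespace Pool.Agent.Lib.MP_05a445_an

open MeasureTheory Set Filter Topology ContinuousAlternatingMap ContinuousLinearMap
open scoped ContDiff NNReal ENNReal

/-- Projection on the section `y = c b`. -/
noncomputable def Pc (c : ℂ) : ℂ × ℂ →L[ℝ] ℂ × ℂ :=
  (ContinuousLinearMap.inl ℝ ℂ ℂ).comp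
    ((ContinuousLinearMap.mul ℝ ℂ c).comp (ContinuousLinearMap.snd ℝ ℂ ℂ)) +
  (ContinuousLinearMap.inr ℝ ℂ ℂ).comp (ContinuousLinearMap.snd ℝ ℂ ℂ)

/-- The complementary projection. -/
noncomputable def Nc (c : ℂ) : ℂ × ℂ →L[ℝ] ℂ × ℂ :=
  (ContinuousLinearMap.inl ℝ ℂ ℂ).comp (ContinuousLinearMap.fst ℝ ℂ ℂ -
    (ContinuousLinearMap.mul ℝ ℂ c).comp (ContinuousLinearMap.snd ℝ ℂ ℂ))

/-- The fibre contraction. -/
noncomputable def Af (c : ℂ) (t : ℝ) : ℂ × ℂ →L[ℝ] ℂ × ℂ := Pc c + t • Nc c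

@[simp] lemma Pc_apply (c : ℂ) (z : ℂ × ℂ) : Pc c z = (c * z.2, z.2) := by
  simp [Pc]

@[simp] lemma Nc_apply (c : ℂ) (z : ℂ × ℂ) : Nc c z = (z.1 - c * z.2, 0) := rfl

lemma Af_apply (c : ℂ) (t : ℝ) (z : ℂ × ℂ) :
    Af c t z = (c * z.2 + t * (z.1 - c * z.2), z.2) := by
  simp [Af]

lemma Af_apply' (c : ℂ) (t : ℝ) (y b : ℂ) :
    Af c t (y, b) = ((1 - t) * c * b + t * y, b) := by
  rw [Af_apply]; ext <;> simp; ring

lemma Af_apply'' (c : ℂ) (t : ℝ) (y b : ℂ) :
    Af c t (y, b) = (t * y + ((1 - t) * b) * c, b) := by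
  rw [Af_apply]; ext <;> simp; ring

lemma hasDerivAt_Af (c : ℂ) (t : ℝ) : HasDerivAt (Af c) (Nc c) t := by
  have h := ((hasDerivAt_id t).smul_const (Nc c)).const_add (Pc c)
  rw [one_smul] at h
  exact h

lemma continuous_Pc : Continuous Pc := by
  have h1 : Continuous (fun c : ℂ =>
      (ContinuousLinearMap.mul ℝ ℂ c).comp (ContinuousLinearMap.snd ℝ ℂ ℂ)) :=
    ((ContinuousLinearMap.mul ℝ ℂ).continuous).clm_comp continuous_const
  exact (continuous_const.clm_comp h1).add continuous_const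

lemma continuous_Nc : Continuous Nc := by
  have h1 : Continuous (fun c : ℂ =>
      (ContinuousLinearMap.mul ℝ ℂ c).comp (ContinuousLinearMap.snd ℝ ℂ ℂ)) :=
    ((ContinuousLinearMap.mul ℝ ℂ).continuous).clm_comp continuous_const
  exact continuous_const.clm_comp (continuous_const.sub h1)

lemma continuous_Af : Continuous (fun p : ℂ × ℝ => Af p.1 p.2) :=
  (continuous_Pc.comp continuous_fst).add
    (continuous_snd.smul (continuous_Nc.comp continuous_fst))

lemma norm_Pc_le {c : ℂ} (hc : ‖c‖ < 1 / 2) : ‖Pc c‖ ≤ 1 := by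
  apply ContinuousLinearMap.opNorm_le_bound _ zero_le_one
  intro z
  rw [Pc_apply, one_mul, Prod.norm_def]
  apply max_le
  · rw [norm_mul]
    have h1 : ‖z.2‖ ≤ ‖z‖ := norm_snd_le z
    have h2 : 0 ≤ ‖z.2‖ := norm_nonneg _
    nlinarith
  · exact norm_snd_le z

lemma norm_Nc_le {c : ℂ} (hc : ‖c‖ < 1 / 2) : ‖Nc c‖ ≤ 2 := by
  apply ContinuousLinearMap.opNorm_le_bound _ zero_le_two
  intro z
  rw [Nc_apply, Prod.norm_def]
  apply max_le
  · have h1 : ‖z.1 - c * z.2‖ ≤ ‖z.1‖ + ‖c‖ * ‖z.2‖ := by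
      refine (norm_sub_le _ _).trans ?_
      rw [norm_mul]
    have h2 : ‖z.1‖ ≤ ‖z‖ := norm_fst_le z
    have h3 : ‖z.2‖ ≤ ‖z‖ := norm_snd_le z
    have h4 : 0 ≤ ‖z.2‖ := norm_nonneg _
    nlinarith
  · simp

lemma norm_Af_le {c : ℂ} (hc : ‖c‖ < 1 / 2) {t : ℝ} (ht : t ∈ Icc (0 : ℝ) 1) :
    ‖Af c t‖ ≤ 3 := by
  refine (norm_add_le _ _).trans ?_
  rw [norm_smul, Real.norm_of_nonneg ht.1]
  have h1 := norm_Pc_le hc
  have h2 := norm_Nc_le hc
  have h3 : 0 ≤ ‖Nc c‖ := norm_nonneg _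
  nlinarith [ht.1, ht.2]

lemma Af_mem {c : ℂ} (hc : ‖c‖ < 1 / 2) {t : ℝ} (ht : t ∈ Icc (0 : ℝ) 1) {z : ℂ × ℂ}
    (hz : z ∈ T) : Af c t z ∈ T := by
  obtain ⟨y, b⟩ := z
  rw [Af_apply', mem_T]
  obtain ⟨h1, h2⟩ := hz
  simp only at h1 h2
  refine ⟨?_, h2⟩
  simp only
  have h3 : ‖(1 - (t : ℂ)) * c * b + t * y‖ ≤ (1 - t) * ‖c‖ * ‖b‖ + t * ‖y‖ := by
    refine (norm_add_le _ _).trans ?_
    rw [norm_mul, norm_mul, norm_mul]
    have e1 : ‖(1 - (t : ℂ))‖ = 1 - t := by
      rw [← Complex.ofReal_one, ← Complex.ofReal_sub, Complex.norm_real,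
        Real.norm_of_nonneg (by linarith [ht.2])]
    have e2 : ‖(t : ℂ)‖ = t := by
      rw [Complex.norm_real, Real.norm_of_nonneg ht.1]
    rw [e1, e2]
  have hb : 0 < ‖b‖ := (norm_nonneg _).trans_lt h1
  have h4 : ‖c‖ * ‖b‖ < ‖b‖ := by nlinarith
  rcases ht.1.eq_or_lt with h0 | h0
  · rw [← h0] at h3
    rw [← h0]
    have : (1 - (0 : ℝ)) * ‖c‖ * ‖b‖ + 0 * ‖y‖ = ‖c‖ * ‖b‖ := by ring
    rw [this] at h3
    exact h3.trans_lt h4
  · refine h3.trans_lt ?_
    have h5 : t * ‖y‖ < t * ‖b‖ := mul_lt_mul_of_pos_left h1 h0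
    have h6 : (1 - t) * (‖c‖ * ‖b‖) ≤ (1 - t) * ‖b‖ :=
      mul_le_mul_of_nonneg_left h4.le (by linarith [ht.2])
    nlinarith

lemma det_Af {c : ℂ} {t : ℝ} (ht : t ≠ 0) : (Af c t).det ≠ 0 := by
  intro h
  have h1 := LinearMap.bot_lt_ker_of_det_eq_zero (f := ((Af c t : ℂ × ℂ →L[ℝ] ℂ × ℂ) :
    ℂ × ℂ →ₗ[ℝ] ℂ × ℂ)) h
  obtain ⟨z, hz, hz0⟩ := Submodule.exists_mem_ne_zero_of_ne_bot h1.ne'
  apply hz0
  have h2 : Af c t z = 0 := hz
  rw [Af_apply] at h2
  have h3 : z.2 = 0 := congrArg Prod.snd h2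
  have h4 : c * z.2 + t * (z.1 - c * z.2) = 0 := congrArg Prod.fst h2
  rw [h3, mul_zero, sub_zero, zero_add] at h4
  have h5 : z.1 = 0 := by
    rcases mul_eq_zero.1 h4 with h | h
    · exact absurd (Complex.ofReal_eq_zero.1 h) ht
    · exact h
  exact Prod.ext h5 h3

/-- The measure of the disc of centres. -/
lemma volume_half : volume (Metric.ball (0 : ℂ) (1 / 2)) = ENNReal.ofReal (1 / 2) ^ 2 * NNReal.pi :=
  Complex.volume_ball 0 (1 / 2)

lemma volume_half_ne : volume (Metric.ball (0 : ℂ) (1 / 2)) ≠ 0 :=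
  (Metric.measure_ball_pos volume 0 (by norm_num)).ne'

lemma volume_half_ne_top : volume (Metric.ball (0 : ℂ) (1 / 2)) ≠ ⊤ :=
  measure_ball_lt_top.ne

/-- The normalised measure on the disc of centres. -/
noncomputable def νF : Measure ℂ :=
  (volume (Metric.ball (0 : ℂ) (1 / 2)))⁻¹ • volume.restrict (Metric.ball (0 : ℂ) (1 / 2))

instance : IsProbabilityMeasure νF := ⟨by
  simp only [νF, Measure.smul_apply, Measure.restrict_apply MeasurableSet.univ, univ_inter,
    smul_eq_mul]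
  exact ENNReal.inv_mul_cancel volume_half_ne volume_half_ne_top⟩

lemma ae_νF : ∀ᵐ c ∂νF, ‖c‖ < 1 / 2 := by
  apply Measure.ae_smul_measure
  filter_upwards [ae_restrict_mem Metric.isOpen_ball.measurableSet] with c hc
  simpa using hc

lemma lintegral_νF (g : ℂ → ℝ≥0∞) : ∫⁻ c, g c ∂νF =
    (volume (Metric.ball (0 : ℂ) (1 / 2)))⁻¹ * ∫⁻ c in Metric.ball (0 : ℂ) (1 / 2), g c := by
  rw [νF, lintegral_smul_measure, smul_eq_mul]

/-- Integrating `kT` along the fibre after an affine change of variable. -/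
lemma fiber_bd_large {t : ℝ} (ht : t ∈ Icc (1 / 2 : ℝ) 1) {c : ℂ} {k : ℂ × ℂ → ℝ≥0∞}
    (hk : Measurable k) : ∫⁻ z, k (Af c t z) ≤ 4 * ∫⁻ z, k z := by
  have ht0 : (0 : ℝ) < t := by linarith [ht.1]
  have hm : Measurable (fun z => k (Af c t z)) := hk.comp (Af c t).continuous.measurable
  rw [Measure.volume_eq_prod, lintegral_prod_symm _ hm.aemeasurable,
    lintegral_prod_symm _ hk.aemeasurable, ← lintegral_const_mul' _ _ (by simp)]
  apply lintegral_mono
  intro b
  simp only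
  have h1 : ∀ y : ℂ, k (Af c t (y, b)) = (fun y' => k (y', b)) ((1 - t) * c * b + (t : ℂ) * y) :=
    fun y => by rw [Af_apply']
  simp_rw [h1]
  rw [lintegral_affine (Complex.ofReal_ne_zero.2 ht0.ne') ((1 - t) * c * b)
    (g := fun y' => k (y', b))]
  gcongr
  rw [Complex.norm_real, Real.norm_of_nonneg ht0.le]
  have h2 : (t ^ 2)⁻¹ ≤ 4 := by
    rw [inv_le_comm₀ (by positivity) (by norm_num)]
    nlinarith [ht.1]
  calc ENNReal.ofReal (t ^ 2)⁻¹ ≤ ENNReal.ofReal 4 := ENNReal.ofReal_le_ofReal h2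
    _ = 4 := by simp

lemma fiber_bd_small {t : ℝ} (ht : t ∈ Icc (0 : ℝ) (1 / 2)) {z : ℂ × ℂ} (hz : z ∈ T)
    {k : ℂ × ℂ → ℝ≥0∞} :
    ∫⁻ c, k (Af c t z) ≤ ENNReal.ofReal (4 / ‖z.2‖ ^ 2) * ∫⁻ y, k (y, z.2) := by
  obtain ⟨y, b⟩ := z
  have hb : 0 < ‖b‖ := snd_pos hz
  have hb0 : b ≠ 0 := norm_pos_iff.1 hb
  have ht1 : (1 : ℂ) - t ≠ 0 := by
    have : (1 : ℂ) - t = ((1 - t : ℝ) : ℂ) := by push_cast; ring
    rw [this]
    exact Complex.ofReal_ne_zero.2 (by linarith [ht.2])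
  have h1 : ∀ c : ℂ, k (Af c t (y, b)) = (fun y' => k (y', b)) (t * y + ((1 - t) * b) * c) :=
    fun c => by rw [Af_apply'']
  simp_rw [h1]
  rw [lintegral_affine (mul_ne_zero ht1 hb0) ((t : ℂ) * y) (g := fun y' => k (y', b))]
  gcongr
  have e1 : ‖(1 - (t : ℂ))‖ = 1 - t := by
    rw [← Complex.ofReal_one, ← Complex.ofReal_sub, Complex.norm_real,
      Real.norm_of_nonneg (by linarith [ht.2])]
  rw [norm_mul, e1, ← one_div, div_le_div_iff₀ (by
    have : 0 < 1 - t := by linarith [ht.2]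
    positivity) (by positivity)]
  have h3 : 1 / 4 ≤ (1 - t) ^ 2 := by nlinarith [ht.2, ht.1]
  have h4 : 0 < ‖b‖ ^ 2 := by positivity
  rw [mul_pow]
  nlinarith

lemma fiber_bd {t : ℝ} (ht : t ∈ Icc (0 : ℝ) 1) {k : ℂ × ℂ → ℝ≥0∞} (hk : Measurable k) :
    ∫⁻ c, (∫⁻ x in T, k (Af c t x)) ∂νF ≤ 16 * ∫⁻ x in T, k x := by
  set kT : ℂ × ℂ → ℝ≥0∞ := T.indicator k with hkT
  have hkTm : Measurable kT := hk.indicator measurableSet_T
  have hI : ∫⁻ z, kT z = ∫⁻ z in T, k z := lintegral_indicator measurableSet_T _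
  have hin : ∀ c ∈ Metric.ball (0 : ℂ) (1 / 2), ∫⁻ x in T, k (Af c t x) =
      ∫⁻ x in T, kT (Af c t x) := by
    intro c hc
    apply setLIntegral_congr_fun measurableSet_T
    intro x hx
    simp only
    rw [hkT, indicator_of_mem (Af_mem (by simpa using hc) ht hx)]
  rw [lintegral_νF, setLIntegral_congr_fun Metric.isOpen_ball.measurableSet hin]
  rcases le_total (1 / 2) t with h | h
  · calc (volume (Metric.ball (0 : ℂ) (1 / 2)))⁻¹ *
          ∫⁻ c in Metric.ball (0 : ℂ) (1 / 2), ∫⁻ x in T, kT (Af c t x)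
        ≤ (volume (Metric.ball (0 : ℂ) (1 / 2)))⁻¹ *
          ∫⁻ c in Metric.ball (0 : ℂ) (1 / 2), 4 * ∫⁻ x in T, k x := by
          gcongr with c
          rw [← hI]
          exact (setLIntegral_le_lintegral _ _).trans (fiber_bd_large ⟨h, ht.2⟩ hkTm)
      _ = 4 * ∫⁻ x in T, k x := by
          rw [setLIntegral_const, mul_comm (4 * ∫⁻ x in T, k x), ← mul_assoc,
            ENNReal.inv_mul_cancel volume_half_ne volume_half_ne_top, one_mul]
      _ ≤ 16 * ∫⁻ x in T, k x := by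
          gcongr
          norm_num
  · have hjm : Measurable (fun p : ℂ × (ℂ × ℂ) => kT (Af p.1 t p.2)) := by
      apply hkTm.comp
      apply Continuous.measurable
      exact (continuous_Af.comp (continuous_fst.prodMk continuous_const)).clm_apply
        continuous_snd
    have h1 : ∫⁻ c in Metric.ball (0 : ℂ) (1 / 2), ∫⁻ x in T, kT (Af c t x) ≤
        4 * NNReal.pi * ∫⁻ x in T, k x := by
      calc ∫⁻ c in Metric.ball (0 : ℂ) (1 / 2), ∫⁻ x in T, kT (Af c t x)
          ≤ ∫⁻ c, ∫⁻ x in T, kT (Af c t x) := setLIntegral_le_lintegral _ _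
        _ = ∫⁻ x in T, ∫⁻ c, kT (Af c t x) := lintegral_lintegral_swap hjm.aemeasurable
        _ ≤ ∫⁻ x in T, ENNReal.ofReal (4 / ‖x.2‖ ^ 2) * ∫⁻ y, kT (y, x.2) := by
            apply setLIntegral_mono' measurableSet_T
            intro x hx
            exact fiber_bd_small ⟨ht.1, h⟩ hx
        _ = ∫⁻ b : ℂ, ∫⁻ y : ℂ, T.indicator
              (fun x => ENNReal.ofReal (4 / ‖x.2‖ ^ 2) * ∫⁻ y, kT (y, x.2)) (y, b) := by
            apply lintegral_T
            apply Measurable.mul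
            · fun_prop
            · have h2 : Measurable (fun b : ℂ => ∫⁻ y, kT (y, b)) :=
                hkTm.lintegral_prod_left'
              exact h2.comp measurable_snd
        _ ≤ ∫⁻ b : ℂ, 4 * NNReal.pi * ∫⁻ y, kT (y, b) := by
            apply lintegral_mono
            intro b
            simp only
            have h3 : ∀ y : ℂ, T.indicator
                (fun x => ENNReal.ofReal (4 / ‖x.2‖ ^ 2) * ∫⁻ y, kT (y, x.2)) (y, b) ≤
                ({y : ℂ | ‖y‖ < ‖b‖}).indicator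
                  (fun _ => ENNReal.ofReal (4 / ‖b‖ ^ 2) * ∫⁻ y, kT (y, b)) y := by
              intro y
              by_cases hy : (y, b) ∈ T
              · rw [indicator_of_mem hy, indicator_of_mem (show y ∈ {y : ℂ | ‖y‖ < ‖b‖} from hy.1)]
              · rw [indicator_of_notMem hy]
                exact bot_le
            have hms : MeasurableSet {y : ℂ | ‖y‖ < ‖b‖} :=
              (isOpen_lt continuous_norm continuous_const).measurableSet
            refine (lintegral_mono h3).trans ?_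
            rw [lintegral_indicator hms, setLIntegral_const, volume_slice]
            rcases eq_or_ne b 0 with rfl | hb
            · simp
            have hb' : 0 < ‖b‖ := norm_pos_iff.2 hb
            have h4 : ENNReal.ofReal (4 / ‖b‖ ^ 2) * (ENNReal.ofReal ‖b‖ ^ 2) = 4 := by
              rw [← ENNReal.ofReal_pow hb'.le, ← ENNReal.ofReal_mul (by positivity)]
              rw [div_mul_cancel₀ _ (by positivity)]
              simp
            calc ENNReal.ofReal (4 / ‖b‖ ^ 2) * (∫⁻ y, kT (y, b)) *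
                  (ENNReal.ofReal ‖b‖ ^ 2 * NNReal.pi)
                = (ENNReal.ofReal (4 / ‖b‖ ^ 2) * (ENNReal.ofReal ‖b‖ ^ 2)) * NNReal.pi *
                  (∫⁻ y, kT (y, b)) := by ring
              _ ≤ _ := by rw [h4]
        _ = 4 * NNReal.pi * ∫⁻ x in T, k x := by
            rw [lintegral_const_mul' _ _ (ENNReal.mul_ne_top (by simp) (by simp)), ← hI,
              Measure.volume_eq_prod, lintegral_prod_symm _ hkTm.aemeasurable]
    calc (volume (Metric.ball (0 : ℂ) (1 / 2)))⁻¹ *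
          ∫⁻ c in Metric.ball (0 : ℂ) (1 / 2), ∫⁻ x in T, kT (Af c t x)
        ≤ (volume (Metric.ball (0 : ℂ) (1 / 2)))⁻¹ * (4 * NNReal.pi * ∫⁻ x in T, k x) := by
          gcongr
      _ = (volume (Metric.ball (0 : ℂ) (1 / 2)))⁻¹ *
            (volume (Metric.ball (0 : ℂ) (1 / 2)) * (16 * ∫⁻ x in T, k x)) := by
          congr 1
          rw [volume_half]
          have : ENNReal.ofReal (1 / 2) ^ 2 * 16 = 4 := by
            rw [← ENNReal.ofReal_pow (by norm_num)]
            have : (16 : ℝ≥0∞) = ENNReal.ofReal 16 := by simp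
            rw [this, ← ENNReal.ofReal_mul (by positivity)]
            norm_num
          calc 4 * (NNReal.pi : ℝ≥0∞) * ∫⁻ x in T, k x
              = (ENNReal.ofReal (1 / 2) ^ 2 * 16) * NNReal.pi * ∫⁻ x in T, k x := by rw [this]
            _ = _ := by ring
      _ = 16 * ∫⁻ x in T, k x := by
          rw [← mul_assoc, ENNReal.inv_mul_cancel volume_half_ne volume_half_ne_top, one_mul]

/-- The family of fibre contractions. -/
noncomputable def famF : LinFam T νF where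
  A := Af
  B := fun c _ => Nc c
  hA := hasDerivAt_Af
  contA := continuous_Af
  contB := continuous_Nc.comp continuous_fst
  map := by
    filter_upwards [ae_νF] with c hc t ht x hx
    exact Af_mem hc ht hx
  det := Eventually.of_forall fun c t ht => det_Af ht.1.ne'
  one := fun c => by
    ext z <;> simp [Af]
  M := 3
  hM := by
    filter_upwards [ae_νF] with c hc t ht
    exact ⟨norm_Af_le hc ht, (norm_Nc_le hc).trans (by norm_num)⟩
  K := 16
  bd := fun t ht k hk => fiber_bd ht hk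

end Pool.Agent.Lib.MP_05a445_an
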