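import Pool.Agent.Lib.MP_05a445_an.Closed

/-!
Mollification in the mean square, and its exterior derivative.
-/

set_option autoImplicit false
set_option linter.unusedSectionVars false

namespace Pool.Agent.Lib.MP_05a445_an

open MeasureTheory Set Filter Topology ContinuousAlternatingMap ContinuousLinearMap
open scoped ContDiff NNReal ENNReal Convolution

variable {V : Type*} [NormedAddCommGroup V] [NormedSpace ℝ V] [FiniteDimensional ℝ V]
  [MeasureSpace V] [BorelSpace V] [(volume : Measure V).IsAddHaarMeasure]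

/-- If `g` is the exterior derivative of `f` when tested against the mollifier at `x`, then the
mollification of `g` at `x` is the exterior derivative of the mollification of `f`. -/
lemma extDeriv_mol_eq {q : ℕ} {f : V → V [⋀^Fin q]→L[ℝ] ℝ} (hf : Integrable f)
    {g : V → V [⋀^Fin (q + 1)]→L[ℝ] ℝ} (φ : ContDiffBump (0 : V)) {x : V}
    (h : ∫ t, φ.normed volume (x - t) • g t =
      - ∫ t, wd (fderiv ℝ (fun t => φ.normed volume (x - t)) t) (f t)) :
    extDeriv (mol φ f) x = mol φ g x := by
  have hli := hf.locallyIntegrable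
  have hd : DifferentiableAt ℝ (mol φ f) x := (mol_contDiff φ hli).differentiable (by simp) x
  have hbound : ∃ C, ∀ t, ‖fderiv ℝ (φ.normed volume) t‖ ≤ C := by
    have hc : HasCompactSupport (fderiv ℝ (φ.normed (volume : Measure V))) :=
      φ.hasCompactSupport_normed.fderiv (𝕜 := ℝ)
    exact ((φ.contDiff_normed (n := 1)).continuous_fderiv
      (by norm_num)).bounded_above_of_compact_support hc
  obtain ⟨C, hC⟩ := hbound
  have hcf : Continuous (fderiv ℝ (φ.normed (volume : Measure V))) :=
    (φ.contDiff_normed (n := 1)).continuous_fderiv (by norm_num)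
  have hint : Integrable
      (fun t => wd (fderiv ℝ (fun t => φ.normed volume (x - t)) t) (f t)) := by
    have hm : AEStronglyMeasurable
        (fun t => wd (fderiv ℝ (fun t => φ.normed volume (x - t)) t) (f t)) volume := by
      have hc1 : Continuous (fun t => fderiv ℝ (fun t => φ.normed volume (x - t)) t) := by
        simp_rw [fderiv_bump_sub]
        exact (hcf.comp (continuous_const.sub continuous_id)).neg
      exact ContinuousLinearMap.aestronglyMeasurable_comp₂ (wdL V q)
        hc1.aestronglyMeasurable hf.aestronglyMeasurable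
    apply (hf.norm.const_mul ((q + 1) * C)).mono' hm
    refine Eventually.of_forall fun t => ?_
    refine (norm_wd_le _ _).trans ?_
    rw [fderiv_bump_sub, norm_neg, ← mul_assoc]
    gcongr
    exact hC _
  rw [mol_apply φ g x, h]
  ext v
  rw [ContinuousAlternatingMap.neg_apply, integral_form_apply hint v, extDeriv,
    alternatizeUncurryFin_apply]
  have hfi : ∀ i : Fin (q + 1), Integrable (fun t => f t (i.removeNth v)) := fun i =>
    (ev (i.removeNth v)).integrable_comp hf
  have e1 : ∀ i : Fin (q + 1), fderiv ℝ (mol φ f) x (v i) (i.removeNth v) =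
      ∫ t, fderiv ℝ (φ.normed volume) (x - t) (v i) * f t (i.removeNth v) := by
    intro i
    rw [← fderiv_continuousAlternatingMap_apply_const_apply hd]
    have : (fun y => mol φ f y (i.removeNth v)) = mol φ (fun y => f y (i.removeNth v)) := by
      funext y
      exact mol_clm (ev (i.removeNth v)) φ hli y
    rw [this, fderiv_mol φ (hfi i).locallyIntegrable]
  have e2 : ∀ t, wd (fderiv ℝ (fun t => φ.normed volume (x - t)) t) (f t) v =
      ∑ i : Fin (q + 1), (-1 : ℝ) ^ ((i : ℕ) + 1) *
        (fderiv ℝ (φ.normed volume) (x - t) (v i) * f t (i.removeNth v)) := by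
    intro t
    rw [wd_apply]
    refine Finset.sum_congr rfl fun i _ => ?_
    rw [fderiv_bump_sub, pow_succ]
    simp
  simp_rw [e2]
  rw [integral_finsetSum]
  · simp_rw [e1, integral_const_mul, ← Finset.sum_neg_distrib]
    refine Finset.sum_congr rfl fun i _ => ?_
    rw [zsmul_eq_mul, pow_succ]
    push_cast
    ring
  · intro i _
    apply Integrable.const_mul
    apply ((hfi i).norm.const_mul (C * ‖v i‖)).mono'
    · have hc1 : Continuous (fun t => fderiv ℝ (φ.normed volume) (x - t) (v i)) :=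
        (hcf.comp (continuous_const.sub continuous_id)).clm_apply continuous_const
      exact hc1.aestronglyMeasurable.mul (hfi i).aestronglyMeasurable
    · refine Eventually.of_forall fun t => ?_
      rw [norm_mul]
      gcongr
      exact ((fderiv ℝ (φ.normed volume) (x - t)).le_opNorm (v i)).trans
        (by gcongr; exact hC _)

section general

variable {F : Type*} [NormedAddCommGroup F] [NormedSpace ℝ F]

lemma lintegral_normed (φ : ContDiffBump (0 : V)) :
    ∫⁻ t, ENNReal.ofReal (φ.normed volume t) = 1 := by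
  rw [← ofReal_integral_eq_lintegral_ofReal φ.integrable_normed
    (Eventually.of_forall fun t => φ.nonneg_normed t), φ.integral_normed, ENNReal.ofReal_one]

/-- Mollification does not increase the mean square. -/
lemma lintegral_mol_sq_le (φ : ContDiffBump (0 : V)) {f : V → F} (hf : StronglyMeasurable f) :
    ∫⁻ x, ‖mol φ f x‖ₑ ^ 2 ≤ ∫⁻ x, ‖f x‖ₑ ^ 2 := by
  have hρc : Continuous (φ.normed (volume : Measure V)) := φ.continuous_normed
  have hρ : Measurable (fun t : V => ENNReal.ofReal (φ.normed volume t)) :=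
    hρc.measurable.ennreal_ofReal
  have hρ2 : Measurable (fun p : V × V => ENNReal.ofReal (φ.normed volume (p.1 - p.2))) :=
    hρ.comp (measurable_fst.sub measurable_snd)
  have hpt : ∀ x, ‖mol φ f x‖ₑ ^ 2 ≤
      ∫⁻ t, ENNReal.ofReal (φ.normed volume (x - t)) * ‖f t‖ₑ ^ 2 := by
    intro x
    have hρx : Measurable (fun t : V => ENNReal.ofReal (φ.normed volume (x - t))) :=
      hρ.comp (measurable_const.sub measurable_id)
    set κ : Measure V := (volume : Measure V).withDensity
      (fun t => ENNReal.ofReal (φ.normed volume (x - t))) with hκ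
    have : IsProbabilityMeasure κ := by
      refine ⟨?_⟩
      rw [hκ, withDensity_apply _ MeasurableSet.univ, setLIntegral_univ,
        lintegral_sub_left_eq_self (fun t => ENNReal.ofReal (φ.normed volume t)) x,
        lintegral_normed]
    have h1 : ‖mol φ f x‖ₑ ≤ ∫⁻ t, ‖f t‖ₑ ∂κ := by
      rw [mol_apply, hκ, lintegral_withDensity_eq_lintegral_mul _ hρx hf.enorm]
      refine (enorm_integral_le_lintegral_enorm _).trans (le_of_eq ?_)
      refine lintegral_congr fun t => ?_
      rw [enorm_smul, Real.enorm_of_nonneg (φ.nonneg_normed _)]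
      rfl
    calc ‖mol φ f x‖ₑ ^ 2 ≤ (∫⁻ t, ‖f t‖ₑ ∂κ) ^ 2 := by gcongr
      _ ≤ ∫⁻ t, ‖f t‖ₑ ^ 2 ∂κ := sq_lintegral_le κ hf.enorm.aemeasurable
      _ = _ := by
        rw [hκ, lintegral_withDensity_eq_lintegral_mul _ hρx (hf.enorm.pow_const 2)]
        rfl
  calc ∫⁻ x, ‖mol φ f x‖ₑ ^ 2
      ≤ ∫⁻ x, ∫⁻ t, ENNReal.ofReal (φ.normed volume (x - t)) * ‖f t‖ₑ ^ 2 :=
        lintegral_mono hpt
    _ = ∫⁻ t, ∫⁻ x, ENNReal.ofReal (φ.normed volume (x - t)) * ‖f t‖ₑ ^ 2 := by
        apply lintegral_lintegral_swap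
        exact (hρ2.mul ((hf.enorm.pow_const 2).comp measurable_snd)).aemeasurable
    _ = ∫⁻ t, ‖f t‖ₑ ^ 2 := by
        refine lintegral_congr fun t => ?_
        have hρt : Measurable (fun x : V => ENNReal.ofReal (φ.normed volume (x - t))) :=
          hρ.comp (measurable_id.sub_const t)
        rw [lintegral_mul_const _ hρt,
          lintegral_sub_right_eq_self (fun x => ENNReal.ofReal (φ.normed volume x)) t,
          lintegral_normed, one_mul]

lemma lintegral_mol_sq_le' (φ : ContDiffBump (0 : V)) {f : V → F}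
    (hf : AEStronglyMeasurable f volume) :
    ∫⁻ x, ‖mol φ f x‖ₑ ^ 2 ≤ ∫⁻ x, ‖f x‖ₑ ^ 2 := by
  have h1 : mol φ f = mol φ (hf.mk f) := by
    funext x
    rw [mol_apply, mol_apply]
    apply integral_congr_ae
    filter_upwards [hf.ae_eq_mk] with t ht
    rw [ht]
  rw [h1]
  refine (lintegral_mol_sq_le _ hf.stronglyMeasurable_mk).trans (le_of_eq ?_)
  apply lintegral_congr_ae
  filter_upwards [hf.ae_eq_mk] with t ht
  rw [ht]

lemma memLp_mol (φ : ContDiffBump (0 : V)) {f : V → F} (hf : MemLp f 2 volume) :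
    MemLp (mol φ f) 2 volume := by
  rw [memLp_two_iff]
  refine ⟨(mol_contDiff _ (hf.locallyIntegrable (by norm_num))).continuous.aestronglyMeasurable,
    ?_⟩
  exact (lintegral_mol_sq_le' φ hf.1).trans_lt (memLp_two_iff.1 hf).2

lemma eLpNorm_two_sq {X : Type*} [MeasurableSpace X] {μ : Measure X} {E : Type*}
    [NormedAddCommGroup E] (f : X → E) :
    eLpNorm f 2 μ ^ 2 = ∫⁻ x, ‖f x‖ₑ ^ 2 ∂μ := by
  rw [eLpNorm_eq_lintegral_rpow_enorm_toReal (by norm_num) (by norm_num), ← ENNReal.rpow_natCast,
    ← ENNReal.rpow_mul]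
  simp

lemma eLpNorm_le_of_sq {X Y : Type*} [MeasurableSpace X] [MeasurableSpace Y] {μ : Measure X}
    {κ : Measure Y} {E E' : Type*} [NormedAddCommGroup E] [NormedAddCommGroup E'] {f : X → E}
    {g : Y → E'} {C : ℝ≥0∞} (h : ∫⁻ x, ‖f x‖ₑ ^ 2 ∂μ ≤ C ^ 2 * ∫⁻ x, ‖g x‖ₑ ^ 2 ∂κ) :
    eLpNorm f 2 μ ≤ C * eLpNorm g 2 κ := by
  rw [← eLpNorm_two_sq, ← eLpNorm_two_sq, ← mul_pow] at h
  exact (ENNReal.pow_le_pow_left_iff (by norm_num)).1 h

/-- Uniformly bounded operators which converge on continuous functions with compact support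
converge in the mean square. -/
lemma approx_L2 {E : Type*} [NormedAddCommGroup E] [NormedSpace ℝ E] {μ' : Measure V}
    (hμ : μ' ≤ volume) [IsFiniteMeasure μ'] (Op : ℕ → (V → E) → V → E) {C : ℝ≥0∞} (hC : C ≠ ⊤)
    (hsub : ∀ n f g, MemLp f 2 volume → MemLp g 2 volume → Op n (f - g) = Op n f - Op n g)
    (hm : ∀ n f, MemLp f 2 volume → AEStronglyMeasurable (Op n f) μ')
    (hb : ∀ n f, MemLp f 2 volume → eLpNorm (Op n f) 2 μ' ≤ C * eLpNorm f 2 volume)
    (hc : ∀ g : V → E, Continuous g → HasCompactSupport g →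
      (∃ M, ∀ n x, ‖Op n g x - g x‖ ≤ M) ∧ ∀ x, Tendsto (fun n => Op n g x) atTop (𝓝 (g x)))
    {f : V → E} (hf : MemLp f 2 volume) :
    Tendsto (fun n => eLpNorm (Op n f - f) 2 μ') atTop (𝓝 0) := by
  have hcont : ∀ g : V → E, Continuous g → HasCompactSupport g → MemLp g 2 volume →
      Tendsto (fun n => eLpNorm (Op n g - g) 2 μ') atTop (𝓝 0) := by
    intro g hg hgc hgm
    obtain ⟨⟨M, hM⟩, hlim⟩ := hc g hg hgc
    have h1 : Tendsto (fun n => ∫⁻ x, ‖(Op n g - g) x‖ₑ ^ 2 ∂μ') atTop
        (𝓝 (∫⁻ x, 0 ∂μ')) := by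
      apply tendsto_lintegral_of_dominated_convergence' (fun _ => ENNReal.ofReal M ^ 2)
      · intro n
        exact ((hm n g hgm).sub (hg.aestronglyMeasurable)).enorm.pow_const 2
      · intro n
        refine Eventually.of_forall fun x => pow_le_pow_left' ?_ 2
        rw [← ofReal_norm]
        exact ENNReal.ofReal_le_ofReal (hM n x)
      · rw [lintegral_const]
        exact ENNReal.mul_ne_top (by simp) (measure_ne_top _ _)
      · refine Eventually.of_forall fun x => ?_
        have h2 : Tendsto (fun n => Op n g x - g x) atTop (𝓝 0) := by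
          have := (hlim x).sub_const (g x)
          rwa [sub_self] at this
        have h3 := ENNReal.Tendsto.pow (n := 2) (tendsto_enorm_of h2)
        simpa using h3
    rw [lintegral_zero] at h1
    have h2 : ∀ n, eLpNorm (Op n g - g) 2 μ' =
        (∫⁻ x, ‖(Op n g - g) x‖ₑ ^ 2 ∂μ') ^ (1 / 2 : ℝ) := by
      intro n
      rw [← eLpNorm_two_sq, ← ENNReal.rpow_natCast, ← ENNReal.rpow_mul]
      norm_num
    simp_rw [h2]
    have h3 := h1.ennrpow_const (1 / 2 : ℝ)
    rwa [ENNReal.zero_rpow_of_pos (by norm_num)] at h3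
  rw [ENNReal.tendsto_nhds_zero]
  intro ε hε
  have hC2 : C + 3 ≠ ⊤ := by simp [hC]
  have hC0 : C + 3 ≠ 0 := by simp
  obtain ⟨g, hgc, hgε, hgcont, hgm⟩ := hf.exists_hasCompactSupport_eLpNorm_sub_le
    (ε := ε / (C + 3)) (by norm_num) (ENNReal.div_pos hε.ne' hC2).ne'
  have hev := (ENNReal.tendsto_nhds_zero.1 (hcont g hgcont hgc hgm)) (ε / (C + 3))
    (ENNReal.div_pos hε.ne' hC2)
  filter_upwards [hev] with n hn
  have hfg : MemLp (f - g) 2 volume := hf.sub hgm
  have e1 : Op n f - f = Op n (f - g) + ((Op n g - g) + (g - f)) := by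
    rw [hsub n f g hf hgm]; abel
  have hm1 := hm n _ hfg
  have hm2 : AEStronglyMeasurable (Op n g - g) μ' :=
    (hm n g hgm).sub hgcont.aestronglyMeasurable
  have hm3 : AEStronglyMeasurable (g - f) μ' :=
    hgcont.aestronglyMeasurable.sub (hf.1.mono_measure hμ)
  have h3 : eLpNorm (g - f) 2 μ' ≤ ε / (C + 3) := by
    rw [← eLpNorm_neg, neg_sub]
    exact (eLpNorm_mono_measure _ hμ).trans hgε
  calc eLpNorm (Op n f - f) 2 μ'
      ≤ eLpNorm (Op n (f - g)) 2 μ' + (eLpNorm (Op n g - g) 2 μ' + eLpNorm (g - f) 2 μ') := by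
        rw [e1]
        refine (eLpNorm_add_le hm1 (hm2.add hm3) (by norm_num)).trans ?_
        gcongr
        exact eLpNorm_add_le hm2 hm3 (by norm_num)
    _ ≤ C * (ε / (C + 3)) + (ε / (C + 3) + ε / (C + 3)) := by
        gcongr
        exact (hb n _ hfg).trans (by gcongr)
    _ ≤ (C + 3) * (ε / (C + 3)) := by
        rw [add_mul]
        gcongr
        have h3 : (3 : ℝ≥0∞) = 1 + 1 + 1 := by norm_num
        rw [h3, add_mul, add_mul, one_mul]
        exact le_self_add
    _ ≤ ε := ENNReal.mul_div_le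

/-- Mean square convergence of mollifications. -/
theorem tendsto_mol_L2 [CompleteSpace F] {μ' : Measure V} (hμ : μ' ≤ volume) [IsFiniteMeasure μ']
    {f : V → F} (hf : MemLp f 2 volume) :
    Tendsto (fun n => eLpNorm (mol (bump V n) f - f) 2 μ') atTop (𝓝 0) := by
  have hli : ∀ {f : V → F}, MemLp f 2 volume → LocallyIntegrable f := fun h =>
    h.locallyIntegrable (by norm_num)
  refine approx_L2 hμ (fun n => mol (bump V n)) (C := 1) (by simp) ?_ ?_ ?_ ?_ hf
  · intro n f g hf hg
    funext x
    exact mol_sub _ (hli hf) (hli hg) x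
  · intro n f hf
    exact (mol_contDiff _ (hli hf)).continuous.aestronglyMeasurable
  · intro n f hf
    refine (eLpNorm_mono_measure _ hμ).trans ?_
    apply eLpNorm_le_of_sq
    rw [one_pow, one_mul]
    exact lintegral_mol_sq_le' _ hf.1
  · intro g hg hgc
    constructor
    · obtain ⟨M, hM⟩ := hg.bounded_above_of_compact_support hgc
      refine ⟨2 * M, fun n x => ?_⟩
      rw [← dist_eq_norm]
      apply (bump V n).dist_normed_convolution_le hg.aestronglyMeasurable
      intro y _
      rw [dist_eq_norm]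
      calc ‖g y - g x‖ ≤ ‖g y‖ + ‖g x‖ := norm_sub_le _ _
        _ ≤ 2 * M := by linarith [hM x, hM y]
    · intro x
      rw [Metric.tendsto_atTop]
      intro ε hε
      obtain ⟨r, hr, hgr⟩ := Metric.continuousAt_iff.1 hg.continuousAt (ε / 2) (by positivity)
      obtain ⟨N, hN⟩ := (Metric.tendsto_atTop.1 (bump_tendsto (V := V))) r hr
      refine ⟨N, fun n hn => ?_⟩
      have hn1 := hN n hn
      rw [Real.dist_eq, sub_zero, abs_of_pos (bump V n).rOut_pos] at hn1
      refine lt_of_le_of_lt ?_ (half_lt_self hε)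
      apply (bump V n).dist_normed_convolution_le hg.aestronglyMeasurable
      intro y hy
      exact (hgr ((Metric.mem_ball.1 hy).trans hn1)).le

end general

end Pool.Agent.Lib.MP_05a445_an
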