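import Pool.Agent.Lib.MP_05a445_an.Hodge
import Pool.Agent.Lib.MP_05a445_an.MolTwo

/-!
Forms which vanish near the singular point and have a weak exterior derivative are in the domain
of the strong exterior derivative.
-/

set_option autoImplicit false
set_option linter.unusedSectionVars false

namespace Pool.Agent.Lib.MP_05a445_an

open MeasureTheory Set Filter Topology ContinuousAlternatingMap ContinuousLinearMap
open scoped ContDiff NNReal ENNReal Convolution

/-! ### Anisotropic dilations -/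

/-- The dilation `(y, b) ↦ (s ^ 2 y, s b)`. -/
noncomputable def An (s : ℝ) : ℂ × ℂ →L[ℝ] ℂ × ℂ :=
  (s ^ 2 • ContinuousLinearMap.id ℝ ℂ).prodMap (s • ContinuousLinearMap.id ℝ ℂ)

@[simp] lemma An_apply (s : ℝ) (z : ℂ × ℂ) : An s z = (s ^ 2 • z.1, s • z.2) := rfl

lemma det_An (s : ℝ) : (An s).det = s ^ 6 := by
  have h1 : (An s).det = LinearMap.det (((s ^ 2) • (LinearMap.id : ℂ →ₗ[ℝ] ℂ)).prodMap
    (s • (LinearMap.id : ℂ →ₗ[ℝ] ℂ))) := rfl
  rw [h1, LinearMap.det_prodMap, LinearMap.det_smul, LinearMap.det_smul, LinearMap.det_id,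
    Complex.finrank_real_complex]
  ring

lemma An_inv {s : ℝ} (hs : s ≠ 0) (z : ℂ × ℂ) : An s (An s⁻¹ z) = z := by
  simp only [An_apply, smul_smul]
  rw [← mul_pow, mul_inv_cancel₀ hs, one_pow, one_smul, one_smul]

lemma An_inv' {s : ℝ} (hs : s ≠ 0) (z : ℂ × ℂ) : An s⁻¹ (An s z) = z := by
  simp only [An_apply, smul_smul]
  rw [← mul_pow, inv_mul_cancel₀ hs, one_pow, one_smul, one_smul]

lemma continuous_An : Continuous An := by
  have h : An = fun s : ℝ => s ^ 2 • (ContinuousLinearMap.id ℝ ℂ).prodMap (0 : ℂ →L[ℝ] ℂ) +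
      s • (0 : ℂ →L[ℝ] ℂ).prodMap (ContinuousLinearMap.id ℝ ℂ) := by
    funext s
    ext z <;> simp
  rw [h]
  fun_prop

lemma An_one : An 1 = ContinuousLinearMap.id ℝ (ℂ × ℂ) := by
  ext z <;> simp

lemma norm_An_le {s : ℝ} (h0 : 0 ≤ s) (h1 : s ≤ 1) : ‖An s‖ ≤ 1 := by
  apply ContinuousLinearMap.opNorm_le_bound _ zero_le_one
  intro z
  rw [An_apply, Prod.norm_def, Prod.norm_def, one_mul]
  simp only [norm_smul, Real.norm_eq_abs]
  apply max_le_max
  · apply mul_le_of_le_one_left (norm_nonneg _)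
    rw [abs_of_nonneg (by positivity)]
    exact pow_le_one₀ h0 h1
  · apply mul_le_of_le_one_left (norm_nonneg _)
    rw [abs_of_nonneg h0]
    exact h1

section general

variable {V : Type*} [NormedAddCommGroup V] [NormedSpace ℝ V] [FiniteDimensional ℝ V]
  [MeasureSpace V] [BorelSpace V] [(volume : Measure V).IsAddHaarMeasure]

lemma integral_comp_lin' {F : Type*} [NormedAddCommGroup F] [NormedSpace ℝ F]
    {A : V →L[ℝ] V} (hA : A.det ≠ 0) (g : V → F) :
    ∫ x, g (A x) = |A.det|⁻¹ • ∫ x, g x := by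
  have h1 : ∫ x, g (A x) = ∫ y, g y ∂(Measure.map A volume) :=
    ((measurableEmbedding_lin hA).integral_map g).symm
  rw [h1, map_lin hA, integral_smul_measure, ENNReal.toReal_ofReal (abs_nonneg _), abs_inv]

omit [FiniteDimensional ℝ V] [MeasureSpace V] [BorelSpace V]
  [(volume : Measure V).IsAddHaarMeasure] in
lemma wd_comp {q : ℕ} (A : V →L[ℝ] V) (l : V →L[ℝ] ℝ) (f : V [⋀^Fin q]→L[ℝ] ℝ) :
    wd (l.comp A) (f.compContinuousLinearMap A) = (wd l f).compContinuousLinearMap A := by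
  ext v
  rw [wd_apply, ContinuousAlternatingMap.compContinuousLinearMap_apply, wd_apply]
  rfl

omit [FiniteDimensional ℝ V] [MeasureSpace V] [BorelSpace V]
  [(volume : Measure V).IsAddHaarMeasure] in
lemma test_comp {A B : V →L[ℝ] V} (hAB : ∀ x, A (B x) = x)
    {O : Set V} {ψ : V → ℝ} (hψ : IsTest (A ⁻¹' O) ψ) : IsTest O (fun y => ψ (B y)) := by
  have hsub : tsupport (fun y => ψ (B y)) ⊆ A '' tsupport ψ := by
    have hK : IsCompact (A '' tsupport ψ) := hψ.compact.isCompact.image A.continuous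
    apply closure_minimal _ hK.isClosed
    intro y hy
    exact ⟨B y, subset_closure hy, hAB y⟩
  refine ⟨hψ.smooth.comp B.contDiff, ?_, ?_⟩
  · exact HasCompactSupport.of_support_subset_isCompact
      (hψ.compact.isCompact.image A.continuous) (subset_closure.trans hsub)
  · rintro y hy
    obtain ⟨x, hx, rfl⟩ := hsub hy
    exact hψ.supp hx

/-- Pulling back a weak exterior derivative by a linear map. -/
lemma wd_pb {q : ℕ} {A B : V →L[ℝ] V} (hA : A.det ≠ 0) (hAB : ∀ x, A (B x) = x)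
    (hBA : ∀ x, B (A x) = x) {O : Set V} {f : V → V [⋀^Fin q]→L[ℝ] ℝ}
    {g : V → V [⋀^Fin (q + 1)]→L[ℝ] ℝ}
    (h : ∀ ψ : V → ℝ, IsTest O ψ → ∫ x, ψ x • g x = - ∫ x, wd (fderiv ℝ ψ x) (f x))
    (hf : Integrable f) (hg : Integrable g)
    {ψ : V → ℝ} (hψ : IsTest (A ⁻¹' O) ψ) :
    ∫ x, ψ x • pb A g x = - ∫ x, wd (fderiv ℝ ψ x) (pb A f x) := by
  have ht := test_comp hAB hψ
  have ht1 := ht.contDiff_one
  have h0 := h _ ht
  have hi1 : Integrable (fun x => ψ (B x) • g x) := integrable_test_smul hg ht1 ht.compact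
  have hi2 : Integrable (fun x => wd (fderiv ℝ (fun y => ψ (B y)) x) (f x)) :=
    integrable_test_wd hf ht1 ht.compact
  have e1 : ∫ x, ψ x • pb A g x = cc A (∫ x, ψ (B (A x)) • g (A x)) := by
    rw [← ContinuousLinearMap.integral_comp_comm (cc A) (integrable_comp_lin hA hi1)]
    refine integral_congr_ae (Eventually.of_forall fun x => ?_)
    simp only
    rw [hBA, map_smul]
    rfl
  have e2 : ∫ x, wd (fderiv ℝ ψ x) (pb A f x) =
      cc A (∫ x, wd (fderiv ℝ (fun y => ψ (B y)) (A x)) (f (A x))) := by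
    rw [← ContinuousLinearMap.integral_comp_comm (cc A) (integrable_comp_lin hA hi2)]
    refine integral_congr_ae (Eventually.of_forall fun x => ?_)
    simp only
    have h1 : fderiv ℝ ψ x = (fderiv ℝ (fun y => ψ (B y)) (A x)).comp A := by
      have h2 : HasFDerivAt (fun y => ψ (B y)) (fderiv ℝ (fun y => ψ (B y)) (A x)) (A x) :=
        (ht1.differentiable (by norm_num) (A x)).hasFDerivAt
      have h3 : HasFDerivAt (fun z => ψ (B (A z)))
          ((fderiv ℝ (fun y => ψ (B y)) (A x)).comp A) x := h2.comp x A.hasFDerivAt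
      simp_rw [hBA] at h3
      exact h3.fderiv
    rw [h1]
    exact wd_comp A _ _
  rw [e1, e2, integral_comp_lin' hA (fun y => ψ (B y) • g y),
    integral_comp_lin' hA (fun y => wd (fderiv ℝ (fun y => ψ (B y)) y) (f y)), h0, smul_neg,
    map_neg]

end general

/-! ### Pulled back forms -/

/-- The sequence of dilation parameters. -/
noncomputable def sn (n : ℕ) : ℝ := 1 - 1 / ((n : ℝ) + 2)

lemma sn_lt (n : ℕ) : sn n < 1 := by
  have : (0 : ℝ) < 1 / ((n : ℝ) + 2) := by positivity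
  unfold sn; linarith

lemma half_le_sn (n : ℕ) : 1 / 2 ≤ sn n := by
  have h : 1 / ((n : ℝ) + 2) ≤ 1 / 2 := by
    apply one_div_le_one_div_of_le (by norm_num)
    have : (0 : ℝ) ≤ n := Nat.cast_nonneg n
    linarith
  unfold sn; linarith

lemma sn_pos (n : ℕ) : 0 < sn n := by linarith [half_le_sn n]

lemma tendsto_sn : Tendsto sn atTop (𝓝 1) := by
  have h1 : Tendsto (fun n : ℕ => 1 / ((n : ℝ) + 2)) atTop (𝓝 0) := by
    have h2 := (tendsto_one_div_add_atTop_nhds_zero_nat (𝕜 := ℝ)).comp (tendsto_add_atTop_nat 1)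
    refine h2.congr fun n => ?_
    simp only [Function.comp_apply]
    push_cast
    ring
  have h3 := h1.const_sub 1
  rw [sub_zero] at h3
  exact h3

variable {q : ℕ}

lemma det_An_ne {s : ℝ} (hs : s ≠ 0) : (An s).det ≠ 0 := by
  rw [det_An]; exact pow_ne_zero _ hs

lemma memLp_pb {s : ℝ} (h0 : 1 / 2 ≤ s) {f : ℂ × ℂ → (ℂ × ℂ) [⋀^Fin q]→L[ℝ] ℝ}
    (hf : MemLp f 2 volume) : AEStronglyMeasurable (pb (An s) f) volume := by
  have hs : s ≠ 0 := by linarith [h0] 
  have h1 : AEStronglyMeasurable (fun x => f (An s x)) volume := by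
    have h2 : AEStronglyMeasurable f (Measure.map (An s) volume) := by
      rw [map_lin (det_An_ne hs)]
      exact hf.1.smul_measure _
    exact h2.comp_measurable (An s).continuous.measurable
  exact aesm_pb h1

lemma lint_pb_sq {s : ℝ} (h0 : 1 / 2 ≤ s) (h1 : s ≤ 1)
    (f : ℂ × ℂ → (ℂ × ℂ) [⋀^Fin q]→L[ℝ] ℝ) :
    ∫⁻ x, ‖pb (An s) f x‖ₑ ^ 2 ≤ 8 ^ 2 * ∫⁻ x, ‖f x‖ₑ ^ 2 := by
  have hs : 0 < s := by linarith
  calc ∫⁻ x, ‖pb (An s) f x‖ₑ ^ 2 ≤ ∫⁻ x, ‖f (An s x)‖ₑ ^ 2 := by
        refine lintegral_mono fun x => pow_le_pow_left' ?_ 2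
        rw [← ofReal_norm, ← ofReal_norm]
        apply ENNReal.ofReal_le_ofReal
        refine (norm_pb_le _ _ _).trans ?_
        apply mul_le_of_le_one_right (norm_nonneg _)
        exact pow_le_one₀ (norm_nonneg _) (norm_An_le hs.le h1)
    _ = ENNReal.ofReal |(An s).det|⁻¹ * ∫⁻ x, ‖f x‖ₑ ^ 2 :=
        lintegral_comp_lin (det_An_ne hs.ne') (fun x => ‖f x‖ₑ ^ 2)
    _ ≤ _ := by
        gcongr
        rw [det_An, abs_of_pos (by positivity)]
        have h2 : (s ^ 6)⁻¹ ≤ 64 := by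
          rw [inv_le_comm₀ (by positivity) (by norm_num)]
          calc (64 : ℝ)⁻¹ = (1 / 2) ^ 6 := by norm_num
            _ ≤ s ^ 6 := by gcongr
        calc ENNReal.ofReal (s ^ 6)⁻¹ ≤ ENNReal.ofReal 64 := ENNReal.ofReal_le_ofReal h2
          _ = 8 ^ 2 := by norm_num

lemma pb_memLp {s : ℝ} (h0 : 1 / 2 ≤ s) (h1 : s ≤ 1) {f : ℂ × ℂ → (ℂ × ℂ) [⋀^Fin q]→L[ℝ] ℝ}
    (hf : MemLp f 2 volume) : MemLp (pb (An s) f) 2 volume := by
  rw [memLp_two_iff]
  refine ⟨memLp_pb h0 hf, (lint_pb_sq h0 h1 f).trans_lt ?_⟩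
  exact ENNReal.mul_lt_top (by norm_num) (memLp_two_iff.1 hf).2

instance instFiniteT : IsFiniteMeasure ((volume : Measure (ℂ × ℂ)).restrict T) := inferInstance

lemma tendsto_pb_L2 {f : ℂ × ℂ → (ℂ × ℂ) [⋀^Fin q]→L[ℝ] ℝ} (hf : MemLp f 2 volume) :
    Tendsto (fun n => eLpNorm (pb (An (sn n)) f - f) 2 (volume.restrict T)) atTop (𝓝 0) := by
  refine approx_L2 Measure.restrict_le_self (fun n => pb (An (sn n))) (C := 8) (by simp)
    ?_ ?_ ?_ ?_ hf
  · intro n f g _ _
    rfl
  · intro n f hf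
    exact (memLp_pb (half_le_sn n) hf).restrict
  · intro n f hf
    refine (eLpNorm_mono_measure _ Measure.restrict_le_self).trans ?_
    exact eLpNorm_le_of_sq (lint_pb_sq (half_le_sn n) (sn_lt n).le f)
  · intro g hg hgc
    constructor
    · obtain ⟨M, hM⟩ := hg.bounded_above_of_compact_support hgc
      refine ⟨2 * M, fun n x => ?_⟩
      have h1 : ‖pb (An (sn n)) g x‖ ≤ ‖g (An (sn n) x)‖ := by
        refine (norm_pb_le _ _ _).trans ?_
        apply mul_le_of_le_one_right (norm_nonneg _)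
        exact pow_le_one₀ (norm_nonneg _) (norm_An_le (sn_pos n).le (sn_lt n).le)
      calc ‖pb (An (sn n)) g x - g x‖ ≤ ‖pb (An (sn n)) g x‖ + ‖g x‖ := norm_sub_le _ _
        _ ≤ 2 * M := by linarith [hM x, hM (An (sn n) x)]
    · intro x
      have hc : Continuous (fun s : ℝ => cmj (An s, g (An s x))) := by
        apply continuous_cmj.comp
        exact continuous_An.prodMk (hg.comp (continuous_An.clm_apply continuous_const))
      have h1 := (hc.tendsto 1).comp tendsto_sn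
      have h2 : cmj (An 1, g (An 1 x)) = g x := by
        rw [An_one]
        rfl
      rw [h2] at h1
      exact h1

/-! ### Classes of forms -/

/-- The class of a form which is square integrable on the triangle. -/
noncomputable def cls {f : ℂ × ℂ → (ℂ × ℂ) [⋀^Fin q]→L[ℝ] ℝ}
    (hf : MemLp f 2 ((volume : Measure (ℂ × ℂ)).restrict T)) : L2q q :=
  ((cf q).comp_memLp' hf).toLp

lemma cls_coef {f : ℂ × ℂ → (ℂ × ℂ) [⋀^Fin q]→L[ℝ] ℝ}
    (hf : MemLp f 2 ((volume : Measure (ℂ × ℂ)).restrict T)) :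
    ∀ᵐ x ∂(volume.restrict T), cf q (f x) = cls hf x := by
  filter_upwards [((cf q).comp_memLp' hf).coeFn_toLp] with x hx
  exact hx.symm

lemma cls_eq {f : ℂ × ℂ → (ℂ × ℂ) [⋀^Fin q]→L[ℝ] ℝ}
    (hf : MemLp f 2 ((volume : Measure (ℂ × ℂ)).restrict T)) {u : L2q q}
    (h : ∀ᵐ x ∂(volume.restrict T), cf q (f x) = u x) : cls hf = u := by
  apply Lp.ext
  filter_upwards [h, cls_coef hf] with x h1 h2
  rw [← h2, h1]

lemma tendsto_cls {f : ℕ → ℂ × ℂ → (ℂ × ℂ) [⋀^Fin q]→L[ℝ] ℝ}
    (hf : ∀ n, MemLp (f n) 2 ((volume : Measure (ℂ × ℂ)).restrict T))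
    {g : ℂ × ℂ → (ℂ × ℂ) [⋀^Fin q]→L[ℝ] ℝ}
    (hg : MemLp g 2 ((volume : Measure (ℂ × ℂ)).restrict T))
    (h : Tendsto (fun n => eLpNorm (f n - g) 2 (volume.restrict T)) atTop (𝓝 0)) :
    Tendsto (fun n => cls (hf n)) atTop (𝓝 (cls hg)) := by
  unfold cls
  rw [Lp.tendsto_Lp_iff_tendsto_eLpNorm'']
  have h1 : Tendsto (fun n => (‖cf q‖₊ : ℝ≥0∞) * eLpNorm (f n - g) 2 (volume.restrict T))
      atTop (𝓝 0) := by
    have := ENNReal.Tendsto.const_mul h (a := (‖cf q‖₊ : ℝ≥0∞)) (Or.inr (by simp))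
    rwa [mul_zero] at this
  refine tendsto_of_tendsto_of_tendsto_of_le_of_le tendsto_const_nhds h1
    (fun n => bot_le) fun n => ?_
  refine (eLpNorm_le_nnreal_smul_eLpNorm_of_ae_le_mul (g := f n - g) (c := ‖cf q‖₊)
    (Eventually.of_forall fun x => ?_) 2).trans ?_
  · change ‖cf q (f n x) - cf q (g x)‖₊ ≤ ‖cf q‖₊ * ‖f n x - g x‖₊
    rw [← map_sub]
    exact (cf q).le_opNNNorm _
  · rw [ENNReal.smul_def, smul_eq_mul]

/-- Pairs consisting of the class of a smooth form and the class of its exterior derivative. -/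
def SmoothPairs (q : ℕ) : Set (L2q q × L2q (q + 1)) :=
  {p | ∃ w : ℂ × ℂ → (ℂ × ℂ) [⋀^Fin q]→L[ℝ] ℝ, ContDiff ℝ ∞ w ∧ HasCoef q p.1 w ∧
    HasCoef (q + 1) p.2 (extDeriv w)}

/-- The graph of the strong exterior derivative is the closure of the set of smooth pairs. -/
lemma strongD_iff {u : L2q q} {v : L2q (q + 1)} :
    StrongD q u v ↔ (u, v) ∈ closure (SmoothPairs q) := by
  rw [mem_closure_iff_seq_limit]
  constructor
  · rintro ⟨w, a, b, hw, ha, hb, hta, htb⟩
    exact ⟨fun n => (a n, b n), fun n => ⟨w n, hw n, ha n, hb n⟩, hta.prodMk_nhds htb⟩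
  · rintro ⟨p, hp, hlim⟩
    choose w hw ha hb using hp
    exact ⟨w, fun n => (p n).1, fun n => (p n).2, hw, ha, hb,
      (continuous_fst.tendsto _).comp hlim, (continuous_snd.tendsto _).comp hlim⟩

lemma integrable_pb {s : ℝ} (hs : s ≠ 0) {f : ℂ × ℂ → (ℂ × ℂ) [⋀^Fin q]→L[ℝ] ℝ}
    (hf : Integrable f) : Integrable (pb (An s) f) := by
  have h1 := integrable_comp_lin (det_An_ne hs) hf
  apply (h1.norm.mul_const (‖An s‖ ^ q)).mono' (aesm_pb h1.aestronglyMeasurable)
  exact Eventually.of_forall fun x => norm_pb_le _ _ _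

/-- The compact part of the closed triangle away from the singular point. -/
def Kd (δ : ℝ) : Set (ℂ × ℂ) := {z | ‖z.1‖ ≤ ‖z.2‖ ∧ δ / 2 ≤ ‖z.2‖ ∧ ‖z.2‖ ≤ 1}

lemma isCompact_Kd (δ : ℝ) : IsCompact (Kd δ) := by
  apply (isCompact_closedBall (0 : ℂ × ℂ) 1).of_isClosed_subset
  · exact (isClosed_le continuous_fst.norm continuous_snd.norm).inter
      ((isClosed_le continuous_const continuous_snd.norm).inter
        (isClosed_le continuous_snd.norm continuous_const))
  · intro z hz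
    rw [mem_closedBall_zero_iff, Prod.norm_def]
    exact max_le (hz.1.trans hz.2.2) hz.2.2

lemma Kd_subset {δ : ℝ} (hδ : 0 < δ) {s : ℝ} (h0 : 0 < s) (h1 : s < 1) :
    Kd δ ⊆ An s ⁻¹' T := by
  rintro z ⟨hz1, hz2, hz3⟩
  have hz0 : 0 < ‖z.2‖ := by linarith
  rw [mem_preimage, mem_T, An_apply]
  simp only [norm_smul, Real.norm_eq_abs]
  rw [abs_of_pos h0, abs_of_pos (by positivity)]
  constructor
  · calc s ^ 2 * ‖z.1‖ ≤ s ^ 2 * ‖z.2‖ := by gcongr
      _ < s * ‖z.2‖ := by
        apply mul_lt_mul_of_pos_right _ hz0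
        nlinarith
  · calc s * ‖z.2‖ ≤ s * 1 := by gcongr
      _ < 1 := by linarith

/-- The main step: dilated forms are in the domain of the strong exterior derivative. -/
lemma strong_core {f : ℂ × ℂ → (ℂ × ℂ) [⋀^Fin q]→L[ℝ] ℝ}
    {g : ℂ × ℂ → (ℂ × ℂ) [⋀^Fin (q + 1)]→L[ℝ] ℝ} (hf : L2Form f) (hg : L2Form g)
    (hf2 : MemLp f 2 volume) (hg2 : MemLp g 2 volume)
    {δ : ℝ} (hδ : 0 < δ) (hf0 : ∀ x, ‖x.2‖ < δ → f x = 0) (hg0 : ∀ x, ‖x.2‖ < δ → g x = 0)
    (h : ∀ ψ : ℂ × ℂ → ℝ, IsTest T ψ → ∫ x, ψ x • g x = - ∫ x, wd (fderiv ℝ ψ x) (f x))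
    {s : ℝ} (h0 : 1 / 2 ≤ s) (h1 : s < 1) :
    (cls ((pb_memLp h0 h1.le hf2).restrict T), cls ((pb_memLp h0 h1.le hg2).restrict T)) ∈
      closure (SmoothPairs q) := by
  have hs : 0 < s := by linarith
  set fs := pb (An s) f with hfs
  set gs := pb (An s) g with hgs
  have hfs2 : MemLp fs 2 volume := pb_memLp h0 h1.le hf2
  have hgs2 : MemLp gs 2 volume := pb_memLp h0 h1.le hg2
  have hfsi : Integrable fs := integrable_pb hs.ne' hf.integrable
  have hfs0 : ∀ x, ‖x.2‖ < δ → fs x = 0 := by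
    intro x hx
    have h2 : f (An s x) = 0 := by
      apply hf0
      rw [An_apply]
      simp only [norm_smul, Real.norm_eq_abs]
      rw [abs_of_pos hs]
      nlinarith [norm_nonneg x.2]
    rw [hfs]
    unfold pb
    rw [h2]
    rfl
  have hgs0 : ∀ x, ‖x.2‖ < δ → gs x = 0 := by
    intro x hx
    have h2 : g (An s x) = 0 := by
      apply hg0
      rw [An_apply]
      simp only [norm_smul, Real.norm_eq_abs]
      rw [abs_of_pos hs]
      nlinarith [norm_nonneg x.2]
    rw [hgs]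
    unfold pb
    rw [h2]
    rfl
  have hU : IsOpen (An s ⁻¹' T) := isOpen_T.preimage (An s).continuous
  obtain ⟨r, hr, hrK⟩ := (isCompact_Kd δ).exists_cthickening_subset_open hU (Kd_subset hδ hs h1)
  have hid : ∀ ψ : ℂ × ℂ → ℝ, IsTest (An s ⁻¹' T) ψ →
      ∫ x, ψ x • gs x = - ∫ x, wd (fderiv ℝ ψ x) (fs x) := fun ψ hψ =>
    wd_pb (det_An_ne hs.ne') (An_inv hs.ne') (An_inv' hs.ne') h hf.integrable hg.integrable hψ
  have hsmall : ∀ᶠ n in atTop, (bump (ℂ × ℂ) n).rOut < min r (δ / 2) :=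
    (bump_tendsto (V := ℂ × ℂ)).eventually_lt_const (by positivity)
  have hder : ∀ᶠ n in atTop, ∀ x ∈ T, extDeriv (mol (bump (ℂ × ℂ) n) fs) x =
      mol (bump (ℂ × ℂ) n) gs x := by
    filter_upwards [hsmall] with n hn x hx
    apply extDeriv_mol_eq hfsi
    have hn1 : (bump (ℂ × ℂ) n).rOut < r := hn.trans_le (min_le_left _ _)
    have hn2 : (bump (ℂ × ℂ) n).rOut < δ / 2 := hn.trans_le (min_le_right _ _)
    by_cases hxd : δ / 2 ≤ ‖x.2‖
    · have hball : Metric.closedBall x (bump (ℂ × ℂ) n).rOut ⊆ An s ⁻¹' T := by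
        intro y hy
        apply hrK
        exact Metric.mem_cthickening_of_dist_le y x r _ ⟨hx.1.le, hxd, hx.2.le⟩
          ((Metric.mem_closedBall.1 hy).trans hn1.le)
      exact hid _ (isTest_bump _ hball)
    · push Not at hxd
      have hball : Metric.closedBall x (bump (ℂ × ℂ) n).rOut ⊆ {z : ℂ × ℂ | ‖z.2‖ < δ} := by
        intro y hy
        have h2 : ‖y.2 - x.2‖ ≤ ‖y - x‖ := norm_snd_le (y - x)
        have h3 : ‖y - x‖ ≤ (bump (ℂ × ℂ) n).rOut := by
          rw [← dist_eq_norm]; exact Metric.mem_closedBall.1 hy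
        have h4 : ‖y.2‖ ≤ ‖y.2 - x.2‖ + ‖x.2‖ := by
          have := norm_add_le (y.2 - x.2) x.2
          rwa [sub_add_cancel] at this
        change ‖y.2‖ < δ
        linarith
      have ht := isTest_bump (bump (ℂ × ℂ) n) hball
      have e1 : ∀ t, (bump (ℂ × ℂ) n).normed volume (x - t) • gs t = 0 := by
        intro t
        by_cases htd : ‖t.2‖ < δ
        · rw [hgs0 t htd, smul_zero]
        · have : (bump (ℂ × ℂ) n).normed volume (x - t) = 0 :=
            image_eq_zero_of_notMem_tsupport (f := fun t => (bump (ℂ × ℂ) n).normed volume (x - t))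
              (fun hmem => htd (ht.supp hmem))
          rw [this, zero_smul]
      have e2 : ∀ t, wd (fderiv ℝ (fun t => (bump (ℂ × ℂ) n).normed volume (x - t)) t) (fs t) =
          0 := by
        intro t
        by_cases htd : ‖t.2‖ < δ
        · rw [hfs0 t htd, wd_zero_right]
        · have : fderiv ℝ (fun t => (bump (ℂ × ℂ) n).normed volume (x - t)) t = 0 := by
            apply image_eq_zero_of_notMem_tsupport
            intro hmem
            exact htd (ht.supp (tsupport_fderiv_subset ℝ hmem))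
          rw [this, wd_zero_left]
      simp_rw [e1, e2]
      simp
  have hm1 : ∀ n, MemLp (mol (bump (ℂ × ℂ) n) fs) 2 ((volume : Measure (ℂ × ℂ)).restrict T) :=
    fun n => (memLp_mol _ hfs2).restrict T
  have hm2 : ∀ n, MemLp (mol (bump (ℂ × ℂ) n) gs) 2 ((volume : Measure (ℂ × ℂ)).restrict T) :=
    fun n => (memLp_mol _ hgs2).restrict T
  have hlim1 := tendsto_cls hm1 (hfs2.restrict T) (tendsto_mol_L2 Measure.restrict_le_self hfs2)
  have hlim2 := tendsto_cls hm2 (hgs2.restrict T) (tendsto_mol_L2 Measure.restrict_le_self hgs2)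
  apply mem_closure_of_tendsto (hlim1.prodMk_nhds hlim2)
  filter_upwards [hder] with n hn
  refine ⟨mol (bump (ℂ × ℂ) n) fs, mol_contDiff _ hfsi.locallyIntegrable, ?_, ?_⟩
  · filter_upwards [cls_coef (hm1 n)] with x hx
    intro I
    rw [← cf_apply, hx]
  · filter_upwards [cls_coef (hm2 n), ae_restrict_mem measurableSet_T] with x hx hxT
    intro I
    rw [hn x hxT, ← cf_apply, hx]

/-- A square integrable form which vanishes near the singular point and has a square integrable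
weak exterior derivative is in the domain of the strong exterior derivative. -/
theorem strong_of_vanishing {u : L2q q} {v : L2q (q + 1)} (h : WeakD q u v) {δ : ℝ} (hδ : 0 < δ)
    (hu : ∀ᵐ x ∂((volume : Measure (ℂ × ℂ)).restrict T), ‖x.2‖ < δ → u x = 0) :
    StrongD q u v := by
  have hWD : WD T (toF q u) (toF (q + 1) v) :=
    (weakD_iff (l2Form_toF q u) (l2Form_toF (q + 1) v) (cf_toF q u) (cf_toF (q + 1) v)).2 h
  have hu' : ∀ᵐ x ∂((volume : Measure (ℂ × ℂ)).restrict T), ‖x.2‖ < δ → toF q u x = 0 := by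
    filter_upwards [hu, ae_restrict_mem measurableSet_T] with x hx hxT hxd
    rw [toF, indicator_of_mem hxT, hx hxd, _root_.map_zero]
  have hO : IsOpen {z : ℂ × ℂ | ‖z.2‖ < δ} := isOpen_lt continuous_snd.norm continuous_const
  have hv' : ∀ᵐ x ∂((volume : Measure (ℂ × ℂ)).restrict T), ‖x.2‖ < δ →
      toF (q + 1) v x = 0 := by
    have h1 : ∀ᵐ x ∂(volume : Measure (ℂ × ℂ)), x ∈ T ∩ {z : ℂ × ℂ | ‖z.2‖ < δ} →
        toF (q + 1) v x = 0 := by
      apply (isOpen_T.inter hO).ae_eq_zero_of_integral_contDiff_smul_eq_zero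
      · exact (l2Form_toF (q + 1) v).integrable.locallyIntegrable.locallyIntegrableOn _
      · intro ψ hψ hψc hψs
        have ht : IsTest T ψ := ⟨hψ, hψc, hψs.trans inter_subset_left⟩
        have h2 := hWD ψ ht
        have h3 : ∫ x in T, ψ x • toF (q + 1) v x = ∫ x, ψ x • toF (q + 1) v x := by
          apply setIntegral_eq_integral_of_forall_compl_eq_zero
          intro x hx
          rw [(l2Form_toF (q + 1) v).off x hx, smul_zero]
        rw [← h3, h2]
        have h4 : ∫ x in T, wd (fderiv ℝ ψ x) (toF q u x) = 0 := by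
          apply integral_eq_zero_of_ae
          filter_upwards [hu'] with x hx
          by_cases hxd : ‖x.2‖ < δ
          · rw [hx hxd, wd_zero_right]; rfl
          · have : fderiv ℝ ψ x = 0 := by
              apply image_eq_zero_of_notMem_tsupport
              intro hmem
              exact hxd (hψs (tsupport_fderiv_subset ℝ hmem)).2
            rw [this, wd_zero_left]; rfl
        rw [h4, neg_zero]
    filter_upwards [ae_restrict_of_ae h1, ae_restrict_mem measurableSet_T] with x hx hxT hxd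
    exact hx ⟨hxT, hxd⟩
  -- the forms which vanish everywhere near the singular point
  set W : Set (ℂ × ℂ) := {z | δ ≤ ‖z.2‖} with hW
  have hWm : MeasurableSet W := (isClosed_le continuous_const continuous_snd.norm).measurableSet
  set f := W.indicator (toF q u) with hf
  set g := W.indicator (toF (q + 1) v) with hg
  have hfae : ∀ᵐ x ∂((volume : Measure (ℂ × ℂ)).restrict T), toF q u x = f x := by
    filter_upwards [hu'] with x hx
    by_cases hxW : x ∈ W
    · rw [hf, indicator_of_mem hxW]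
    · rw [hf, indicator_of_notMem hxW]
      exact hx (not_le.1 hxW)
  have hgae : ∀ᵐ x ∂((volume : Measure (ℂ × ℂ)).restrict T), toF (q + 1) v x = g x := by
    filter_upwards [hv'] with x hx
    by_cases hxW : x ∈ W
    · rw [hg, indicator_of_mem hxW]
    · rw [hg, indicator_of_notMem hxW]
      exact hx (not_le.1 hxW)
  have hfL : L2Form f := by
    refine ⟨(l2Form_toF q u).sm.indicator hWm, fun x hx => ?_, ?_⟩
    · rw [hf, indicator_apply, (l2Form_toF q u).off x hx, ite_self]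
    · have h1 : ∫⁻ x in T, ‖toF q u x‖ₑ ^ 2 = ∫⁻ x in T, ‖f x‖ₑ ^ 2 := by
        apply lintegral_congr_ae
        filter_upwards [hfae] with x hx
        rw [hx]
      rw [← h1]
      exact (l2Form_toF q u).l2
  have hgL : L2Form g := by
    refine ⟨(l2Form_toF (q + 1) v).sm.indicator hWm, fun x hx => ?_, ?_⟩
    · rw [hg, indicator_apply, (l2Form_toF (q + 1) v).off x hx, ite_self]
    · have h1 : ∫⁻ x in T, ‖toF (q + 1) v x‖ₑ ^ 2 = ∫⁻ x in T, ‖g x‖ₑ ^ 2 := by
        apply lintegral_congr_ae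
        filter_upwards [hgae] with x hx
        rw [hx]
      rw [← h1]
      exact (l2Form_toF (q + 1) v).l2
  have hf2 : MemLp f 2 volume := memLp_two_iff.2 ⟨hfL.sm.aestronglyMeasurable, hfL.l2'⟩
  have hg2 : MemLp g 2 volume := memLp_two_iff.2 ⟨hgL.sm.aestronglyMeasurable, hgL.l2'⟩
  have hWD' := hWD.congr hfae hgae
  have hall : ∀ ψ : ℂ × ℂ → ℝ, IsTest T ψ →
      ∫ x, ψ x • g x = - ∫ x, wd (fderiv ℝ ψ x) (f x) := by
    intro ψ hψ
    have h1 := hWD' ψ hψ
    have h2 : ∫ x in T, ψ x • g x = ∫ x, ψ x • g x := by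
      apply setIntegral_eq_integral_of_forall_compl_eq_zero
      intro x hx
      rw [hgL.off x hx, smul_zero]
    have h3 : ∫ x in T, wd (fderiv ℝ ψ x) (f x) = ∫ x, wd (fderiv ℝ ψ x) (f x) := by
      apply setIntegral_eq_integral_of_forall_compl_eq_zero
      intro x hx
      rw [hfL.off x hx, wd_zero_right]
    rw [← h2, ← h3]
    exact h1
  rw [strongD_iff]
  have hf0 : ∀ x, ‖x.2‖ < δ → f x = 0 := fun x hx =>
    indicator_of_notMem (s := W) (not_le.2 hx) _
  have hg0 : ∀ x, ‖x.2‖ < δ → g x = 0 := fun x hx =>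
    indicator_of_notMem (s := W) (not_le.2 hx) _
  have hcore := fun n => strong_core hfL hgL hf2 hg2 hδ hf0 hg0 hall (half_le_sn n) (sn_lt n)
  have hlim1 := tendsto_cls
    (fun n => (pb_memLp (half_le_sn n) (sn_lt n).le hf2).restrict T) (hf2.restrict T)
    (tendsto_pb_L2 hf2)
  have hlim2 := tendsto_cls
    (fun n => (pb_memLp (half_le_sn n) (sn_lt n).le hg2).restrict T) (hg2.restrict T)
    (tendsto_pb_L2 hg2)
  have e1 : cls (hf2.restrict T) = u := cls_eq _ (by
    filter_upwards [hfae, cf_toF q u] with x h1 h2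
    rw [← h1, h2])
  have e2 : cls (hg2.restrict T) = v := cls_eq _ (by
    filter_upwards [hgae, cf_toF (q + 1) v] with x h1 h2
    rw [← h1, h2])
  rw [e1] at hlim1
  rw [e2] at hlim2
  exact isClosed_closure.mem_of_tendsto (hlim1.prodMk_nhds hlim2)
    (Eventually.of_forall hcore)

end Pool.Agent.Lib.MP_05a445_an
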