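import Pool.Agent.Lib.MP_05a445_an.SolveGood
import Pool.Agent.Lib.MP_05a445_an.StrongAway

/-!
The strong and the weak maximal exterior derivatives on the Hartogs triangle are the same
operator, so that the Hodge theorem holds for the Laplacian of the strong one.
-/

set_option autoImplicit false

namespace Pool.Agent.Lib.MP_05a445_an

theorem away (q : ℕ) : Away q := fun _ _ h _ hδ hu => strong_of_vanishing h hδ hu

theorem strong_eq_weak : StrongD = WeakD := strongD_eq away

theorem hodge_strong : (∀ (q : ℕ) (u : L2q q) (v : L2q (q + 1)), StrongD q u v ↔ WeakD q u v) ∧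
    HodgeTheorem StrongD := by
  rw [strong_eq_weak]
  exact ⟨fun _ _ _ => Iff.rfl, hodge_weak⟩

end Pool.Agent.Lib.MP_05a445_an
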