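import Pool.Agent.Lib.MP_05a445_an.Hodge

/-!
Growth of the primitives at the tip of the triangle.
-/

set_option autoImplicit false
set_option linter.unusedSectionVars false

namespace Pool.Agent.Lib.MP_05a445_an

open MeasureTheory Set Filter Topology ContinuousAlternatingMap ContinuousLinearMap
open scoped ContDiff NNReal ENNReal

/-- The part of the triangle away from the tip. -/
def Aw (n : ℕ) : Set (ℂ × ℂ) := T ∩ {x | Real.exp (-(3 * n)) ≤ ‖x.2‖}

lemma measurableSet_Aw (n : ℕ) : MeasurableSet (Aw n) :=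
  measurableSet_T.inter (measurableSet_le measurable_const (measurable_snd.norm))

/-- The growth condition at the tip. -/
def Good {E : Type*} [NormedAddCommGroup E] (u : ℂ × ℂ → E) : Prop :=
  ∃ C : ℝ≥0, ∀ n : ℕ, 1 ≤ n →
    ∫⁻ x in Aw n, (ENNReal.ofReal (‖x.2‖⁻¹) * ‖u x‖ₑ) ^ 2 ≤ C * (n : ℝ≥0∞) ^ 2

lemma sq_add_le (a b : ℝ≥0∞) : (a + b) ^ 2 ≤ 2 * a ^ 2 + 2 * b ^ 2 := by
  rcases eq_or_ne a ⊤ with rfl | ha
  · simp
  rcases eq_or_ne b ⊤ with rfl | hb
  · simp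
  lift a to ℝ≥0 using ha
  lift b to ℝ≥0 using hb
  norm_cast
  rw [← NNReal.coe_le_coe]
  push_cast
  nlinarith [sq_nonneg ((a : ℝ) - b)]

section generic

variable {E : Type*} [NormedAddCommGroup E] {u v : ℂ × ℂ → E}

lemma measurable_wt (hu : StronglyMeasurable u) :
    Measurable (fun x : ℂ × ℂ => (ENNReal.ofReal (‖x.2‖⁻¹) * ‖u x‖ₑ) ^ 2) := by
  have h1 : Measurable (fun x : ℂ × ℂ => ENNReal.ofReal (‖x.2‖⁻¹)) := by fun_prop
  exact (h1.mul hu.enorm).pow_const 2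

lemma Good.add (hum : StronglyMeasurable u) (hu : Good u) (hv : Good v) :
    Good (fun x => u x + v x) := by
  obtain ⟨C, hC⟩ := hu
  obtain ⟨D, hD⟩ := hv
  refine ⟨2 * C + 2 * D, fun n hn => ?_⟩
  have h1 : ∀ x : ℂ × ℂ, (ENNReal.ofReal (‖x.2‖⁻¹) * ‖u x + v x‖ₑ) ^ 2 ≤
      2 * (ENNReal.ofReal (‖x.2‖⁻¹) * ‖u x‖ₑ) ^ 2 +
      2 * (ENNReal.ofReal (‖x.2‖⁻¹) * ‖v x‖ₑ) ^ 2 := by
    intro x
    refine le_trans ?_ (sq_add_le _ _)
    rw [← mul_add]
    gcongr
    exact enorm_add_le _ _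
  calc ∫⁻ x in Aw n, (ENNReal.ofReal (‖x.2‖⁻¹) * ‖u x + v x‖ₑ) ^ 2
      ≤ ∫⁻ x in Aw n, (2 * (ENNReal.ofReal (‖x.2‖⁻¹) * ‖u x‖ₑ) ^ 2 +
        2 * (ENNReal.ofReal (‖x.2‖⁻¹) * ‖v x‖ₑ) ^ 2) := lintegral_mono h1
    _ = 2 * (∫⁻ x in Aw n, (ENNReal.ofReal (‖x.2‖⁻¹) * ‖u x‖ₑ) ^ 2) +
        2 * (∫⁻ x in Aw n, (ENNReal.ofReal (‖x.2‖⁻¹) * ‖v x‖ₑ) ^ 2) := by
        rw [lintegral_add_left ((measurable_wt hum).const_mul 2),
          lintegral_const_mul' _ _ (by simp), lintegral_const_mul' _ _ (by simp)]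
    _ ≤ 2 * (C * (n : ℝ≥0∞) ^ 2) + 2 * (D * (n : ℝ≥0∞) ^ 2) := by
        gcongr
        · exact hC n hn
        · exact hD n hn
    _ = _ := by push_cast; ring

lemma Good.of_total {C : ℝ≥0∞} (hC : C < ⊤)
    (h : ∫⁻ x in T, (ENNReal.ofReal (‖x.2‖⁻¹) * ‖u x‖ₑ) ^ 2 ≤ C) : Good u := by
  refine ⟨C.toNNReal, fun n hn => ?_⟩
  rw [ENNReal.coe_toNNReal hC.ne]
  calc ∫⁻ x in Aw n, (ENNReal.ofReal (‖x.2‖⁻¹) * ‖u x‖ₑ) ^ 2
      ≤ ∫⁻ x in T, (ENNReal.ofReal (‖x.2‖⁻¹) * ‖u x‖ₑ) ^ 2 :=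
        lintegral_mono_set inter_subset_left
    _ ≤ C * 1 := by rw [mul_one]; exact h
    _ ≤ _ := by
        gcongr
        apply one_le_pow₀
        exact_mod_cast hn

lemma Good.congr (h : Good u) (huv : ∀ x ∈ T, u x = v x) : Good v := by
  obtain ⟨C, hC⟩ := h
  refine ⟨C, fun n hn => ?_⟩
  rw [← setLIntegral_congr_fun (measurableSet_Aw n) (f := fun x =>
    (ENNReal.ofReal (‖x.2‖⁻¹) * ‖u x‖ₑ) ^ 2)]
  · exact hC n hn
  · intro x hx
    simp only
    rw [huv x hx.1]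

end generic

lemma norm_T {x : ℂ × ℂ} (hx : x ∈ T) : ‖x‖ = ‖x.2‖ := by
  rw [Prod.norm_def]
  exact max_eq_right hx.1.le

section fam

variable {C : Type*} [TopologicalSpace C] [MeasurableSpace C] [BorelSpace C]
  [SecondCountableTopology C] {ν : Measure C} [IsProbabilityMeasure ν]

/-- The averaged primitives are good. -/
lemma good_fam (L : LinFam T ν) {q : ℕ} {f : ℂ × ℂ → (ℂ × ℂ) [⋀^Fin (q + 1)]→L[ℝ] ℝ}
    (hf : L2Form f) : Good (T.indicator (L.U f)) := by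
  set D : ℝ≥0∞ := ENNReal.ofReal (L.M * L.M ^ q) with hD
  have hpt : ∀ x ∈ T, (ENNReal.ofReal (‖x.2‖⁻¹) * ‖T.indicator (L.U f) x‖ₑ) ^ 2 ≤
      D ^ 2 * ∫⁻ p, ‖f (L.A p.1 p.2 x)‖ₑ ^ 2 ∂(kap ν) := by
    intro x hx
    have hx0 : 0 < ‖x.2‖ := snd_pos hx
    have hm : Measurable (fun p : C × ℝ => ‖f (L.A p.1 p.2 x)‖ₑ) := by
      have := (L.sm_f hf.sm).comp_measurable (g := fun p : C × ℝ => (x, p))
        (measurable_const.prodMk measurable_id)
      exact this.enorm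
    have h1 : ‖L.U f x‖ₑ ≤ (ENNReal.ofReal ‖x.2‖ * D) *
        ∫⁻ p, ‖f (L.A p.1 p.2 x)‖ₑ ∂(kap ν) := by
      rw [← lintegral_const_mul _ hm]
      refine (enorm_integral_le_lintegral_enorm _).trans (lintegral_mono_ae ?_)
      filter_upwards [L.ae_bound] with p hp
      refine (enorm_ct_le hp.1 hp.2 (norm_T hx).le).trans (le_of_eq ?_)
      rw [hD, ← ENNReal.ofReal_mul hx0.le]
      congr 2
      ring
    rw [indicator_of_mem hx]
    calc (ENNReal.ofReal (‖x.2‖⁻¹) * ‖L.U f x‖ₑ) ^ 2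
        ≤ (ENNReal.ofReal (‖x.2‖⁻¹) * ((ENNReal.ofReal ‖x.2‖ * D) *
          ∫⁻ p, ‖f (L.A p.1 p.2 x)‖ₑ ∂(kap ν))) ^ 2 := by gcongr
      _ = (D * ∫⁻ p, ‖f (L.A p.1 p.2 x)‖ₑ ∂(kap ν)) ^ 2 := by
        rw [← mul_assoc, ← mul_assoc, ← ENNReal.ofReal_mul (by positivity),
          inv_mul_cancel₀ hx0.ne', ENNReal.ofReal_one, one_mul]
      _ = D ^ 2 * (∫⁻ p, ‖f (L.A p.1 p.2 x)‖ₑ ∂(kap ν)) ^ 2 := by rw [mul_pow]
      _ ≤ _ := by
        gcongr
        exact sq_lintegral_le _ hm.aemeasurable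
  have hk : Measurable (fun y : ℂ × ℂ => ‖f y‖ₑ ^ 2) := (hf.sm.enorm).pow_const 2
  have hmi : Measurable (fun x => ∫⁻ p, ‖f (L.A p.1 p.2 x)‖ₑ ^ 2 ∂(kap ν)) := by
    have := ((L.sm_f hf.sm).enorm).pow_const 2
    exact this.lintegral_prod_right'
  apply Good.of_total (C := D ^ 2 * (L.K * ∫⁻ x in T, ‖f x‖ₑ ^ 2))
  · apply ENNReal.mul_lt_top (by simp [hD])
    exact ENNReal.mul_lt_top (by simp) hf.l2
  · calc ∫⁻ x in T, (ENNReal.ofReal (‖x.2‖⁻¹) * ‖T.indicator (L.U f) x‖ₑ) ^ 2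
        ≤ ∫⁻ x in T, D ^ 2 * ∫⁻ p, ‖f (L.A p.1 p.2 x)‖ₑ ^ 2 ∂(kap ν) :=
          setLIntegral_mono' measurableSet_T hpt
      _ = D ^ 2 * ∫⁻ x in T, ∫⁻ p, ‖f (L.A p.1 p.2 x)‖ₑ ^ 2 ∂(kap ν) :=
          lintegral_const_mul _ hmi
      _ ≤ D ^ 2 * (L.K * ∫⁻ x in T, ‖f x‖ₑ ^ 2) := by
          gcongr
          exact L.lint_kap hk

end fam

lemma enorm_of_zero {E : Type*} [NormedAddCommGroup E] {a : E} (h : a = 0) : ‖a‖ₑ = 0 := by
  rw [h, enorm_zero]

lemma lint_shrink {s t : Set ℝ} (hs : MeasurableSet s) (ht : MeasurableSet t) (hst : s ⊆ t)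
    {g : ℝ → ℝ≥0∞} (h : ∀ x ∈ t \ s, g x = 0) : ∫⁻ x in t, g x = ∫⁻ x in s, g x := by
  have h1 : ∫⁻ x in t, g x = ∫⁻ x in t, s.indicator g x := by
    apply setLIntegral_congr_fun ht
    intro x hx
    by_cases hxs : x ∈ s
    · rw [indicator_of_mem hxs]
    · rw [indicator_of_notMem hxs, h x ⟨hx, hxs⟩]
  rw [h1, setLIntegral_indicator hs, inter_eq_self_of_subset_left hst]

lemma lint_inv {N : ℝ} (hN : 0 ≤ N) :
    ∫⁻ t in Ioc 1 (Real.exp N), ENNReal.ofReal (t⁻¹) = ENNReal.ofReal N := by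
  have h1 : (1 : ℝ) ≤ Real.exp N := Real.one_le_exp hN
  have h2 : IntegrableOn (fun t : ℝ => t⁻¹) (Ioc 1 (Real.exp N)) := by
    rw [← intervalIntegrable_iff_integrableOn_Ioc_of_le h1]
    apply ContinuousOn.intervalIntegrable
    rw [uIcc_of_le h1]
    exact continuousOn_inv₀.mono fun t ht => (one_pos.trans_le ht.1).ne'
  rw [← ofReal_integral_eq_lintegral_ofReal h2]
  · congr 1
    rw [← intervalIntegral.integral_of_le h1, integral_inv_of_pos one_pos (Real.exp_pos N)]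
    simp
  · filter_upwards [ae_restrict_mem measurableSet_Ioc] with t ht
    have : (0 : ℝ) < t := one_pos.trans ht.1
    positivity

/-- The integral along rays from outside. -/
lemma ray_bound {h : ℂ × ℂ → ℝ≥0∞} (hm : Measurable h) (h0 : ∀ x ∉ T, h x = 0) (n : ℕ) :
    ∫⁻ x in Aw n, (∫⁻ t in Ioi (1 : ℝ), ENNReal.ofReal t * h (dil t x)) ^ 2 ≤
      ENNReal.ofReal (3 * n) ^ 2 * ∫⁻ x, h x ^ 2 := by
  set N : ℝ := 3 * n with hN
  have hN0 : 0 ≤ N := by positivity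
  have hjm : Measurable (fun z : (ℂ × ℂ) × ℝ => h (dil z.2 z.1)) := by
    have hc : Continuous (fun z : (ℂ × ℂ) × ℝ => dil z.2 z.1) :=
      (continuous_dil.comp continuous_snd).clm_apply continuous_fst
    exact hm.comp hc.measurable
  have hpt : ∀ x ∈ Aw n, (∫⁻ t in Ioi (1 : ℝ), ENNReal.ofReal t * h (dil t x)) ^ 2 ≤
      ENNReal.ofReal N * ∫⁻ t in Ioc 1 (Real.exp N), ENNReal.ofReal (t ^ 3) * h (dil t x) ^ 2 := by
    intro x hx
    have hx1 : Real.exp (-N) ≤ ‖x.2‖ := hx.2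
    have e1 : ∫⁻ t in Ioi (1 : ℝ), ENNReal.ofReal t * h (dil t x) =
        ∫⁻ t in Ioc 1 (Real.exp N), ENNReal.ofReal t * h (dil t x) := by
      apply lint_shrink measurableSet_Ioc measurableSet_Ioi Ioc_subset_Ioi_self
      intro t ht
      have ht2 : Real.exp N < t := by
        by_contra hcon
        exact ht.2 ⟨ht.1, not_lt.1 hcon⟩
      rw [h0, mul_zero]
      intro hT
      have h3 : ‖(dil t x).2‖ < 1 := hT.2
      have ht0 : 0 < t := (Real.exp_pos N).trans ht2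
      rw [dil_apply, Prod.smul_snd, norm_smul, Real.norm_of_nonneg ht0.le] at h3
      have h4 : Real.exp N * Real.exp (-N) ≤ t * ‖x.2‖ := by gcongr
      rw [← Real.exp_add, add_neg_cancel, Real.exp_zero] at h4
      linarith
    have hmt : Measurable (fun t : ℝ => h (dil t x)) :=
      hjm.comp (g := fun z : (ℂ × ℂ) × ℝ => h (dil z.2 z.1)) (f := fun t : ℝ => (x, t))
        (measurable_const.prodMk measurable_id)
    have h2 := sq_lintegral_mul_le (volume.restrict (Ioc 1 (Real.exp N)))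
      (g := fun t : ℝ => ENNReal.ofReal (√(t⁻¹)))
      (h := fun t => ENNReal.ofReal (√(t ^ 3)) * h (dil t x))
      (by fun_prop) (by
        have : Measurable (fun t : ℝ => ENNReal.ofReal (√(t ^ 3))) := by fun_prop
        exact (this.mul hmt).aemeasurable)
    rw [e1]
    calc (∫⁻ t in Ioc 1 (Real.exp N), ENNReal.ofReal t * h (dil t x)) ^ 2
        = (∫⁻ t in Ioc 1 (Real.exp N), ENNReal.ofReal (√(t⁻¹)) *
          (ENNReal.ofReal (√(t ^ 3)) * h (dil t x))) ^ 2 := by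
          congr 1
          apply setLIntegral_congr_fun measurableSet_Ioc
          intro t ht
          have ht0 : (0 : ℝ) < t := one_pos.trans ht.1
          simp only
          rw [← mul_assoc, ← ENNReal.ofReal_mul (by positivity), ← Real.sqrt_mul (by positivity)]
          have e2 : t⁻¹ * t ^ 3 = t ^ 2 := by field_simp
          rw [e2, Real.sqrt_sq ht0.le]
      _ ≤ _ := h2
      _ = _ := by
          congr 1
          · rw [← lint_inv hN0]
            apply setLIntegral_congr_fun measurableSet_Ioc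
            intro t ht
            have ht0 : (0 : ℝ) < t := one_pos.trans ht.1
            simp only
            rw [← ENNReal.ofReal_pow (by positivity), Real.sq_sqrt (by positivity)]
          · apply setLIntegral_congr_fun measurableSet_Ioc
            intro t ht
            have ht0 : (0 : ℝ) < t := one_pos.trans ht.1
            simp only
            rw [mul_pow, ← ENNReal.ofReal_pow (by positivity), Real.sq_sqrt (by positivity)]
  have hm2 : Measurable (fun z : (ℂ × ℂ) × ℝ =>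
      ENNReal.ofReal (z.2 ^ 3) * h (dil z.2 z.1) ^ 2) :=
    ((measurable_snd.pow_const 3).ennreal_ofReal).mul (hjm.pow_const 2)
  calc ∫⁻ x in Aw n, (∫⁻ t in Ioi (1 : ℝ), ENNReal.ofReal t * h (dil t x)) ^ 2
      ≤ ∫⁻ x in Aw n, ENNReal.ofReal N *
        ∫⁻ t in Ioc 1 (Real.exp N), ENNReal.ofReal (t ^ 3) * h (dil t x) ^ 2 :=
        setLIntegral_mono' (measurableSet_Aw n) hpt
    _ ≤ ∫⁻ x in T, ENNReal.ofReal N *
        ∫⁻ t in Ioc 1 (Real.exp N), ENNReal.ofReal (t ^ 3) * h (dil t x) ^ 2 :=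
        lintegral_mono_set inter_subset_left
    _ = ENNReal.ofReal N * ∫⁻ x in T,
        ∫⁻ t in Ioc 1 (Real.exp N), ENNReal.ofReal (t ^ 3) * h (dil t x) ^ 2 :=
        lintegral_const_mul _ hm2.lintegral_prod_right'
    _ = ENNReal.ofReal N * ∫⁻ t in Ioc 1 (Real.exp N), ∫⁻ x in T,
        ENNReal.ofReal (t ^ 3) * h (dil t x) ^ 2 := by
        rw [lintegral_lintegral_swap hm2.aemeasurable]
    _ ≤ ENNReal.ofReal N * ∫⁻ t in Ioc 1 (Real.exp N),
        ENNReal.ofReal (t⁻¹) * ∫⁻ x, h x ^ 2 := by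
        refine mul_le_mul' le_rfl ?_
        apply setLIntegral_mono' measurableSet_Ioc
        intro t ht
        have ht0 : (0 : ℝ) < t := one_pos.trans ht.1
        have hm3 : Measurable (fun x : ℂ × ℂ => h (dil t x) ^ 2) := by
          have := hjm.comp (g := fun z : (ℂ × ℂ) × ℝ => h (dil z.2 z.1))
            (f := fun x : ℂ × ℂ => (x, t)) (measurable_id.prodMk measurable_const)
          exact this.pow_const 2
        rw [lintegral_const_mul _ hm3]
        calc ENNReal.ofReal (t ^ 3) * ∫⁻ x in T, h (dil t x) ^ 2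
            ≤ ENNReal.ofReal (t ^ 3) * (ENNReal.ofReal ((t ^ 4)⁻¹) * ∫⁻ x, h x ^ 2) := by
              gcongr
              exact lintegral_dil ht0 (fun y => h y ^ 2)
          _ = _ := by
              rw [← mul_assoc, ← ENNReal.ofReal_mul (by positivity)]
              congr 2
              field_simp
    _ = _ := by
        rw [lintegral_mul_const _ (by fun_prop), lint_inv hN0]
        ring

/-- Integration from outside gives good primitives. -/
lemma good_out {q : ℕ} (hq : q ≤ 1) {f : ℂ × ℂ → (ℂ × ℂ) [⋀^Fin (q + 1)]→L[ℝ] ℝ}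
    (hf : L2Form f) : Good (T.indicator (outU f)) := by
  have hpt : ∀ x ∈ T, ENNReal.ofReal (‖x.2‖⁻¹) * ‖T.indicator (outU f) x‖ₑ ≤
      ∫⁻ t in Ioi (1 : ℝ), ENNReal.ofReal t * ‖f (dil t x)‖ₑ := by
    intro x hx
    have hx0 : 0 < ‖x.2‖ := snd_pos hx
    rw [indicator_of_mem hx]
    have hm : Measurable (fun t : ℝ => ‖f (dil t x)‖ₑ) := by
      have := (sm_fdil hf.sm).comp_measurable (g := fun t : ℝ => (x, t))
        (measurable_const.prodMk measurable_id)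
      exact this.enorm
    have h1 : ‖outU f x‖ₑ ≤ ENNReal.ofReal ‖x.2‖ *
        ∫⁻ t in Ioi (1 : ℝ), ENNReal.ofReal t * ‖f (dil t x)‖ₑ := by
      have hmm : Measurable (fun t : ℝ => ENNReal.ofReal t * ‖f (dil t x)‖ₑ) :=
        (measurable_id.ennreal_ofReal).mul hm
      rw [← lintegral_const_mul _ hmm]
      unfold outU
      rw [enorm_neg]
      refine (enorm_integral_le_lintegral_enorm _).trans ?_
      apply setLIntegral_mono' measurableSet_Ioi
      intro t ht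
      have ht1 : (1 : ℝ) < t := ht
      have ht0 : 0 < t := one_pos.trans ht1
      rw [← mul_assoc, ← ENNReal.ofReal_mul hx0.le, ← ofReal_norm, ← ofReal_norm,
        ← ENNReal.ofReal_mul (by positivity)]
      apply ENNReal.ofReal_le_ofReal
      refine (norm_ct_le _ _ _ _).trans ?_
      have h2 : ‖dil t‖ ^ q ≤ t := by
        have h3 : ‖dil t‖ ≤ t := (norm_dil_le t).trans (abs_of_pos ht0).le
        calc ‖dil t‖ ^ q ≤ t ^ q := by gcongr
          _ ≤ t ^ 1 := pow_le_pow_right₀ ht1.le hq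
          _ = t := pow_one t
      calc ‖f (dil t x)‖ * (‖(ContinuousLinearMap.id ℝ (ℂ × ℂ)) x‖ * ‖dil t‖ ^ q)
          ≤ ‖f (dil t x)‖ * (‖x.2‖ * t) := by
            gcongr
            exact (norm_T hx).le
        _ = _ := by ring
    calc ENNReal.ofReal (‖x.2‖⁻¹) * ‖outU f x‖ₑ
        ≤ ENNReal.ofReal (‖x.2‖⁻¹) * (ENNReal.ofReal ‖x.2‖ *
          ∫⁻ t in Ioi (1 : ℝ), ENNReal.ofReal t * ‖f (dil t x)‖ₑ) := by gcongr
      _ = _ := by
        rw [← mul_assoc, ← ENNReal.ofReal_mul (by positivity), inv_mul_cancel₀ hx0.ne',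
          ENNReal.ofReal_one, one_mul]
  refine ⟨9 * (∫⁻ x, ‖f x‖ₑ ^ 2).toNNReal, fun n _ => ?_⟩
  calc ∫⁻ x in Aw n, (ENNReal.ofReal (‖x.2‖⁻¹) * ‖T.indicator (outU f) x‖ₑ) ^ 2
      ≤ ∫⁻ x in Aw n, (∫⁻ t in Ioi (1 : ℝ), ENNReal.ofReal t * ‖f (dil t x)‖ₑ) ^ 2 := by
        apply setLIntegral_mono' (measurableSet_Aw n)
        intro x hx
        gcongr
        exact hpt x hx.1
    _ ≤ ENNReal.ofReal (3 * n) ^ 2 * ∫⁻ x, ‖f x‖ₑ ^ 2 := by
        apply ray_bound hf.sm.enorm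
        intro x hx
        exact enorm_of_zero (hf.off x hx)
    _ = _ := by
        push_cast
        rw [ENNReal.coe_toNNReal hf.l2'.ne, ENNReal.ofReal_mul (by norm_num),
          ENNReal.ofReal_natCast]
        have : ENNReal.ofReal 3 = 3 := by simp
        rw [this]
        ring

/-- The angular form is good. -/
lemma good_om : Good omT := by
  have hind : ∀ x ∈ T, ∫⁻ t in Ioi (1 : ℝ), ENNReal.ofReal t * T.indicator 1 (dil t x) =
      ENNReal.ofReal (((‖x.2‖⁻¹) ^ 2 - 1) / 2) := by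
    intro x hx
    have hx0 : 0 < ‖x.2‖ := snd_pos hx
    have hx1 : (1 : ℝ) < ‖x.2‖⁻¹ := (one_lt_inv₀ hx0).2 hx.2
    have e1 : ∫⁻ t in Ioi (1 : ℝ), ENNReal.ofReal t * T.indicator 1 (dil t x) =
        ∫⁻ t in Ioo (1 : ℝ) (‖x.2‖⁻¹), ENNReal.ofReal t := by
      have e2 : ∫⁻ t in Ioo (1 : ℝ) (‖x.2‖⁻¹), ENNReal.ofReal t =
          ∫⁻ t in Ioo (1 : ℝ) (‖x.2‖⁻¹), ENNReal.ofReal t * T.indicator 1 (dil t x) := by
        apply setLIntegral_congr_fun measurableSet_Ioo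
        intro t ht
        have ht0 : (0 : ℝ) < t := one_pos.trans ht.1
        have h1 : dil t x ∈ T := by
          rw [mem_T, dil_apply, Prod.smul_fst, Prod.smul_snd, norm_smul, norm_smul,
            Real.norm_of_nonneg ht0.le]
          refine ⟨mul_lt_mul_of_pos_left hx.1 ht0, ?_⟩
          calc t * ‖x.2‖ < ‖x.2‖⁻¹ * ‖x.2‖ := by gcongr; exact ht.2
            _ = 1 := inv_mul_cancel₀ hx0.ne'
        simp only
        rw [indicator_of_mem h1, Pi.one_apply, mul_one]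
      rw [e2]
      apply lint_shrink measurableSet_Ioo measurableSet_Ioi (fun t ht => ht.1)
      intro t ht
      have ht1 : (1 : ℝ) < t := ht.1
      have ht0 : (0 : ℝ) < t := one_pos.trans ht1
      have ht2 : ‖x.2‖⁻¹ ≤ t := by
        by_contra hcon
        exact ht.2 ⟨ht.1, not_le.1 hcon⟩
      rw [indicator_of_notMem, mul_zero]
      intro hT
      have h3 : ‖(dil t x).2‖ < 1 := hT.2
      rw [dil_apply, Prod.smul_snd, norm_smul, Real.norm_of_nonneg ht0.le] at h3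
      have h4 : ‖x.2‖⁻¹ * ‖x.2‖ ≤ t * ‖x.2‖ := by gcongr
      rw [inv_mul_cancel₀ hx0.ne'] at h4
      linarith
    rw [e1, ← setLIntegral_congr (Ioo_ae_eq_Ioc (μ := volume)).symm]
    have h2 : IntegrableOn (fun t : ℝ => t) (Ioc 1 (‖x.2‖⁻¹)) := by
      rw [← intervalIntegrable_iff_integrableOn_Ioc_of_le hx1.le]
      exact continuous_id.intervalIntegrable _ _
    rw [← ofReal_integral_eq_lintegral_ofReal h2]
    · congr 1
      rw [← intervalIntegral.integral_of_le hx1.le, integral_id]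
      ring
    · filter_upwards [ae_restrict_mem measurableSet_Ioc] with t ht
      have : (0 : ℝ) < t := one_pos.trans ht.1
      positivity
  have hpt : ∀ x ∈ T, (ENNReal.ofReal (‖x.2‖⁻¹) * ‖omT x‖ₑ) ^ 2 ≤
      2 * 1 ^ 2 + 2 * (2 * ∫⁻ t in Ioi (1 : ℝ), ENNReal.ofReal t * T.indicator 1 (dil t x)) ^ 2 := by
    intro x hx
    have hx0 : 0 < ‖x.2‖ := snd_pos hx
    have hx1 : (1 : ℝ) < ‖x.2‖⁻¹ := (one_lt_inv₀ hx0).2 hx.2
    refine le_trans ?_ (sq_add_le _ _)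
    gcongr
    rw [hind x hx, omT, indicator_of_mem hx]
    have h2 : (2 : ℝ≥0∞) = ENNReal.ofReal 2 := by simp
    have h3 : (1 : ℝ≥0∞) = ENNReal.ofReal 1 := by simp
    rw [h2, h3, ← ENNReal.ofReal_mul (by norm_num),
      ← ENNReal.ofReal_add (by norm_num) (by nlinarith), ← ofReal_norm,
      ← ENNReal.ofReal_mul (by positivity)]
    apply ENNReal.ofReal_le_ofReal
    calc ‖x.2‖⁻¹ * ‖om x‖ ≤ ‖x.2‖⁻¹ * ‖x.2‖⁻¹ := by
          gcongr
          exact norm_om_le x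
      _ = _ := by ring
  have hind1 : Measurable (T.indicator (1 : ℂ × ℂ → ℝ≥0∞)) :=
    measurable_one.indicator measurableSet_T
  have hvol : ∫⁻ x, (T.indicator (1 : ℂ × ℂ → ℝ≥0∞) x) ^ 2 = volume T := by
    have : ∀ x, (T.indicator (1 : ℂ × ℂ → ℝ≥0∞) x) ^ 2 = T.indicator (1 : ℂ × ℂ → ℝ≥0∞) x := by
      intro x
      by_cases hx : x ∈ T
      · rw [indicator_of_mem hx, Pi.one_apply, one_pow]
      · rw [indicator_of_notMem hx, zero_pow two_ne_zero]
    simp_rw [this]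
    rw [lintegral_indicator_one measurableSet_T]
  refine ⟨(2 + 72) * (volume T).toNNReal, fun n hn => ?_⟩
  have h1n : (1 : ℝ≥0∞) ≤ (n : ℝ≥0∞) ^ 2 := by
    apply one_le_pow₀
    exact_mod_cast hn
  calc ∫⁻ x in Aw n, (ENNReal.ofReal (‖x.2‖⁻¹) * ‖omT x‖ₑ) ^ 2
      ≤ ∫⁻ x in Aw n, (2 * 1 ^ 2 +
        2 * (2 * ∫⁻ t in Ioi (1 : ℝ), ENNReal.ofReal t * T.indicator 1 (dil t x)) ^ 2) := by
        apply setLIntegral_mono' (measurableSet_Aw n)
        intro x hx
        exact hpt x hx.1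
    _ = 2 * volume (Aw n) + 8 * ∫⁻ x in Aw n,
        (∫⁻ t in Ioi (1 : ℝ), ENNReal.ofReal t * T.indicator 1 (dil t x)) ^ 2 := by
        rw [lintegral_add_left measurable_const, setLIntegral_const,
          ← lintegral_const_mul' _ _ (by simp)]
        congr 1
        · ring
        · refine lintegral_congr fun x => ?_
          rw [mul_pow]
          ring
    _ ≤ 2 * volume T + 8 * (ENNReal.ofReal (3 * n) ^ 2 *
        ∫⁻ x, (T.indicator (1 : ℂ × ℂ → ℝ≥0∞) x) ^ 2) := by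
        gcongr
        · exact inter_subset_left
        · apply ray_bound hind1
          intro x hx
          exact indicator_of_notMem hx _
    _ = 2 * volume T * 1 + 72 * volume T * (n : ℝ≥0∞) ^ 2 := by
        rw [hvol, ENNReal.ofReal_mul (by norm_num), ENNReal.ofReal_natCast]
        have : ENNReal.ofReal 3 = 3 := by simp
        rw [this]
        ring
    _ ≤ 2 * volume T * (n : ℝ≥0∞) ^ 2 + 72 * volume T * (n : ℝ≥0∞) ^ 2 := by
        gcongr
    _ = _ := by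
        push_cast
        rw [ENNReal.coe_toNNReal volume_T_ne]
        ring

end Pool.Agent.Lib.MP_05a445_an
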