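import Pool.Agent.Lib.MP_05a445_an.DeRhamOne

/-!
The Hodge theorem for the Laplacian of the weak exterior derivative on the Hartogs triangle.
-/

set_option autoImplicit false
set_option linter.unusedSectionVars false

namespace Pool.Agent.Lib.MP_05a445_an

open MeasureTheory Set Filter Topology
open scoped ContDiff NNReal ENNReal

/-- The smooth closed form `α` represents the square integrable form `u`. -/
def Rep (q : ℕ) (u : L2q q) (α : ℂ × ℂ → (ℂ × ℂ) [⋀^Fin q]→L[ℝ] ℝ) : Prop :=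
  SmoothClosed q α ∧ HasCoef q u α

lemma L2Form.zero {E : Type*} [NormedAddCommGroup E] : L2Form (fun _ : ℂ × ℂ => (0 : E)) :=
  ⟨stronglyMeasurable_const, fun _ _ => rfl, by simp [enorm_zero]⟩

/-- Closedness in terms of forms. -/
lemma weakD_zero_iff (q : ℕ) (v : L2q q) : WeakD q v 0 ↔ ClosedOn T (toF q v) := by
  have h0 : L2Form (fun _ : ℂ × ℂ => (0 : (ℂ × ℂ) [⋀^Fin (q + 1)]→L[ℝ] ℝ)) := L2Form.zero
  rw [← weakD_iff (u := v) (v := 0) (l2Form_toF q v) h0 (cf_toF q v)]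
  · unfold WD ClosedOn
    refine forall_congr' fun ψ => forall_congr' fun _ => ?_
    simp only [smul_zero, integral_zero]
    rw [eq_comm, neg_eq_zero]
  · filter_upwards [Lp.coeFn_zero (Co (q + 1)) 2 ((volume : Measure (ℂ × ℂ)).restrict T)]
      with x hx
    rw [map_zero]
    exact hx.symm

lemma weakD_closed {q : ℕ} {u : L2q q} {v : L2q (q + 1)} (h : WeakD q u v) :
    WeakD (q + 1) v 0 := by
  rw [weakD_zero_iff]
  exact closedOn_of_primitive (l2Form_toF q u).integrableOn (l2Form_toF (q + 1) v).integrableOn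
    ((weakD_iff (l2Form_toF q u) (l2Form_toF (q + 1) v) (cf_toF q u) (cf_toF (q + 1) v)).2 h)

lemma weakD_of_solution {q : ℕ} {v : L2q (q + 1)} {u : ℂ × ℂ → (ℂ × ℂ) [⋀^Fin q]→L[ℝ] ℝ}
    (hu : L2Form u) (h : WD T u (toF (q + 1) v)) : ∃ u : L2q q, WeakD q u v :=
  ⟨ofF hu, (weakD_iff hu (l2Form_toF (q + 1) v) (cf_ofF hu) (cf_toF (q + 1) v)).1 h⟩

lemma range_high : ∀ {q : ℕ}, 1 ≤ q → ∀ {v : L2q (q + 1)}, WeakD (q + 1) v 0 →
    ∃ u, WeakD q u v
  | 0, h, _, _ => absurd h (by norm_num)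
  | 1, _, v, hv => by
    rw [weakD_zero_iff] at hv
    obtain ⟨u, hu, hW⟩ := solve_two (l2Form_toF 2 v) hv
    exact weakD_of_solution hu hW
  | q + 2, _, v, hv => by
    rw [weakD_zero_iff] at hv
    obtain ⟨u, hu, hW⟩ := solve_three (by omega) (l2Form_toF (q + 3) v) hv
    exact weakD_of_solution hu hW

lemma range_one {v : L2q 1} (hv : WeakD 1 v 0) : ∃ (c : ℝ) (u : L2q 0),
    WeakD 0 u (v - c • Om) := by
  rw [weakD_zero_iff] at hv
  obtain ⟨c, u, hu, hW⟩ := solve_one (l2Form_toF 1 v) hv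
  refine ⟨c, ofF hu, ?_⟩
  refine (weakD_iff hu ((l2Form_toF 1 v).sub (l2Form_omT.smul c)) (cf_ofF hu) ?_).1 hW
  filter_upwards [cf_toF 1 v, cf_ofF l2Form_omT, Lp.coeFn_sub v (c • Om),
    Lp.coeFn_smul c Om] with x h1 h2 h3 h4
  rw [h3, Pi.sub_apply, h4, Pi.smul_apply, map_sub, h1, map_smul, h2]
  rfl

lemma weakD_Om : WeakD 1 Om 0 := by
  have h1 : WD T omT (fun _ => (0 : (ℂ × ℂ) [⋀^Fin (1 + 1)]→L[ℝ] ℝ)) := by
    intro ψ hψ
    have := closedOn_omT ψ hψ
    simp only [smul_zero, integral_zero]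
    rw [this, neg_zero]
  have h0 : L2Form (fun _ : ℂ × ℂ => (0 : (ℂ × ℂ) [⋀^Fin (1 + 1)]→L[ℝ] ℝ)) := L2Form.zero
  refine (weakD_iff l2Form_omT h0 (cf_ofF l2Form_omT) ?_).1 h1
  filter_upwards [Lp.coeFn_zero (Co (1 + 1)) 2 ((volume : Measure (ℂ × ℂ)).restrict T)]
      with x hx
  rw [map_zero]
  exact hx.symm

lemma inner_Om_pos : 0 < inner ℝ Om Om := by
  rw [real_inner_self_eq_norm_sq]
  have := norm_pos_iff.2 Om_ne
  positivity

/-- The range of the weak exterior derivative in degree zero. -/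
lemma range_zero_iff (v : L2q 1) :
    (∃ u, WeakD 0 u v) ↔ WeakD 1 v 0 ∧ inner ℝ Om v = 0 := by
  constructor
  · rintro ⟨u, hu⟩
    exact ⟨weakD_closed hu, ortho_Om hu⟩
  · rintro ⟨h1, h2⟩
    obtain ⟨c, u, hu⟩ := range_one h1
    have h3 := ortho_Om hu
    rw [inner_sub_right, h2, real_inner_smul_right, zero_sub, neg_eq_zero] at h3
    have hc : c = 0 := (mul_eq_zero.1 h3).resolve_right inner_Om_pos.ne'
    rw [hc, zero_smul, sub_zero] at hu
    exact ⟨u, hu⟩

lemma isClosed_kernel (q : ℕ) : IsClosed {v : L2q q | WeakD q v 0} := by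
  have h1 : {v : L2q q | WeakD q v 0} =
      (fun v : L2q q => (v, (0 : L2q (q + 1)))) ⁻¹' (GW q : Set (L2q q × L2q (q + 1))) := by
    ext v
    exact mem_GW.symm
  rw [h1]
  exact (isClosed_GW q).preimage (continuous_id.prodMk continuous_const)

/-- The weak exterior derivative has closed range in every degree. -/
theorem isClosed_range (q : ℕ) : IsClosed {v : L2q (q + 1) | ∃ u, WeakD q u v} := by
  rcases Nat.eq_zero_or_pos q with rfl | hq
  · have h1 : {v : L2q 1 | ∃ u, WeakD 0 u v} =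
        {v : L2q 1 | WeakD 1 v 0} ∩ {v : L2q 1 | inner ℝ Om v = 0} := by
      ext v
      exact range_zero_iff v
    rw [h1]
    exact (isClosed_kernel 1).inter
      (isClosed_eq (continuous_const.inner continuous_id) continuous_const)
  · have h1 : {v : L2q (q + 1) | ∃ u, WeakD q u v} = {v : L2q (q + 1) | WeakD (q + 1) v 0} := by
      ext v
      exact ⟨fun ⟨u, hu⟩ => weakD_closed hu, fun h => range_high hq h⟩
    rw [h1]
    exact isClosed_kernel (q + 1)

lemma isClosed_perp {H : Type*} [NormedAddCommGroup H] [InnerProductSpace ℝ H] (P : H → Prop) :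
    IsClosed {f : H | ∀ h, P h → inner ℝ h f = 0} := by
  have h0 : {f : H | ∀ h, P h → inner ℝ h f = 0} = ⋂ h, ⋂ (_ : P h), {f : H | inner ℝ h f = 0} := by
    ext f
    simp
  rw [h0]
  exact isClosed_iInter fun h => isClosed_iInter fun _ =>
    isClosed_eq (continuous_const.inner continuous_id) continuous_const

lemma lap_zero_rel (u f : L2q 0) : IsLap WeakD 0 u f ↔
    lapRel (rel (⊥ : Submodule ℝ (L2q 0 × L2q 0))) (rel (GW 0)) u f := by
  rw [rel_GW]
  constructor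
  · rintro ⟨v, h1, h2⟩
    refine ⟨v, f, 0, 0, h1, h2, ?_, Submodule.zero_mem _, (add_zero f).symm⟩
    intro v v' h
    have h3 : (v, v') = 0 := (Submodule.mem_bot ℝ).1 h
    rw [Prod.mk_eq_zero] at h3
    rw [h3.1, h3.2, inner_zero_left, inner_zero_left]
  · rintro ⟨v, a, w, b, h1, h2, h3, h4, h5⟩
    have h6 : (w, b) = 0 := (Submodule.mem_bot ℝ).1 h4
    rw [Prod.mk_eq_zero] at h6
    rw [h6.2, add_zero] at h5
    exact ⟨v, h1, h5 ▸ h2⟩

lemma lap_succ_rel (q : ℕ) (u f : L2q (q + 1)) : IsLap WeakD (q + 1) u f ↔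
    lapRel (rel (GW q)) (rel (GW (q + 1))) u f := by
  rw [rel_GW, rel_GW]
  rfl

/-- The Laplacian has closed range in every degree. -/
theorem isClosed_lap (q : ℕ) : IsClosed {f : L2q q | ∃ u, IsLap WeakD q u f} := by
  rcases q with _ | q
  · have h1 : {f : L2q 0 | ∃ u, IsLap WeakD 0 u f} = {f : L2q 0 | ∃ u,
        lapRel (rel (⊥ : Submodule ℝ (L2q 0 × L2q 0))) (rel (GW 0)) u f} := by
      ext f
      exact exists_congr fun u => lap_zero_rel u f
    rw [h1, lap_range]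
    · exact isClosed_perp _
    · simp
    · exact isClosed_GW 0
    · have h2 : {r : L2q 0 | ∃ v, (v, r) ∈ (⊥ : Submodule ℝ (L2q 0 × L2q 0))} = {0} := by
        ext r
        constructor
        · rintro ⟨v, hv⟩
          have h3 : (v, r) = 0 := (Submodule.mem_bot ℝ).1 hv
          rw [Prod.mk_eq_zero] at h3
          exact h3.2
        · rintro rfl
          exact ⟨0, Submodule.zero_mem _⟩
      rw [h2]
      exact isClosed_singleton
    · have h2 : {r : L2q 1 | ∃ v, (v, r) ∈ GW 0} = {r : L2q 1 | ∃ v, WeakD 0 v r} := by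
        ext r
        exact exists_congr fun v => mem_GW
      rw [h2]
      exact isClosed_range 0
    · intro v v' h
      have h3 : (v, v') = 0 := (Submodule.mem_bot ℝ).1 h
      rw [Prod.mk_eq_zero] at h3
      rw [h3.2]
      exact Submodule.zero_mem _
  · have h1 : {f : L2q (q + 1) | ∃ u, IsLap WeakD (q + 1) u f} = {f : L2q (q + 1) | ∃ u,
        lapRel (rel (GW q)) (rel (GW (q + 1))) u f} := by
      ext f
      exact exists_congr fun u => lap_succ_rel q u f
    have h2 : ∀ q, {r : L2q (q + 1) | ∃ v, (v, r) ∈ GW q} =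
        {r : L2q (q + 1) | ∃ v, WeakD q v r} := by
      intro q
      ext r
      exact exists_congr fun v => mem_GW
    rw [h1, lap_range _ _ (isClosed_GW q) (isClosed_GW (q + 1))]
    · exact isClosed_perp _
    · rw [h2]; exact isClosed_range q
    · rw [h2]; exact isClosed_range (q + 1)
    · intro v v' h
      rw [mem_GW] at h ⊢
      exact weakD_closed h

/-- The kernel of the Laplacian on functions. -/
lemma ker_zero (u : L2q 0) : IsLap WeakD 0 u 0 ↔ WeakD 0 u 0 := by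
  rw [lap_zero_rel, lap_zero_iff, mem_GW]
  refine ⟨fun h => h.1, fun h => ⟨h, ?_⟩⟩
  intro v v' h
  have h3 : (v, v') = 0 := (Submodule.mem_bot ℝ).1 h
  rw [Prod.mk_eq_zero] at h3
  rw [h3.1, h3.2, inner_zero_left, inner_zero_left]

/-- The kernel of the Laplacian in positive degrees. -/
lemma ker_succ (q : ℕ) (u : L2q (q + 1)) : IsLap WeakD (q + 1) u 0 ↔
    WeakD (q + 1) u 0 ∧ IsAdj (WeakD q) u 0 := by
  rw [lap_succ_rel, lap_zero_iff, mem_GW, rel_GW]

lemma ker_one (u : L2q 1) : IsLap WeakD 1 u 0 ↔ ∃ c : ℝ, u = c • Om := by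
  rw [ker_succ]
  constructor
  · rintro ⟨h1, h2⟩
    obtain ⟨c, w, hw⟩ := range_one h1
    refine ⟨c, ?_⟩
    have h3 : inner ℝ (u - c • Om) u = inner ℝ w (0 : L2q 0) := h2 _ _ hw
    have h4 := ortho_Om hw
    rw [inner_zero_right] at h3
    have h5 : inner ℝ (u - c • Om) (u - c • Om) = 0 := by
      rw [inner_sub_right, h3, real_inner_smul_right, real_inner_comm, h4, mul_zero, sub_zero]
    exact sub_eq_zero.1 (inner_self_eq_zero.1 h5)
  · rintro ⟨c, rfl⟩
    constructor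
    · have h1 : ((c • Om : L2q 1), (0 : L2q 2)) ∈ GW 1 := by
        have h2 := (GW 1).smul_mem c (mem_GW.2 weakD_Om)
        rwa [Prod.smul_mk, smul_zero] at h2
      exact mem_GW.1 h1
    · intro v v' h
      rw [real_inner_smul_right, real_inner_comm, ortho_Om h, mul_zero, inner_zero_right]

lemma ker_high {q : ℕ} (hq : 1 ≤ q) (u : L2q (q + 1)) : IsLap WeakD (q + 1) u 0 ↔ u = 0 := by
  rw [ker_succ]
  constructor
  · rintro ⟨h1, h2⟩
    obtain ⟨w, hw⟩ := range_high hq h1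
    have h3 : inner ℝ u u = inner ℝ w (0 : L2q q) := h2 _ _ hw
    rw [inner_zero_right] at h3
    exact inner_self_eq_zero.1 h3
  · rintro rfl
    exact ⟨mem_GW.1 (Submodule.zero_mem _), fun v v' _ => by simp⟩

lemma extDeriv_const' {q : ℕ} (c : (ℂ × ℂ) [⋀^Fin q]→L[ℝ] ℝ) (x : ℂ × ℂ) :
    extDeriv (fun _ => c) x = 0 := by
  unfold extDeriv
  rw [fderiv_fun_const]
  exact map_zero (ContinuousAlternatingMap.alternatizeUncurryFinCLM ℝ (ℂ × ℂ) ℝ)

lemma rep_zero {q : ℕ} : Rep q 0 (fun _ => 0) := by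
  refine ⟨⟨contDiffOn_const, fun x _ => extDeriv_const' 0 x⟩, ?_⟩
  · filter_upwards [Lp.coeFn_zero (Co q) 2 ((volume : Measure (ℂ × ℂ)).restrict T)]
      with x hx I
    rw [hx]
    rfl

lemma rep_Om (c : ℝ) : Rep 1 (c • Om) (fun x => c • om x) := by
  have homs : ContDiffOn ℝ ∞ om T := contDiffOn_om.mono T_subset_ne
  refine ⟨⟨homs.const_smul c, fun x hx => ?_⟩, ?_⟩
  · rw [extDeriv_smul' c ((homs.differentiableOn (by simp)).differentiableAt
      (isOpen_T.mem_nhds hx)), extDeriv_om (snd_ne hx), smul_zero]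
  · filter_upwards [cf_ofF l2Form_omT, Lp.coeFn_smul c Om, ae_restrict_mem measurableSet_T]
      with x h1 h2 hx I
    rw [h2, Pi.smul_apply, PiLp.smul_apply]
    have h3 : (Om : L2q 1) x = cf 1 (omT x) := h1.symm
    rw [h3, omT, indicator_of_mem hx]
    rfl

lemma const_of_weakD {u : L2q 0} (h : WeakD 0 u 0) :
    ∃ c : (ℂ × ℂ) [⋀^Fin 0]→L[ℝ] ℝ, ∀ᵐ x ∂(volume.restrict T), toF 0 u x = c := by
  rw [weakD_zero_iff] at h
  exact closed_zero_const isOpen_T isPreconnected_T (l2Form_toF 0 u).integrable h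

/-- The Hodge theorem on functions. -/
lemma hodge_zero : IsClosed {f : L2q 0 | ∃ u, IsLap WeakD 0 u f} ∧
    (∀ u, IsLap WeakD 0 u 0 → ∃ α, Rep 0 u α) ∧
    (∀ u α, IsLap WeakD 0 u 0 → Rep 0 u α → SmoothExact 0 α → u = 0) ∧
    (∀ α, SmoothClosed 0 α → ∃ u β, IsLap WeakD 0 u 0 ∧ Rep 0 u β ∧
      SmoothExact 0 (fun x => α x - β x)) := by
  refine ⟨isClosed_lap 0, ?_, ?_, ?_⟩
  · intro u hu
    obtain ⟨c, hc⟩ := const_of_weakD ((ker_zero u).1 hu)
    refine ⟨fun _ => c, ⟨contDiffOn_const, fun x _ => extDeriv_const' c x⟩, ?_⟩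
    filter_upwards [hc, cf_toF 0 u] with x h1 h2 I
    rw [← h2, h1]
    rfl
  · intro u α hu hr h0
    rw [Lp.eq_zero_iff_ae_eq_zero]
    filter_upwards [hr.2, ae_restrict_mem measurableSet_T] with x h1 hx
    ext I
    rw [h1 I, h0 x hx]
    rfl
  · intro α hα
    obtain ⟨c, hc⟩ := dR_zero hα.1 hα.2
    have hcm : MemLp (fun _ : ℂ × ℂ => c) 2 ((volume : Measure (ℂ × ℂ)).restrict T) :=
      memLp_const c
    have hL : L2Form (T.indicator (fun _ => c)) :=
      L2Form.of_memLp stronglyMeasurable_const hcm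
    refine ⟨ofF hL, α, ?_, ⟨hα, ?_⟩, fun x _ => sub_self _⟩
    · rw [ker_zero, weakD_zero_iff]
      have h1 : ClosedOn T (fun _ : ℂ × ℂ => c) := by
        intro ψ hψ
        have h2 := integral_smul_extDeriv (μ := (volume : Measure (ℂ × ℂ))) isOpen_univ
          hψ.contDiff_one hψ.compact (subset_univ _)
          (contDiffOn_const (c := c))
        simp only [extDeriv_const', smul_zero, integral_zero] at h2
        rw [setIntegral_eq_integral_of_forall_compl_eq_zero, ← neg_eq_zero, ← h2]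
        intro x hx
        have h3 : fderiv ℝ ψ x = 0 :=
          image_eq_zero_of_notMem_tsupport fun h => hx (hψ.supp (tsupport_fderiv_subset ℝ h))
        rw [h3, wd_zero_left]
      refine h1.congr ?_
      filter_upwards [cf_toF 0 (ofF hL), cf_ofF hL, ae_restrict_mem measurableSet_T]
        with x h2 h3 hx
      have h4 : cf 0 (c - toF 0 (ofF hL) x) = 0 := by
        rw [map_sub, h2, ← h3, indicator_of_mem hx, sub_self]
      exact sub_eq_zero.1 (cf_injective h4)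
    · filter_upwards [cf_ofF hL, ae_restrict_mem measurableSet_T] with x h1 hx I
      rw [← h1, indicator_of_mem hx, hc x hx]
      rfl

lemma rep_unique {q : ℕ} {u : L2q q} {α β : ℂ × ℂ → (ℂ × ℂ) [⋀^Fin q]→L[ℝ] ℝ} (hα : Rep q u α)
    (hβ : Rep q u β) : ∀ x ∈ T, α x = β x := by
  have h1 : α =ᵐ[(volume : Measure (ℂ × ℂ)).restrict T] β := by
    filter_upwards [hα.2, hβ.2] with x h1 h2
    apply form_ext
    intro I
    rw [← h1 I, ← h2 I]
  exact Measure.eqOn_open_of_ae_eq h1 isOpen_T hα.1.1.continuousOn hβ.1.1.continuousOn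

/-- The Hodge theorem in degree one. -/
lemma hodge_one : IsClosed {f : L2q 1 | ∃ u, IsLap WeakD 1 u f} ∧
    (∀ u, IsLap WeakD 1 u 0 → ∃ α, Rep 1 u α) ∧
    (∀ u α, IsLap WeakD 1 u 0 → Rep 1 u α → SmoothExact 1 α → u = 0) ∧
    (∀ α, SmoothClosed 1 α → ∃ u β, IsLap WeakD 1 u 0 ∧ Rep 1 u β ∧
      SmoothExact 1 (fun x => α x - β x)) := by
  refine ⟨isClosed_lap 1, ?_, ?_, ?_⟩
  · intro u hu
    obtain ⟨c, rfl⟩ := (ker_one u).1 hu
    exact ⟨_, rep_Om c⟩
  · rintro u α hu hr ⟨η, hη, hη2⟩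
    obtain ⟨c, rfl⟩ := (ker_one u).1 hu
    have h1 := rep_unique (rep_Om c) hr
    have hc := dR_om hη (fun x hx => (h1 x hx).trans (hη2 x hx))
    rw [hc, zero_smul]
  · intro α hα
    obtain ⟨c, η, hη, hη2⟩ := dR_one hα.1 hα.2
    refine ⟨c • Om, fun x => c • om x, (ker_one _).2 ⟨c, rfl⟩, rep_Om c, η, hη, fun x hx => ?_⟩
    change α x - c • om x = _
    rw [hη2 x hx, add_sub_cancel_left]

/-- The Hodge theorem in degrees at least two. -/
lemma hodge_high {q : ℕ} (hq : 1 ≤ q) : IsClosed {f : L2q (q + 1) | ∃ u, IsLap WeakD (q + 1) u f} ∧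
    (∀ u, IsLap WeakD (q + 1) u 0 → ∃ α, Rep (q + 1) u α) ∧
    (∀ u α, IsLap WeakD (q + 1) u 0 → Rep (q + 1) u α → SmoothExact (q + 1) α → u = 0) ∧
    (∀ α, SmoothClosed (q + 1) α → ∃ u β, IsLap WeakD (q + 1) u 0 ∧ Rep (q + 1) u β ∧
      SmoothExact (q + 1) (fun x => α x - β x)) := by
  refine ⟨isClosed_lap (q + 1), ?_, ?_, ?_⟩
  · intro u hu
    have := (ker_high hq u).1 hu
    subst this
    exact ⟨_, rep_zero⟩
  · intro u α hu _ _
    exact (ker_high hq u).1 hu
  · intro α hα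
    obtain ⟨η, hη, hη2⟩ := dR_high hq hα.1 hα.2
    refine ⟨0, fun _ => 0, (ker_high hq 0).2 rfl, rep_zero, η, hη, fun x hx => ?_⟩
    change α x - 0 = _
    rw [sub_zero, hη2 x hx]

lemma hodge_all (q : ℕ) : IsClosed {f : L2q q | ∃ u, IsLap WeakD q u f} ∧
    (∀ u, IsLap WeakD q u 0 → ∃ α, Rep q u α) ∧
    (∀ u α, IsLap WeakD q u 0 → Rep q u α → SmoothExact q α → u = 0) ∧
    (∀ α, SmoothClosed q α → ∃ u β, IsLap WeakD q u 0 ∧ Rep q u β ∧
      SmoothExact q (fun x => α x - β x)) := by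
  rcases q with _ | _ | q
  · exact hodge_zero
  · exact hodge_one
  · exact hodge_high (by omega)

/-- The Hodge theorem for the Laplacian of the weak exterior derivative. -/
theorem hodge_weak : HodgeTheorem WeakD := by
  intro q
  obtain ⟨h1, h2, h3, h4⟩ := hodge_all q
  refine ⟨h1, fun u hu => ?_, fun u α hu hc hr hx => h3 u α hu ⟨hc, hr⟩ hx, fun α hα => ?_⟩
  · obtain ⟨α, hα⟩ := h2 u hu
    exact ⟨α, hα.1, hα.2⟩
  · obtain ⟨u, β, h5, h6, h7⟩ := h4 α hα
    exact ⟨u, β, h5, h6.1, h6.2, h7⟩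

end Pool.Agent.Lib.MP_05a445_an
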