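import Pool.Agent.Lib.MP_05a445_an.Defs

/-!
Pointwise homotopy formula for smooth differential forms along a family of linear maps, and
integration by parts against a compactly supported function.
-/

set_option autoImplicit false

namespace Pool.Agent.Lib.MP_05a445_an

open MeasureTheory Set Filter Topology ContinuousAlternatingMap
open scoped ENNReal ContDiff

variable {V : Type*} [NormedAddCommGroup V] [NormedSpace ℝ V]

/-- The exterior product `l ∧ f` of a linear functional and a form. -/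
noncomputable def wd {q : ℕ} (l : V →L[ℝ] ℝ) (f : V [⋀^Fin q]→L[ℝ] ℝ) :
    V [⋀^Fin (q + 1)]→L[ℝ] ℝ :=
  alternatizeUncurryFin (l.smulRight f)

lemma wd_apply {q : ℕ} (l : V →L[ℝ] ℝ) (f : V [⋀^Fin q]→L[ℝ] ℝ) (v : Fin (q + 1) → V) :
    wd l f v = ∑ i : Fin (q + 1), (-1 : ℝ) ^ (i : ℕ) * (l (v i) * f (i.removeNth v)) := by
  rw [wd, alternatizeUncurryFin_apply]
  refine Finset.sum_congr rfl fun i _ => ?_
  simp [zsmul_eq_mul]

/-- `wd` as a bilinear map. -/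
noncomputable def wdL (V : Type*) [NormedAddCommGroup V] [NormedSpace ℝ V] (q : ℕ) :
    (V →L[ℝ] ℝ) →L[ℝ] (V [⋀^Fin q]→L[ℝ] ℝ) →L[ℝ] V [⋀^Fin (q + 1)]→L[ℝ] ℝ :=
  ((ContinuousLinearMap.compL ℝ (V [⋀^Fin q]→L[ℝ] ℝ) (V →L[ℝ] V [⋀^Fin q]→L[ℝ] ℝ)
    (V [⋀^Fin (q + 1)]→L[ℝ] ℝ)) (alternatizeUncurryFinCLM ℝ V ℝ)).comp
      (ContinuousLinearMap.smulRightL ℝ V (V [⋀^Fin q]→L[ℝ] ℝ))

@[simp] lemma wdL_apply {q : ℕ} (l : V →L[ℝ] ℝ) (f : V [⋀^Fin q]→L[ℝ] ℝ) :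
    wdL V q l f = wd l f := rfl

@[simp] lemma wd_zero_left {q : ℕ} (f : V [⋀^Fin q]→L[ℝ] ℝ) : wd 0 f = 0 := by
  ext v; simp [wd_apply]

@[simp] lemma wd_zero_right {q : ℕ} (l : V →L[ℝ] ℝ) :
    wd l (0 : V [⋀^Fin q]→L[ℝ] ℝ) = 0 := by
  ext v; simp [wd_apply]

lemma wd_smul_right {q : ℕ} (l : V →L[ℝ] ℝ) (c : ℝ) (f : V [⋀^Fin q]→L[ℝ] ℝ) :
    wd l (c • f) = c • wd l f := by
  rw [← wdL_apply, ← wdL_apply, ContinuousLinearMap.map_smul]

lemma wd_smul_left {q : ℕ} (l : V →L[ℝ] ℝ) (c : ℝ) (f : V [⋀^Fin q]→L[ℝ] ℝ) :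
    wd (c • l) f = c • wd l f := by
  rw [← wdL_apply, ← wdL_apply, ContinuousLinearMap.map_smul]
  rfl

lemma wd_add_right {q : ℕ} (l : V →L[ℝ] ℝ) (f g : V [⋀^Fin q]→L[ℝ] ℝ) :
    wd l (f + g) = wd l f + wd l g := by
  rw [← wdL_apply, ← wdL_apply, ← wdL_apply, ContinuousLinearMap.map_add]

lemma wd_add_left {q : ℕ} (l l' : V →L[ℝ] ℝ) (f : V [⋀^Fin q]→L[ℝ] ℝ) :
    wd (l + l') f = wd l f + wd l' f := by
  rw [← wdL_apply, ← wdL_apply, ← wdL_apply, ContinuousLinearMap.map_add]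
  rfl

lemma wd_sub_right {q : ℕ} (l : V →L[ℝ] ℝ) (f g : V [⋀^Fin q]→L[ℝ] ℝ) :
    wd l (f - g) = wd l f - wd l g := by
  rw [← wdL_apply, ← wdL_apply, ← wdL_apply, ContinuousLinearMap.map_sub]

lemma norm_wd_le {q : ℕ} (l : V →L[ℝ] ℝ) (f : V [⋀^Fin q]→L[ℝ] ℝ) :
    ‖wd l f‖ ≤ (q + 1) * (‖l‖ * ‖f‖) := by
  refine (norm_alternatizeUncurryFin_le _).trans ?_
  rw [ContinuousLinearMap.norm_smulRight_apply]

/-- Pullback of a form by a linear map. -/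
noncomputable def pb {q : ℕ} (A : V →L[ℝ] V) (f : V → V [⋀^Fin q]→L[ℝ] ℝ) (x : V) :
    V [⋀^Fin q]→L[ℝ] ℝ :=
  (f (A x)).compContinuousLinearMap A

/-- The homotopy integrand. -/
noncomputable def ct {q : ℕ} (A B : V →L[ℝ] V) (f : V → V [⋀^Fin (q + 1)]→L[ℝ] ℝ) (x : V) :
    V [⋀^Fin q]→L[ℝ] ℝ :=
  ((f (A x)).curryLeft (B x)).compContinuousLinearMap A

lemma ct_apply {q : ℕ} (A B : V →L[ℝ] V) (f : V → V [⋀^Fin (q + 1)]→L[ℝ] ℝ) (x : V)
    (v : Fin q → V) :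
    ct A B f x v = f (A x) (Fin.cons (B x) (fun i => A (v i))) := rfl

lemma pb_apply {q : ℕ} (A : V →L[ℝ] V) (f : V → V [⋀^Fin q]→L[ℝ] ℝ) (x : V)
    (v : Fin q → V) : pb A f x v = f (A x) (fun i => A (v i)) := rfl

/-- `curryLeft` as a continuous linear map. -/
noncomputable def cl (V : Type*) [NormedAddCommGroup V] [NormedSpace ℝ V] (q : ℕ) :
    (V [⋀^Fin (q + 1)]→L[ℝ] ℝ) →L[ℝ] (V →L[ℝ] V [⋀^Fin q]→L[ℝ] ℝ) :=
  (curryLeftLI (𝕜 := ℝ) (E := V) (F := ℝ) (n := q)).toContinuousLinearMap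

@[simp] lemma cl_apply {q : ℕ} (f : V [⋀^Fin (q + 1)]→L[ℝ] ℝ) : cl V q f = f.curryLeft := rfl

lemma hasFDerivAt_clm {E F G : Type*} [NormedAddCommGroup E] [NormedSpace ℝ E]
    [NormedAddCommGroup F] [NormedSpace ℝ F] [NormedAddCommGroup G] [NormedSpace ℝ G]
    (L : F →L[ℝ] G) {g : E → F} {g' : E →L[ℝ] F} {x : E} (h : HasFDerivAt g g' x) :
    HasFDerivAt (fun y => L (g y)) (L.comp g') x :=
  (L.hasFDerivAt (x := g x)).comp x h

/-- composition with a linear map, as a continuous linear map. -/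
noncomputable def cc {q : ℕ} (A : V →L[ℝ] V) :
    (V [⋀^Fin q]→L[ℝ] ℝ) →L[ℝ] (V [⋀^Fin q]→L[ℝ] ℝ) :=
  compContinuousLinearMapCLM A

@[simp] lemma cc_apply {q : ℕ} (A : V →L[ℝ] V) (f : V [⋀^Fin q]→L[ℝ] ℝ) :
    cc A f = f.compContinuousLinearMap A := rfl

lemma hasFDerivAt_ct {q : ℕ} (A B : V →L[ℝ] V) {f : V → V [⋀^Fin (q + 1)]→L[ℝ] ℝ} {x : V}
    {f' : V →L[ℝ] V [⋀^Fin (q + 1)]→L[ℝ] ℝ} (hf : HasFDerivAt f f' (A x)) :
    HasFDerivAt (ct A B f)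
      ((cc A).comp
        ((((cl V q).comp (f'.comp A)).flip (B x)) + ((f (A x)).curryLeft).comp B)) x := by
  have h1 : HasFDerivAt (fun y => f (A y)) (f'.comp A) x := hf.comp x A.hasFDerivAt
  have h2 : HasFDerivAt (fun y => cl V q (f (A y))) ((cl V q).comp (f'.comp A)) x :=
    hasFDerivAt_clm (F := V [⋀^Fin (q + 1)]→L[ℝ] ℝ) (G := V →L[ℝ] V [⋀^Fin q]→L[ℝ] ℝ)
      (cl V q) h1
  have h3 := HasFDerivAt.clm_apply (𝕜 := ℝ) (E := V)
    h2 (B.hasFDerivAt (x := x))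
  have h4 := hasFDerivAt_clm (F := V [⋀^Fin q]→L[ℝ] ℝ) (G := V [⋀^Fin q]→L[ℝ] ℝ)
    (cc A) h3
  refine h4.congr_fderiv ?_
  congr 1
  rw [add_comm]
  rfl

lemma extDeriv_ct {q : ℕ} (A B : V →L[ℝ] V) {f : V → V [⋀^Fin (q + 1)]→L[ℝ] ℝ} {x : V}
    (hf : DifferentiableAt ℝ f (A x)) :
    extDeriv (ct A B f) x + ct A B (extDeriv f) x =
      (fderiv ℝ f (A x) (B x)).compContinuousLinearMap A +
        (f (A x)).fderivCompContinuousLinearMap A B := by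
  rw [extDeriv, (hasFDerivAt_ct A B hf.hasFDerivAt).fderiv,
    fderivCompContinuousLinearMap_eq_alternatizeUncurryFin]
  rw [ContinuousLinearMap.comp_add, alternatizeUncurryFin_add]
  have h1 : alternatizeUncurryFin ((cc A).comp
      (((f (A x)).curryLeft).comp B)) =
      ((alternatizeUncurryFinCLM ℝ V ℝ).comp
        ((compContinuousLinearMapCLM A ∘L (f (A x)).curryLeft).postcomp V)) B := by
    rfl
  rw [h1, add_right_comm]
  congr 1
  ext v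
  rw [ContinuousAlternatingMap.add_apply, alternatizeUncurryFin_apply]
  have h2 : ∀ i : Fin (q + 1), (i.succ.removeNth
      (Fin.cons (B x) (fun i => A (v i)) : Fin (q + 2) → V)) =
      (Fin.cons (B x) (fun j => A (i.removeNth v j)) : Fin (q + 1) → V) := by
    intro i
    ext j
    refine Fin.cases ?_ (fun j => ?_) j
    · simp [Fin.removeNth]
    · simp [Fin.removeNth]
  have h3 : ct A B (extDeriv f) x v = fderiv ℝ f (A x) (B x) (fun i => A (v i)) +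
      ∑ i : Fin (q + 1), (-1 : ℤ) ^ ((i : ℕ) + 1) •
        fderiv ℝ f (A x) (A (v i)) (Fin.cons (B x) (fun j => A (i.removeNth v j))) := by
    rw [ct_apply, extDeriv, alternatizeUncurryFin_apply, Fin.sum_univ_succ]
    simp only [Fin.val_zero, pow_zero, one_smul, Fin.cons_succ, Fin.val_succ, h2, Fin.cons_zero]
    rfl
  rw [h3]
  have h4 : ∀ i : Fin (q + 1),
      (((cc A).comp (((cl V q).comp ((fderiv ℝ f (A x)).comp A)).flip (B x))) (v i))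
        (i.removeNth v) = fderiv ℝ f (A x) (A (v i))
          (Fin.cons (B x) (fun j => A (i.removeNth v j))) := by
    intro i
    rfl
  simp only [h4]
  have h5 : ∑ i : Fin (q + 1), (-1 : ℤ) ^ ((i : ℕ) + 1) •
        fderiv ℝ f (A x) (A (v i)) (Fin.cons (B x) (fun j => A (i.removeNth v j))) =
      - ∑ i : Fin (q + 1), (-1 : ℤ) ^ (i : ℕ) •
        fderiv ℝ f (A x) (A (v i)) (Fin.cons (B x) (fun j => A (i.removeNth v j))) := by
    rw [← Finset.sum_neg_distrib]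
    refine Finset.sum_congr rfl fun i _ => ?_
    rw [pow_succ, mul_neg_one, neg_smul]
  rw [h5, ContinuousAlternatingMap.compContinuousLinearMap_apply]
  have h6 : (⇑A ∘ v) = fun i => A (v i) := rfl
  rw [h6]
  abel

/-- The pointwise homotopy formula. -/
theorem hasDerivAt_pb {q : ℕ} {A : ℝ → V →L[ℝ] V} {B : V →L[ℝ] V} {t : ℝ}
    (hA : HasDerivAt A B t) {f : V → V [⋀^Fin (q + 1)]→L[ℝ] ℝ} {x : V}
    (hf : DifferentiableAt ℝ f (A t x)) :
    HasDerivAt (fun s => pb (A s) f x)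
      (extDeriv (ct (A t) B f) x + ct (A t) B (extDeriv f) x) t := by
  rw [extDeriv_ct _ _ hf]
  have h1 : HasDerivAt (fun s => A s x) (B x) t := by
    have := hA.clm_apply (hasDerivAt_const t x)
    simpa using this
  have h2 : HasDerivAt (fun s => f (A s x)) (fderiv ℝ f (A t x) (B x)) t :=
    hf.hasFDerivAt.comp_hasDerivAt t h1
  have h3 := HasFDerivAt.continuousAlternatingMapCompContinuousLinearMap
    (h2.hasFDerivAt) (hA.hasFDerivAt)
  have h4 := h3.hasDerivAt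
  refine h4.congr_deriv ?_
  simp

end Pool.Agent.Lib.MP_05a445_an
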