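import Pool.Agent.Lib.MP_05a445_an.Smooth

/-!
Good forms with a weak exterior derivative belong to the strong domain, once forms vanishing near
the tip do.
-/

set_option autoImplicit false
set_option linter.unusedSectionVars false

namespace Pool.Agent.Lib.MP_05a445_an

open MeasureTheory Set Filter Topology ContinuousLinearMap
open scoped ContDiff NNReal ENNReal

/-- Strong approximation of forms vanishing near the tip. -/
def Away (q : ℕ) : Prop :=
  ∀ (u : L2q q) (v : L2q (q + 1)), WeakD q u v → ∀ δ : ℝ, 0 < δ →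
    (∀ᵐ x ∂((volume : Measure (ℂ × ℂ)).restrict T), ‖x.2‖ < δ → u x = 0) → StrongD q u v

lemma enorm_Lp_sq {F : Type*} [NormedAddCommGroup F]
    (u : Lp F 2 ((volume : Measure (ℂ × ℂ)).restrict T)) :
    ‖u‖ₑ ^ 2 = ∫⁻ x in T, ‖u x‖ₑ ^ 2 := by
  rw [Lp.enorm_def, eLpNorm_eq_lintegral_rpow_enorm_toReal (by norm_num) (by norm_num)]
  simp only [ENNReal.toReal_ofNat]
  rw [← ENNReal.rpow_natCast, ← ENNReal.rpow_mul]
  norm_num

lemma enorm_ofF_sq {q : ℕ} {f : ℂ × ℂ → (ℂ × ℂ) [⋀^Fin q]→L[ℝ] ℝ} (hf : L2Form f) :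
    ‖ofF hf‖ₑ ^ 2 ≤ ‖cf q‖ₑ ^ 2 * ∫⁻ x in T, ‖f x‖ₑ ^ 2 := by
  rw [enorm_Lp_sq, ← lintegral_const_mul _ (hf.sm.enorm.pow_const 2)]
  apply lintegral_mono_ae
  filter_upwards [cf_ofF hf] with x hx
  rw [← hx, ← mul_pow]
  gcongr
  exact (cf q).le_opENorm (f x)

lemma ofF_sub {q : ℕ} {f g : ℂ × ℂ → (ℂ × ℂ) [⋀^Fin q]→L[ℝ] ℝ} (hf : L2Form f) (hg : L2Form g) :
    ofF hf - ofF hg = ofF (hf.sub hg) := by
  apply Lp.ext
  filter_upwards [Lp.coeFn_sub (ofF hf) (ofF hg), cf_ofF hf, cf_ofF hg, cf_ofF (hf.sub hg)]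
    with x h1 h2 h3 h4
  rw [h1, Pi.sub_apply, ← h2, ← h3, ← h4, map_sub]

lemma tendsto_zero_of_sq {a : ℕ → ℝ≥0∞} (h : Tendsto (fun n => a n ^ 2) atTop (𝓝 0)) :
    Tendsto a atTop (𝓝 0) := by
  have h1 := ((ENNReal.continuous_rpow_const (y := (1 / 2 : ℝ))).tendsto 0).comp h
  have h2 : ((0 : ℝ≥0∞)) ^ (1 / 2 : ℝ) = 0 := ENNReal.zero_rpow_of_pos (by norm_num)
  rw [h2] at h1
  refine h1.congr fun n => ?_
  simp only [Function.comp]
  rw [← ENNReal.rpow_natCast, ← ENNReal.rpow_mul]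
  norm_num

/-- Convergence in the Hilbert space from convergence of forms. -/
lemma tendsto_ofF {q : ℕ} {F : ℕ → ℂ × ℂ → (ℂ × ℂ) [⋀^Fin q]→L[ℝ] ℝ}
    {f : ℂ × ℂ → (ℂ × ℂ) [⋀^Fin q]→L[ℝ] ℝ} (hF : ∀ n, L2Form (F n)) (hf : L2Form f)
    (h : Tendsto (fun n => ∫⁻ x in T, ‖F n x - f x‖ₑ ^ 2) atTop (𝓝 0)) :
    Tendsto (fun n => ofF (hF n)) atTop (𝓝 (ofF hf)) := by
  rw [tendsto_iff_edist_tendsto_0]
  apply tendsto_zero_of_sq
  have h1 : Tendsto (fun n => ‖cf q‖ₑ ^ 2 * ∫⁻ x in T, ‖F n x - f x‖ₑ ^ 2) atTop (𝓝 0) := by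
    have := ENNReal.Tendsto.const_mul (a := ‖cf q‖ₑ ^ 2) h (Or.inr (by simp))
    simpa using this
  refine tendsto_of_tendsto_of_tendsto_of_le_of_le tendsto_const_nhds h1 (fun n => bot_le)
    (fun n => ?_)
  simp only
  rw [edist_eq_enorm_sub, ofF_sub]
  exact enorm_ofF_sq ((hF n).sub hf)

section mult

variable {E : Type*} [NormedAddCommGroup E] [NormedSpace ℝ E]

lemma L2Form.mul {χ : ℂ × ℂ → ℝ} (hχ : Continuous χ) (hb : ∀ x, |χ x| ≤ 1) {f : ℂ × ℂ → E}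
    (hf : L2Form f) : L2Form (fun x => χ x • f x) where
  sm := hχ.stronglyMeasurable.smul hf.sm
  off := fun x hx => by rw [hf.off x hx, smul_zero]
  l2 := by
    refine lt_of_le_of_lt (lintegral_mono fun x => ?_) hf.l2
    gcongr
    rw [enorm_smul]
    calc ‖χ x‖ₑ * ‖f x‖ₑ ≤ 1 * ‖f x‖ₑ := by
          gcongr
          rw [← ofReal_norm, ← ENNReal.ofReal_one]
          exact ENNReal.ofReal_le_ofReal (hb x)
      _ = _ := one_mul _

lemma tendsto_tip_mul {f : ℂ × ℂ → E} (hf : L2Form f) :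
    Tendsto (fun n : ℕ => ∫⁻ x in T, ‖tip (n + 1) x • f x - f x‖ₑ ^ 2) atTop (𝓝 0) := by
  have h0 : (0 : ℝ≥0∞) = ∫⁻ x in T, 0 := by simp
  rw [h0]
  apply tendsto_lintegral_of_dominated_convergence (fun x => ‖f x‖ₑ ^ 2)
  · intro n
    have h1 : StronglyMeasurable (fun x => tip (n + 1) x • f x - f x) :=
      ((contDiff_tip (n + 1)).continuous.stronglyMeasurable.smul hf.sm).sub hf.sm
    exact h1.enorm.pow_const 2
  · intro n
    refine Eventually.of_forall fun x => ?_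
    simp only
    gcongr
    have h2 : tip (n + 1) x • f x - f x = (tip (n + 1) x - 1) • f x := by
      rw [sub_smul, one_smul]
    rw [h2, enorm_smul]
    calc ‖tip (n + 1) x - 1‖ₑ * ‖f x‖ₑ ≤ 1 * ‖f x‖ₑ := by
          gcongr
          rw [← ofReal_norm, ← ENNReal.ofReal_one]
          apply ENNReal.ofReal_le_ofReal
          rw [Real.norm_eq_abs, abs_le]
          have h3 := tip_nonneg (n + 1) x
          have h4 := (le_abs_self _).trans (tip_le_one (n + 1) x)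
          constructor <;> linarith
      _ = _ := one_mul _
  · exact hf.l2.ne
  · filter_upwards [ae_restrict_mem measurableSet_T] with x hx
    have h1 : Tendsto (fun n : ℕ => tip (n + 1) x) atTop (𝓝 1) :=
      (tendsto_tip hx).comp (tendsto_add_atTop_nat 1)
    have h2 : Tendsto (fun n : ℕ => tip (n + 1) x • f x - f x) atTop (𝓝 0) := by
      have := (h1.smul_const (f x)).sub_const (f x)
      simpa using this
    have h3 := (ENNReal.continuous_pow 2).tendsto 0 |>.comp (tendsto_enorm_of h2)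
    rw [zero_pow two_ne_zero] at h3
    exact h3

end mult

/-- A bounded sequence concentrating at the tip is weakly null. -/
lemma weak_null {q : ℕ} {R : ℕ → ℂ × ℂ → (ℂ × ℂ) [⋀^Fin q]→L[ℝ] ℝ} (hR : ∀ n, L2Form (R n))
    {K : ℝ≥0∞} (hK : K ≠ ⊤) (hbd : ∀ n, ∫⁻ x in T, ‖R n x‖ₑ ^ 2 ≤ K)
    (h0 : ∀ n x, Real.exp (-((n + 1 : ℕ) : ℝ)) < ‖x.2‖ → R n x = 0) (G : L2q q) :
    Tendsto (fun n => inner ℝ G (ofF (hR n))) atTop (𝓝 0) := by
  set B : ℕ → Set (ℂ × ℂ) := fun n => {x | ‖x.2‖ ≤ Real.exp (-((n + 1 : ℕ) : ℝ))} with hB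
  have hBm : ∀ n, MeasurableSet (B n) := fun n =>
    measurableSet_le measurable_snd.norm measurable_const
  have hGm : Measurable (fun x => ‖G x‖ₑ) := (Lp.stronglyMeasurable G).enorm
  have ha : Tendsto (fun n => ∫⁻ x in T, (B n).indicator (fun x => ‖G x‖ₑ ^ 2) x) atTop (𝓝 0) := by
    have h0 : (0 : ℝ≥0∞) = ∫⁻ x in T, 0 := by simp
    rw [h0]
    apply tendsto_lintegral_of_dominated_convergence (fun x => ‖G x‖ₑ ^ 2)
    · intro n
      exact (hGm.pow_const 2).indicator (hBm n)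
    · intro n
      exact Eventually.of_forall fun x => indicator_le_self _ _ x
    · rw [← enorm_Lp_sq]
      simp
    · filter_upwards [ae_restrict_mem measurableSet_T] with x hx
      apply tendsto_const_nhds.congr'
      have hx0 : 0 < ‖x.2‖ := snd_pos hx
      obtain ⟨N, hN⟩ := exists_nat_ge (-Real.log ‖x.2‖)
      filter_upwards [eventually_ge_atTop N] with n hn
      rw [indicator_of_notMem]
      intro h
      have h1 : ‖x.2‖ ≤ Real.exp (-((n + 1 : ℕ) : ℝ)) := h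
      rw [← Real.log_le_iff_le_exp hx0] at h1
      push_cast at h1
      have h2 : (N : ℝ) ≤ n := by exact_mod_cast hn
      linarith
  have hkey : ∀ n, ‖(inner ℝ G (ofF (hR n)) : ℝ)‖ₑ ^ 2 ≤
      (∫⁻ x in T, (B n).indicator (fun x => ‖G x‖ₑ ^ 2) x) * (‖cf q‖ₑ ^ 2 * K) := by
    intro n
    have h1 : ‖(inner ℝ G (ofF (hR n)) : ℝ)‖ₑ ≤
        ∫⁻ x in T, (B n).indicator (fun x => ‖G x‖ₑ) x * (‖cf q‖ₑ * ‖R n x‖ₑ) := by
      rw [L2.inner_def]
      refine (enorm_integral_le_lintegral_enorm _).trans (lintegral_mono_ae ?_)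
      filter_upwards [cf_ofF (hR n)] with x hx
      rw [← hx]
      have h2 : ‖(inner ℝ (G x) (cf q (R n x)) : ℝ)‖ₑ ≤ ‖G x‖ₑ * (‖cf q‖ₑ * ‖R n x‖ₑ) := by
        calc ‖(inner ℝ (G x) (cf q (R n x)) : ℝ)‖ₑ ≤ ‖G x‖ₑ * ‖cf q (R n x)‖ₑ := by
              rw [← ofReal_norm, ← ofReal_norm, ← ofReal_norm, ← ENNReal.ofReal_mul (norm_nonneg _)]
              exact ENNReal.ofReal_le_ofReal (norm_inner_le_norm _ _)
          _ ≤ _ := by
              gcongr
              exact (cf q).le_opENorm _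
      by_cases hxB : x ∈ B n
      · rw [indicator_of_mem hxB]
        exact h2
      · have h3 : R n x = 0 := h0 n x (not_le.1 hxB)
        rw [h3, map_zero, inner_zero_right, enorm_zero]
        exact bot_le
    have h4 := sq_lintegral_mul_le (volume.restrict T)
      (g := (B n).indicator (fun x => ‖G x‖ₑ)) (h := fun x => ‖cf q‖ₑ * ‖R n x‖ₑ)
      (hGm.indicator (hBm n)).aemeasurable (((hR n).sm.enorm).const_mul _).aemeasurable
    calc ‖(inner ℝ G (ofF (hR n)) : ℝ)‖ₑ ^ 2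
        ≤ (∫⁻ x in T, (B n).indicator (fun x => ‖G x‖ₑ) x * (‖cf q‖ₑ * ‖R n x‖ₑ)) ^ 2 := by
          gcongr
      _ ≤ _ := h4
      _ = (∫⁻ x in T, (B n).indicator (fun x => ‖G x‖ₑ ^ 2) x) *
          (‖cf q‖ₑ ^ 2 * ∫⁻ x in T, ‖R n x‖ₑ ^ 2) := by
          congr 1
          · refine lintegral_congr fun x => ?_
            by_cases hxB : x ∈ B n
            · rw [indicator_of_mem hxB, indicator_of_mem hxB]
            · rw [indicator_of_notMem hxB, indicator_of_notMem hxB, zero_pow two_ne_zero]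
          · rw [← lintegral_const_mul _ ((hR n).sm.enorm.pow_const 2)]
            refine lintegral_congr fun x => ?_
            rw [mul_pow]
      _ ≤ _ := by
          gcongr
          exact hbd n
  have hfin : ‖cf q‖ₑ ^ 2 * K ≠ ⊤ := ENNReal.mul_ne_top (by simp) hK
  have hlim : Tendsto (fun n => (∫⁻ x in T, (B n).indicator (fun x => ‖G x‖ₑ ^ 2) x) *
      (‖cf q‖ₑ ^ 2 * K)) atTop (𝓝 0) := by
    have := ENNReal.Tendsto.mul_const (b := ‖cf q‖ₑ ^ 2 * K) ha (Or.inr hfin)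
    simpa using this
  have h5 : Tendsto (fun n => ‖(inner ℝ G (ofF (hR n)) : ℝ)‖ₑ) atTop (𝓝 0) :=
    tendsto_zero_of_sq (tendsto_of_tendsto_of_tendsto_of_le_of_le tendsto_const_nhds hlim
      (fun n => bot_le) hkey)
  rw [tendsto_iff_edist_tendsto_0]
  refine h5.congr fun n => ?_
  rw [edist_zero_right]

lemma ae_add_ofF {q : ℕ} {f g : ℂ × ℂ → (ℂ × ℂ) [⋀^Fin q]→L[ℝ] ℝ} (hf : L2Form f)
    (hg : L2Form g) : ∀ᵐ x ∂(volume.restrict T), cf q (f x + g x) = (ofF hf + ofF hg) x := by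
  filter_upwards [Lp.coeFn_add (ofF hf) (ofF hg), cf_ofF hf, cf_ofF hg] with x h1 h2 h3
  rw [h1, Pi.add_apply, ← h2, ← h3, map_add]

/-- Good forms belong to the strong domain. -/
theorem mem_GS_of_good {q : ℕ} (hA : Away q) {u : ℂ × ℂ → (ℂ × ℂ) [⋀^Fin q]→L[ℝ] ℝ}
    {g : ℂ × ℂ → (ℂ × ℂ) [⋀^Fin (q + 1)]→L[ℝ] ℝ} (hu : L2Form u) (hg : L2Form g)
    (hW : WD T u g) (hgood : Good u) : (ofF hu, ofF hg) ∈ GS q := by
  obtain ⟨C, hC0, hC⟩ := exists_tip_deriv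
  obtain ⟨D, hD⟩ := hgood
  have hmem : ∀ n : ℕ, ∀ x, Real.exp (-(3 * ((n + 1 : ℕ) : ℝ))) ≤ ‖x.2‖ → x ∈ T → x ∈ Aw (n + 1) :=
    fun n x hx hT => ⟨hT, hx⟩
  -- pointwise bound of the commutator
  have hpt : ∀ n : ℕ, ∀ x ∈ T, ‖wd (fderiv ℝ (tip (n + 1)) x) (u x)‖ₑ ^ 2 ≤
      (Aw (n + 1)).indicator (fun x => ENNReal.ofReal ((q + 1) * (C / (n + 1 : ℕ))) ^ 2 *
        (ENNReal.ofReal (‖x.2‖⁻¹) * ‖u x‖ₑ) ^ 2) x := by
    intro n x hx
    by_cases hxA : Real.exp (-(3 * ((n + 1 : ℕ) : ℝ))) ≤ ‖x.2‖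
    · rw [indicator_of_mem (hmem n x hxA hx), ← mul_pow]
      gcongr
      rw [← mul_assoc, ← ENNReal.ofReal_mul (by positivity), ← ofReal_norm, ← ofReal_norm,
        ← ENNReal.ofReal_mul (by positivity)]
      apply ENNReal.ofReal_le_ofReal
      refine (norm_wd_le _ _).trans ?_
      have h1 := (hC (n + 1) (by omega) x).1
      calc ((q : ℝ) + 1) * (‖fderiv ℝ (tip (n + 1)) x‖ * ‖u x‖)
          ≤ ((q : ℝ) + 1) * ((C / (n + 1 : ℕ) * ‖x.2‖⁻¹) * ‖u x‖) := by gcongr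
        _ = _ := by ring
    · have h1 := (hC (n + 1) (by omega) x).2 (fun h => hxA h.1)
      rw [h1, enorm_of_zero (wd_zero_left _), zero_pow two_ne_zero]
      exact bot_le
  set K : ℝ≥0∞ := ENNReal.ofReal ((q + 1) * C) ^ 2 * D with hK
  have hKtop : K ≠ ⊤ := ENNReal.mul_ne_top (by simp) (by simp)
  have hbd : ∀ n : ℕ, ∫⁻ x in T, ‖wd (fderiv ℝ (tip (n + 1)) x) (u x)‖ₑ ^ 2 ≤ K := by
    intro n
    calc ∫⁻ x in T, ‖wd (fderiv ℝ (tip (n + 1)) x) (u x)‖ₑ ^ 2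
        ≤ ∫⁻ x in T, (Aw (n + 1)).indicator
          (fun x => ENNReal.ofReal ((q + 1) * (C / (n + 1 : ℕ))) ^ 2 *
          (ENNReal.ofReal (‖x.2‖⁻¹) * ‖u x‖ₑ) ^ 2) x := setLIntegral_mono' measurableSet_T (hpt n)
      _ = ∫⁻ x in Aw (n + 1), ENNReal.ofReal ((q + 1) * (C / (n + 1 : ℕ))) ^ 2 *
          (ENNReal.ofReal (‖x.2‖⁻¹) * ‖u x‖ₑ) ^ 2 := by
          rw [setLIntegral_indicator (measurableSet_Aw (n + 1)),
            inter_eq_self_of_subset_left (show Aw (n + 1) ⊆ T from inter_subset_left)]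
      _ = ENNReal.ofReal ((q + 1) * (C / (n + 1 : ℕ))) ^ 2 * ∫⁻ x in Aw (n + 1),
          (ENNReal.ofReal (‖x.2‖⁻¹) * ‖u x‖ₑ) ^ 2 := lintegral_const_mul' _ _ (by simp)
      _ ≤ ENNReal.ofReal ((q + 1) * (C / (n + 1 : ℕ))) ^ 2 *
          (D * ((n + 1 : ℕ) : ℝ≥0∞) ^ 2) := by
          gcongr
          exact hD (n + 1) (by omega)
      _ = (ENNReal.ofReal ((q + 1) * (C / (n + 1 : ℕ))) * ENNReal.ofReal ((n + 1 : ℕ) : ℝ)) ^ 2 *
          D := by
          rw [ENNReal.ofReal_natCast]; ring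
      _ = K := by
          rw [← ENNReal.ofReal_mul (by positivity), hK]
          congr 3
          have : ((n + 1 : ℕ) : ℝ) ≠ 0 := by positivity
          field_simp
  have hRform : ∀ n : ℕ, L2Form (fun x => wd (fderiv ℝ (tip (n + 1)) x) (u x)) := by
    intro n
    refine ⟨?_, fun x hx => by rw [hu.off x hx, wd_zero_right], (hbd n).trans_lt hKtop.lt_top⟩
    have h1 : StronglyMeasurable (fun x => fderiv ℝ (tip (n + 1)) x) :=
      (((contDiff_tip (n + 1)).of_le (m := 1) (by simp)).continuous_fderiv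
        (by norm_num)).stronglyMeasurable
    have h2 : Continuous (fun p : (ℂ × ℂ →L[ℝ] ℝ) × ((ℂ × ℂ) [⋀^Fin q]→L[ℝ] ℝ) =>
        wdL (ℂ × ℂ) q p.1 p.2) :=
      ((wdL (ℂ × ℂ) q).continuous.comp continuous_fst).clm_apply continuous_snd
    have h3 := h2.comp_stronglyMeasurable (h1.prodMk hu.sm)
    exact h3
  have hUn : ∀ n : ℕ, L2Form (fun x => tip (n + 1) x • u x) := fun n =>
    hu.mul (contDiff_tip (n + 1)).continuous (tip_le_one (n + 1))
  have hXn : ∀ n : ℕ, L2Form (fun x => tip (n + 1) x • g x) := fun n =>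
    hg.mul (contDiff_tip (n + 1)).continuous (tip_le_one (n + 1))
  apply mem_of_weak (GS q) (isClosed_GS q) (U := fun n => ofF (hUn n))
    (X := fun n => ofF (hXn n)) (R := fun n => ofF (hRform n))
  · exact tendsto_ofF hUn hu (tendsto_tip_mul hu)
  · exact tendsto_ofF hXn hg (tendsto_tip_mul hg)
  · intro G
    apply weak_null hRform hKtop hbd
    intro n x hx
    rw [(hC (n + 1) (by omega) x).2 (fun h => absurd hx (not_lt.2 h.2)), wd_zero_left]
  · intro n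
    rw [mem_GS]
    apply hA _ _ _ (Real.exp (-(3 * ((n + 1 : ℕ) : ℝ)))) (Real.exp_pos _)
    · filter_upwards [cf_ofF (hUn n)] with x hx hlt
      rw [← hx, tip_zero (by omega) hlt, zero_smul, map_zero]
    · refine (weakD_iff (hUn n) ((hXn n).add (hRform n)) (cf_ofF (hUn n))
        (ae_add_ofF (hXn n) (hRform n))).1 ?_
      exact hW.mul_smooth (contDiff_tip (n + 1)) (tip_le_one (n + 1)) hu.integrableOn
        hg.integrableOn

end Pool.Agent.Lib.MP_05a445_an
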