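import Pool.Agent.Lib.MP_05a445_an.Star

/-!
Change of variables by invertible linear maps and the homotopy formula for weakly closed forms.
-/

set_option autoImplicit false

namespace Pool.Agent.Lib.MP_05a445_an

open MeasureTheory Set Filter Topology ContinuousAlternatingMap ContinuousLinearMap
open scoped ContDiff

variable {V : Type*} [NormedAddCommGroup V] [NormedSpace ℝ V] [FiniteDimensional ℝ V]
  [MeasureSpace V] [BorelSpace V] [(volume : Measure V).IsAddHaarMeasure]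

omit [(volume : Measure V).IsAddHaarMeasure] in
lemma measurableEmbedding_lin {A : V →L[ℝ] V} (hA : A.det ≠ 0) : MeasurableEmbedding A := by
  have h : ⇑A = ⇑(A.toContinuousLinearEquivOfDetNeZero hA) := by
    ext x; rfl
  rw [h]
  exact (A.toContinuousLinearEquivOfDetNeZero hA).toHomeomorph.measurableEmbedding

lemma map_lin {A : V →L[ℝ] V} (hA : A.det ≠ 0) :
    Measure.map A (volume : Measure V) = ENNReal.ofReal |(A.det)⁻¹| • volume :=
  Measure.map_linearMap_addHaar_eq_smul_addHaar (f := (A : V →ₗ[ℝ] V)) volume hA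

lemma integral_comp_lin {A : V →L[ℝ] V} (hA : A.det ≠ 0) (g : V → ℝ) :
    ∫ x, g (A x) = |A.det|⁻¹ * ∫ x, g x := by
  have h1 : ∫ x, g (A x) = ∫ y, g y ∂(Measure.map A volume) :=
    ((measurableEmbedding_lin hA).integral_map g).symm
  rw [h1, map_lin hA, integral_smul_measure, ENNReal.toReal_ofReal (abs_nonneg _), abs_inv,
    smul_eq_mul]

lemma integrable_comp_lin {F : Type*} [NormedAddCommGroup F] {A : V →L[ℝ] V} (hA : A.det ≠ 0)
    {g : V → F} (hg : Integrable g) : Integrable (fun x => g (A x)) := by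
  have h1 : Integrable g (Measure.map A volume) := by
    rw [map_lin hA]
    exact hg.smul_measure ENNReal.ofReal_ne_top
  exact ((measurableEmbedding_lin hA).integrable_map_iff).1 h1

lemma lintegral_comp_lin {A : V →L[ℝ] V} (hA : A.det ≠ 0) (g : V → ENNReal) :
    ∫⁻ x, g (A x) = ENNReal.ofReal |A.det|⁻¹ * ∫⁻ x, g x := by
  have h1 : ∫⁻ x, g (A x) = ∫⁻ y, g y ∂(Measure.map A volume) :=
    ((measurableEmbedding_lin hA).lintegral_map g).symm
  rw [h1, map_lin hA, lintegral_smul_measure, abs_inv, smul_eq_mul]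

section bounds

omit [FiniteDimensional ℝ V] [MeasureSpace V] [BorelSpace V]
  [(volume : Measure V).IsAddHaarMeasure]

lemma norm_comp_le {q : ℕ} (f : V [⋀^Fin q]→L[ℝ] ℝ) (A : V →L[ℝ] V) :
    ‖f.compContinuousLinearMap A‖ ≤ ‖f‖ * ‖A‖ ^ q := by
  simpa using norm_compContinuousLinearMap_le f A

lemma norm_pb_le {q : ℕ} (A : V →L[ℝ] V) (f : V → V [⋀^Fin q]→L[ℝ] ℝ) (x : V) :
    ‖pb A f x‖ ≤ ‖f (A x)‖ * ‖A‖ ^ q :=
  norm_comp_le _ _

lemma norm_ct_le {q : ℕ} (A B : V →L[ℝ] V) (f : V → V [⋀^Fin (q + 1)]→L[ℝ] ℝ) (x : V) :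
    ‖ct A B f x‖ ≤ ‖f (A x)‖ * (‖B x‖ * ‖A‖ ^ q) := by
  refine (norm_comp_le _ _).trans ?_
  have h1 : ‖(f (A x)).curryLeft (B x)‖ ≤ ‖f (A x)‖ * ‖B x‖ := by
    have := ((f (A x)).curryLeft).le_opNorm (B x)
    rwa [norm_curryLeft] at this
  calc ‖(f (A x)).curryLeft (B x)‖ * ‖A‖ ^ q ≤ (‖f (A x)‖ * ‖B x‖) * ‖A‖ ^ q := by gcongr
    _ = _ := by ring

lemma norm_apply_le {q : ℕ} (f : V [⋀^Fin q]→L[ℝ] ℝ) (v : Fin q → V) :
    |f v| ≤ ‖f‖ * ∏ i, ‖v i‖ := f.le_opNorm v

lemma pb_sub {q : ℕ} (A : V →L[ℝ] V) (f g : V → V [⋀^Fin q]→L[ℝ] ℝ) (x : V) :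
    pb A (fun y => f y - g y) x = pb A f x - pb A g x := rfl

lemma ct_sub {q : ℕ} (A B : V →L[ℝ] V) (f g : V → V [⋀^Fin (q + 1)]→L[ℝ] ℝ) (x : V) :
    ct A B (fun y => f y - g y) x = ct A B f x - ct A B g x := rfl

end bounds

omit [(volume : Measure V).IsAddHaarMeasure] in
lemma aesm_ct {q : ℕ} {A B : V →L[ℝ] V} {f : V → V [⋀^Fin (q + 1)]→L[ℝ] ℝ} {μ : Measure V}
    (hf : AEStronglyMeasurable (fun x => f (A x)) μ) : AEStronglyMeasurable (ct A B f) μ := by
  have h1 : AEStronglyMeasurable (fun x => cl V q (f (A x)) (B x)) μ :=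
    ContinuousLinearMap.aestronglyMeasurable_comp₂ (cl V q) hf
      B.continuous.aestronglyMeasurable
  exact (cc A).continuous.comp_aestronglyMeasurable h1

omit [FiniteDimensional ℝ V] [BorelSpace V] [(volume : Measure V).IsAddHaarMeasure] in
lemma aesm_pb {q : ℕ} {A : V →L[ℝ] V} {f : V → V [⋀^Fin q]→L[ℝ] ℝ} {μ : Measure V}
    (hf : AEStronglyMeasurable (fun x => f (A x)) μ) : AEStronglyMeasurable (pb A f) μ :=
  (cc A).continuous.comp_aestronglyMeasurable hf

omit [(volume : Measure V).IsAddHaarMeasure] in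
lemma aesm_wd {q : ℕ} {ψ : V → ℝ} (hψ : ContDiff ℝ 1 ψ) {f : V → V [⋀^Fin q]→L[ℝ] ℝ}
    {μ : Measure V} (hf : AEStronglyMeasurable f μ) :
    AEStronglyMeasurable (fun x => wd (fderiv ℝ ψ x) (f x)) μ :=
  ContinuousLinearMap.aestronglyMeasurable_comp₂ (wdL V q)
    (hψ.continuous_fderiv (by norm_num)).aestronglyMeasurable hf

omit [FiniteDimensional ℝ V] [MeasureSpace V] [BorelSpace V]
  [(volume : Measure V).IsAddHaarMeasure] in
/-- A bound used for all test functions. -/
lemma exists_bound {ψ : V → ℝ} (hψ : ContDiff ℝ 1 ψ) (hc : HasCompactSupport ψ) :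
    ∃ C, 0 ≤ C ∧ ∀ x, |ψ x| ≤ C ∧ ‖fderiv ℝ ψ x‖ ≤ C ∧ ‖fderiv ℝ ψ x‖ * ‖x‖ ≤ C := by
  obtain ⟨C1, h1⟩ := hψ.continuous.bounded_above_of_compact_support hc
  have hcf : HasCompactSupport (fderiv ℝ ψ) := hc.fderiv (𝕜 := ℝ)
  have hfc : Continuous (fderiv ℝ ψ) := hψ.continuous_fderiv (by norm_num)
  obtain ⟨C2, h2⟩ := hfc.bounded_above_of_compact_support hcf
  have h3c : Continuous (fun x => ‖fderiv ℝ ψ x‖ * ‖x‖) := hfc.norm.mul continuous_norm
  have h3s : HasCompactSupport (fun x => ‖fderiv ℝ ψ x‖ * ‖x‖) := hcf.norm.mul_right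
  obtain ⟨C3, h3⟩ := h3c.bounded_above_of_compact_support h3s
  refine ⟨max (max C1 C2) C3, ?_, fun x => ⟨?_, ?_, ?_⟩⟩
  · exact ((norm_nonneg _).trans (h3 0)).trans (le_max_right _ _)
  · exact (h1 x).trans ((le_max_left _ _).trans (le_max_left _ _))
  · exact (h2 x).trans ((le_max_right _ _).trans (le_max_left _ _))
  · have := h3 x
    rw [Real.norm_of_nonneg (by positivity)] at this
    exact this.trans (le_max_right _ _)

omit [FiniteDimensional ℝ V] [MeasureSpace V] [BorelSpace V]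
  [(volume : Measure V).IsAddHaarMeasure] in
lemma norm_wd_ct_le {q : ℕ} {A B : V →L[ℝ] V} {f : V → V [⋀^Fin (q + 1)]→L[ℝ] ℝ} {ψ : V → ℝ}
    {C : ℝ} (hC : ∀ x, ‖fderiv ℝ ψ x‖ * ‖x‖ ≤ C) (x : V) :
    ‖wd (fderiv ℝ ψ x) (ct A B f x)‖ ≤ (q + 1) * C * (‖B‖ * ‖A‖ ^ q) * ‖f (A x)‖ := by
  refine (norm_wd_le _ _).trans ?_
  have h1 := norm_ct_le A B f x
  have h2 : ‖B x‖ ≤ ‖B‖ * ‖x‖ := B.le_opNorm x
  have h3 := hC x
  calc (q + 1) * (‖fderiv ℝ ψ x‖ * ‖ct A B f x‖)
      ≤ (q + 1) * (‖fderiv ℝ ψ x‖ * (‖f (A x)‖ * ((‖B‖ * ‖x‖) * ‖A‖ ^ q))) := by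
        gcongr
        exact h1.trans (by gcongr)
    _ = (q + 1) * (‖fderiv ℝ ψ x‖ * ‖x‖) * (‖B‖ * ‖A‖ ^ q) * ‖f (A x)‖ := by ring
    _ ≤ _ := by gcongr

lemma integrable_wd_ct {q : ℕ} {A B : V →L[ℝ] V} (hA : A.det ≠ 0)
    {f : V → V [⋀^Fin (q + 1)]→L[ℝ] ℝ} (hf : Integrable f) {ψ : V → ℝ} (hψ : ContDiff ℝ 1 ψ)
    (hc : HasCompactSupport ψ) : Integrable (fun x => wd (fderiv ℝ ψ x) (ct A B f x)) := by
  obtain ⟨C, hC0, hC⟩ := exists_bound hψ hc
  have h1 := integrable_comp_lin hA hf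
  apply (h1.norm.const_mul ((q + 1) * C * (‖B‖ * ‖A‖ ^ q))).mono'
    (aesm_wd hψ (aesm_ct h1.aestronglyMeasurable))
  exact Eventually.of_forall fun x => norm_wd_ct_le (fun y => (hC y).2.2) x

lemma integrable_smul_pb {q : ℕ} {A : V →L[ℝ] V} (hA : A.det ≠ 0)
    {f : V → V [⋀^Fin q]→L[ℝ] ℝ} (hf : Integrable f) {ψ : V → ℝ} (hψ : ContDiff ℝ 1 ψ)
    (hc : HasCompactSupport ψ) : Integrable (fun x => ψ x • pb A f x) := by
  obtain ⟨C, hC0, hC⟩ := exists_bound hψ hc
  have h1 := integrable_comp_lin hA hf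
  apply (h1.norm.const_mul (C * ‖A‖ ^ q)).mono'
    (hψ.continuous.aestronglyMeasurable.smul (aesm_pb h1.aestronglyMeasurable))
  refine Eventually.of_forall fun x => ?_
  change ‖ψ x • pb A f x‖ ≤ _
  rw [norm_smul, Real.norm_eq_abs]
  calc |ψ x| * ‖pb A f x‖ ≤ C * (‖f (A x)‖ * ‖A‖ ^ q) := by
        gcongr
        · exact (hC x).1
        · exact norm_pb_le _ _ _
    _ = _ := by ring

theorem star {q : ℕ} {f : V → V [⋀^Fin (q + 1)]→L[ℝ] ℝ} (hf : Integrable f) {O : Set V}
    (hO : IsOpen O) (hcl : ClosedOn O f)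
    {A B : ℝ → V →L[ℝ] V} (hA : ∀ t, HasDerivAt A (B t) t) (hB : Continuous B) {a b : ℝ}
    (hab : a ≤ b) (hmap : ∀ t ∈ Icc a b, ∀ x ∈ O, A t x ∈ O)
    (hdet : ∀ t ∈ Icc a b, (A t).det ≠ 0) {ψ : V → ℝ} (hψ : IsTest O ψ)
    (v : Fin (q + 1) → V) :
    ∫ x, ψ x * (pb (A b) f x v - pb (A a) f x v) =
      - ∫ t in a..b, ∫ x, wd (fderiv ℝ ψ x) (ct (A t) (B t) f x) v := by
  have hAc : Continuous A := continuous_iff_continuousAt.2 fun t => (hA t).continuousAt
  have hψ1 : ContDiff ℝ 1 ψ := hψ.smooth.of_le (by simp)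
  obtain ⟨C, hC0, hC⟩ := exists_bound hψ1 hψ.compact
  obtain ⟨F, hFs, hFi, hFb, hFt, hFc⟩ := exists_mollify hf hO hcl
  have hFs1 : ∀ n, ContDiff ℝ 1 (F n) := fun n => (hFs n).of_le (by simp)
  -- the compact set swept out
  set K : Set V := (fun p : ℝ × V => A p.1 p.2) '' (Icc a b ×ˢ tsupport ψ) with hK
  have hKc : IsCompact K := (isCompact_Icc.prod hψ.compact.isCompact).image
    ((hAc.comp continuous_fst).clm_apply continuous_snd)
  have hKO : K ⊆ O := by
    rintro _ ⟨⟨t, x⟩, ⟨ht, hx⟩, rfl⟩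
    exact hmap t ht x (hψ.supp hx)
  have hev : ∀ᶠ n in atTop, ∫ x, ψ x * (pb (A b) (F n) x v - pb (A a) (F n) x v) =
      - ∫ t in a..b, ∫ x, wd (fderiv ℝ ψ x) (ct (A t) (B t) (F n) x) v := by
    filter_upwards [hFc K hKc hKO] with n hn
    apply star_smooth (hFs1 n) hA hB hψ1 hψ.compact hab _ v
    intro t ht x hx
    exact hn _ ⟨(t, x), ⟨ht, hx⟩, rfl⟩
  set P : ℝ := ∏ i, ‖v i‖ with hP
  have hP0 : 0 ≤ P := Finset.prod_nonneg fun i _ => norm_nonneg _
  -- difference of the left sides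
  have hpbdiff : ∀ t ∈ Icc a b, Tendsto (fun n => ∫ x, ψ x * pb (A t) (F n) x v) atTop
      (𝓝 (∫ x, ψ x * pb (A t) f x v)) := by
    intro t ht
    have hint : ∀ {g : V → V [⋀^Fin (q + 1)]→L[ℝ] ℝ}, Integrable g →
        Integrable (fun x => ψ x * pb (A t) g x v) := by
      intro g hg
      exact (ev v).integrable_comp (integrable_smul_pb (hdet t ht) hg hψ1 hψ.compact)
    rw [tendsto_iff_dist_tendsto_zero]
    have hlim : Tendsto (fun n => (C * ‖A t‖ ^ (q + 1) * P * |(A t).det|⁻¹) *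
        ∫ x, ‖F n x - f x‖) atTop (𝓝 0) := by
      simpa using hFt.const_mul (C * ‖A t‖ ^ (q + 1) * P * |(A t).det|⁻¹)
    refine squeeze_zero (fun n => dist_nonneg) (fun n => ?_) hlim
    rw [Real.dist_eq, ← integral_sub (hint (hFi n)) (hint hf), ← Real.norm_eq_abs]
    refine (norm_integral_le_integral_norm _).trans ?_
    have hg : Integrable (fun y => F n y - f y) := (hFi n).sub hf
    have h2 := integral_comp_lin (hdet t ht) (fun y => ‖F n y - f y‖)
    calc ∫ x, ‖ψ x * pb (A t) (F n) x v - ψ x * pb (A t) f x v‖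
        ≤ ∫ x, (C * ‖A t‖ ^ (q + 1) * P) * ‖F n (A t x) - f (A t x)‖ := by
          apply integral_mono_of_nonneg (Eventually.of_forall fun x => norm_nonneg _)
            (((integrable_comp_lin (hdet t ht) hg).norm).const_mul _)
          refine Eventually.of_forall fun x => ?_
          have h3 : ψ x * pb (A t) (F n) x v - ψ x * pb (A t) f x v =
            ψ x * pb (A t) (fun y => F n y - f y) x v := by
            rw [pb_sub, ContinuousAlternatingMap.sub_apply]; ring
          simp only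
          rw [h3, norm_mul, Real.norm_eq_abs, Real.norm_eq_abs]
          calc |ψ x| * |pb (A t) (fun y => F n y - f y) x v|
              ≤ C * ((‖F n (A t x) - f (A t x)‖ * ‖A t‖ ^ (q + 1)) * P) := by
                gcongr
                · exact (hC x).1
                · exact (norm_apply_le _ v).trans (by gcongr; exact norm_pb_le _ _ _)
            _ = _ := by ring
      _ = _ := by rw [integral_const_mul, h2]; ring
  have hleft : Tendsto (fun n => ∫ x, ψ x * (pb (A b) (F n) x v - pb (A a) (F n) x v)) atTop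
      (𝓝 (∫ x, ψ x * (pb (A b) f x v - pb (A a) f x v))) := by
    have hsplit : ∀ {g : V → V [⋀^Fin (q + 1)]→L[ℝ] ℝ}, Integrable g →
        ∫ x, ψ x * (pb (A b) g x v - pb (A a) g x v) =
        (∫ x, ψ x * pb (A b) g x v) - ∫ x, ψ x * pb (A a) g x v := by
      intro g hg
      rw [← integral_sub]
      · simp_rw [mul_sub]
      · exact (ev v).integrable_comp
          (integrable_smul_pb (hdet b (right_mem_Icc.2 hab)) hg hψ1 hψ.compact)
      · exact (ev v).integrable_comp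
          (integrable_smul_pb (hdet a (left_mem_Icc.2 hab)) hg hψ1 hψ.compact)
    rw [hsplit hf]
    simp_rw [fun n => hsplit (hFi n)]
    exact (hpbdiff b (right_mem_Icc.2 hab)).sub (hpbdiff a (left_mem_Icc.2 hab))
  -- uniform bounds on the interval
  obtain ⟨M, hM0, hM⟩ : ∃ M, 0 ≤ M ∧ ∀ t ∈ Icc a b,
      ‖B t‖ * ‖A t‖ ^ q * |(A t).det|⁻¹ ≤ M := by
    have hdc : Continuous (fun t => (A t).det) := ContinuousLinearMap.continuous_det.comp hAc
    have hcont : ContinuousOn (fun t => ‖B t‖ * ‖A t‖ ^ q * |(A t).det|⁻¹) (Icc a b) := by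
      apply ContinuousOn.mul
      · exact (hB.norm.mul (hAc.norm.pow q)).continuousOn
      · exact (hdc.abs.continuousOn).inv₀ fun t ht => abs_ne_zero.2 (hdet t ht)
    obtain ⟨M, hM⟩ := (isCompact_Icc.image_of_continuousOn hcont).bddAbove
    refine ⟨M, ?_, fun t ht => hM (mem_image_of_mem _ ht)⟩
    have := hM (mem_image_of_mem _ (left_mem_Icc.2 hab))
    exact le_trans (by positivity) this
  have hptwise : ∀ t ∈ Icc a b, ∀ {g : V → V [⋀^Fin (q + 1)]→L[ℝ] ℝ}, Integrable g →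
      |∫ x, wd (fderiv ℝ ψ x) (ct (A t) (B t) g x) v| ≤ (q + 1) * C * M * P * ∫ x, ‖g x‖ := by
    intro t ht g hg
    rw [← Real.norm_eq_abs]
    refine (norm_integral_le_integral_norm _).trans ?_
    have h2 := integral_comp_lin (hdet t ht) (fun y => ‖g y‖)
    have hnn : 0 ≤ ∫ x, ‖g x‖ := integral_nonneg fun x => norm_nonneg _
    calc ∫ x, ‖wd (fderiv ℝ ψ x) (ct (A t) (B t) g x) v‖
        ≤ ∫ x, ((q + 1) * C * (‖B t‖ * ‖A t‖ ^ q) * P) * ‖g (A t x)‖ := by
          apply integral_mono_of_nonneg (Eventually.of_forall fun x => norm_nonneg _)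
            (((integrable_comp_lin (hdet t ht) hg).norm).const_mul _)
          refine Eventually.of_forall fun x => ?_
          simp only
          rw [Real.norm_eq_abs]
          calc |wd (fderiv ℝ ψ x) (ct (A t) (B t) g x) v|
              ≤ ‖wd (fderiv ℝ ψ x) (ct (A t) (B t) g x)‖ * P := norm_apply_le _ v
            _ ≤ ((q + 1) * C * (‖B t‖ * ‖A t‖ ^ q) * ‖g (A t x)‖) * P := by
                gcongr
                exact norm_wd_ct_le (fun y => (hC y).2.2) x
            _ = _ := by ring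
      _ = (q + 1) * C * (‖B t‖ * ‖A t‖ ^ q * |(A t).det|⁻¹) * P * ∫ x, ‖g x‖ := by
          rw [integral_const_mul, h2]; ring
      _ ≤ _ := by
          gcongr
          exact hM t ht
  have hright : Tendsto (fun n => ∫ t in a..b, ∫ x, wd (fderiv ℝ ψ x) (ct (A t) (B t) (F n) x) v)
      atTop (𝓝 (∫ t in a..b, ∫ x, wd (fderiv ℝ ψ x) (ct (A t) (B t) f x) v)) := by
    apply intervalIntegral.tendsto_integral_filter_of_dominated_convergence
      (fun _ => (q + 1) * C * M * P * ∫ x, ‖f x‖)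
    · refine Eventually.of_forall fun n => ?_
      have hjoint : Continuous (fun p : ℝ × V =>
          wd (fderiv ℝ ψ p.2) (ct (A p.1) (B p.1) (F n) p.2) v) := by
        simp_rw [wd_apply, ct_apply]
        refine continuous_finsetSum _ fun i _ => continuous_const.mul (Continuous.mul ?_ ?_)
        · exact ((hψ1.continuous_fderiv (by norm_num)).comp continuous_snd).clm_apply
            continuous_const
        · apply Continuous.eval
          · exact (hFs1 n).continuous.comp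
              ((hAc.comp continuous_fst).clm_apply continuous_snd)
          · refine continuous_pi fun j => ?_
            refine Fin.cases ?_ (fun j => ?_) j
            · simpa using (hB.comp continuous_fst).clm_apply continuous_snd
            · simpa using (hAc.comp continuous_fst).clm_apply continuous_const
      exact (hjoint.stronglyMeasurable.integral_prod_right').aestronglyMeasurable
    · refine Eventually.of_forall fun n => Eventually.of_forall fun t ht => ?_
      rw [uIoc_of_le hab] at ht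
      have ht' : t ∈ Icc a b := Ioc_subset_Icc_self ht
      exact (hptwise t ht' (hFi n)).trans
        (mul_le_mul_of_nonneg_left (hFb n) (by positivity))
    · exact intervalIntegrable_const
    · refine Eventually.of_forall fun t ht => ?_
      rw [uIoc_of_le hab] at ht
      have ht' : t ∈ Icc a b := Ioc_subset_Icc_self ht
      rw [tendsto_iff_dist_tendsto_zero]
      have hlim : Tendsto (fun n => ((q + 1) * C * M * P) * ∫ x, ‖F n x - f x‖) atTop (𝓝 0) := by
        simpa using hFt.const_mul ((q + 1) * C * M * P)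
      refine squeeze_zero (fun n => dist_nonneg) (fun n => ?_) hlim
      have hint : ∀ {g : V → V [⋀^Fin (q + 1)]→L[ℝ] ℝ}, Integrable g →
          Integrable (fun x => wd (fderiv ℝ ψ x) (ct (A t) (B t) g x) v) := fun hg =>
        (ev v).integrable_comp (integrable_wd_ct (hdet t ht') hg hψ1 hψ.compact)
      rw [Real.dist_eq, ← integral_sub (hint (hFi n)) (hint hf)]
      have h4 := hptwise t ht' ((hFi n).sub hf)
      have h5 : ∀ x, wd (fderiv ℝ ψ x) (ct (A t) (B t) (F n) x) v -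
          wd (fderiv ℝ ψ x) (ct (A t) (B t) f x) v =
          wd (fderiv ℝ ψ x) (ct (A t) (B t) (fun y => F n y - f y) x) v := by
        intro x
        rw [ct_sub, wd_sub_right, ContinuousAlternatingMap.sub_apply]
      simp_rw [h5]
      exact h4
  have hR := hright.neg
  exact tendsto_nhds_unique (hleft.congr' hev) hR

end Pool.Agent.Lib.MP_05a445_an
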