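import Pool.Agent.Lib.MP_05a445_an.Parts

/-!
Mollification of weakly closed forms.
-/

set_option autoImplicit false

namespace Pool.Agent.Lib.MP_05a445_an

open MeasureTheory Set Filter Topology ContinuousAlternatingMap ContinuousLinearMap
open scoped ENNReal ContDiff Convolution

variable {V : Type*} [NormedAddCommGroup V] [NormedSpace ℝ V] [FiniteDimensional ℝ V]
  [MeasureSpace V] [BorelSpace V] [(volume : Measure V).IsAddHaarMeasure]

/-- `f` is weakly closed in `O`. -/
def ClosedOn {q : ℕ} (O : Set V) (f : V → V [⋀^Fin q]→L[ℝ] ℝ) : Prop :=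
  ∀ ψ : V → ℝ, IsTest O ψ → ∫ x in O, wd (fderiv ℝ ψ x) (f x) = 0

/-- Mollification. -/
noncomputable def mol {F : Type*} [NormedAddCommGroup F] [NormedSpace ℝ F]
    (φ : ContDiffBump (0 : V)) (f : V → F) : V → F :=
  (φ.normed volume ⋆[lsmul ℝ ℝ, volume] f)

section general

variable {F : Type*} [NormedAddCommGroup F] [NormedSpace ℝ F]

lemma mol_apply (φ : ContDiffBump (0 : V)) (f : V → F) (x : V) :
    mol φ f x = ∫ t, φ.normed volume (x - t) • f t := by
  rw [mol, convolution_lsmul_swap]

lemma mol_contDiff (φ : ContDiffBump (0 : V)) {f : V → F} (hf : LocallyIntegrable f) :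
    ContDiff ℝ ∞ (mol φ f) :=
  φ.hasCompactSupport_normed.contDiff_convolution_left _ φ.contDiff_normed hf

lemma norm_mol_le (φ : ContDiffBump (0 : V)) (f : V → F) (x : V) :
    ‖mol φ f x‖ ≤ mol φ (fun y => ‖f y‖) x := by
  rw [mol_apply, mol_apply]
  refine (norm_integral_le_integral_norm _).trans (le_of_eq ?_)
  refine integral_congr_ae (Eventually.of_forall fun t => ?_)
  simp only [norm_smul, smul_eq_mul, Real.norm_eq_abs]
  rw [abs_of_nonneg (φ.nonneg_normed _)]

lemma mol_integrable (φ : ContDiffBump (0 : V)) {f : V → F} (hf : Integrable f) :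
    Integrable (mol φ f) :=
  (φ.integrable_normed (μ := volume)).integrable_convolution _ hf

lemma integral_norm_mol_le (φ : ContDiffBump (0 : V)) {f : V → F} (hf : Integrable f) :
    ∫ x, ‖mol φ f x‖ ≤ ∫ x, ‖f x‖ := by
  have h1 : ∫ x, mol φ (fun y => ‖f y‖) x = ∫ x, ‖f x‖ := by
    unfold mol
    rw [integral_convolution _ φ.integrable_normed hf.norm]
    simp [φ.integral_normed]
  rw [← h1]
  exact integral_mono (mol_integrable φ hf).norm (mol_integrable φ hf.norm)
    (fun x => norm_mol_le φ f x)

lemma convExists (φ : ContDiffBump (0 : V)) {f : V → F} (hf : LocallyIntegrable f) :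
    ConvolutionExists (φ.normed volume) f (lsmul ℝ ℝ : ℝ →L[ℝ] F →L[ℝ] F) volume :=
  φ.hasCompactSupport_normed.convolutionExists_left _ φ.continuous_normed hf

lemma mol_int (φ : ContDiffBump (0 : V)) {f : V → F} (hf : LocallyIntegrable f) (x : V) :
    Integrable (fun t => φ.normed volume (x - t) • f t) :=
  (convExists φ hf x).integrable_swap

lemma mol_sub (φ : ContDiffBump (0 : V)) {f g : V → F} (hf : LocallyIntegrable f)
    (hg : LocallyIntegrable g) (x : V) :
    mol φ (fun y => f y - g y) x = mol φ f x - mol φ g x := by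
  rw [mol_apply, mol_apply, mol_apply, ← integral_sub]
  · simp_rw [smul_sub]
  · exact mol_int φ hf x
  · exact mol_int φ hg x

lemma mol_clm {G : Type*} [NormedAddCommGroup G] [NormedSpace ℝ G] [CompleteSpace F]
    [CompleteSpace G] (L : F →L[ℝ] G)
    (φ : ContDiffBump (0 : V)) {f : V → F} (hf : LocallyIntegrable f) (x : V) :
    L (mol φ f x) = mol φ (fun y => L (f y)) x := by
  rw [mol_apply, mol_apply, ← L.integral_comp_comm (mol_int φ hf x)]
  simp

lemma fderiv_mol (φ : ContDiffBump (0 : V)) {f : V → ℝ} (hf : LocallyIntegrable f) (x v : V) :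
    fderiv ℝ (mol φ f) x v = ∫ t, fderiv ℝ (φ.normed volume) (x - t) v * f t := by
  have h1 := (φ.hasCompactSupport_normed (μ := volume)).hasFDerivAt_convolution_left
    (μ := volume) (lsmul ℝ ℝ : ℝ →L[ℝ] ℝ →L[ℝ] ℝ) φ.contDiff_normed hf x
  unfold mol
  rw [h1.fderiv, convolution_eq_swap, ContinuousLinearMap.integral_apply]
  · rfl
  · have h2 : HasCompactSupport (fderiv ℝ (φ.normed (volume : Measure V))) :=
      φ.hasCompactSupport_normed.fderiv (𝕜 := ℝ)
    have h3 : Continuous (fderiv ℝ (φ.normed (volume : Measure V))) :=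
      (φ.contDiff_normed (n := 1)).continuous_fderiv (by norm_num)
    exact (h2.convolutionExists_left ((lsmul ℝ ℝ : ℝ →L[ℝ] ℝ →L[ℝ] ℝ).precompL V) h3
      hf x).integrable_swap

/-- A sequence of mollifiers. -/
noncomputable def bump (V : Type*) [NormedAddCommGroup V] [NormedSpace ℝ V]
    [FiniteDimensional ℝ V] (n : ℕ) : ContDiffBump (0 : V) where
  rIn := 1 / (2 * ((n : ℝ) + 1))
  rOut := 1 / ((n : ℝ) + 1)
  rIn_pos := by positivity
  rIn_lt_rOut := by
    apply one_div_lt_one_div_of_lt (by positivity)
    have : (0 : ℝ) ≤ n := Nat.cast_nonneg n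
    linarith

omit [MeasureSpace V] [BorelSpace V] [(volume : Measure V).IsAddHaarMeasure] in
lemma bump_rOut (n : ℕ) : (bump V n).rOut = 1 / ((n : ℝ) + 1) := rfl

omit [MeasureSpace V] [BorelSpace V] [(volume : Measure V).IsAddHaarMeasure] in
lemma bump_tendsto : Tendsto (fun n => (bump V n).rOut) atTop (𝓝 0) :=
  tendsto_one_div_add_atTop_nhds_zero_nat

/-- `L^1` convergence of mollifications, for continuous functions with compact support. -/
lemma tendsto_mol_cont [CompleteSpace F] {f : V → F} (hf : Continuous f) (hc : HasCompactSupport f) :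
    Tendsto (fun n => ∫ x, ‖mol (bump V n) f x - f x‖) atTop (𝓝 0) := by
  have hli : LocallyIntegrable f := hf.locallyIntegrable
  set K : Set V := Metric.cthickening 1 (tsupport f) with hK
  have hKc : IsCompact K := hc.isCompact.cthickening
  have hKfin : volume K < ⊤ := hKc.measure_lt_top
  have huc : UniformContinuous f := hc.uniformContinuous_of_continuous hf
  rw [Metric.tendsto_atTop]
  intro ε hε
  set δ : ℝ := ε / (2 * ((volume K).toReal + 1)) with hδ
  have hV0 : 0 ≤ (volume K).toReal := ENNReal.toReal_nonneg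
  have hδ0 : 0 < δ := by positivity
  obtain ⟨r, hr, hur⟩ := Metric.uniformContinuous_iff.1 huc δ hδ0
  obtain ⟨N, hN⟩ := (Metric.tendsto_atTop.1 (bump_tendsto (V := V))) (min r 1) (by positivity)
  refine ⟨N, fun n hn => ?_⟩
  have hn1 := hN n hn
  rw [Real.dist_eq, sub_zero, abs_of_pos (bump V n).rOut_pos] at hn1
  have hr1 : (bump V n).rOut < r := hn1.trans_le (min_le_left _ _)
  have hr2 : (bump V n).rOut < 1 := hn1.trans_le (min_le_right _ _)
  have hpt : ∀ x, ‖mol (bump V n) f x - f x‖ ≤ K.indicator (fun _ => δ) x := by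
    intro x
    by_cases hx : x ∈ K
    · rw [indicator_of_mem hx, ← dist_eq_norm]
      apply (bump V n).dist_normed_convolution_le hf.aestronglyMeasurable
      intro y hy
      apply (hur _).le
      exact (Metric.mem_ball.1 hy).trans hr1
    · rw [indicator_of_notMem hx]
      have hfx : ∀ y ∈ Metric.ball x (bump V n).rOut, f y = 0 := by
        intro y hy
        apply image_eq_zero_of_notMem_tsupport
        intro hyt
        apply hx
        apply Metric.mem_cthickening_of_dist_le x y 1 _ hyt
        rw [dist_comm]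
        exact ((Metric.mem_ball.1 hy).trans hr2).le
      have hx0 : f x = 0 := hfx x (Metric.mem_ball_self (bump V n).rOut_pos)
      have : mol (bump V n) f x = f x := by
        apply (bump V n).normed_convolution_eq_right
        intro y hy
        rw [hfx y hy, hx0]
      rw [this]
      simp
  have hint : Integrable (K.indicator (fun _ : V => δ)) :=
    (integrable_indicator_iff hKc.measurableSet).2 (integrableOn_const hKfin.ne)
  have hle : ∫ x, ‖mol (bump V n) f x - f x‖ ≤ ∫ x, K.indicator (fun _ => δ) x :=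
    integral_mono_of_nonneg (Eventually.of_forall fun x => norm_nonneg _) hint
      (Eventually.of_forall hpt)
  rw [integral_indicator hKc.measurableSet, setIntegral_const, smul_eq_mul] at hle
  rw [Real.dist_eq, sub_zero, abs_of_nonneg (integral_nonneg fun x => norm_nonneg _)]
  refine hle.trans_lt ?_
  have : (volume.real K) * δ = ((volume K).toReal * ε) / (2 * ((volume K).toReal + 1)) := by
    rw [hδ, measureReal_def]; ring
  rw [this, div_lt_iff₀ (by positivity)]
  nlinarith

/-- `L^1` convergence of mollifications. -/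
theorem tendsto_mol [CompleteSpace F] {f : V → F} (hf : Integrable f) :
    Tendsto (fun n => ∫ x, ‖mol (bump V n) f x - f x‖) atTop (𝓝 0) := by
  rw [Metric.tendsto_atTop]
  intro ε hε
  obtain ⟨g, hgc, hgε, hgcont, hgint⟩ := hf.exists_hasCompactSupport_integral_sub_le
    (ε := ε / 4) (by positivity)
  obtain ⟨N, hN⟩ := (Metric.tendsto_atTop.1 (tendsto_mol_cont hgcont hgc)) (ε / 4) (by positivity)
  refine ⟨N, fun n hn => ?_⟩
  have hn1 := hN n hn
  rw [Real.dist_eq, sub_zero, abs_of_nonneg (integral_nonneg fun x => norm_nonneg _)] at hn1 ⊢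
  have i1 : Integrable (fun x => mol (bump V n) f x - mol (bump V n) g x) :=
    (mol_integrable _ hf).sub (mol_integrable _ hgint)
  have i2 : Integrable (fun x => mol (bump V n) g x - g x) := (mol_integrable _ hgint).sub hgint
  have i3 : Integrable (fun x => g x - f x) := hgint.sub hf
  have i4 : Integrable (fun x => f x - g x) := hf.sub hgint
  have h1 : ∫ x, ‖mol (bump V n) f x - f x‖ ≤ ∫ x, (‖mol (bump V n) f x - mol (bump V n) g x‖ +
      ‖mol (bump V n) g x - g x‖ + ‖g x - f x‖) := by
    apply integral_mono ((mol_integrable _ hf).sub hf).norm ((i1.norm.add i2.norm).add i3.norm)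
    intro x
    have e : mol (bump V n) f x - f x = (mol (bump V n) f x - mol (bump V n) g x) +
      (mol (bump V n) g x - g x) + (g x - f x) := by abel
    change ‖mol (bump V n) f x - f x‖ ≤ _
    rw [e]
    exact norm_add₃_le
  have h1' : ∫ x, (‖mol (bump V n) f x - mol (bump V n) g x‖ +
      ‖mol (bump V n) g x - g x‖ + ‖g x - f x‖) =
      (∫ x, ‖mol (bump V n) f x - mol (bump V n) g x‖) + (∫ x, ‖mol (bump V n) g x - g x‖) +
      ∫ x, ‖g x - f x‖ := by
    rw [← integral_add i1.norm i2.norm]
    exact integral_add (i1.norm.add i2.norm) i3.norm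
  rw [h1'] at h1
  have h2 : ∫ x, ‖mol (bump V n) f x - mol (bump V n) g x‖ ≤ ∫ x, ‖f x - g x‖ := by
    have := integral_norm_mol_le (bump V n) i4
    simpa [mol_sub _ hf.locallyIntegrable hgint.locallyIntegrable] using this
  have h3 : ∫ x, ‖g x - f x‖ = ∫ x, ‖f x - g x‖ := by
    refine integral_congr_ae (Eventually.of_forall fun x => norm_sub_rev _ _)
  linarith

end general

lemma isTest_bump (φ : ContDiffBump (0 : V)) {O : Set V} {x : V}
    (hx : Metric.closedBall x φ.rOut ⊆ O) : IsTest O (fun t => φ.normed volume (x - t)) := by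
  have hsub : tsupport (fun t => φ.normed volume (x - t)) ⊆ Metric.closedBall x φ.rOut := by
    apply closure_minimal _ Metric.isClosed_closedBall
    intro t ht
    rw [Function.mem_support] at ht
    have h1 : x - t ∈ Function.support (φ.normed (volume : Measure V)) := ht
    rw [φ.support_normed_eq] at h1
    rw [Metric.mem_closedBall, dist_comm, dist_eq_norm]
    simpa using (Metric.mem_ball.1 h1).le
  refine ⟨?_, ?_, hsub.trans hx⟩
  · exact (φ.contDiff_normed).comp (contDiff_const.sub contDiff_id)
  · exact HasCompactSupport.of_support_subset_isCompact (isCompact_closedBall x φ.rOut)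
      (subset_closure.trans hsub)

omit [BorelSpace V] [(volume : Measure V).IsAddHaarMeasure] in
lemma fderiv_bump_sub (φ : ContDiffBump (0 : V)) (x t : V) :
    fderiv ℝ (fun t => φ.normed volume (x - t)) t = - fderiv ℝ (φ.normed volume) (x - t) := by
  have h1 : HasFDerivAt (fun t : V => x - t) (-(ContinuousLinearMap.id ℝ V)) t :=
    (hasFDerivAt_id t).const_sub x
  have h2 : HasFDerivAt (φ.normed (volume : Measure V)) (fderiv ℝ (φ.normed volume) (x - t))
      (x - t) :=
    ((φ.contDiff_normed (n := 1)).differentiable (by norm_num) _).hasFDerivAt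
  have h3 := h2.comp t h1
  rw [show (fun t => φ.normed volume (x - t)) = (φ.normed volume) ∘ (fun t : V => x - t) from rfl,
    h3.fderiv]
  ext v
  simp

lemma extDeriv_mol {q : ℕ} {f : V → V [⋀^Fin q]→L[ℝ] ℝ} (hf : Integrable f) {O : Set V}
    (hcl : ClosedOn O f) (φ : ContDiffBump (0 : V)) {x : V}
    (hx : Metric.closedBall x φ.rOut ⊆ O) : extDeriv (mol φ f) x = 0 := by
  have htest := isTest_bump φ hx
  have h0 := hcl _ htest
  have hset : ∫ t in O, wd (fderiv ℝ (fun t => φ.normed volume (x - t)) t) (f t) =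
      ∫ t, wd (fderiv ℝ (fun t => φ.normed volume (x - t)) t) (f t) := by
    apply setIntegral_eq_integral_of_forall_compl_eq_zero
    intro t ht
    have : fderiv ℝ (fun t => φ.normed volume (x - t)) t = 0 := by
      apply image_eq_zero_of_notMem_tsupport
      intro h
      exact ht (htest.supp (tsupport_fderiv_subset ℝ h))
    rw [this, wd_zero_left]
  rw [hset] at h0
  have hli := hf.locallyIntegrable
  have hd : DifferentiableAt ℝ (mol φ f) x := (mol_contDiff φ hli).differentiable (by simp) x
  have hbound : ∃ C, ∀ t, ‖fderiv ℝ (φ.normed volume) t‖ ≤ C := by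
    have hc : HasCompactSupport (fderiv ℝ (φ.normed (volume : Measure V))) :=
      φ.hasCompactSupport_normed.fderiv (𝕜 := ℝ)
    exact ((φ.contDiff_normed (n := 1)).continuous_fderiv
      (by norm_num)).bounded_above_of_compact_support hc
  obtain ⟨C, hC⟩ := hbound
  have hcf : Continuous (fderiv ℝ (φ.normed (volume : Measure V))) :=
    (φ.contDiff_normed (n := 1)).continuous_fderiv (by norm_num)
  have hint : Integrable
      (fun t => wd (fderiv ℝ (fun t => φ.normed volume (x - t)) t) (f t)) := by
    have hm : AEStronglyMeasurable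
        (fun t => wd (fderiv ℝ (fun t => φ.normed volume (x - t)) t) (f t)) volume := by
      have hc1 : Continuous (fun t => fderiv ℝ (fun t => φ.normed volume (x - t)) t) := by
        simp_rw [fderiv_bump_sub]
        exact (hcf.comp (continuous_const.sub continuous_id)).neg
      have h2 : Continuous (fun t => wdL V q (fderiv ℝ (fun t => φ.normed volume (x - t)) t)) :=
        (wdL V q).continuous.comp hc1
      exact ContinuousLinearMap.aestronglyMeasurable_comp₂ (wdL V q)
        hc1.aestronglyMeasurable hf.aestronglyMeasurable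
    apply (hf.norm.const_mul ((q + 1) * C)).mono' hm
    refine Eventually.of_forall fun t => ?_
    refine (norm_wd_le _ _).trans ?_
    rw [fderiv_bump_sub, norm_neg, ← mul_assoc]
    gcongr
    exact hC _
  ext v
  change _ = (0 : ℝ)
  rw [extDeriv, alternatizeUncurryFin_apply]
  have h1 := integral_form_apply hint v
  rw [h0] at h1
  change (0 : ℝ) = _ at h1
  have hfi : ∀ i : Fin (q + 1), Integrable (fun t => f t (i.removeNth v)) := fun i =>
    (ev (i.removeNth v)).integrable_comp hf
  have e1 : ∀ i : Fin (q + 1), fderiv ℝ (mol φ f) x (v i) (i.removeNth v) =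
      ∫ t, fderiv ℝ (φ.normed volume) (x - t) (v i) * f t (i.removeNth v) := by
    intro i
    rw [← fderiv_continuousAlternatingMap_apply_const_apply hd]
    have : (fun y => mol φ f y (i.removeNth v)) = mol φ (fun y => f y (i.removeNth v)) := by
      funext y
      exact mol_clm (ev (i.removeNth v)) φ hli y
    rw [this, fderiv_mol φ (hfi i).locallyIntegrable]
  have e2 : ∀ t, wd (fderiv ℝ (fun t => φ.normed volume (x - t)) t) (f t) v =
      ∑ i : Fin (q + 1), (-1 : ℝ) ^ ((i : ℕ) + 1) *
        (fderiv ℝ (φ.normed volume) (x - t) (v i) * f t (i.removeNth v)) := by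
    intro t
    rw [wd_apply]
    refine Finset.sum_congr rfl fun i _ => ?_
    rw [fderiv_bump_sub, pow_succ]
    simp
  simp_rw [e2] at h1
  rw [integral_finsetSum] at h1
  · simp_rw [e1]
    simp_rw [integral_const_mul, pow_succ] at h1
    have : ∀ i : Fin (q + 1), ((-1 : ℤ) ^ (i : ℕ)) •
        ∫ t, fderiv ℝ (φ.normed volume) (x - t) (v i) * f t (i.removeNth v) =
        - ((-1 : ℝ) ^ (i : ℕ) * -1 *
          ∫ t, fderiv ℝ (φ.normed volume) (x - t) (v i) * f t (i.removeNth v)) := by
      intro i
      rw [zsmul_eq_mul]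
      push_cast
      ring
    simp_rw [this, Finset.sum_neg_distrib, ← h1, neg_zero]
  · intro i _
    apply Integrable.const_mul
    apply ((hfi i).norm.const_mul (C * ‖v i‖)).mono'
    · have hc1 : Continuous (fun t => fderiv ℝ (φ.normed volume) (x - t) (v i)) :=
        (hcf.comp (continuous_const.sub continuous_id)).clm_apply continuous_const
      exact hc1.aestronglyMeasurable.mul (hfi i).aestronglyMeasurable
    · refine Eventually.of_forall fun t => ?_
      rw [norm_mul]
      gcongr
      exact ((fderiv ℝ (φ.normed volume) (x - t)).le_opNorm (v i)).trans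
        (by gcongr; exact hC _)

/-- A weakly closed integrable form is the `L^1` limit of smooth forms which are closed on larger
and larger compact subsets. -/
theorem exists_mollify {q : ℕ} {f : V → V [⋀^Fin q]→L[ℝ] ℝ} (hf : Integrable f) {O : Set V}
    (hO : IsOpen O) (hcl : ClosedOn O f) :
    ∃ F : ℕ → V → V [⋀^Fin q]→L[ℝ] ℝ, (∀ n, ContDiff ℝ ∞ (F n)) ∧ (∀ n, Integrable (F n)) ∧
      (∀ n, ∫ x, ‖F n x‖ ≤ ∫ x, ‖f x‖) ∧
      Tendsto (fun n => ∫ x, ‖F n x - f x‖) atTop (𝓝 0) ∧
      ∀ K : Set V, IsCompact K → K ⊆ O → ∀ᶠ n in atTop, ∀ x ∈ K, extDeriv (F n) x = 0 := by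
  refine ⟨fun n => mol (bump V n) f, fun n => mol_contDiff _ hf.locallyIntegrable,
    fun n => mol_integrable _ hf, fun n => integral_norm_mol_le _ hf, tendsto_mol hf, ?_⟩
  intro K hK hKO
  obtain ⟨δ, hδ, hδK⟩ := hK.exists_cthickening_subset_open hO hKO
  have h1 : ∀ᶠ n in atTop, (bump V n).rOut < δ :=
    (bump_tendsto (V := V)).eventually_lt_const hδ
  filter_upwards [h1] with n hn x hx
  apply extDeriv_mol hf hcl
  intro y hy
  apply hδK
  exact Metric.mem_cthickening_of_dist_le y x δ K hx ((Metric.mem_closedBall.1 hy).trans hn.le)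

end Pool.Agent.Lib.MP_05a445_an
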