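import Pool.Agent.Lib.MP_05a445_an.Space

/-!
Weak gradients are orthogonal to the angular form.
-/

set_option autoImplicit false
set_option linter.unusedSectionVars false

namespace Pool.Agent.Lib.MP_05a445_an

open MeasureTheory Set Filter Topology ContinuousLinearMap
open scoped ContDiff NNReal ENNReal

/-- The differential of the squared norm of the fibre variable. -/
noncomputable def la (z : ℂ × ℂ) : ℂ × ℂ →L[ℝ] ℝ :=
  (innerSL ℝ z.1).comp (ContinuousLinearMap.fst ℝ ℂ ℂ)

/-- The lateral cutoff. -/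
noncomputable def cutA (n : ℕ) (z : ℂ × ℂ) : ℝ :=
  Real.smoothTransition (n * (‖z.2‖ ^ 2 - ‖z.1‖ ^ 2) - 1)

lemma contDiff_cutA (n : ℕ) : ContDiff ℝ ∞ (cutA n) := by
  unfold cutA
  apply Real.smoothTransition.contDiff.comp
  have h1 : ContDiff ℝ ∞ (fun z : ℂ × ℂ => ‖z.2‖ ^ 2) := contDiff_snd.norm_sq ℝ
  have h2 : ContDiff ℝ ∞ (fun z : ℂ × ℂ => ‖z.1‖ ^ 2) := contDiff_fst.norm_sq ℝ
  exact (contDiff_const.mul (h1.sub h2)).sub contDiff_const

lemma hasFDerivAt_nb (z : ℂ × ℂ) :
    HasFDerivAt (fun z : ℂ × ℂ => ‖z.2‖ ^ 2) ((2 : ℝ) • lb z) z := by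
  have h2 : HasFDerivAt (fun b : ℂ => ‖b‖ ^ 2) ((2 : ℝ) • innerSL ℝ z.2) z.2 := by
    have := (hasStrictFDerivAt_norm_sq z.2).hasFDerivAt
    refine this.congr_fderiv ?_
    ext v
    simp
    ring
  have := h2.comp z hasFDerivAt_snd
  refine this.congr_fderiv ?_
  ext v <;> simp [lb]

lemma hasFDerivAt_na (z : ℂ × ℂ) :
    HasFDerivAt (fun z : ℂ × ℂ => ‖z.1‖ ^ 2) ((2 : ℝ) • la z) z := by
  have h2 : HasFDerivAt (fun b : ℂ => ‖b‖ ^ 2) ((2 : ℝ) • innerSL ℝ z.1) z.1 := by
    have := (hasStrictFDerivAt_norm_sq z.1).hasFDerivAt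
    refine this.congr_fderiv ?_
    ext v
    simp
    ring
  have := h2.comp z hasFDerivAt_fst
  refine this.congr_fderiv ?_
  ext v <;> simp [la]

lemma fderiv_cutA (n : ℕ) (z : ℂ × ℂ) :
    ∃ a : ℝ, ∀ w : ℂ, fderiv ℝ (cutA n) z (0, w) = a * lb z (0, w) := by
  have h3 : HasFDerivAt (fun z : ℂ × ℂ => (n : ℝ) * (‖z.2‖ ^ 2 - ‖z.1‖ ^ 2) - 1)
      ((n : ℝ) • ((2 : ℝ) • lb z - (2 : ℝ) • la z)) z :=
    (((hasFDerivAt_nb z).sub (hasFDerivAt_na z)).const_mul (n : ℝ)).sub_const 1
  have h4 : HasDerivAt Real.smoothTransition (deriv Real.smoothTransition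
      ((n : ℝ) * (‖z.2‖ ^ 2 - ‖z.1‖ ^ 2) - 1)) ((n : ℝ) * (‖z.2‖ ^ 2 - ‖z.1‖ ^ 2) - 1) :=
    ((Real.smoothTransition.contDiff (n := 1)).differentiable (by norm_num) _).hasDerivAt
  have h5 := h4.comp_hasFDerivAt z h3
  refine ⟨deriv Real.smoothTransition ((n : ℝ) * (‖z.2‖ ^ 2 - ‖z.1‖ ^ 2) - 1) * (n * 2),
    fun w => ?_⟩
  have h6 : fderiv ℝ (cutA n) z = _ := h5.fderiv
  have h7 : la z (0, w) = 0 := by simp [la]
  rw [h6]
  change _ * ((n : ℝ) * ((2 : ℝ) * lb z (0, w) - (2 : ℝ) * la z (0, w))) = _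
  rw [h7]
  ring

/-- The cutoff of the triangle. -/
noncomputable def cutT (n : ℕ) (z : ℂ × ℂ) : ℝ := cutB n z * cutA n z

lemma contDiff_cutT (n : ℕ) : ContDiff ℝ ∞ (cutT n) := (contDiff_cutB n).mul (contDiff_cutA n)

lemma cutT_le_one (n : ℕ) (z : ℂ × ℂ) : |cutT n z| ≤ 1 := by
  unfold cutT cutA
  rw [abs_mul, abs_of_nonneg (Real.smoothTransition.nonneg (n * (‖z.2‖ ^ 2 - ‖z.1‖ ^ 2) - 1))]
  exact mul_le_one₀ (cutB_le_one n z) (Real.smoothTransition.nonneg _)
    (Real.smoothTransition.le_one _)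

lemma tendsto_cutT {z : ℂ × ℂ} (hz : z ∈ T) : Tendsto (fun n => cutT n z) atTop (𝓝 1) := by
  have h1 := tendsto_cutB hz.2
  have h2 : Tendsto (fun n => cutA n z) atTop (𝓝 1) := by
    apply tendsto_const_nhds.congr'
    have h1 : 0 < ‖z.2‖ ^ 2 - ‖z.1‖ ^ 2 := by
      have := norm_nonneg z.1
      have := hz.1
      nlinarith
    obtain ⟨N, hN⟩ := exists_nat_ge (2 / (‖z.2‖ ^ 2 - ‖z.1‖ ^ 2))
    filter_upwards [eventually_ge_atTop N] with n hn
    unfold cutA
    rw [Real.smoothTransition.one_of_one_le]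
    have h2 : 2 / (‖z.2‖ ^ 2 - ‖z.1‖ ^ 2) ≤ n := hN.trans (by exact_mod_cast hn)
    rw [div_le_iff₀ h1] at h2
    linarith
  simpa [cutT] using h1.mul h2

/-- The support of the cutoff. -/
lemma tsupport_cutT (n : ℕ) : tsupport (cutT n) ⊆
    {x : ℂ × ℂ | 1 ≤ (n : ℝ) * (1 - ‖x.2‖ ^ 2) ∧ 1 ≤ (n : ℝ) * (‖x.2‖ ^ 2 - ‖x.1‖ ^ 2)} := by
  apply closure_minimal
  · intro y hy
    have hy1 : cutB n y ≠ 0 := fun h => hy (by simp [cutT, h])
    have hy2 : cutA n y ≠ 0 := fun h => hy (by simp [cutT, h])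
    constructor
    · by_contra h
      exact hy1 (Real.smoothTransition.zero_of_nonpos (by linarith [not_le.1 h]))
    · by_contra h
      exact hy2 (Real.smoothTransition.zero_of_nonpos (by linarith [not_le.1 h]))
  · have c1 : IsClosed {x : ℂ × ℂ | 1 ≤ (n : ℝ) * (1 - ‖x.2‖ ^ 2)} :=
      isClosed_le continuous_const (by fun_prop)
    have c2 : IsClosed {x : ℂ × ℂ | 1 ≤ (n : ℝ) * (‖x.2‖ ^ 2 - ‖x.1‖ ^ 2)} :=
      isClosed_le continuous_const (by fun_prop)
    exact c1.inter c2

lemma tsupport_cutT_subset (n : ℕ) : tsupport (cutT n) ⊆ T := by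
  intro x hx
  obtain ⟨h1, h2⟩ := tsupport_cutT n hx
  have hn : (0 : ℝ) ≤ n := Nat.cast_nonneg n
  constructor
  · by_contra h
    have h3 : ‖x.2‖ ≤ ‖x.1‖ := not_lt.1 h
    have h4 : ‖x.2‖ ^ 2 - ‖x.1‖ ^ 2 ≤ 0 := by
      have := norm_nonneg x.2
      nlinarith
    have := mul_nonpos_of_nonneg_of_nonpos hn h4
    linarith
  · by_contra h
    have h3 : 1 ≤ ‖x.2‖ := not_lt.1 h
    have h4 : 1 - ‖x.2‖ ^ 2 ≤ 0 := by nlinarith
    have := mul_nonpos_of_nonneg_of_nonpos hn h4
    linarith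

lemma compact_cutT (n : ℕ) : HasCompactSupport (cutT n) := by
  apply HasCompactSupport.of_support_subset_isCompact (isCompact_closedBall (0 : ℂ × ℂ) 1)
  intro x hx
  rw [mem_closedBall_zero_iff]
  exact norm_le_of_T (tsupport_cutT_subset n (subset_tsupport _ hx))

lemma isTest_cutT_mul (n : ℕ) {g : ℂ × ℂ → ℝ} (hg : ContDiffOn ℝ ∞ g {x | x.2 ≠ 0}) :
    IsTest T (fun x => cutT n x * g x) where
  smooth := by
    rw [contDiff_iff_contDiffAt]
    intro x
    by_cases hx : x ∈ tsupport (cutT n)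
    · exact (contDiff_cutT n).contDiffAt.mul
        (hg.contDiffAt (isOpen_snd_ne.mem_nhds (snd_ne (tsupport_cutT_subset n hx))))
    · have h1 : (fun x => cutT n x * g x) =ᶠ[𝓝 x] fun _ => 0 := by
        filter_upwards [notMem_tsupport_iff_eventuallyEq.1 hx] with y hy
        rw [hy]
        simp
      exact contDiffAt_const.congr_of_eventuallyEq h1
  compact := (compact_cutT n).mul_right
  supp := tsupport_mul_subset_left.trans (tsupport_cutT_subset n)

/-- The coefficients of the angular form. -/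
lemma contDiffOn_th (v : ℂ × ℂ) : ContDiffOn ℝ ∞ (fun x => th x v) {x | x.2 ≠ 0} := by
  have h1 : ContDiffOn ℝ ∞ (fun x : ℂ × ℂ => (x.2)⁻¹) {x | x.2 ≠ 0} :=
    contDiffOn_snd.inv fun x hx => hx
  have h2 : ContDiffOn ℝ ∞ th {x | x.2 ≠ 0} := imL.contDiff.comp_contDiffOn h1
  exact h2.clm_apply contDiffOn_const

lemma th_e (x : ℂ × ℂ) : th x (e 0) = 0 ∧ th x (e 1) = 0 ∧ th x (e 2) = ((x.2)⁻¹).im ∧
    th x (e 3) = ((x.2)⁻¹).re := by
  refine ⟨?_, ?_, ?_, ?_⟩ <;> rw [th_apply] <;> simp [e]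

/-- The cut off angular vector field is divergence free. -/
lemma div_free (n : ℕ) {x : ℂ × ℂ} (hx : x ∈ T) :
    ∑ j : Fin 4, fderiv ℝ (fun x => cutT n x * th x (e j)) x (e j) = 0 := by
  have hx0 := snd_ne hx
  obtain ⟨D, hD, hDa⟩ := hasFDerivAt_th hx0
  have h1 : ∀ j, HasFDerivAt (fun x => th x (e j)) (D.flip (e j)) x := by
    intro j
    have := hD.clm_apply (hasFDerivAt_const (e j) x)
    refine this.congr_fderiv ?_
    ext v <;> simp
  have hcd : HasFDerivAt (cutT n) (fderiv ℝ (cutT n) x) x :=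
    ((contDiff_cutT n).differentiable (by simp) x).hasFDerivAt
  have h2 : ∀ j, fderiv ℝ (fun x => cutT n x * th x (e j)) x (e j) =
      cutT n x * D (e j) (e j) + th x (e j) * fderiv ℝ (cutT n) x (e j) := by
    intro j
    have h0 : HasFDerivAt (fun x => cutT n x * th x (e j)) (cutT n x • D.flip (e j) +
      th x (e j) • fderiv ℝ (cutT n) x) x := hcd.mul (h1 j)
    rw [h0.fderiv]
    simp
  obtain ⟨a, ha⟩ : ∃ a : ℝ, ∀ w : ℂ, fderiv ℝ (cutT n) x (0, w) = a * lb x (0, w) := by
    obtain ⟨a1, ha1⟩ := fderiv_cutA n x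
    obtain ⟨a2, ha2⟩ := fderiv_cutB n x
    refine ⟨cutB n x * a1 + cutA n x * a2, fun w => ?_⟩
    have h3 : HasFDerivAt (cutT n) (cutB n x • fderiv ℝ (cutA n) x +
        cutA n x • fderiv ℝ (cutB n) x) x :=
      ((contDiff_cutB n).differentiable (by simp) x).hasFDerivAt.mul
        ((contDiff_cutA n).differentiable (by simp) x).hasFDerivAt
    rw [h3.fderiv]
    change cutB n x * fderiv ℝ (cutA n) x (0, w) + cutA n x * fderiv ℝ (cutB n) x (0, w) = _
    rw [ha1, ha2]
    change _ + _ * (a2 * lb x (0, w)) = _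
    ring
  simp_rw [h2]
  obtain ⟨t0, t1, t2, t3⟩ := th_e x
  rw [Fin.sum_univ_four, t0, t1, t2, t3, hDa, hDa, hDa, hDa]
  have e0 : (e 0).2 = 0 := rfl
  have e1 : (e 1).2 = 0 := rfl
  have e2 : e 2 = (0, 1) := rfl
  have e3 : e 3 = (0, Complex.I) := rfl
  rw [e0, e1, e2, e3, ha, ha]
  have l1 : ∀ w : ℂ, lb x (0, w) = x.2.re * w.re + x.2.im * w.im := by
    intro w
    change inner ℝ x.2 w = _
    rw [Complex.inner]
    simp
    ring
  rw [l1, l1]
  have hns : (x.2)⁻¹ = (x.2.re / Complex.normSq x.2 : ℝ) -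
      (x.2.im / Complex.normSq x.2 : ℝ) * Complex.I := by
    rw [Complex.inv_def]
    apply Complex.ext <;> simp [div_eq_mul_inv]
  set p := x.2.re / Complex.normSq x.2
  set q := x.2.im / Complex.normSq x.2
  have hre : ((x.2)⁻¹).re = p := by rw [hns]; simp
  have him : ((x.2)⁻¹).im = -q := by rw [hns]; simp
  rw [hre, him]
  have hp : x.2.re = p * Complex.normSq x.2 := by
    have : Complex.normSq x.2 ≠ 0 := by simpa using hx0
    simp only [p]; field_simp
  have hq : x.2.im = q * Complex.normSq x.2 := by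
    have : Complex.normSq x.2 ≠ 0 := by simpa using hx0
    simp only [q]; field_simp
  simp [hre, him]
  rw [hp, hq]
  ring

/-- Multiindices of length one. -/
def eq1 : (Fin 1 ↪o Fin 4) ≃ Fin 4 where
  toFun I := I 0
  invFun j := OrderEmbedding.ofStrictMono (fun _ => j) (fun a b h => absurd h (by
    rw [Subsingleton.elim a b]; exact lt_irrefl _))
  left_inv I := by
    ext i
    rw [Subsingleton.elim i 0]
    rfl
  right_inv j := rfl

lemma integrable_coef_mul {f g : ℂ × ℂ → (ℂ × ℂ) [⋀^Fin 1]→L[ℝ] ℝ} (hf : L2Form f)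
    (hg : L2Form g) (v : Fin 1 → ℂ × ℂ) :
    Integrable (fun x => f x v * g x v) (volume.restrict T) := by
  have h1 : MemLp (fun x => f x v) 2 (volume.restrict T) := (ev v).comp_memLp' hf.memLp
  have h2 : MemLp (fun x => g x v) 2 (volume.restrict T) := (ev v).comp_memLp' hg.memLp
  exact h1.integrable_mul h2

theorem ortho {u : ℂ × ℂ → (ℂ × ℂ) [⋀^Fin 0]→L[ℝ] ℝ} {g : ℂ × ℂ → (ℂ × ℂ) [⋀^Fin 1]→L[ℝ] ℝ}
    (hu : L2Form u) (hg : L2Form g) (h : WD T u g) :
    ∫ x in T, ∑ I : Fin 1 ↪o Fin 4, omT x (fun i => e (I i)) * g x (fun i => e (I i)) = 0 := by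
  have hint : Integrable (fun x => ∑ I : Fin 1 ↪o Fin 4,
      omT x (fun i => e (I i)) * g x (fun i => e (I i))) (volume.restrict T) :=
    integrable_finsetSum _ fun I _ => integrable_coef_mul l2Form_omT hg _
  have hzero : ∀ n : ℕ, ∫ x in T, cutT n x * ∑ I : Fin 1 ↪o Fin 4,
      omT x (fun i => e (I i)) * g x (fun i => e (I i)) = 0 := by
    intro n
    have ht : ∀ j : Fin 4, IsTest T (fun x => cutT n x * th x (e j)) := fun j =>
      isTest_cutT_mul n (contDiffOn_th (e j))
    have h1 : ∀ j : Fin 4, ∫ x in T, (cutT n x * th x (e j)) * g x (fun _ => e j) =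
        - ∫ x in T, fderiv ℝ (fun x => cutT n x * th x (e j)) x (e j) * u x ![] := by
      intro j
      have h2 := congrArg (fun G => G (fun _ => e j)) (h _ (ht j))
      simp only [ContinuousAlternatingMap.neg_apply] at h2
      rw [integral_form_apply (integrable_test_smul hg.integrableOn (ht j).contDiff_one
        (ht j).compact), integral_form_apply (integrable_test_wd hu.integrableOn
        (ht j).contDiff_one (ht j).compact)] at h2
      rw [show (∫ x in T, (cutT n x * th x (e j)) * g x (fun _ => e j)) =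
        ∫ x in T, ((cutT n x * th x (e j)) • g x) (fun _ => e j) from rfl, h2]
      congr 1
      refine integral_congr_ae (Eventually.of_forall fun x => ?_)
      simp only [wd_apply]
      rw [Fin.sum_univ_succ]
      simp only [Finset.univ_eq_empty, Finset.sum_empty, add_zero, Fin.val_zero, pow_zero,
        one_mul]
      congr 2
      exact Subsingleton.elim _ _
    have h3 : ∀ j : Fin 4, Integrable (fun x =>
        fderiv ℝ (fun x => cutT n x * th x (e j)) x (e j) * u x ![]) (volume.restrict T) := by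
      intro j
      have := integrable_test_smul hu.integrableOn ((ht j).deriv (e j)).contDiff_one
        ((ht j).deriv (e j)).compact
      exact (ev ![]).integrable_comp this
    have h4 : ∀ j : Fin 4, Integrable (fun x =>
        (cutT n x * th x (e j)) * g x (fun _ => e j)) (volume.restrict T) := by
      intro j
      have := integrable_test_smul hg.integrableOn (ht j).contDiff_one (ht j).compact
      exact (ev (fun _ => e j)).integrable_comp this
    calc ∫ x in T, cutT n x * ∑ I : Fin 1 ↪o Fin 4,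
          omT x (fun i => e (I i)) * g x (fun i => e (I i))
        = ∫ x in T, ∑ j : Fin 4, (cutT n x * th x (e j)) * g x (fun _ => e j) := by
          refine setIntegral_congr_fun measurableSet_T fun x hx => ?_
          rw [Finset.mul_sum]
          apply Fintype.sum_equiv eq1
          intro I
          have e1 : (fun i => e (I i)) = fun _ : Fin 1 => e (eq1 I) := by
            funext i
            rw [Subsingleton.elim i 0]
            rfl
          rw [e1, omT, indicator_of_mem hx, om_apply]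
          ring
      _ = ∑ j : Fin 4, ∫ x in T, (cutT n x * th x (e j)) * g x (fun _ => e j) :=
          integral_finsetSum _ fun j _ => h4 j
      _ = ∑ j : Fin 4, - ∫ x in T, fderiv ℝ (fun x => cutT n x * th x (e j)) x (e j) * u x ![] :=
          Finset.sum_congr rfl fun j _ => h1 j
      _ = - ∫ x in T, ∑ j : Fin 4,
          fderiv ℝ (fun x => cutT n x * th x (e j)) x (e j) * u x ![] := by
          rw [Finset.sum_neg_distrib, integral_finsetSum _ fun j _ => h3 j]
      _ = 0 := by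
          rw [neg_eq_zero]
          apply integral_eq_zero_of_ae
          filter_upwards [ae_restrict_mem measurableSet_T] with x hx
          rw [← Finset.sum_mul, div_free n hx, zero_mul]
          rfl
  have hlim : Tendsto (fun n : ℕ => ∫ x in T, cutT n x * ∑ I : Fin 1 ↪o Fin 4,
      omT x (fun i => e (I i)) * g x (fun i => e (I i))) atTop
      (𝓝 (∫ x in T, ∑ I : Fin 1 ↪o Fin 4,
      omT x (fun i => e (I i)) * g x (fun i => e (I i)))) := by
    apply tendsto_integral_of_dominated_convergence (fun x => ‖∑ I : Fin 1 ↪o Fin 4,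
      omT x (fun i => e (I i)) * g x (fun i => e (I i))‖)
    · intro n
      exact (contDiff_cutT n).continuous.aestronglyMeasurable.mul hint.aestronglyMeasurable
    · exact hint.norm
    · intro n
      refine Eventually.of_forall fun x => ?_
      rw [norm_mul, Real.norm_eq_abs]
      exact mul_le_of_le_one_left (norm_nonneg _) (cutT_le_one n x)
    · filter_upwards [ae_restrict_mem measurableSet_T] with x hx
      simpa using (tendsto_cutT hx).mul_const (∑ I : Fin 1 ↪o Fin 4,
        omT x (fun i => e (I i)) * g x (fun i => e (I i)))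
  simp_rw [hzero] at hlim
  exact (tendsto_nhds_unique tendsto_const_nhds hlim).symm

/-- The angular form as an element of the Hilbert space. -/
noncomputable def Om : L2q 1 := ofF l2Form_omT

theorem ortho_Om {u : L2q 0} {v : L2q 1} (h : WeakD 0 u v) : inner ℝ Om v = 0 := by
  have h1 : WD T (toF 0 u) (toF 1 v) :=
    (weakD_iff (l2Form_toF 0 u) (l2Form_toF 1 v) (cf_toF 0 u) (cf_toF 1 v)).2 h
  rw [← ortho (l2Form_toF 0 u) (l2Form_toF 1 v) h1, L2.inner_def]
  apply integral_congr_ae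
  filter_upwards [cf_ofF l2Form_omT, cf_toF 1 v] with x hx1 hx2
  rw [Om, ← hx1, ← hx2, PiLp.inner_apply]
  refine Finset.sum_congr rfl fun I _ => ?_
  simp only [cf_apply]
  exact mul_comm _ _

lemma Om_ne : Om ≠ 0 := by
  intro h
  have h1 := cf_ofF l2Form_omT
  have h2 : ∀ᵐ x ∂((volume : Measure (ℂ × ℂ)).restrict T), (Om : L2q 1) x = 0 := by
    rw [h]
    exact Lp.coeFn_zero _ _ _
  have h3 : ∀ᵐ x ∂((volume : Measure (ℂ × ℂ)).restrict T), False := by
    filter_upwards [h1, h2, ae_restrict_mem measurableSet_T] with x hx1 hx2 hx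
    have h4 : cf 1 (omT x) = 0 := by rw [hx1]; exact hx2
    have h5 := cf_injective h4
    have h6 : omT x (fun _ => (0, Complex.I * x.2)) = 1 := by
      rw [omT, indicator_of_mem hx, om_apply, th_apply]
      have h1 : ((x.2)⁻¹ * (Complex.I * x.2)) = Complex.I := by
        have := snd_ne hx
        field_simp
      simp [h1]
    rw [h5] at h6
    exact zero_ne_one h6
  have h7 : volume T = 0 := by
    have := Filter.eventually_false_iff_eq_bot.1 h3
    rw [ae_eq_bot, Measure.restrict_eq_zero] at this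
    exact this
  have h8 : (T : Set (ℂ × ℂ)).Nonempty := ⟨(0, 1 / 2), by
    constructor <;> norm_num⟩
  exact (isOpen_T.measure_pos volume h8).ne' h7

end Pool.Agent.Lib.MP_05a445_an
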