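import Pool.Agent.Lib.MP_05a445_an.Const
import Pool.Agent.Lib.MP_05a445_an.Rotation

/-!
Forms annihilated by the radial form of the base: integration from outside.
-/

set_option autoImplicit false
set_option linter.unusedSectionVars false

namespace Pool.Agent.Lib.MP_05a445_an

open MeasureTheory Set Filter Topology ContinuousAlternatingMap ContinuousLinearMap
open scoped ContDiff NNReal ENNReal

/-- The open cone over the triangle. -/
def Cn : Set (ℂ × ℂ) := {z | ‖z.1‖ < ‖z.2‖}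

lemma isOpen_Cn : IsOpen Cn := isOpen_lt continuous_fst.norm continuous_snd.norm

lemma T_subset_Cn : T ⊆ Cn := fun _ hz => hz.1

/-- The radial form of the base. -/
noncomputable def lb (z : ℂ × ℂ) : ℂ × ℂ →L[ℝ] ℝ :=
  (innerSL ℝ z.2).comp (ContinuousLinearMap.snd ℝ ℂ ℂ)

/-- The radial cutoff. -/
noncomputable def cutB (n : ℕ) (z : ℂ × ℂ) : ℝ :=
  Real.smoothTransition (n * (1 - ‖z.2‖ ^ 2) - 1)

lemma contDiff_cutB (n : ℕ) : ContDiff ℝ ∞ (cutB n) := by
  unfold cutB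
  apply Real.smoothTransition.contDiff.comp
  have h1 : ContDiff ℝ ∞ (fun z : ℂ × ℂ => ‖z.2‖ ^ 2) := contDiff_snd.norm_sq ℝ
  exact (contDiff_const.mul (contDiff_const.sub h1)).sub contDiff_const

lemma fderiv_cutB (n : ℕ) (z : ℂ × ℂ) : ∃ a : ℝ, fderiv ℝ (cutB n) z = a • lb z := by
  have h1 : HasFDerivAt (fun z : ℂ × ℂ => ‖z.2‖ ^ 2) ((2 : ℝ) • lb z) z := by
    have h2 : HasFDerivAt (fun b : ℂ => ‖b‖ ^ 2) ((2 : ℝ) • innerSL ℝ z.2) z.2 := by
      have := (hasStrictFDerivAt_norm_sq z.2).hasFDerivAt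
      refine this.congr_fderiv ?_
      ext v
      simp
      ring
    have := h2.comp z hasFDerivAt_snd
    refine this.congr_fderiv ?_
    ext v <;> simp [lb]
  have h3 : HasFDerivAt (fun z : ℂ × ℂ => (n : ℝ) * (1 - ‖z.2‖ ^ 2) - 1)
      ((n : ℝ) • (-((2 : ℝ) • lb z))) z := by
    have := ((h1.const_sub 1).const_mul (n : ℝ)).sub_const 1
    exact this
  have h4 : HasDerivAt Real.smoothTransition (deriv Real.smoothTransition
      ((n : ℝ) * (1 - ‖z.2‖ ^ 2) - 1)) ((n : ℝ) * (1 - ‖z.2‖ ^ 2) - 1) :=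
    ((Real.smoothTransition.contDiff (n := 1)).differentiable (by norm_num) _).hasDerivAt
  have h5 := h4.comp_hasFDerivAt z h3
  refine ⟨deriv Real.smoothTransition ((n : ℝ) * (1 - ‖z.2‖ ^ 2) - 1) * (n * (-2)), ?_⟩
  have h6 : fderiv ℝ (cutB n) z = _ := h5.fderiv
  rw [h6]
  ext v
  · simp
    ring
  · simp
    ring

lemma cutB_le_one (n : ℕ) (z : ℂ × ℂ) : |cutB n z| ≤ 1 := by
  unfold cutB
  rw [abs_of_nonneg (Real.smoothTransition.nonneg _)]
  exact Real.smoothTransition.le_one _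

lemma tendsto_cutB {z : ℂ × ℂ} (hz : ‖z.2‖ < 1) :
    Tendsto (fun n => cutB n z) atTop (𝓝 1) := by
  apply tendsto_const_nhds.congr'
  have h1 : 0 < 1 - ‖z.2‖ ^ 2 := by
    have := norm_nonneg z.2
    nlinarith
  obtain ⟨N, hN⟩ := exists_nat_ge (2 / (1 - ‖z.2‖ ^ 2))
  filter_upwards [eventually_ge_atTop N] with n hn
  unfold cutB
  rw [Real.smoothTransition.one_of_one_le]
  have h2 : 2 / (1 - ‖z.2‖ ^ 2) ≤ n := hN.trans (by exact_mod_cast hn)
  rw [div_le_iff₀ h1] at h2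
  linarith

/-- A radial form closed on the triangle stays closed on the cone when extended by zero. -/
lemma closedOn_cone {q : ℕ} {f : ℂ × ℂ → (ℂ × ℂ) [⋀^Fin q]→L[ℝ] ℝ} (hf : Integrable f)
    (hf0 : ∀ x ∉ T, f x = 0) (hcl : ClosedOn T f)
    (hrad : ∀ᵐ x ∂(volume.restrict T), wd (lb x) (f x) = 0) : ClosedOn Cn f := by
  intro ψ hψ
  have hψ1 := hψ.contDiff_one
  have hz1 : ∀ x ∉ T, wd (fderiv ℝ ψ x) (f x) = 0 := fun x hx => by
    rw [hf0 x hx, wd_zero_right]
  have e1 : ∫ x in Cn, wd (fderiv ℝ ψ x) (f x) = ∫ x in T, wd (fderiv ℝ ψ x) (f x) := by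
    apply setIntegral_eq_of_subset_of_forall_sdiff_eq_zero isOpen_Cn.measurableSet T_subset_Cn
    intro x hx
    exact hz1 x hx.2
  rw [e1]
  have hint : Integrable (fun x => wd (fderiv ℝ ψ x) (f x)) (volume.restrict T) :=
    integrable_test_wd hf.integrableOn hψ1 hψ.compact
  have hzero : ∀ n : ℕ, ∫ x in T, cutB n x • wd (fderiv ℝ ψ x) (f x) = 0 := by
    intro n
    have htest : IsTest T (fun x => cutB n x * ψ x) := by
      refine ⟨(contDiff_cutB n).mul hψ.smooth, hψ.compact.mul_left, ?_⟩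
      intro x hx
      have hx1 : x ∈ tsupport ψ := tsupport_mul_subset_right hx
      have hx2 : x ∈ tsupport (cutB n) := tsupport_mul_subset_left hx
      have hclosed : IsClosed {x : ℂ × ℂ | 0 ≤ (n : ℝ) * (1 - ‖x.2‖ ^ 2) - 1} :=
        isClosed_le continuous_const (by fun_prop)
      have hx3 : x ∈ {x : ℂ × ℂ | 0 ≤ (n : ℝ) * (1 - ‖x.2‖ ^ 2) - 1} := by
        apply closure_minimal _ hclosed hx2
        intro y hy
        by_contra h
        apply hy
        apply Real.smoothTransition.zero_of_nonpos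
        exact (not_le.1 h).le
      refine ⟨hψ.supp hx1, ?_⟩
      have hx4 : 0 ≤ (n : ℝ) * (1 - ‖x.2‖ ^ 2) - 1 := hx3
      by_contra h
      have h5 : 1 ≤ ‖x.2‖ := not_lt.1 h
      have h6 : (n : ℝ) * (1 - ‖x.2‖ ^ 2) ≤ 0 :=
        mul_nonpos_of_nonneg_of_nonpos (Nat.cast_nonneg n) (by nlinarith)
      linarith
    have h1 := hcl _ htest
    rw [← h1]
    apply integral_congr_ae
    filter_upwards [hrad] with x hx
    obtain ⟨a, ha⟩ := fderiv_cutB n x
    have h2 : fderiv ℝ (fun x => cutB n x * ψ x) x =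
        cutB n x • fderiv ℝ ψ x + ψ x • fderiv ℝ (cutB n) x :=
      fderiv_mul (((contDiff_cutB n).differentiable (by simp)) x)
        (hψ1.differentiable (by norm_num) x)
    rw [h2, wd_add_left, wd_smul_left, ha, wd_smul_left, wd_smul_left, hx, smul_zero, smul_zero,
      add_zero]
  have hlim : Tendsto (fun n : ℕ => ∫ x in T, cutB n x • wd (fderiv ℝ ψ x) (f x)) atTop
      (𝓝 (∫ x in T, wd (fderiv ℝ ψ x) (f x))) := by
    apply tendsto_integral_of_dominated_convergence (fun x => ‖wd (fderiv ℝ ψ x) (f x)‖)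
    · intro n
      exact (contDiff_cutB n).continuous.aestronglyMeasurable.smul hint.aestronglyMeasurable
    · exact hint.norm
    · intro n
      refine Eventually.of_forall fun x => ?_
      rw [norm_smul, Real.norm_eq_abs]
      exact mul_le_of_le_one_left (norm_nonneg _) (cutB_le_one n x)
    · filter_upwards [ae_restrict_mem measurableSet_T] with x hx
      simpa using (tendsto_cutB hx.2).smul_const (wd (fderiv ℝ ψ x) (f x))
  simp_rw [hzero] at hlim
  exact (tendsto_nhds_unique tendsto_const_nhds hlim).symm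

/-- The dilation by `t`. -/
noncomputable def dil (t : ℝ) : ℂ × ℂ →L[ℝ] ℂ × ℂ := t • ContinuousLinearMap.id ℝ (ℂ × ℂ)

@[simp] lemma dil_apply (t : ℝ) (z : ℂ × ℂ) : dil t z = t • z := rfl

lemma dil_one : dil 1 = ContinuousLinearMap.id ℝ (ℂ × ℂ) := one_smul _ _

lemma hasDerivAt_dil (t : ℝ) : HasDerivAt dil (ContinuousLinearMap.id ℝ (ℂ × ℂ)) t := by
  have h1 := (hasDerivAt_id t).smul_const (ContinuousLinearMap.id ℝ (ℂ × ℂ))
  rw [one_smul] at h1
  exact h1

lemma continuous_dil : Continuous dil := continuous_id.smul continuous_const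

lemma norm_dil_le (t : ℝ) : ‖dil t‖ ≤ |t| := by
  unfold dil
  rw [norm_smul, Real.norm_eq_abs]
  exact mul_le_of_le_one_right (abs_nonneg _) ContinuousLinearMap.norm_id_le

lemma det_dil (t : ℝ) : (dil t).det = t ^ 4 := by
  have h1 : (dil t).det = LinearMap.det (t • (LinearMap.id : ℂ × ℂ →ₗ[ℝ] ℂ × ℂ)) := rfl
  rw [h1, LinearMap.det_smul, LinearMap.det_id, mul_one]
  congr 1
  rw [Module.finrank_prod, Complex.finrank_real_complex]

lemma lint_pow {n : ℕ} (hn : 2 ≤ n) : ∫⁻ t in Ioi (1 : ℝ), ENNReal.ofReal ((t ^ n)⁻¹) < ⊤ := by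
  have h1 : IntegrableOn (fun t : ℝ => t ^ (-(n : ℝ))) (Ioi 1) := by
    apply integrableOn_Ioi_rpow_of_lt _ one_pos
    have : (2 : ℝ) ≤ n := by exact_mod_cast hn
    linarith
  have h2 := h1.2
  rw [hasFiniteIntegral_iff_enorm] at h2
  refine lt_of_le_of_lt (le_of_eq ?_) h2
  apply setLIntegral_congr_fun measurableSet_Ioi
  intro t ht
  have ht0 : (0 : ℝ) < t := one_pos.trans ht
  simp only
  rw [Real.enorm_of_nonneg (Real.rpow_nonneg ht0.le _), Real.rpow_neg ht0.le, Real.rpow_natCast]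

lemma lintegral_dil {t : ℝ} (ht : 0 < t) (k : ℂ × ℂ → ℝ≥0∞) :
    ∫⁻ x in T, k (dil t x) ≤ ENNReal.ofReal ((t ^ 4)⁻¹) * ∫⁻ x, k x := by
  have hd : (dil t).det ≠ 0 := by rw [det_dil]; positivity
  have h1 := lintegral_comp_lin hd k
  rw [det_dil, abs_of_nonneg (by positivity)] at h1
  rw [← h1]
  exact setLIntegral_le_lintegral _ _

lemma sq_lintegral_mul_le {X : Type*} [MeasurableSpace X] (μ : Measure X) {g h : X → ℝ≥0∞}
    (hg : AEMeasurable g μ) (hh : AEMeasurable h μ) :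
    (∫⁻ x, g x * h x ∂μ) ^ 2 ≤ (∫⁻ x, g x ^ 2 ∂μ) * ∫⁻ x, h x ^ 2 ∂μ := by
  have h1 := ENNReal.lintegral_mul_le_Lp_mul_Lq μ Real.HolderConjugate.two_two hg hh
  simp only [Pi.mul_apply] at h1
  calc (∫⁻ x, g x * h x ∂μ) ^ 2 ≤ ((∫⁻ a, g a ^ (2 : ℝ) ∂μ) ^ (1 / (2 : ℝ)) *
        (∫⁻ a, h a ^ (2 : ℝ) ∂μ) ^ (1 / (2 : ℝ))) ^ 2 := pow_le_pow_left' h1 2
    _ = _ := by
      rw [mul_pow, ← ENNReal.rpow_natCast, ← ENNReal.rpow_natCast, ← ENNReal.rpow_mul,
        ← ENNReal.rpow_mul]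
      norm_num

section outU

variable {q : ℕ} {f : ℂ × ℂ → (ℂ × ℂ) [⋀^Fin (q + 1)]→L[ℝ] ℝ}

/-- The primitive obtained by integrating from outside. -/
noncomputable def outU (f : ℂ × ℂ → (ℂ × ℂ) [⋀^Fin (q + 1)]→L[ℝ] ℝ) (x : ℂ × ℂ) :
    (ℂ × ℂ) [⋀^Fin q]→L[ℝ] ℝ :=
  - ∫ t in Ioi (1 : ℝ), ct (dil t) (ContinuousLinearMap.id ℝ (ℂ × ℂ)) f x

lemma sm_fdil (hf : StronglyMeasurable f) :
    StronglyMeasurable (fun z : (ℂ × ℂ) × ℝ => f (dil z.2 z.1)) := by
  have hc : Continuous (fun z : (ℂ × ℂ) × ℝ => dil z.2 z.1) :=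
    (continuous_dil.comp continuous_snd).clm_apply continuous_fst
  exact hf.comp_measurable hc.measurable

lemma sm_Jdil (hf : StronglyMeasurable f) :
    StronglyMeasurable (fun z : (ℂ × ℂ) × ℝ =>
      ct (dil z.2) (ContinuousLinearMap.id ℝ (ℂ × ℂ)) f z.1) := by
  have h1 := sm_fdil hf
  have hA : StronglyMeasurable (fun z : (ℂ × ℂ) × ℝ => dil z.2) :=
    (continuous_dil.comp continuous_snd).stronglyMeasurable
  have hB : StronglyMeasurable (fun z : (ℂ × ℂ) × ℝ => z.1) :=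
    continuous_fst.stronglyMeasurable
  have h2 : StronglyMeasurable (fun z : (ℂ × ℂ) × ℝ => (dil z.2, z.1, f (dil z.2 z.1))) :=
    hA.prodMk (hB.prodMk h1)
  have h3 : StronglyMeasurable (fun z : (ℂ × ℂ) × ℝ => ctj (dil z.2, z.1, f (dil z.2 z.1))) :=
    continuous_ctj.comp_stronglyMeasurable h2
  exact h3

lemma norm_Jdil_le (hq : q ≤ 1) (hf0 : ∀ x ∉ T, f x = 0) {t : ℝ} (ht : 1 ≤ t) (x : ℂ × ℂ) :
    ‖ct (dil t) (ContinuousLinearMap.id ℝ (ℂ × ℂ)) f x‖ ≤ ‖f (dil t x)‖ := by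
  have ht0 : 0 < t := one_pos.trans_le ht
  refine (norm_ct_le _ _ _ _).trans ?_
  by_cases hx : dil t x ∈ T
  · have h1 := norm_le_of_T hx
    rw [dil_apply, norm_smul, Real.norm_of_nonneg ht0.le] at h1
    have h2 : ‖dil t‖ ^ q ≤ t := by
      have h3 : ‖dil t‖ ≤ t := (norm_dil_le t).trans (abs_of_pos ht0).le
      calc ‖dil t‖ ^ q ≤ t ^ q := by gcongr
        _ ≤ t ^ 1 := pow_le_pow_right₀ ht hq
        _ = t := pow_one t
    apply mul_le_of_le_one_right (norm_nonneg _)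
    calc ‖(ContinuousLinearMap.id ℝ (ℂ × ℂ)) x‖ * ‖dil t‖ ^ q ≤ ‖x‖ * t := by
          gcongr
          exact le_of_eq rfl
      _ ≤ 1 := by rw [mul_comm]; exact h1
  · rw [hf0 _ hx, norm_zero, zero_mul]

lemma enorm_Jdil_le (hq : q ≤ 1) (hf0 : ∀ x ∉ T, f x = 0) {t : ℝ} (ht : 1 ≤ t) (x : ℂ × ℂ) :
    ‖ct (dil t) (ContinuousLinearMap.id ℝ (ℂ × ℂ)) f x‖ₑ ≤ ‖f (dil t x)‖ₑ := by
  rw [← ofReal_norm, ← ofReal_norm]
  exact ENNReal.ofReal_le_ofReal (norm_Jdil_le hq hf0 ht x)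

lemma integrable_Jdil (hq : q ≤ 1) (hf : StronglyMeasurable f) (hf0 : ∀ x ∉ T, f x = 0)
    (hfi : Integrable f) :
    Integrable (fun z : (ℂ × ℂ) × ℝ => ct (dil z.2) (ContinuousLinearMap.id ℝ (ℂ × ℂ)) f z.1)
      ((volume.restrict T).prod (volume.restrict (Ioi 1))) := by
  have hsm := sm_Jdil hf
  refine ⟨hsm.aestronglyMeasurable, ?_⟩
  rw [HasFiniteIntegral, lintegral_prod_symm _ hsm.enorm.aemeasurable]
  calc ∫⁻ t in Ioi (1 : ℝ), ∫⁻ x in T,
        ‖ct (dil t) (ContinuousLinearMap.id ℝ (ℂ × ℂ)) f x‖ₑ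
      ≤ ∫⁻ t in Ioi (1 : ℝ), ENNReal.ofReal ((t ^ 4)⁻¹) * ∫⁻ x, ‖f x‖ₑ := by
        apply setLIntegral_mono' measurableSet_Ioi
        intro t ht
        have ht1 : (1 : ℝ) < t := ht
        calc _ ≤ ∫⁻ x in T, ‖f (dil t x)‖ₑ :=
              lintegral_mono fun x => enorm_Jdil_le hq hf0 ht1.le x
          _ ≤ _ := lintegral_dil (one_pos.trans ht1) (fun y => ‖f y‖ₑ)
    _ = (∫⁻ t in Ioi (1 : ℝ), ENNReal.ofReal ((t ^ 4)⁻¹)) * ∫⁻ x, ‖f x‖ₑ := by
        rw [lintegral_mul_const]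
        fun_prop
    _ < ⊤ := ENNReal.mul_lt_top (lint_pow (by norm_num)) hfi.2

lemma sm_outU (hf : StronglyMeasurable f) : StronglyMeasurable (outU f) :=
  (sm_Jdil hf).integral_prod_right'.neg

lemma memLp_outU (hq : q ≤ 1) (hf : StronglyMeasurable f) (hf0 : ∀ x ∉ T, f x = 0)
    (hf2 : ∫⁻ x, ‖f x‖ₑ ^ 2 < ⊤) : MemLp (outU f) 2 (volume.restrict T) := by
  rw [memLp_two_iff]
  have hsmU : StronglyMeasurable (outU f) := (sm_Jdil hf).integral_prod_right'.neg
  refine ⟨hsmU.aestronglyMeasurable, ?_⟩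
  set C : ℝ≥0∞ := ∫⁻ t in Ioi (1 : ℝ), ENNReal.ofReal ((t ^ 2)⁻¹) with hC
  have hpt : ∀ x, ‖outU f x‖ₑ ^ 2 ≤
      C * ∫⁻ t in Ioi (1 : ℝ), ENNReal.ofReal (t ^ 2) * ‖f (dil t x)‖ₑ ^ 2 := by
    intro x
    have hm : Measurable (fun t : ℝ => ‖f (dil t x)‖ₑ) := by
      have := (sm_fdil hf).comp_measurable (g := fun t : ℝ => (x, t))
        (measurable_const.prodMk measurable_id)
      exact this.enorm
    have h1 : ‖outU f x‖ₑ ≤ ∫⁻ t in Ioi (1 : ℝ), ENNReal.ofReal (t⁻¹) *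
        (ENNReal.ofReal t * ‖f (dil t x)‖ₑ) := by
      unfold outU
      rw [enorm_neg]
      refine (enorm_integral_le_lintegral_enorm _).trans ?_
      apply setLIntegral_mono' measurableSet_Ioi
      intro t ht
      have ht1 : (1 : ℝ) < t := ht
      have ht0 : 0 < t := one_pos.trans ht1
      rw [← mul_assoc, ← ENNReal.ofReal_mul (by positivity), inv_mul_cancel₀ ht0.ne',
        ENNReal.ofReal_one, one_mul]
      exact enorm_Jdil_le hq hf0 ht1.le x
    have h2 := sq_lintegral_mul_le (volume.restrict (Ioi (1 : ℝ)))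
      (g := fun t : ℝ => ENNReal.ofReal (t⁻¹)) (h := fun t => ENNReal.ofReal t * ‖f (dil t x)‖ₑ)
      (by fun_prop) ((measurable_id.ennreal_ofReal.mul hm).aemeasurable)
    calc ‖outU f x‖ₑ ^ 2 ≤ (∫⁻ t in Ioi (1 : ℝ), ENNReal.ofReal (t⁻¹) *
        (ENNReal.ofReal t * ‖f (dil t x)‖ₑ)) ^ 2 := pow_le_pow_left' h1 2
      _ ≤ _ := h2
      _ = _ := by
        congr 1
        · apply setLIntegral_congr_fun measurableSet_Ioi
          intro t ht
          have ht0 : (0 : ℝ) < t := one_pos.trans ht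
          simp only
          rw [← ENNReal.ofReal_pow (by positivity), inv_pow]
        · apply setLIntegral_congr_fun measurableSet_Ioi
          intro t ht
          have ht0 : (0 : ℝ) < t := one_pos.trans ht
          simp only
          rw [mul_pow, ← ENNReal.ofReal_pow ht0.le]
  have hm2 : Measurable (fun z : (ℂ × ℂ) × ℝ =>
      ENNReal.ofReal (z.2 ^ 2) * ‖f (dil z.2 z.1)‖ₑ ^ 2) :=
    ((measurable_snd.pow_const 2).ennreal_ofReal).mul ((sm_fdil hf).enorm.pow_const 2)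
  calc ∫⁻ x in T, ‖outU f x‖ₑ ^ 2
      ≤ ∫⁻ x in T, C * ∫⁻ t in Ioi (1 : ℝ), ENNReal.ofReal (t ^ 2) * ‖f (dil t x)‖ₑ ^ 2 :=
        lintegral_mono hpt
    _ = C * ∫⁻ x in T, ∫⁻ t in Ioi (1 : ℝ), ENNReal.ofReal (t ^ 2) * ‖f (dil t x)‖ₑ ^ 2 :=
        lintegral_const_mul _ hm2.lintegral_prod_right'
    _ = C * ∫⁻ t in Ioi (1 : ℝ), ∫⁻ x in T, ENNReal.ofReal (t ^ 2) * ‖f (dil t x)‖ₑ ^ 2 := by
        rw [lintegral_lintegral_swap hm2.aemeasurable]
    _ ≤ C * ∫⁻ t in Ioi (1 : ℝ), ENNReal.ofReal ((t ^ 2)⁻¹) * ∫⁻ x, ‖f x‖ₑ ^ 2 := by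
        refine mul_le_mul' le_rfl ?_
        apply setLIntegral_mono' measurableSet_Ioi
        intro t ht
        have ht0 : (0 : ℝ) < t := one_pos.trans ht
        have hm3 : Measurable (fun x : ℂ × ℂ => ‖f (dil t x)‖ₑ ^ 2) := by
          have := (sm_fdil hf).comp_measurable (g := fun x : ℂ × ℂ => (x, t))
            (measurable_id.prodMk measurable_const)
          exact this.enorm.pow_const 2
        rw [lintegral_const_mul _ hm3]
        calc ENNReal.ofReal (t ^ 2) * ∫⁻ x in T, ‖f (dil t x)‖ₑ ^ 2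
            ≤ ENNReal.ofReal (t ^ 2) * (ENNReal.ofReal ((t ^ 4)⁻¹) * ∫⁻ x, ‖f x‖ₑ ^ 2) := by
              gcongr
              exact lintegral_dil ht0 (fun y => ‖f y‖ₑ ^ 2)
          _ = _ := by
              rw [← mul_assoc, ← ENNReal.ofReal_mul (by positivity)]
              congr 2
              field_simp
    _ = C * (C * ∫⁻ x, ‖f x‖ₑ ^ 2) := by
        rw [lintegral_mul_const]
        fun_prop
    _ < ⊤ := by
        have hCt : C < ⊤ := lint_pow le_rfl
        exact ENNReal.mul_lt_top hCt (ENNReal.mul_lt_top hCt hf2)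

/-- Integration from outside solves the equation for radial closed forms. -/
theorem out_main (hq : q ≤ 1) (hf : StronglyMeasurable f) (hf0 : ∀ x ∉ T, f x = 0)
    (hfi : Integrable f) (hcl : ClosedOn T f)
    (hrad : ∀ᵐ x ∂(volume.restrict T), wd (lb x) (f x) = 0) {ψ : ℂ × ℂ → ℝ} (hψ : IsTest T ψ) :
    ∫ x in T, ψ x • f x = - ∫ x in T, wd (fderiv ℝ ψ x) (outU f x) := by
  have hclC := closedOn_cone hfi hf0 hcl hrad
  have hψC : IsTest Cn ψ := hψ.mono T_subset_Cn
  have hψ1 := hψ.contDiff_one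
  obtain ⟨Cψ, hC0, hC⟩ := exists_bound hψ1 hψ.compact
  -- a lower bound for the second coordinate on the support
  obtain ⟨C, hCb⟩ := hψ.compact.isCompact.exists_bound_of_continuousOn
    (f := fun x : ℂ × ℂ => ‖x.2‖⁻¹) (by
      apply ContinuousOn.inv₀ (by fun_prop)
      intro x hx
      exact (snd_pos (hψ.supp hx)).ne')
  set N : ℝ := max C 1 with hN
  have hN1 : 1 ≤ N := le_max_right _ _
  have hout : ∀ t, N ≤ t → ∀ x ∈ tsupport ψ, f (dil t x) = 0 := by
    intro t ht x hx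
    apply hf0
    intro h
    have h1 : ‖(dil t x).2‖ < 1 := h.2
    have h2 := snd_pos (hψ.supp hx)
    have h3 := hCb x hx
    rw [Real.norm_of_nonneg (by positivity)] at h3
    have h4 : 1 ≤ t * ‖x.2‖ := by
      have h5 : ‖x.2‖⁻¹ ≤ t := h3.trans ((le_max_left _ _).trans ht)
      have h6 := mul_le_mul_of_nonneg_right h5 h2.le
      rwa [inv_mul_cancel₀ h2.ne'] at h6
    have ht0 : 0 ≤ t := (zero_le_one.trans hN1).trans ht
    rw [dil_apply, Prod.smul_snd, norm_smul, Real.norm_of_nonneg ht0] at h1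
    linarith
  have hJ := integrable_Jdil hq hf hf0 hfi
  ext v
  have hUi : Integrable (outU f) (volume.restrict T) := hJ.integral_prod_left.neg
  rw [ContinuousAlternatingMap.neg_apply,
    integral_form_apply (integrable_test_smul hfi.integrableOn hψ1 hψ.compact),
    integral_form_apply (integrable_test_wd hUi hψ1 hψ.compact)]
  set W : ℂ × ℂ → ℝ → ℝ := fun x t =>
    wd (fderiv ℝ ψ x) (ct (dil t) (ContinuousLinearMap.id ℝ (ℂ × ℂ)) f x) v with hWdef
  have hW : Integrable (fun z : (ℂ × ℂ) × ℝ => W z.1 z.2)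
      ((volume.restrict T).prod (volume.restrict (Ioi 1))) := by
    have hm : AEStronglyMeasurable (fun z : (ℂ × ℂ) × ℝ =>
        wd (fderiv ℝ ψ z.1) (ct (dil z.2) (ContinuousLinearMap.id ℝ (ℂ × ℂ)) f z.1))
        ((volume.restrict T).prod (volume.restrict (Ioi 1))) :=
      ContinuousLinearMap.aestronglyMeasurable_comp₂ (wdL (ℂ × ℂ) q)
        ((hψ1.continuous_fderiv (by norm_num)).comp continuous_fst).aestronglyMeasurable
        hJ.aestronglyMeasurable
    have h1 : Integrable (fun z : (ℂ × ℂ) × ℝ =>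
        wd (fderiv ℝ ψ z.1) (ct (dil z.2) (ContinuousLinearMap.id ℝ (ℂ × ℂ)) f z.1))
        ((volume.restrict T).prod (volume.restrict (Ioi 1))) := by
      apply (hJ.norm.const_mul ((q + 1) * Cψ)).mono' hm
      refine Eventually.of_forall fun z => ?_
      refine (norm_wd_le _ _).trans ?_
      rw [← mul_assoc]
      gcongr
      exact (hC z.1).2.1
    exact (ev v).integrable_comp h1
  have hdψ0 : ∀ x ∉ T, fderiv ℝ ψ x = 0 := fun x hx =>
    image_eq_zero_of_notMem_tsupport fun h => hx (hψ.supp (tsupport_fderiv_subset ℝ h))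
  have hstar := star hfi isOpen_Cn hclC hasDerivAt_dil continuous_const hN1
    (fun t ht x hx => by
      have ht0 : 0 < t := one_pos.trans_le ht.1
      change ‖(t • x.1 : ℂ)‖ < ‖(t • x.2 : ℂ)‖
      rw [norm_smul, norm_smul, Real.norm_of_nonneg ht0.le]
      exact mul_lt_mul_of_pos_left hx ht0)
    (fun t ht => by
      have ht0 : 0 < t := one_pos.trans_le ht.1
      rw [det_dil]; positivity) hψC v
  rw [dil_one, pb_id] at hstar
  have hL : ∫ x, ψ x * (pb (dil N) f x v - f x v) = - ∫ x in T, (ψ x • f x) v := by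
    rw [← integral_neg, ← setIntegral_eq_integral_of_forall_compl_eq_zero (s := T)]
    · refine setIntegral_congr_fun measurableSet_T fun x hx => ?_
      change _ = -(ψ x * f x v)
      by_cases hxs : x ∈ tsupport ψ
      · have h1 : pb (dil N) f x v = 0 := by
          rw [pb_apply, hout N le_rfl x hxs]; rfl
        rw [h1]; ring
      · rw [image_eq_zero_of_notMem_tsupport hxs]; ring
    · intro x hx
      rw [image_eq_zero_of_notMem_tsupport fun h => hx (hψ.supp h), zero_mul]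
  have hR : ∫ t in (1 : ℝ)..N, ∫ x, wd (fderiv ℝ ψ x)
      (ct (dil t) (ContinuousLinearMap.id ℝ (ℂ × ℂ)) f x) v =
      - ∫ x in T, wd (fderiv ℝ ψ x) (outU f x) v := by
    rw [intervalIntegral.integral_of_le hN1]
    have e1 : ∀ t, ∫ x, wd (fderiv ℝ ψ x)
        (ct (dil t) (ContinuousLinearMap.id ℝ (ℂ × ℂ)) f x) v = ∫ x in T, W x t := by
      intro t
      symm
      apply setIntegral_eq_integral_of_forall_compl_eq_zero
      intro x hx
      simp only [hWdef]
      rw [hdψ0 x hx, wd_zero_left]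
      rfl
    simp_rw [e1]
    have e2 : ∫ t in Ioc (1 : ℝ) N, ∫ x in T, W x t = ∫ t in Ioi (1 : ℝ), ∫ x in T, W x t := by
      symm
      apply setIntegral_eq_of_subset_of_forall_sdiff_eq_zero measurableSet_Ioi
        Ioc_subset_Ioi_self
      intro t ht
      have htN : N ≤ t := by
        by_contra h
        exact ht.2 ⟨ht.1, (not_le.1 h).le⟩
      rw [integral_eq_zero_of_ae]
      refine Eventually.of_forall fun x => ?_
      simp only [hWdef, Pi.zero_apply]
      by_cases hxs : x ∈ tsupport ψ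
      · have h1 : ct (dil t) (ContinuousLinearMap.id ℝ (ℂ × ℂ)) f x = 0 := by
          unfold ct
          rw [hout t htN x hxs]
          rfl
        rw [h1, wd_zero_right]
        rfl
      · have h2 : fderiv ℝ ψ x = 0 :=
          image_eq_zero_of_notMem_tsupport fun h => hxs (tsupport_fderiv_subset ℝ h)
        rw [h2, wd_zero_left]
        rfl
    rw [e2, ← integral_integral_swap hW, ← integral_neg]
    apply integral_congr_ae
    filter_upwards [hJ.prod_right_ae] with x hx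
    simp only [hWdef, outU]
    have h3 : wd (fderiv ℝ ψ x) (-∫ t in Ioi (1 : ℝ),
        ct (dil t) (ContinuousLinearMap.id ℝ (ℂ × ℂ)) f x) =
        - wd (fderiv ℝ ψ x) (∫ t in Ioi (1 : ℝ),
        ct (dil t) (ContinuousLinearMap.id ℝ (ℂ × ℂ)) f x) := by
      rw [← wdL_apply, ← wdL_apply, map_neg]
    rw [h3, ContinuousAlternatingMap.neg_apply, neg_neg]
    have h4 := ContinuousLinearMap.integral_comp_comm
      ((ev v).comp (wdL (ℂ × ℂ) q (fderiv ℝ ψ x))) hx
    simp only [ContinuousLinearMap.comp_apply, ev_apply, wdL_apply] at h4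
    exact h4
  rw [hL, hR] at hstar
  linarith

end outU

end Pool.Agent.Lib.MP_05a445_an
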