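import Mathlib

/-!
Smooth dependence of an integral on a parameter.
-/

set_option autoImplicit false
set_option linter.unusedSectionVars false

namespace Pool.Agent.Lib.MP_05a445_an

open MeasureTheory Set Filter Topology
open scoped ContDiff

variable {E : Type} [NormedAddCommGroup E] [NormedSpace ℝ E] [FiniteDimensional ℝ E]
  {F : Type} [NormedAddCommGroup F] [NormedSpace ℝ F]

lemma exists_ball_bound {O : Set E} (hO : IsOpen O) {f : ℝ × E → F}
    (hf : ContinuousOn f (univ ×ˢ O)) {x : E} (hx : x ∈ O) :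
    ∃ r > 0, Metric.ball x r ⊆ O ∧ ∃ C, ∀ t ∈ Icc (0 : ℝ) 1, ∀ y ∈ Metric.ball x r,
      ‖f (t, y)‖ ≤ C := by
  obtain ⟨r, hr, hrO⟩ := Metric.nhds_basis_closedBall.mem_iff.1 (hO.mem_nhds hx)
  have hK : IsCompact (Icc (0 : ℝ) 1 ×ˢ Metric.closedBall x r) :=
    isCompact_Icc.prod (isCompact_closedBall x r)
  obtain ⟨C, hC⟩ := hK.exists_bound_of_continuousOn
    (hf.mono (prod_mono (subset_univ _) hrO))
  exact ⟨r, hr, Metric.ball_subset_closedBall.trans hrO, C, fun t ht y hy =>
    hC (t, y) ⟨ht, Metric.ball_subset_closedBall hy⟩⟩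

lemma continuous_slice {O : Set E} {f : ℝ × E → F}
    (hf : ContinuousOn f (univ ×ˢ O)) {x : E} (hx : x ∈ O) : Continuous (fun t => f (t, x)) :=
  hf.comp_continuous (continuous_id.prodMk continuous_const) fun _ => ⟨mem_univ _, hx⟩

lemma continuousOn_param {O : Set E} (hO : IsOpen O) {f : ℝ × E → F}
    (hf : ContinuousOn f (univ ×ˢ O)) :
    ContinuousOn (fun x => ∫ t in (0 : ℝ)..1, f (t, x)) O := by
  intro x hx
  apply ContinuousAt.continuousWithinAt
  obtain ⟨r, hr, hrO, C, hC⟩ := exists_ball_bound hO hf hx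
  apply intervalIntegral.continuousAt_of_dominated_interval (bound := fun _ => C)
  · filter_upwards [Metric.ball_mem_nhds x hr] with y hy
    exact (continuous_slice hf (hrO hy)).aestronglyMeasurable
  · filter_upwards [Metric.ball_mem_nhds x hr] with y hy
    refine Eventually.of_forall fun t ht => ?_
    rw [uIoc_of_le zero_le_one] at ht
    exact hC t (Ioc_subset_Icc_self ht) y hy
  · exact intervalIntegrable_const
  · refine Eventually.of_forall fun t ht => ?_
    have h1 : ContinuousAt f (t, x) := hf.continuousAt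
      ((isOpen_univ.prod hO).mem_nhds ⟨mem_univ _, hx⟩)
    exact ContinuousAt.comp (f := fun x => (t, x)) h1
      (continuous_const.prodMk continuous_id).continuousAt

lemma hasFDerivAt_slice {f : ℝ × E → F} {t : ℝ} {x : E} (h : DifferentiableAt ℝ f (t, x)) :
    HasFDerivAt (fun x => f (t, x))
      ((fderiv ℝ f (t, x)).comp (ContinuousLinearMap.inr ℝ ℝ E)) x :=
  h.hasFDerivAt.comp x (hasFDerivAt_prodMk_right t x)

lemma hasDerivAt_slice {f : ℝ × E → F} {t : ℝ} {x : E} (h : DifferentiableAt ℝ f (t, x)) :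
    HasDerivAt (fun t => f (t, x)) (fderiv ℝ f (t, x) (1, 0)) t := by
  have h1 : HasDerivAt (fun t : ℝ => (t, x)) ((1 : ℝ), (0 : E)) t :=
    (hasDerivAt_id t).prodMk (hasDerivAt_const t x)
  exact h.hasFDerivAt.comp_hasDerivAt t h1

/-- Differentiation under the integral sign. -/
lemma hasFDerivAt_param {O : Set E} (hO : IsOpen O) {f : ℝ × E → F}
    (hf : ContDiffOn ℝ 1 f (univ ×ˢ O)) {x : E} (hx : x ∈ O) :
    HasFDerivAt (fun x => ∫ t in (0 : ℝ)..1, f (t, x))
      (∫ t in (0 : ℝ)..1, (fderiv ℝ f (t, x)).comp (ContinuousLinearMap.inr ℝ ℝ E)) x := by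
  have hW : IsOpen ((univ : Set ℝ) ×ˢ O) := isOpen_univ.prod hO
  have hd : ∀ t, ∀ y ∈ O, DifferentiableAt ℝ f (t, y) := fun t y hy =>
    (hf.differentiableOn (by norm_num)).differentiableAt (hW.mem_nhds ⟨mem_univ _, hy⟩)
  have hfd : ContinuousOn (fun p => (fderiv ℝ f p).comp (ContinuousLinearMap.inr ℝ ℝ E))
      (univ ×ˢ O) :=
    (hf.continuousOn_fderiv_of_isOpen hW (by norm_num)).clm_comp continuousOn_const
  obtain ⟨r, hr, hrO, C, hC⟩ := exists_ball_bound hO hfd hx
  apply intervalIntegral.hasFDerivAt_integral_of_dominated_of_fderiv_le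
    (bound := fun _ => C) (Metric.ball_mem_nhds x hr)
    (F' := fun y t => (fderiv ℝ f (t, y)).comp (ContinuousLinearMap.inr ℝ ℝ E))
  · filter_upwards [Metric.ball_mem_nhds x hr] with y hy
    exact (continuous_slice hf.continuousOn (hrO hy)).aestronglyMeasurable
  · exact (continuous_slice hf.continuousOn hx).intervalIntegrable 0 1
  · exact (continuous_slice hfd hx).aestronglyMeasurable
  · refine Eventually.of_forall fun t ht y hy => ?_
    rw [uIoc_of_le zero_le_one] at ht
    exact hC t (Ioc_subset_Icc_self ht) y hy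
  · exact intervalIntegrable_const
  · refine Eventually.of_forall fun t ht y hy => ?_
    exact hasFDerivAt_slice (hd t y (hrO hy))

theorem contDiffOn_param_nat (n : ℕ) : ∀ {F : Type} [NormedAddCommGroup F] [NormedSpace ℝ F]
    {O : Set E} (_ : IsOpen O) {f : ℝ × E → F} (_ : ContDiffOn ℝ n f (univ ×ˢ O)),
    ContDiffOn ℝ n (fun x => ∫ t in (0 : ℝ)..1, f (t, x)) O := by
  induction n with
  | zero =>
    intro F _ _ O hO f hf
    simp only [CharP.cast_eq_zero, contDiffOn_zero] at hf ⊢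
    exact continuousOn_param hO hf
  | succ n ih =>
    intro F _ _ O hO f hf
    have hW : IsOpen ((univ : Set ℝ) ×ˢ O) := isOpen_univ.prod hO
    have hf1 : ContDiffOn ℝ 1 f (univ ×ˢ O) := hf.of_le (by
      have : (1 : WithTop ℕ∞) ≤ ((n : WithTop ℕ∞) + 1) := le_add_self
      exact_mod_cast this)
    rw [show ((n + 1 : ℕ) : WithTop ℕ∞) = (n : WithTop ℕ∞) + 1 by push_cast; rfl] at hf ⊢
    rw [contDiffOn_succ_iff_fderiv_of_isOpen hO]
    refine ⟨fun x hx => (hasFDerivAt_param hO hf1 hx).differentiableAt.differentiableWithinAt,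
      fun h => by simp at h, ?_⟩
    have h1 : ContDiffOn ℝ n (fun p => (fderiv ℝ f p).comp (ContinuousLinearMap.inr ℝ ℝ E))
        (univ ×ˢ O) :=
      (hf.fderiv_of_isOpen hW le_rfl).clm_comp contDiffOn_const
    exact (ih hO h1).congr fun x hx => (hasFDerivAt_param hO hf1 hx).fderiv

/-- Smooth dependence on the parameter. -/
theorem contDiffOn_param {O : Set E} (hO : IsOpen O) {f : ℝ × E → F}
    (hf : ContDiffOn ℝ ∞ f (univ ×ˢ O)) :
    ContDiffOn ℝ ∞ (fun x => ∫ t in (0 : ℝ)..1, f (t, x)) O := by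
  rw [contDiffOn_infty]
  intro n
  exact contDiffOn_param_nat n hO (hf.of_le (by exact_mod_cast le_top))

end Pool.Agent.Lib.MP_05a445_an
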