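import Pool.Agent.Lib.MP_05a445_an.Homotopy

/-!
Integration by parts for the exterior derivative against a compactly supported function.
-/

set_option autoImplicit false

namespace Pool.Agent.Lib.MP_05a445_an

open MeasureTheory Set Filter Topology ContinuousAlternatingMap
open scoped ENNReal ContDiff

variable {V : Type*} [NormedAddCommGroup V] [NormedSpace ℝ V]

/-- Evaluation of a form at vectors, as a continuous linear map. -/
noncomputable def ev {q : ℕ} (v : Fin q → V) : (V [⋀^Fin q]→L[ℝ] ℝ) →L[ℝ] ℝ :=
  ContinuousAlternatingMap.apply ℝ V ℝ v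

@[simp] lemma ev_apply {q : ℕ} (v : Fin q → V) (f : V [⋀^Fin q]→L[ℝ] ℝ) : ev v f = f v := rfl

lemma integral_form_apply {X : Type*} [MeasurableSpace X] {μ : Measure X} {q : ℕ}
    {F : X → V [⋀^Fin q]→L[ℝ] ℝ} (hF : Integrable F μ) (v : Fin q → V) :
    (∫ x, F x ∂μ) v = ∫ x, F x v ∂μ := by
  have := ContinuousLinearMap.integral_comp_comm (ev v) hF
  simpa using this.symm

omit [NormedSpace ℝ V] in
lemma continuous_smul_of {F : Type*} [NormedAddCommGroup F] [NormedSpace ℝ F]
    {ψ : V → ℝ} {g : V → F} {U : Set V} (hU : IsOpen U) (hψ : Continuous ψ)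
    (hs : tsupport ψ ⊆ U) (hg : ContinuousOn g U) : Continuous (fun x => ψ x • g x) := by
  apply continuous_of_tsupport
  intro x hx
  have hxψ : x ∈ tsupport ψ := closure_mono (fun y hy => by
    simp only [Function.mem_support] at hy ⊢
    intro h
    exact hy (by rw [h, zero_smul])) hx
  exact hψ.continuousAt.smul (hg.continuousAt (hU.mem_nhds (hs hxψ)))

lemma continuous_fderiv_smul_of {F : Type*} [NormedAddCommGroup F] [NormedSpace ℝ F]
    {ψ : V → ℝ} {g : V → F} {U : Set V} (hU : IsOpen U) (hψ : ContDiff ℝ 1 ψ)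
    (hs : tsupport ψ ⊆ U) (hg : ContinuousOn g U) (v : V) :
    Continuous (fun x => fderiv ℝ ψ x v • g x) := by
  have h1 : Continuous (fun x => fderiv ℝ ψ x v) :=
    (hψ.continuous_fderiv (by norm_num)).clm_apply continuous_const
  apply continuous_smul_of hU h1 _ hg
  refine (closure_mono ?_).trans ((tsupport_fderiv_subset ℝ).trans hs)
  intro y hy
  simp only [Function.mem_support] at hy ⊢
  intro h
  exact hy (by rw [h]; rfl)

variable [FiniteDimensional ℝ V] [MeasurableSpace V] [BorelSpace V]

theorem integral_smul_fderiv_of {F : Type*} [NormedAddCommGroup F] [NormedSpace ℝ F]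
    {μ : Measure V} [μ.IsAddHaarMeasure]
    {ψ : V → ℝ} {g : V → F} {U : Set V} (hU : IsOpen U) (hψ : ContDiff ℝ 1 ψ)
    (hc : HasCompactSupport ψ)
    (hs : tsupport ψ ⊆ U) (hg : ContDiffOn ℝ 1 g U) (v : V) :
    ∫ x, ψ x • fderiv ℝ g x v ∂μ = - ∫ x, fderiv ℝ ψ x v • g x ∂μ := by
  have hcf : HasCompactSupport (fun x => fderiv ℝ ψ x v) := by
    apply HasCompactSupport.fderiv_apply (𝕜 := ℝ) hc v
  apply integral_smul_fderiv_eq_neg_fderiv_smul_of_integrable
  · apply Continuous.integrable_of_hasCompactSupport
      (continuous_fderiv_smul_of hU hψ hs hg.continuousOn v)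
    exact hcf.smul_right
  · apply Continuous.integrable_of_hasCompactSupport
    · apply continuous_smul_of hU hψ.continuous hs
      exact (hg.continuousOn_fderiv_of_isOpen hU (by norm_num)).clm_apply continuousOn_const
    · exact hc.smul_right
  · apply Continuous.integrable_of_hasCompactSupport
      (continuous_smul_of hU hψ.continuous hs hg.continuousOn)
    exact hc.smul_right
  · intro x _
    exact hψ.differentiable (by norm_num) x
  · intro x hx
    exact (hg.differentiableOn (by norm_num)).differentiableAt (hU.mem_nhds (hs hx))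

theorem integral_smul_extDeriv {q : ℕ} {μ : Measure V} [μ.IsAddHaarMeasure]
    {ψ : V → ℝ} {g : V → V [⋀^Fin q]→L[ℝ] ℝ} {U : Set V} (hU : IsOpen U) (hψ : ContDiff ℝ 1 ψ)
    (hc : HasCompactSupport ψ) (hs : tsupport ψ ⊆ U) (hg : ContDiffOn ℝ 1 g U) :
    ∫ x, ψ x • extDeriv g x ∂μ = - ∫ x, wd (fderiv ℝ ψ x) (g x) ∂μ := by
  have hfc : ContinuousOn (fderiv ℝ g) U := hg.continuousOn_fderiv_of_isOpen hU (by norm_num)
  have hec : ContinuousOn (extDeriv g) U := by
    exact (alternatizeUncurryFinCLM ℝ V ℝ).continuous.comp_continuousOn hfc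
  have hint1 : Integrable (fun x => ψ x • extDeriv g x) μ :=
    Continuous.integrable_of_hasCompactSupport
      (continuous_smul_of hU hψ.continuous hs hec) hc.smul_right
  have hcont2 : Continuous (fun x => wd (fderiv ℝ ψ x) (g x)) := by
    apply continuous_of_tsupport
    intro x hx
    have hxψ : x ∈ tsupport (fderiv ℝ ψ) := closure_mono (fun y hy => by
      simp only [Function.mem_support] at hy ⊢
      intro h
      exact hy (by rw [h, wd_zero_left])) hx
    have h1 : ContinuousAt (fderiv ℝ ψ) x := (hψ.continuous_fderiv (by norm_num)).continuousAt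
    have h2 : ContinuousAt g x := hg.continuousOn.continuousAt
      (hU.mem_nhds (hs (tsupport_fderiv_subset ℝ hxψ)))
    exact ((wdL V q).continuous.continuousAt.comp h1).clm_apply h2
  have hint2 : Integrable (fun x => wd (fderiv ℝ ψ x) (g x)) μ := by
    apply Continuous.integrable_of_hasCompactSupport hcont2
    refine (hc.fderiv (𝕜 := ℝ)).mono fun x hx => ?_
    simp only [Function.mem_support] at hx ⊢
    intro h
    exact hx (by rw [h, wd_zero_left])
  ext v
  rw [integral_form_apply hint1, ContinuousAlternatingMap.neg_apply, integral_form_apply hint2]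
  have hgi : ∀ i : Fin (q + 1), ContDiffOn ℝ 1 (fun x => g x (i.removeNth v)) U := by
    intro i
    exact (ev (i.removeNth v)).contDiff.comp_contDiffOn hg
  have hder : ∀ x ∈ tsupport ψ, ∀ i : Fin (q + 1),
      fderiv ℝ g x (v i) (i.removeNth v) = fderiv ℝ (fun y => g y (i.removeNth v)) x (v i) := by
    intro x hx i
    have hd : DifferentiableAt ℝ g x :=
      (hg.differentiableOn (by norm_num)).differentiableAt (hU.mem_nhds (hs hx))
    rw [fderiv_continuousAlternatingMap_apply_const_apply hd]
  have e1 : ∀ x, (ψ x • extDeriv g x) v = ∑ i : Fin (q + 1), (-1 : ℝ) ^ (i : ℕ) *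
      (ψ x • fderiv ℝ (fun y => g y (i.removeNth v)) x (v i)) := by
    intro x
    by_cases hx : x ∈ tsupport ψ
    · rw [ContinuousAlternatingMap.smul_apply, extDeriv, alternatizeUncurryFin_apply,
        Finset.smul_sum]
      refine Finset.sum_congr rfl fun i _ => ?_
      rw [hder x hx i]
      simp [zsmul_eq_mul]
      ring
    · have : ψ x = 0 := image_eq_zero_of_notMem_tsupport hx
      simp [this]
  have e2 : ∀ x, wd (fderiv ℝ ψ x) (g x) v = ∑ i : Fin (q + 1), (-1 : ℝ) ^ (i : ℕ) *
      (fderiv ℝ ψ x (v i) • g x (i.removeNth v)) := by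
    intro x
    rw [wd_apply]
    rfl
  simp_rw [e1, e2]
  rw [integral_finsetSum, integral_finsetSum, ← Finset.sum_neg_distrib]
  · refine Finset.sum_congr rfl fun i _ => ?_
    rw [integral_const_mul, integral_const_mul,
      integral_smul_fderiv_of hU hψ hc hs (hgi i) (v i)]
    ring
  · intro i _
    apply Integrable.const_mul
    apply Continuous.integrable_of_hasCompactSupport
      (continuous_fderiv_smul_of hU hψ hs (hgi i).continuousOn (v i))
    have hcf : HasCompactSupport (fun x => fderiv ℝ ψ x (v i)) := by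
      apply HasCompactSupport.fderiv_apply (𝕜 := ℝ) hc (v i)
    exact hcf.smul_right
  · intro i _
    apply Integrable.const_mul
    apply Continuous.integrable_of_hasCompactSupport
    · apply continuous_smul_of hU hψ.continuous hs
      exact ((hgi i).continuousOn_fderiv_of_isOpen hU (by norm_num)).clm_apply continuousOn_const
    · exact hc.smul_right

end Pool.Agent.Lib.MP_05a445_an
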