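import Pool.Agent.Lib.MP_05a445_an.Tip

/-!
The closure of the exterior derivative of smooth forms.
-/

set_option autoImplicit false
set_option linter.unusedSectionVars false

namespace Pool.Agent.Lib.MP_05a445_an

open MeasureTheory Set Filter Topology ContinuousLinearMap
open scoped ContDiff NNReal ENNReal

/-- The pair comes from a smooth form and its exterior derivative. -/
def SmPair (q : ℕ) (a : L2q q) (b : L2q (q + 1)) : Prop :=
  ∃ w : ℂ × ℂ → (ℂ × ℂ) [⋀^Fin q]→L[ℝ] ℝ, ContDiff ℝ ∞ w ∧ HasCoef q a w ∧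
    HasCoef (q + 1) b (extDeriv w)

lemma HasCoef.add {q : ℕ} {a b : L2q q} {α β : ℂ × ℂ → (ℂ × ℂ) [⋀^Fin q]→L[ℝ] ℝ}
    (ha : HasCoef q a α) (hb : HasCoef q b β) : HasCoef q (a + b) (fun x => α x + β x) := by
  filter_upwards [ha, hb, Lp.coeFn_add a b] with x h1 h2 h3 I
  rw [h3, Pi.add_apply, PiLp.add_apply, h1 I, h2 I]
  rfl

lemma HasCoef.smul {q : ℕ} {a : L2q q} {α : ℂ × ℂ → (ℂ × ℂ) [⋀^Fin q]→L[ℝ] ℝ} (c : ℝ)
    (ha : HasCoef q a α) : HasCoef q (c • a) (fun x => c • α x) := by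
  filter_upwards [ha, Lp.coeFn_smul c a] with x h1 h3 I
  rw [h3, Pi.smul_apply, PiLp.smul_apply, h1 I]
  rfl

lemma HasCoef.congr {q : ℕ} {a : L2q q} {α β : ℂ × ℂ → (ℂ × ℂ) [⋀^Fin q]→L[ℝ] ℝ}
    (ha : HasCoef q a α) (h : ∀ x, α x = β x) : HasCoef q a β := by
  filter_upwards [ha] with x h1 I
  rw [h1 I, h x]

lemma hasCoef_zero {q : ℕ} : HasCoef q (0 : L2q q) (fun _ => 0) := by
  filter_upwards [Lp.coeFn_zero (Co q) 2 ((volume : Measure (ℂ × ℂ)).restrict T)]
    with x hx I
  rw [hx]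
  rfl

lemma hasCoef_iff {q : ℕ} {a : L2q q} {α : ℂ × ℂ → (ℂ × ℂ) [⋀^Fin q]→L[ℝ] ℝ} :
    HasCoef q a α ↔ ∀ᵐ x ∂((volume : Measure (ℂ × ℂ)).restrict T), cf q (α x) = a x := by
  constructor
  · intro h
    filter_upwards [h] with x hx
    ext I
    exact (hx I).symm
  · intro h
    filter_upwards [h] with x hx I
    rw [← hx]
    rfl

/-- The graph of the exterior derivative on smooth forms. -/
noncomputable def GSm (q : ℕ) : Submodule ℝ (L2q q × L2q (q + 1)) where
  carrier := {p | SmPair q p.1 p.2}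
  add_mem' := by
    rintro p p' ⟨w, h1, h2, h3⟩ ⟨w', h1', h2', h3'⟩
    refine ⟨fun x => w x + w' x, h1.add h1', h2.add h2', (h3.add h3').congr fun x => ?_⟩
    exact (extDeriv_add' (h1.differentiable (by simp) x) (h1'.differentiable (by simp) x)).symm
  zero_mem' := ⟨fun _ => 0, contDiff_const, hasCoef_zero,
    hasCoef_zero.congr fun x => (extDeriv_const' 0 x).symm⟩
  smul_mem' := by
    rintro c p ⟨w, h1, h2, h3⟩
    refine ⟨fun x => c • w x, h1.const_smul c, h2.smul c, (h3.smul c).congr fun x => ?_⟩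
    exact (extDeriv_smul' c (h1.differentiable (by simp) x)).symm

lemma mem_GSm {q : ℕ} {a : L2q q} {b : L2q (q + 1)} : (a, b) ∈ GSm q ↔ SmPair q a b := Iff.rfl

/-- The graph of the strong exterior derivative. -/
noncomputable def GS (q : ℕ) : Submodule ℝ (L2q q × L2q (q + 1)) := (GSm q).topologicalClosure

lemma isClosed_GS (q : ℕ) : IsClosed (GS q : Set (L2q q × L2q (q + 1))) :=
  (GSm q).isClosed_topologicalClosure

lemma mem_GS {q : ℕ} {u : L2q q} {v : L2q (q + 1)} : (u, v) ∈ GS q ↔ StrongD q u v := by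
  change (u, v) ∈ closure (GSm q : Set (L2q q × L2q (q + 1))) ↔ _
  rw [mem_closure_iff_seq_limit]
  constructor
  · rintro ⟨p, hp, hlim⟩
    choose w hw using hp
    rw [Prod.tendsto_iff] at hlim
    exact ⟨w, fun n => (p n).1, fun n => (p n).2, fun n => (hw n).1, fun n => (hw n).2.1,
      fun n => (hw n).2.2, hlim.1, hlim.2⟩
  · rintro ⟨w, a, b, h1, h2, h3, h4, h5⟩
    exact ⟨fun n => (a n, b n), fun n => ⟨w n, h1 n, h2 n, h3 n⟩, h4.prodMk_nhds h5⟩

/-- A continuous form restricted to the triangle. -/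
lemma l2Form_of_continuous {q : ℕ} {w : ℂ × ℂ → (ℂ × ℂ) [⋀^Fin q]→L[ℝ] ℝ} (hw : Continuous w) :
    L2Form (T.indicator w) := by
  apply L2Form.of_memLp hw.stronglyMeasurable
  obtain ⟨C, hC⟩ := (isCompact_closedBall (0 : ℂ × ℂ) 1).exists_bound_of_continuousOn
    hw.continuousOn
  apply MemLp.of_bound hw.aestronglyMeasurable C
  filter_upwards [ae_restrict_mem measurableSet_T] with x hx
  exact hC x (by rw [mem_closedBall_zero_iff]; exact norm_le_of_T hx)

lemma GSm_le_GW (q : ℕ) : GSm q ≤ GW q := by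
  rintro ⟨a, b⟩ ⟨w, h1, h2, h3⟩
  have hd : Continuous (extDeriv w) := by
    have h4 : Continuous (fderiv ℝ w) := (h1.of_le (m := 1) (by simp)).continuous_fderiv (by norm_num)
    exact (ContinuousAlternatingMap.alternatizeUncurryFinCLM ℝ (ℂ × ℂ) ℝ).continuous.comp h4
  rw [mem_GW]
  refine (weakD_iff (l2Form_of_continuous h1.continuous) (l2Form_of_continuous hd) ?_ ?_).1 ?_
  · filter_upwards [hasCoef_iff.1 h2, ae_restrict_mem measurableSet_T] with x h4 hx
    rw [indicator_of_mem hx]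
    exact h4
  · filter_upwards [hasCoef_iff.1 h3, ae_restrict_mem measurableSet_T] with x h4 hx
    rw [indicator_of_mem hx]
    exact h4
  · have hW : WD T w (extDeriv w) := by
      intro ψ hψ
      have h5 := integral_smul_extDeriv (μ := (volume : Measure (ℂ × ℂ))) isOpen_univ
        hψ.contDiff_one hψ.compact (subset_univ _) (h1.contDiffOn.of_le (by simp))
      rw [setIntegral_eq_integral_of_forall_compl_eq_zero,
        setIntegral_eq_integral_of_forall_compl_eq_zero, h5]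
      · intro x hx
        have h3 : fderiv ℝ ψ x = 0 :=
          image_eq_zero_of_notMem_tsupport fun h => hx (hψ.supp (tsupport_fderiv_subset ℝ h))
        rw [h3, wd_zero_left]
      · intro x hx
        rw [image_eq_zero_of_notMem_tsupport fun h => hx (hψ.supp h), zero_smul]
    refine hW.congr ?_ ?_
    · filter_upwards [ae_restrict_mem measurableSet_T] with x hx
      rw [indicator_of_mem hx]
    · filter_upwards [ae_restrict_mem measurableSet_T] with x hx
      rw [indicator_of_mem hx]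

lemma GS_le_GW (q : ℕ) : GS q ≤ GW q :=
  (GSm q).topologicalClosure_minimal (GSm_le_GW q) (isClosed_GW q)

/-- The square of the strong exterior derivative is zero. -/
lemma GS_dd {q : ℕ} {u : L2q q} {v : L2q (q + 1)} (h : (u, v) ∈ GS q) :
    (v, (0 : L2q (q + 2))) ∈ GS (q + 1) := by
  have hf : Continuous (fun p : L2q q × L2q (q + 1) => (p.2, (0 : L2q (q + 2)))) :=
    continuous_snd.prodMk continuous_const
  have hmap : MapsTo (fun p : L2q q × L2q (q + 1) => (p.2, (0 : L2q (q + 2))))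
      (GSm q : Set (L2q q × L2q (q + 1))) (GSm (q + 1) : Set (L2q (q + 1) × L2q (q + 2))) := by
    rintro ⟨a, b⟩ ⟨w, h1, h2, h3⟩
    refine ⟨extDeriv w, ?_, h3, hasCoef_zero.congr fun x => ?_⟩
    · have h4 : ContDiff ℝ ∞ (fderiv ℝ w) := h1.fderiv_right (by simp)
      exact (ContinuousAlternatingMap.alternatizeUncurryFinCLM ℝ (ℂ × ℂ) ℝ).contDiff.comp h4
    · exact (extDeriv_extDeriv' h1.contDiffAt).symm
  have hcl : (u, v) ∈ closure (GSm q : Set (L2q q × L2q (q + 1))) := h
  exact map_mem_closure (f := fun p : L2q q × L2q (q + 1) => (p.2, (0 : L2q (q + 2)))) hf hcl hmap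

/-- Constants are strongly closed. -/
lemma GS_const {u : L2q 0} (h : WeakD 0 u 0) : (u, (0 : L2q 1)) ∈ GS 0 := by
  obtain ⟨c, hc⟩ := const_of_weakD h
  apply (GSm 0).le_topologicalClosure
  refine ⟨fun _ => c, contDiff_const, ?_, hasCoef_zero.congr fun x => (extDeriv_const' c x).symm⟩
  rw [hasCoef_iff]
  filter_upwards [hc, cf_toF 0 u] with x h1 h2
  rw [← h2, h1]

end Pool.Agent.Lib.MP_05a445_an
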