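import Pool.Agent.Lib.MP_05a445_an.Param
import Pool.Agent.Lib.MP_05a445_an.Ortho

/-!
The smooth homotopy formula on a product with the line.
-/

set_option autoImplicit false
set_option linter.unusedSectionVars false

namespace Pool.Agent.Lib.MP_05a445_an

open MeasureTheory Set Filter Topology ContinuousAlternatingMap
open scoped ContDiff

section alg

variable {E : Type} [NormedAddCommGroup E] [NormedSpace ℝ E]

lemma removeNth_succ_cons {X : Type} {q : ℕ} (a : X) (g : Fin (q + 1) → X) (i : Fin (q + 1)) :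
    (i.succ.removeNth (Fin.cons a g : Fin (q + 2) → X) : Fin (q + 1) → X) =
      Fin.cons a (i.removeNth g) := by
  funext j
  refine Fin.cases ?_ (fun j => ?_) j
  · simp [Fin.removeNth]
  · simp [Fin.removeNth]

lemma alt_identity {q : ℕ} (D : (ℝ × E) →L[ℝ] ((ℝ × E) [⋀^Fin (q + 1)]→L[ℝ] ℝ))
    (hD : alternatizeUncurryFin D = 0) (v : Fin (q + 1) → E) :
    ∑ i : Fin (q + 1), (-1 : ℝ) ^ (i : ℕ) *
      D (0, v i) (Fin.cons (1, 0) (fun j => (0, i.removeNth v j))) =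
      D (1, 0) (fun i => (0, v i)) := by
  have h1 : alternatizeUncurryFin D (Fin.cons (1, 0) (fun i => (0, v i))) = 0 := by
    rw [hD]; rfl
  rw [alternatizeUncurryFin_apply, Fin.sum_univ_succ] at h1
  have h2 : ∀ i : Fin (q + 1), (-1 : ℤ) ^ ((i.succ : Fin (q + 2)) : ℕ) •
      D ((Fin.cons (1, 0) (fun i => (0, v i)) : Fin (q + 2) → ℝ × E) i.succ)
        (i.succ.removeNth (Fin.cons (1, 0) (fun i => (0, v i)) : Fin (q + 2) → ℝ × E)) =
      - ((-1 : ℝ) ^ (i : ℕ) *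
      D (0, v i) (Fin.cons (1, 0) (fun j => (0, i.removeNth v j)))) := by
    intro i
    rw [removeNth_succ_cons, Fin.cons_succ, zsmul_eq_mul]
    push_cast
    rw [Fin.val_succ, pow_succ]
    have h3 : (i.removeNth fun i => ((0 : ℝ), v i)) = fun j => ((0 : ℝ), i.removeNth v j) := rfl
    rw [h3]
    ring
  simp_rw [h2] at h1
  rw [Finset.sum_neg_distrib] at h1
  have h4 : ((-1 : ℤ) ^ ((0 : Fin (q + 2)) : ℕ) •
      D ((Fin.cons (1, 0) (fun i => (0, v i)) : Fin (q + 2) → ℝ × E) 0)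
        (Fin.removeNth 0 (Fin.cons (1, 0) (fun i => (0, v i)) : Fin (q + 2) → ℝ × E))) =
      D (1, 0) (fun i => (0, v i)) := by
    rw [Fin.val_zero, pow_zero, one_smul, Fin.cons_zero]
    rfl
  rw [h4] at h1
  linarith

/-- Restriction to the second factor. -/
noncomputable def aL (E : Type) [NormedAddCommGroup E] [NormedSpace ℝ E] (q : ℕ) :
    ((ℝ × E) [⋀^Fin q]→L[ℝ] ℝ) →L[ℝ] (E [⋀^Fin q]→L[ℝ] ℝ) :=
  compContinuousLinearMapCLM (ContinuousLinearMap.inr ℝ ℝ E)

lemma aL_apply {q : ℕ} (f : (ℝ × E) [⋀^Fin q]→L[ℝ] ℝ) (v : Fin q → E) :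
    aL E q f v = f (fun i => (0, v i)) := rfl

/-- Contraction with the first coordinate vector, restricted to the second factor. -/
noncomputable def gL (E : Type) [NormedAddCommGroup E] [NormedSpace ℝ E] (q : ℕ) :
    ((ℝ × E) [⋀^Fin (q + 1)]→L[ℝ] ℝ) →L[ℝ] (E [⋀^Fin q]→L[ℝ] ℝ) :=
  (aL E q).comp ((ContinuousLinearMap.apply ℝ ((ℝ × E) [⋀^Fin q]→L[ℝ] ℝ) ((1 : ℝ), (0 : E))).comp
    (cl (ℝ × E) q))

lemma gL_apply {q : ℕ} (f : (ℝ × E) [⋀^Fin (q + 1)]→L[ℝ] ℝ) (v : Fin q → E) :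
    gL E q f v = f (Fin.cons (1, 0) (fun i => (0, v i))) := rfl

end alg

section hom

variable {E : Type} [NormedAddCommGroup E] [NormedSpace ℝ E] [FiniteDimensional ℝ E]

omit [FiniteDimensional ℝ E] in
lemma intervalIntegral_clm {F G : Type} [NormedAddCommGroup F] [NormedSpace ℝ F]
    [CompleteSpace F]
    [NormedAddCommGroup G] [NormedSpace ℝ G] [CompleteSpace G]
    (L : (E →L[ℝ] F) →L[ℝ] G) {h : ℝ → E →L[ℝ] F} (hc : Continuous h) :
    ∫ t in (0 : ℝ)..1, L (h t) = L (∫ t in (0 : ℝ)..1, h t) :=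
  ContinuousLinearMap.intervalIntegral_comp_comm L (hc.intervalIntegrable 0 1)

/-- The smooth homotopy formula, with a weight. -/
theorem smooth_hom {q : ℕ} {O : Set E} (hO : IsOpen O)
    {F : ℝ × E → (ℝ × E) [⋀^Fin (q + 1)]→L[ℝ] ℝ}
    (hFd : ∀ t, ∀ x ∈ O, DifferentiableAt ℝ F (t, x))
    (hFc : ∀ t, ∀ x ∈ O, extDeriv F (t, x) = 0)
    (hα : ContDiffOn ℝ 1 (fun p => aL E (q + 1) (F p)) (univ ×ˢ O))
    (hγ : ContDiffOn ℝ 1 (fun p => gL E q (F p)) (univ ×ˢ O))
    {w w' : ℝ → ℝ} (hw : ContDiff ℝ 1 w) (hww : ∀ t, HasDerivAt w (w' t) t)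
    (hw' : Continuous w') {x : E} (hx : x ∈ O) :
    extDeriv (fun x => ∫ t in (0 : ℝ)..1, w t • gL E q (F (t, x))) x =
      w 1 • aL E (q + 1) (F (1, x)) - w 0 • aL E (q + 1) (F (0, x)) -
        ∫ t in (0 : ℝ)..1, w' t • aL E (q + 1) (F (t, x)) := by
  have hW : IsOpen ((univ : Set ℝ) ×ˢ O) := isOpen_univ.prod hO
  set g : ℝ × E → E [⋀^Fin q]→L[ℝ] ℝ := fun p => w p.1 • gL E q (F p) with hg
  have hgc : ContDiffOn ℝ 1 g (univ ×ˢ O) :=
    (hw.comp contDiff_fst).contDiffOn.smul hγ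
  have h1 := hasFDerivAt_param hO hgc hx
  have hgd : ∀ t, (fderiv ℝ g (t, x)).comp (ContinuousLinearMap.inr ℝ ℝ E) =
      w t • ((gL E q).comp (fderiv ℝ F (t, x))).comp (ContinuousLinearMap.inr ℝ ℝ E) := by
    intro t
    have h2 : HasFDerivAt (fun p => gL E q (F p)) ((gL E q).comp (fderiv ℝ F (t, x))) (t, x) :=
      hasFDerivAt_clm (gL E q) (hFd t x hx).hasFDerivAt
    have h3 : HasFDerivAt (fun p : ℝ × E => w p.1)
        ((ContinuousLinearMap.toSpanSingleton ℝ (w' t)).comp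
          (ContinuousLinearMap.fst ℝ ℝ E)) (t, x) :=
      (hww t).hasFDerivAt.comp (t, x) hasFDerivAt_fst
    have h4 := h3.smul h2
    have h5 : fderiv ℝ g (t, x) = _ := h4.fderiv
    rw [h5]
    ext v u
    simp
  have hcont : Continuous (fun t => (fderiv ℝ g (t, x)).comp (ContinuousLinearMap.inr ℝ ℝ E)) :=
    continuous_slice (f := fun p => (fderiv ℝ g p).comp (ContinuousLinearMap.inr ℝ ℝ E))
      ((hgc.continuousOn_fderiv_of_isOpen hW (by norm_num)).clm_comp continuousOn_const) hx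
  ext v
  have h6 : extDeriv (fun x => ∫ t in (0 : ℝ)..1, g (t, x)) x v =
      ∫ t in (0 : ℝ)..1, alternatizeUncurryFin
        ((fderiv ℝ g (t, x)).comp (ContinuousLinearMap.inr ℝ ℝ E)) v := by
    rw [extDeriv, h1.fderiv]
    have h7 := intervalIntegral_clm (E := E) (F := E [⋀^Fin q]→L[ℝ] ℝ)
      ((ev v).comp (alternatizeUncurryFinCLM ℝ E ℝ)) hcont
    exact h7.symm
  change extDeriv (fun x => ∫ t in (0 : ℝ)..1, g (t, x)) x v = _
  rw [h6]
  have h8 : ∀ t, alternatizeUncurryFin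
      ((fderiv ℝ g (t, x)).comp (ContinuousLinearMap.inr ℝ ℝ E)) v =
      w t * fderiv ℝ F (t, x) (1, 0) (fun i => (0, v i)) := by
    intro t
    rw [hgd t, ← alt_identity (fderiv ℝ F (t, x)) (hFc t x hx) v, alternatizeUncurryFin_apply,
      Finset.mul_sum]
    refine Finset.sum_congr rfl fun i _ => ?_
    rw [zsmul_eq_mul]
    push_cast
    change _ * (w t * fderiv ℝ F (t, x) (0, v i)
      (Fin.cons (1, 0) (fun j => (0, i.removeNth v j)))) = _
    ring
  simp_rw [h8]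
  have h9 : ∀ t, HasDerivAt (fun t => aL E (q + 1) (F (t, x)) v)
      (fderiv ℝ F (t, x) (1, 0) (fun i => (0, v i))) t := by
    intro t
    have h10 := hasDerivAt_slice (hFd t x hx)
    have h11 := ((ev v).comp (aL E (q + 1))).hasFDerivAt.comp_hasDerivAt t h10
    exact h11
  have hαc : Continuous (fun t => aL E (q + 1) (F (t, x))) :=
    continuous_slice (f := fun p => aL E (q + 1) (F p)) hα.continuousOn hx
  have hαd : Continuous (fun t => fderiv ℝ F (t, x) (1, 0) (fun i => ((0 : ℝ), v i))) := by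
    have h12 : Continuous (fun t => fderiv ℝ (fun p => aL E (q + 1) (F p)) (t, x) (1, 0)) :=
      continuous_slice (f := fun p => fderiv ℝ (fun p => aL E (q + 1) (F p)) p (1, 0))
        ((hα.continuousOn_fderiv_of_isOpen hW (by norm_num)).clm_apply continuousOn_const) hx
    have h13 : ∀ t, fderiv ℝ (fun p => aL E (q + 1) (F p)) (t, x) (1, 0) =
        aL E (q + 1) (fderiv ℝ F (t, x) (1, 0)) := by
      intro t
      have := hasFDerivAt_clm (aL E (q + 1)) (hFd t x hx).hasFDerivAt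
      rw [this.fderiv]
      rfl
    simp_rw [h13] at h12
    exact (ev v).continuous.comp h12
  rw [intervalIntegral.integral_mul_deriv_eq_deriv_mul (fun t _ => hww t) (fun t _ => h9 t)
    (hw'.intervalIntegrable 0 1) (hαd.intervalIntegrable 0 1)]
  have hint2 : IntervalIntegrable (fun t => w' t • aL E (q + 1) (F (t, x))) volume 0 1 :=
    (hw'.smul hαc).intervalIntegrable 0 1
  have h14 : ∫ t in (0 : ℝ)..1, w' t * aL E (q + 1) (F (t, x)) v =
      (∫ t in (0 : ℝ)..1, w' t • aL E (q + 1) (F (t, x))) v :=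
    ContinuousLinearMap.intervalIntegral_comp_comm (ev v) hint2
  rw [h14]
  rfl

end hom

end Pool.Agent.Lib.MP_05a445_an
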