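import Pool.Agent.Lib.MP_05a445_an.Basic

/-!
Solution of the weak equation `d u = f` on the triangle.
-/

set_option autoImplicit false
set_option linter.unusedSectionVars false

namespace Pool.Agent.Lib.MP_05a445_an

open MeasureTheory Set Filter Topology ContinuousAlternatingMap ContinuousLinearMap
open scoped ContDiff NNReal ENNReal

lemma volume_T_ne : volume T ≠ ⊤ := volume_T_lt.ne

section steps

variable {C : Type*} [TopologicalSpace C] [MeasurableSpace C] [BorelSpace C]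
  [SecondCountableTopology C] {ν : Measure C} [IsProbabilityMeasure ν]

/-- One reduction step along a family. -/
lemma step_fam (L : LinFam T ν) {q : ℕ} {f : ℂ × ℂ → (ℂ × ℂ) [⋀^Fin (q + 1)]→L[ℝ] ℝ}
    (hf : L2Form f) (hcl : ClosedOn T f) :
    L2Form (T.indicator (L.U f)) ∧ L2Form (T.indicator (L.H f)) ∧
      ClosedOn T (T.indicator (L.H f)) ∧
      WD T (T.indicator (L.U f)) (fun x => f x - T.indicator (L.H f) x) := by
  have hu := L2Form.of_memLp (L.sm_U hf.sm) (L.memLp_U measurableSet_T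
    (fun x hx => norm_le_of_T hx) hf.sm hf.l2)
  have hh := L2Form.of_memLp (L.sm_H hf.sm) (L.memLp_H measurableSet_T hf.sm hf.l2)
  have hW : WD T (T.indicator (L.U f)) (fun x => f x - T.indicator (L.H f) x) := by
    have h1 : WD T (L.U f) (fun x => f x - L.H f x) := fun ψ hψ =>
      L.main isOpen_T volume_T_ne (fun x hx => norm_le_of_T hx) hf.sm hf.off hf.l1 hcl hψ
    refine h1.congr ?_ ?_
    · filter_upwards [ae_restrict_mem measurableSet_T] with x hx
      rw [indicator_of_mem hx]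
    · filter_upwards [ae_restrict_mem measurableSet_T] with x hx
      rw [indicator_of_mem hx]
  refine ⟨hu, hh, ?_, hW⟩
  have h2 : ClosedOn T (fun x => f x - T.indicator (L.H f) x) :=
    closedOn_of_primitive hu.integrableOn (hf.integrableOn.sub hh.integrableOn) hW
  refine (hcl.sub h2 hf.integrableOn (hf.integrableOn.sub hh.integrableOn)).congr
    (Eventually.of_forall fun x => ?_)
  abel

end steps

/-- Reduction to basic forms. -/
lemma step_F {q : ℕ} {f : ℂ × ℂ → (ℂ × ℂ) [⋀^Fin (q + 1)]→L[ℝ] ℝ}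
    (hf : L2Form f) (hcl : ClosedOn T f) :
    ∃ (u : ℂ × ℂ → (ℂ × ℂ) [⋀^Fin q]→L[ℝ] ℝ)
      (h : ℂ × ℂ → (ℂ × ℂ) [⋀^Fin (q + 1)]→L[ℝ] ℝ),
      L2Form u ∧ L2Form h ∧ ClosedOn T h ∧ (∀ x, IsBasic (h x)) ∧
      WD T u (fun x => f x - h x) := by
  obtain ⟨h1, h2, h3, h4⟩ := step_fam famF hf hcl
  refine ⟨_, _, h1, h2, h3, fun x => ?_, h4⟩
  by_cases hx : x ∈ T
  · rw [indicator_of_mem hx]
    exact isBasic_integral fun c => isBasic_pb_Af f c x
  · rw [indicator_of_notMem hx]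
    exact isBasic_zero

/-- Forms of degree at least three. -/
theorem solve_three {q : ℕ} (hq : 2 ≤ q) {f : ℂ × ℂ → (ℂ × ℂ) [⋀^Fin (q + 1)]→L[ℝ] ℝ}
    (hf : L2Form f) (hcl : ClosedOn T f) :
    ∃ u : ℂ × ℂ → (ℂ × ℂ) [⋀^Fin q]→L[ℝ] ℝ, L2Form u ∧ WD T u f := by
  obtain ⟨u, h, hu, hh, hch, hb, hW⟩ := step_F hf hcl
  refine ⟨u, hu, hW.congr (Eventually.of_forall fun x => rfl) (Eventually.of_forall fun x => ?_)⟩
  rw [(hb x).eq_zero (by omega), sub_zero]

/-- Integration from outside, in the form used below. -/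
lemma step_out {q : ℕ} (hq : q ≤ 1) {f : ℂ × ℂ → (ℂ × ℂ) [⋀^Fin (q + 1)]→L[ℝ] ℝ}
    (hf : L2Form f) (hcl : ClosedOn T f)
    (hrad : ∀ᵐ x ∂(volume.restrict T), wd (lb x) (f x) = 0) :
    L2Form (T.indicator (outU f)) ∧ WD T (T.indicator (outU f)) f := by
  refine ⟨L2Form.of_memLp (sm_outU hf.sm) (memLp_outU hq hf.sm hf.off hf.l2'), ?_⟩
  have h1 : WD T (outU f) f := fun ψ hψ =>
    out_main hq hf.sm hf.off hf.integrable hcl hrad hψ
  refine h1.congr ?_ (Eventually.of_forall fun x => rfl)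
  filter_upwards [ae_restrict_mem measurableSet_T] with x hx
  rw [indicator_of_mem hx]

/-- Forms of degree two. -/
theorem solve_two {f : ℂ × ℂ → (ℂ × ℂ) [⋀^Fin (1 + 1)]→L[ℝ] ℝ}
    (hf : L2Form f) (hcl : ClosedOn T f) :
    ∃ u : ℂ × ℂ → (ℂ × ℂ) [⋀^Fin 1]→L[ℝ] ℝ, L2Form u ∧ WD T u f := by
  obtain ⟨u, h, hu, hh, hch, hb, hW⟩ := step_F hf hcl
  obtain ⟨h1, h2⟩ := step_out le_rfl hh hch
    (Eventually.of_forall fun x => ((hb x).wedge (lb_comp x)).eq_zero le_rfl)
  refine ⟨_, hu.add h1, (hW.add h2 hu.integrableOn h1.integrableOn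
    (hf.integrableOn.sub hh.integrableOn) hh.integrableOn).congr
    (Eventually.of_forall fun x => rfl) (Eventually.of_forall fun x => ?_)⟩
  abel

lemma eu_add (s t : ℝ) : eu (s + t) = eu s * eu t := by
  unfold eu
  rw [← Complex.exp_add]
  congr 1
  push_cast
  ring

lemma periodic_eu : Function.Periodic eu 1 := fun s => by rw [eu_add, eu_one, mul_one]

lemma Mw_Mw (w w' : ℂ) (z : ℂ × ℂ) : Mw 1 w (Mw 1 w' z) = Mw 1 (w * w') z := by
  simp [mul_assoc]

/-- The averaged form is rotation invariant. -/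
lemma rot_inv {q : ℕ} {h : ℂ × ℂ → (ℂ × ℂ) [⋀^Fin q]→L[ℝ] ℝ} {x : ℂ × ℂ}
    (hx : Integrable (fun s => pb (Mw 1 (eu s)) h x) νR) (τ : ℝ) (v : Fin q → ℂ × ℂ) :
    famR.H h (Mw 1 (eu τ) x) (fun i => Mw 1 (eu τ) (v i)) = famR.H h x v := by
  set G : ℝ → (ℂ × ℂ) [⋀^Fin q]→L[ℝ] ℝ := fun s => pb (Mw 1 (eu s)) h x with hG
  have hGp : Function.Periodic G 1 := fun s => by
    simp only [hG]
    rw [periodic_eu s]
  have hGi : IntervalIntegrable G volume 0 1 := by
    rw [intervalIntegrable_iff_integrableOn_Ioc_of_le zero_le_one]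
    exact hx
  have hGi' := hGp.intervalIntegrable₀ one_ne_zero hGi
  have hH : ∀ z, famR.H h z = ∫ s in Ioc (0 : ℝ) 1, pb (Mw 1 (eu s)) h z := by
    intro z
    change ∫ s, pb (Mw 1 (eu (s * (1 - 0)))) h z ∂νR = _
    simp only [sub_zero, mul_one]
    rfl
  have hcomp : ∀ s, cc (Mw 1 (eu τ)) (pb (Mw 1 (eu s)) h (Mw 1 (eu τ) x)) = G (s + τ) := by
    intro s
    ext w
    simp only [hG, cc_apply]
    change h (Mw 1 (eu s) (Mw 1 (eu τ) x)) (fun i => Mw 1 (eu s) (Mw 1 (eu τ) (w i))) =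
      h (Mw 1 (eu (s + τ)) x) (fun i => Mw 1 (eu (s + τ)) (w i))
    simp only [Mw_Mw, eu_add]
  have hcomp' : ∀ s, pb (Mw 1 (eu s)) h (Mw 1 (eu τ) x) = cc (Mw 1 (eu (-τ))) (G (s + τ)) := by
    intro s
    rw [← hcomp s]
    ext w
    simp only [cc_apply]
    change _ = h (Mw 1 (eu s) (Mw 1 (eu τ) x))
      (fun i => Mw 1 (eu s) (Mw 1 (eu τ) (Mw 1 (eu (-τ)) (w i))))
    simp only [Mw_Mw]
    have h1 : eu s * (eu τ * eu (-τ)) = eu s := by
      rw [← eu_add, add_neg_cancel, eu_zero, mul_one]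
    rw [h1, ← Mw_Mw]
    rfl
  have hshift : IntervalIntegrable (fun s => G (s + τ)) volume 0 1 := by
    have := (hGi' (0 + τ) (1 + τ)).comp_add_right τ
    simpa using this
  have hi2 : Integrable (fun s => pb (Mw 1 (eu s)) h (Mw 1 (eu τ) x))
      (volume.restrict (Ioc 0 1)) := by
    simp_rw [hcomp']
    rw [intervalIntegrable_iff_integrableOn_Ioc_of_le zero_le_one] at hshift
    exact (cc (Mw 1 (eu (-τ)))).integrable_comp hshift
  rw [hH, hH]
  have e1 := ContinuousLinearMap.integral_comp_comm (cc (q := q) (Mw 1 (eu τ))) hi2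
  have e2 : (∫ s in Ioc (0 : ℝ) 1, pb (Mw 1 (eu s)) h (Mw 1 (eu τ) x))
      (fun i => Mw 1 (eu τ) (v i)) =
      (cc (Mw 1 (eu τ)) (∫ s in Ioc (0 : ℝ) 1, pb (Mw 1 (eu s)) h (Mw 1 (eu τ) x))) v := rfl
  rw [e2, ← e1]
  congr 1
  simp_rw [hcomp]
  rw [← intervalIntegral.integral_of_le zero_le_one,
    ← intervalIntegral.integral_of_le zero_le_one,
    intervalIntegral.integral_comp_add_right (fun s => G s)]
  have := hGp.intervalIntegral_add_eq τ 0
  rw [zero_add, add_comm 1 τ]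
  simpa using this

/-- The rotation average. -/
lemma step_R {q : ℕ} {h : ℂ × ℂ → (ℂ × ℂ) [⋀^Fin (q + 1)]→L[ℝ] ℝ}
    (hh : L2Form h) (hcl : ClosedOn T h) (hb : ∀ x, IsBasic (h x)) :
    ∃ (u : ℂ × ℂ → (ℂ × ℂ) [⋀^Fin q]→L[ℝ] ℝ)
      (m : ℂ × ℂ → (ℂ × ℂ) [⋀^Fin (q + 1)]→L[ℝ] ℝ),
      L2Form u ∧ L2Form m ∧ ClosedOn T m ∧ (∀ x, IsBasic (m x)) ∧
      (∀ᵐ x ∂(volume.restrict T), ∀ (τ : ℝ) (v : Fin (q + 1) → ℂ × ℂ),
        m (Mw 1 (eu τ) x) (fun i => Mw 1 (eu τ) (v i)) = m x v) ∧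
      WD T u (fun x => h x - m x) := by
  obtain ⟨h1, h2, h3, h4⟩ := step_fam famR hh hcl
  refine ⟨_, _, h1, h2, h3, fun x => ?_, ?_, h4⟩
  · by_cases hx : x ∈ T
    · rw [indicator_of_mem hx]
      exact isBasic_integral fun c => isBasic_pb_Mw hb _ x
    · rw [indicator_of_notMem hx]
      exact isBasic_zero
  · have h5 := (famR.integrable_pb measurableSet_T hh.sm hh.l1
      (left_mem_Icc.2 zero_le_one)).prod_right_ae
    filter_upwards [h5, ae_restrict_mem measurableSet_T] with x hx hxT τ v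
    have h6 : Integrable (fun s => pb (Mw 1 (eu s)) h x) νR := by
      have h7 : (fun s => pb (famR.A s 0) h x) = (fun s => pb (Mw 1 (eu s)) h x) := by
        funext s
        change pb (Mw 1 (eu (s * (1 - 0)))) h x = _
        rw [sub_zero, mul_one]
      rw [← h7]
      exact hx
    rw [indicator_of_mem hxT, indicator_of_mem (Mw_one_mem (norm_eu τ) hxT)]
    exact rot_inv h6 τ v

/-- The period of a rotation invariant closed form of degree one. -/
lemma period {m : ℂ × ℂ → (ℂ × ℂ) [⋀^Fin (0 + 1)]→L[ℝ] ℝ} (hm : L2Form m) (hcl : ClosedOn T m)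
    (hinv : ∀ᵐ x ∂(volume.restrict T), ∀ (τ : ℝ) (v : Fin (0 + 1) → ℂ × ℂ),
        m (Mw 1 (eu τ) x) (fun i => Mw 1 (eu τ) (v i)) = m x v) :
    ∃ c : ℝ, ∀ᵐ x ∂(volume.restrict T), m x (fun _ => (0, Complex.I * x.2)) = c := by
  obtain ⟨h1, h2, h3, h4⟩ := step_fam famP hm hcl
  have hH : ∀ x ∈ T, famP.H m x = m x := by
    intro x hx
    change ∫ c, pb (Mw 1 (eu 0)) m x ∂(Measure.dirac ()) = m x
    rw [integral_dirac, eu_zero]
    ext v
    change m (Mw 1 1 x) (fun i => Mw 1 1 (v i)) = m x v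
    simp
  have hcl2 : ClosedOn T (T.indicator (famP.U m)) := by
    intro ψ hψ
    have h5 := h4 ψ hψ
    rw [← neg_eq_zero, ← h5]
    apply integral_eq_zero_of_ae
    filter_upwards [ae_restrict_mem measurableSet_T] with x hx
    rw [indicator_of_mem hx, hH x hx, sub_self, smul_zero]
    rfl
  obtain ⟨c, hc⟩ := closed_zero_const isOpen_T isPreconnected_T h1.integrable hcl2
  refine ⟨(2 * Real.pi)⁻¹ * c ![], ?_⟩
  filter_upwards [hc, hinv, ae_restrict_mem measurableSet_T] with x hx hix hxT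
  rw [indicator_of_mem hxT] at hx
  have h6 : famP.U m x = ct (ContinuousLinearMap.id ℝ (ℂ × ℂ))
      (Mw 0 ((2 * Real.pi : ℝ) * Complex.I)) m x := by
    have h7 : ∀ p : Unit × ℝ, ct (famP.A p.1 p.2) (famP.B p.1 p.2) m x =
        ct (ContinuousLinearMap.id ℝ (ℂ × ℂ)) (Mw 0 ((2 * Real.pi : ℝ) * Complex.I)) m x := by
      intro p
      ext v
      rw [ct_apply, ct_apply]
      have h8 := hix p.2 (Fin.cons (Mw 0 ((2 * Real.pi : ℝ) * Complex.I) x) v)
      change m (Mw 1 (eu p.2) x) _ = m x (Fin.cons (Mw 0 ((2 * Real.pi : ℝ) * Complex.I) x) v)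
      rw [← h8]
      congr 1
      funext i
      have hi : i = 0 := Fin.fin_one_eq_zero i
      subst hi
      simp only [Fin.cons_zero]
      change Mw 0 ((2 * Real.pi : ℝ) * Complex.I * eu p.2) x = _
      simp
      ring
    unfold LinFam.U
    simp_rw [h7]
    simp
  rw [h6] at hx
  have h9 : m x (Fin.cons (Mw 0 ((2 * Real.pi : ℝ) * Complex.I) x) ![]) = c ![] :=
    congrArg (fun g => g ![]) hx
  have h10 : (Fin.cons (Mw 0 ((2 * Real.pi : ℝ) * Complex.I) x) ![] : Fin (0 + 1) → ℂ × ℂ) =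
      fun i => (2 * Real.pi : ℝ) • ((0 : ℂ), Complex.I * x.2) := by
    funext i
    have hi : i = 0 := Fin.fin_one_eq_zero i
    subst hi
    simp [mul_assoc]
  rw [h10] at h9
  have h11 := (m x).toMultilinearMap.map_smul_univ (fun _ => 2 * Real.pi)
    (fun _ => ((0 : ℂ), Complex.I * x.2))
  have h12 : m x (fun i => (2 * Real.pi : ℝ) • ((0 : ℂ), Complex.I * x.2)) =
      (2 * Real.pi) * m x (fun _ => ((0 : ℂ), Complex.I * x.2)) := by
    simpa using h11
  rw [h12] at h9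
  rw [← h9, ← mul_assoc, inv_mul_cancel₀ (by positivity), one_mul]

lemma isBasic_one0 : IsBasic one0 := by
  ext v; rfl

lemma th_comp (x : ℂ × ℂ) : (th x).comp (Pc 0) = th x := by
  ext v <;> simp [th]

lemma isBasic_om (x : ℂ × ℂ) : IsBasic (om x) := isBasic_one0.wedge (th_comp x)

/-- The angular form on the triangle, extended by zero. -/
noncomputable def omT : ℂ × ℂ → (ℂ × ℂ) [⋀^Fin 1]→L[ℝ] ℝ := T.indicator om

lemma l2Form_omT : L2Form omT :=
  L2Form.of_memLp sm_om (memLp_two_iff.2 ⟨sm_om.aestronglyMeasurable, lint_om⟩)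

lemma closedOn_omT : ClosedOn T omT := by
  refine closedOn_om.congr ?_
  filter_upwards [ae_restrict_mem measurableSet_T] with x hx
  rw [omT, indicator_of_mem hx]

/-- A basic form of degree one vanishing in the angular direction is radial. -/
lemma radial_of {g : (ℂ × ℂ) [⋀^Fin 1]→L[ℝ] ℝ} (hg : IsBasic g) {x : ℂ × ℂ} (hx : x.2 ≠ 0)
    (h0 : g (fun _ => (0, Complex.I * x.2)) = 0) : wd (lb x) g = 0 := by
  set b := x.2 with hb
  -- the associated linear functional of the base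
  set L : ℂ →ₗ[ℝ] ℝ :=
    { toFun := fun w => g (fun _ => (0, w))
      map_add' := fun w w' => by
        have h1 := g.map_update_add (fun _ => ((0 : ℂ), (0 : ℂ))) 0 (0, w) (0, w')
        have h2 : ∀ u : ℂ × ℂ, Function.update (fun _ : Fin 1 => ((0 : ℂ), (0 : ℂ))) 0 u =
          fun _ => u := fun u => by
            funext i
            rw [Fin.fin_one_eq_zero i, Function.update_self]
        simp only [h2] at h1
        rw [← h1]
        congr 1
        funext i
        simp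
      map_smul' := fun r w => by
        have h1 := g.map_update_smul (fun _ => ((0 : ℂ), (0 : ℂ))) 0 r (0, w)
        have h2 : ∀ u : ℂ × ℂ, Function.update (fun _ : Fin 1 => ((0 : ℂ), (0 : ℂ))) 0 u =
          fun _ => u := fun u => by
            funext i
            rw [Fin.fin_one_eq_zero i, Function.update_self]
        simp only [h2] at h1
        simp only [RingHom.id_apply]
        rw [← h1]
        congr 1
        funext i
        simp } with hL
  have hgL : ∀ v : Fin 1 → ℂ × ℂ, g v = L (v 0).2 := by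
    intro v
    rw [← hg]
    change g (fun i => Pc 0 (v i)) = g (fun _ => (0, (v 0).2))
    congr 1
    funext i
    rw [Fin.fin_one_eq_zero i]
    simp
  have hLI : L (Complex.I * b) = 0 := h0
  -- decomposition of a vector
  have hdec : ∀ w : ℂ, ∃ α β : ℝ, w = α • b + β • (Complex.I * b) := by
    intro w
    refine ⟨(w / b).re, (w / b).im, ?_⟩
    have h1 : w = (w / b) * b := (div_mul_cancel₀ w hx).symm
    conv_lhs => rw [h1, ← Complex.re_add_im (w / b)]
    simp only [Complex.real_smul]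
    ring
  have hLr : ∀ w : ℂ, L w * ‖b‖ ^ 2 = inner ℝ b w * L b := by
    intro w
    obtain ⟨α, β, rfl⟩ := hdec w
    have h2 : inner ℝ b (Complex.I * b) = 0 := by
      rw [Complex.inner]
      simp
      ring
    rw [map_add, map_smul, map_smul, hLI, inner_add_right, inner_smul_right, inner_smul_right, h2,
      real_inner_self_eq_norm_sq]
    simp
    ring
  have hb2 : ‖b‖ ^ 2 ≠ 0 := pow_ne_zero _ (norm_ne_zero_iff.2 hx)
  ext v
  rw [wd_apply]
  change _ = (0 : ℝ)
  rw [Fin.sum_univ_two, hgL, hgL]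
  have e1 : (Fin.removeNth (0 : Fin 2) v 0) = v 1 := rfl
  have e2 : (Fin.removeNth (1 : Fin 2) v 0) = v 0 := rfl
  have e3 : ∀ w : ℂ × ℂ, lb x w = inner ℝ b w.2 := fun w => rfl
  rw [e1, e2, e3, e3]
  have h3 := hLr (v 0).2
  have h4 := hLr (v 1).2
  have h5 : (inner ℝ b (v 0).2 * L (v 1).2 - inner ℝ b (v 1).2 * L (v 0).2) * ‖b‖ ^ 2 = 0 := by
    linear_combination (inner ℝ b (v 0).2) * h4 - (inner ℝ b (v 1).2) * h3
  have h6 := (mul_eq_zero.1 h5).resolve_right hb2
  have s0 : ((-1 : ℝ) ^ ((0 : Fin 2) : ℕ)) = 1 := by norm_num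
  have s1 : ((-1 : ℝ) ^ ((1 : Fin 2) : ℕ)) = -1 := by norm_num
  change (-1 : ℝ) ^ ((0 : Fin 2) : ℕ) * _ + (-1 : ℝ) ^ ((1 : Fin 2) : ℕ) * _ = _
  rw [s0, s1]
  linarith

/-- Forms of degree one. -/
theorem solve_one {f : ℂ × ℂ → (ℂ × ℂ) [⋀^Fin (0 + 1)]→L[ℝ] ℝ}
    (hf : L2Form f) (hcl : ClosedOn T f) :
    ∃ (c : ℝ) (u : ℂ × ℂ → (ℂ × ℂ) [⋀^Fin 0]→L[ℝ] ℝ), L2Form u ∧
      WD T u (fun x => f x - c • omT x) := by
  obtain ⟨u, h, hu, hh, hch, hb, hW⟩ := step_F hf hcl
  obtain ⟨u2, m, hu2, hm, hcm, hbm, hinv, hW2⟩ := step_R hh hch hb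
  obtain ⟨c, hc⟩ := period hm hcm hinv
  have hσ : L2Form (fun x => m x - c • omT x) := hm.sub (l2Form_omT.smul c)
  have hclσ : ClosedOn T (fun x => m x - c • omT x) :=
    hcm.sub (closedOn_omT.smul c) hm.integrableOn (l2Form_omT.smul c).integrableOn
  have hrad : ∀ᵐ x ∂(volume.restrict T), wd (lb x) (m x - c • omT x) = 0 := by
    filter_upwards [hc, ae_restrict_mem measurableSet_T] with x hx hxT
    apply radial_of _ (snd_ne hxT)
    · rw [ContinuousAlternatingMap.sub_apply, hx, ContinuousAlternatingMap.smul_apply, omT,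
        indicator_of_mem hxT, om_apply, th_apply]
      have h1 : ((x.2)⁻¹ * (Complex.I * x.2)) = Complex.I := by
        have := snd_ne hxT
        field_simp
      simp [h1]
    · have h2 : IsBasic (omT x) := by
        rw [omT, indicator_of_mem hxT]
        exact isBasic_om x
      ext v
      have h3 := congrArg (fun g => g v) (hbm x)
      have h4 := congrArg (fun g => g v) h2
      change m x (fun i => Pc 0 (v i)) - c • omT x (fun i => Pc 0 (v i)) = m x v - c • omT x v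
      have h5 : m x (fun i => Pc 0 (v i)) = m x v := h3
      have h6 : omT x (fun i => Pc 0 (v i)) = omT x v := h4
      rw [h5, h6]
  obtain ⟨h1, h2⟩ := step_out zero_le_one hσ hclσ hrad
  have hW3 := (hW.add hW2 hu.integrableOn hu2.integrableOn
    (hf.integrableOn.sub hh.integrableOn) (hh.integrableOn.sub hm.integrableOn)).add h2
    (hu.add hu2).integrableOn h1.integrableOn
    ((hf.sub hh).add (hh.sub hm)).integrableOn hσ.integrableOn
  refine ⟨c, _, (hu.add hu2).add h1, hW3.congr (Eventually.of_forall fun x => rfl)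
    (Eventually.of_forall fun x => ?_)⟩
  abel

end Pool.Agent.Lib.MP_05a445_an
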