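import Pool.Agent.Lib.MP_05a445_an.Limit

/-!
Solution of the weak equation `d u = f` with control at the tip.
-/

set_option autoImplicit false
set_option linter.unusedSectionVars false

namespace Pool.Agent.Lib.MP_05a445_an

open MeasureTheory Set Filter Topology ContinuousAlternatingMap ContinuousLinearMap
open scoped ContDiff NNReal ENNReal

/-- Reduction to basic forms. -/
lemma step_F_good {q : ℕ} {f : ℂ × ℂ → (ℂ × ℂ) [⋀^Fin (q + 1)]→L[ℝ] ℝ}
    (hf : L2Form f) (hcl : ClosedOn T f) :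
    ∃ (u : ℂ × ℂ → (ℂ × ℂ) [⋀^Fin q]→L[ℝ] ℝ)
      (h : ℂ × ℂ → (ℂ × ℂ) [⋀^Fin (q + 1)]→L[ℝ] ℝ),
      L2Form u ∧ Good u ∧ L2Form h ∧ ClosedOn T h ∧ (∀ x, IsBasic (h x)) ∧
      WD T u (fun x => f x - h x) := by
  obtain ⟨h1, h2, h3, h4⟩ := step_fam famF hf hcl
  refine ⟨_, _, h1, good_fam famF hf, h2, h3, fun x => ?_, h4⟩
  by_cases hx : x ∈ T
  · rw [indicator_of_mem hx]
    exact isBasic_integral fun c => isBasic_pb_Af f c x
  · rw [indicator_of_notMem hx]
    exact isBasic_zero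

/-- The rotation average. -/
lemma step_R_good {q : ℕ} {h : ℂ × ℂ → (ℂ × ℂ) [⋀^Fin (q + 1)]→L[ℝ] ℝ}
    (hh : L2Form h) (hcl : ClosedOn T h) (hb : ∀ x, IsBasic (h x)) :
    ∃ (u : ℂ × ℂ → (ℂ × ℂ) [⋀^Fin q]→L[ℝ] ℝ)
      (m : ℂ × ℂ → (ℂ × ℂ) [⋀^Fin (q + 1)]→L[ℝ] ℝ),
      L2Form u ∧ Good u ∧ L2Form m ∧ ClosedOn T m ∧ (∀ x, IsBasic (m x)) ∧
      (∀ᵐ x ∂(volume.restrict T), ∀ (τ : ℝ) (v : Fin (q + 1) → ℂ × ℂ),
        m (Mw 1 (eu τ) x) (fun i => Mw 1 (eu τ) (v i)) = m x v) ∧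
      WD T u (fun x => h x - m x) := by
  obtain ⟨h1, h2, h3, h4⟩ := step_fam famR hh hcl
  refine ⟨_, _, h1, good_fam famR hh, h2, h3, fun x => ?_, ?_, h4⟩
  · by_cases hx : x ∈ T
    · rw [indicator_of_mem hx]
      exact isBasic_integral fun c => isBasic_pb_Mw hb _ x
    · rw [indicator_of_notMem hx]
      exact isBasic_zero
  · have h5 := (famR.integrable_pb measurableSet_T hh.sm hh.l1
      (left_mem_Icc.2 zero_le_one)).prod_right_ae
    filter_upwards [h5, ae_restrict_mem measurableSet_T] with x hx hxT τ v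
    have h6 : Integrable (fun s => pb (Mw 1 (eu s)) h x) νR := by
      have h7 : (fun s => pb (famR.A s 0) h x) = (fun s => pb (Mw 1 (eu s)) h x) := by
        funext s
        change pb (Mw 1 (eu (s * (1 - 0)))) h x = _
        rw [sub_zero, mul_one]
      rw [← h7]
      exact hx
    rw [indicator_of_mem hxT, indicator_of_mem (Mw_one_mem (norm_eu τ) hxT)]
    exact rot_inv h6 τ v

lemma Good.congr_fun {E : Type*} [NormedAddCommGroup E] {u v : ℂ × ℂ → E} (h : Good u)
    (huv : ∀ x, u x = v x) : Good v := h.congr fun x _ => huv x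

/-- Forms of degree at least two. -/
theorem solve_high_good {q : ℕ} (hq : 1 ≤ q) {f : ℂ × ℂ → (ℂ × ℂ) [⋀^Fin (q + 1)]→L[ℝ] ℝ}
    (hf : L2Form f) (hcl : ClosedOn T f) :
    ∃ u : ℂ × ℂ → (ℂ × ℂ) [⋀^Fin q]→L[ℝ] ℝ, L2Form u ∧ Good u ∧ WD T u f := by
  obtain ⟨u, h, hu, hgu, hh, hch, hb, hW⟩ := step_F_good hf hcl
  rcases hq.eq_or_lt with h1 | h2
  · subst h1
    obtain ⟨h1, h2⟩ := step_out le_rfl hh hch
      (Eventually.of_forall fun x => ((hb x).wedge (lb_comp x)).eq_zero le_rfl)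
    refine ⟨_, hu.add h1, hgu.add hu.sm (good_out le_rfl hh),
      (hW.add h2 hu.integrableOn h1.integrableOn
      (hf.integrableOn.sub hh.integrableOn) hh.integrableOn).congr
      (Eventually.of_forall fun x => rfl) (Eventually.of_forall fun x => ?_)⟩
    abel
  · refine ⟨u, hu, hgu,
      hW.congr (Eventually.of_forall fun x => rfl) (Eventually.of_forall fun x => ?_)⟩
    rw [(hb x).eq_zero (by omega), sub_zero]

/-- Forms of degree one. -/
theorem solve_one_good {f : ℂ × ℂ → (ℂ × ℂ) [⋀^Fin (0 + 1)]→L[ℝ] ℝ}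
    (hf : L2Form f) (hcl : ClosedOn T f) :
    ∃ (c : ℝ) (u : ℂ × ℂ → (ℂ × ℂ) [⋀^Fin 0]→L[ℝ] ℝ), L2Form u ∧ Good u ∧
      WD T u (fun x => f x - c • omT x) := by
  obtain ⟨u, h, hu, hgu, hh, hch, hb, hW⟩ := step_F_good hf hcl
  obtain ⟨u2, m, hu2, hgu2, hm, hcm, hbm, hinv, hW2⟩ := step_R_good hh hch hb
  obtain ⟨c, hc⟩ := period hm hcm hinv
  have hσ : L2Form (fun x => m x - c • omT x) := hm.sub (l2Form_omT.smul c)
  have hclσ : ClosedOn T (fun x => m x - c • omT x) :=
    hcm.sub (closedOn_omT.smul c) hm.integrableOn (l2Form_omT.smul c).integrableOn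
  have hrad : ∀ᵐ x ∂(volume.restrict T), wd (lb x) (m x - c • omT x) = 0 := by
    filter_upwards [hc, ae_restrict_mem measurableSet_T] with x hx hxT
    apply radial_of _ (snd_ne hxT)
    · rw [ContinuousAlternatingMap.sub_apply, hx, ContinuousAlternatingMap.smul_apply, omT,
        indicator_of_mem hxT, om_apply, th_apply]
      have h1 : ((x.2)⁻¹ * (Complex.I * x.2)) = Complex.I := by
        have := snd_ne hxT
        field_simp
      simp [h1]
    · have h2 : IsBasic (omT x) := by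
        rw [omT, indicator_of_mem hxT]
        exact isBasic_om x
      ext v
      have h3 := congrArg (fun g => g v) (hbm x)
      have h4 := congrArg (fun g => g v) h2
      change m x (fun i => Pc 0 (v i)) - c • omT x (fun i => Pc 0 (v i)) = m x v - c • omT x v
      have h5 : m x (fun i => Pc 0 (v i)) = m x v := h3
      have h6 : omT x (fun i => Pc 0 (v i)) = omT x v := h4
      rw [h5, h6]
  obtain ⟨h1, h2⟩ := step_out zero_le_one hσ hclσ hrad
  have hW3 := (hW.add hW2 hu.integrableOn hu2.integrableOn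
    (hf.integrableOn.sub hh.integrableOn) (hh.integrableOn.sub hm.integrableOn)).add h2
    (hu.add hu2).integrableOn h1.integrableOn
    ((hf.sub hh).add (hh.sub hm)).integrableOn hσ.integrableOn
  refine ⟨c, _, (hu.add hu2).add h1,
    (hgu.add hu.sm hgu2).add (hu.add hu2).sm (good_out zero_le_one hσ),
    hW3.congr (Eventually.of_forall fun x => rfl)
    (Eventually.of_forall fun x => ?_)⟩
  abel

/-- Closed classes of degree at least two are strong derivatives. -/
lemma strong_high (hA : ∀ q, Away q) {q : ℕ} (hq : 1 ≤ q) {v : L2q (q + 1)}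
    (hv : WeakD (q + 1) v 0) : ∃ u, (u, v) ∈ GS q := by
  rw [weakD_zero_iff] at hv
  obtain ⟨u, hu, hgu, hW⟩ := solve_high_good hq (l2Form_toF (q + 1) v) hv
  have h1 := mem_GS_of_good (hA q) hu (l2Form_toF (q + 1) v) hW hgu
  have h2 : ofF (l2Form_toF (q + 1) v) = v := by
    apply Lp.ext
    filter_upwards [cf_ofF (l2Form_toF (q + 1) v), cf_toF (q + 1) v] with x h3 h4
    rw [← h3, h4]
  rw [h2] at h1
  exact ⟨_, h1⟩

/-- Closed classes of degree one. -/
lemma strong_one (hA : ∀ q, Away q) {v : L2q 1} (hv : WeakD 1 v 0) :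
    ∃ (c : ℝ) (u : L2q 0), (u, v - c • Om) ∈ GS 0 := by
  rw [weakD_zero_iff] at hv
  obtain ⟨c, u, hu, hgu, hW⟩ := solve_one_good (l2Form_toF 1 v) hv
  have hL : L2Form (fun x => toF 1 v x - c • omT x) := (l2Form_toF 1 v).sub (l2Form_omT.smul c)
  have h1 := mem_GS_of_good (hA 0) hu hL hW hgu
  have h2 : ofF hL = v - c • Om := by
    apply Lp.ext
    filter_upwards [cf_ofF hL, cf_toF 1 v, cf_ofF l2Form_omT, Lp.coeFn_sub v (c • Om),
      Lp.coeFn_smul c Om] with x h3 h4 h5 h6 h7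
    rw [← h3, h6, Pi.sub_apply, h7, Pi.smul_apply, _root_.map_sub, h4, _root_.map_smul, h5]
    rfl
  rw [h2] at h1
  exact ⟨c, _, h1⟩

/-- The angular form is strongly closed. -/
lemma strong_Om (hA : ∀ q, Away q) : (Om, (0 : L2q 2)) ∈ GS 1 := by
  have h1 : WD T omT (fun _ => (0 : (ℂ × ℂ) [⋀^Fin (1 + 1)]→L[ℝ] ℝ)) := by
    intro ψ hψ
    have := closedOn_omT ψ hψ
    simp only [smul_zero, integral_zero]
    rw [this, neg_zero]
  have h0 : L2Form (fun _ : ℂ × ℂ => (0 : (ℂ × ℂ) [⋀^Fin (1 + 1)]→L[ℝ] ℝ)) := L2Form.zero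
  have h2 := mem_GS_of_good (hA 1) l2Form_omT h0 h1 good_om
  have h3 : ofF h0 = 0 := by
    apply Lp.ext
    filter_upwards [cf_ofF h0, Lp.coeFn_zero (Co (1 + 1)) 2
      ((volume : Measure (ℂ × ℂ)).restrict T)] with x h4 h5
    rw [← h4, h5, _root_.map_zero]
    rfl
  rw [h3] at h2
  exact h2

/-- The weak and the strong exterior derivatives coincide. -/
theorem GW_le_GS (hA : ∀ q, Away q) (q : ℕ) : GW q ≤ GS q := by
  rintro ⟨u, v⟩ huv
  have hW : WeakD q u v := mem_GW.1 huv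
  rcases q with _ | q
  · -- functions
    obtain ⟨c, u', hu'⟩ := strong_one hA (weakD_closed hW)
    have h1 := ortho_Om hW
    have h2 := ortho_Om (mem_GW.1 (GS_le_GW 0 hu'))
    rw [inner_sub_right, h1, real_inner_smul_right, zero_sub, neg_eq_zero] at h2
    have hc : c = 0 := (mul_eq_zero.1 h2).resolve_right inner_Om_pos.ne'
    rw [hc, zero_smul, sub_zero] at hu'
    have h3 : (u - u', (0 : L2q 1)) ∈ GW 0 := by
      have := (GW 0).sub_mem huv (GS_le_GW 0 hu')
      simpa using this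
    have h4 := (GS 0).add_mem hu' (GS_const (mem_GW.1 h3))
    simpa using h4
  · obtain ⟨u', hu'⟩ := strong_high hA (by omega) (weakD_closed hW)
    have h3 : (u - u', (0 : L2q (q + 2))) ∈ GW (q + 1) := by
      have := (GW (q + 1)).sub_mem huv (GS_le_GW (q + 1) hu')
      simpa using this
    have h4 : (u - u', (0 : L2q (q + 2))) ∈ GS (q + 1) := by
      rcases q with _ | q
      · obtain ⟨c, w, hw⟩ := strong_one hA (mem_GW.1 h3)
        have h5 := (GS 1).smul_mem c (strong_Om hA)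
        have h6 := (GS 1).add_mem (GS_dd hw) h5
        simpa using h6
      · obtain ⟨w, hw⟩ := strong_high hA (by omega) (mem_GW.1 h3)
        exact GS_dd hw
    have h5 := (GS (q + 1)).add_mem hu' h4
    simpa using h5

theorem strongD_eq (hA : ∀ q, Away q) : StrongD = WeakD := by
  funext q u v
  apply propext
  rw [← mem_GS, ← mem_GW]
  exact ⟨fun h => GS_le_GW q h, fun h => GW_le_GS hA q h⟩

end Pool.Agent.Lib.MP_05a445_an
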