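import Pool.Agent.Lib.MP_05a445_an.Coef

/-!
The Hilbert spaces of square integrable forms and the weak exterior derivative between them.
-/

set_option autoImplicit false
set_option linter.unusedSectionVars false

namespace Pool.Agent.Lib.MP_05a445_an

open MeasureTheory Set Filter Topology
open scoped ContDiff NNReal ENNReal

/-- Testing a coefficient against a bounded function. -/
lemma exists_functional {q : ℕ} {g : ℂ × ℂ → ℝ} (hg : Continuous g) {C : ℝ}
    (hC : ∀ x, |g x| ≤ C) (I : Fin q ↪o Fin 4) :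
    ∃ Φ : L2q q →L[ℝ] ℝ, ∀ u : L2q q, Φ u = ∫ x in T, g x * u x I := by
  have hmem : MemLp (fun x => g x • (EuclideanSpace.single I (1 : ℝ) : Co q)) 2
      ((volume : Measure (ℂ × ℂ)).restrict T) := by
    apply MemLp.of_bound (C := C) (hg.smul continuous_const).aestronglyMeasurable
    refine Eventually.of_forall fun x => ?_
    change ‖g x • (EuclideanSpace.single I (1 : ℝ) : Co q)‖ ≤ C
    rw [norm_smul, PiLp.norm_single, norm_one, mul_one]
    exact hC x
  refine ⟨innerSL ℝ hmem.toLp, fun u => ?_⟩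
  rw [innerSL_apply_apply, L2.inner_def]
  apply integral_congr_ae
  filter_upwards [hmem.coeFn_toLp] with x hx
  rw [hx, real_inner_smul_left, EuclideanSpace.inner_single_left]
  simp

lemma exists_lam {q : ℕ} {ψ : ℂ × ℂ → ℝ} (hψ : IsTest T ψ) (J : Fin (q + 1) ↪o Fin 4) :
    ∃ Λ : (L2q q × L2q (q + 1)) →L[ℝ] ℝ, ∀ p, Λ p = (∫ x in T, ψ x * p.2 x J) +
      ∑ k : Fin (q + 1), (-1 : ℝ) ^ (k : ℕ) *
      ∫ x in T, fderiv ℝ ψ x (e (J k)) * p.1 x ((Fin.succAboveOrderEmb k).trans J) := by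
  obtain ⟨C, hC0, hC⟩ := exists_bound hψ.contDiff_one hψ.compact
  obtain ⟨Φ, hΦ⟩ := exists_functional hψ.contDiff_one.continuous (fun x => (hC x).1) J
  have h1 : ∀ k : Fin (q + 1), ∃ Ψ : L2q q →L[ℝ] ℝ, ∀ u : L2q q, Ψ u =
      ∫ x in T, fderiv ℝ ψ x (e (J k)) * u x ((Fin.succAboveOrderEmb k).trans J) := by
    intro k
    obtain ⟨C', hC0', hC'⟩ := exists_bound (hψ.deriv (e (J k))).contDiff_one
      (hψ.deriv (e (J k))).compact
    exact exists_functional (hψ.deriv (e (J k))).contDiff_one.continuous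
      (fun x => (hC' x).1) _
  choose Ψ hΨ using h1
  refine ⟨Φ.comp (ContinuousLinearMap.snd ℝ _ _) +
    ∑ k : Fin (q + 1), ((-1 : ℝ) ^ (k : ℕ)) • (Ψ k).comp (ContinuousLinearMap.fst ℝ _ _),
    fun p => ?_⟩
  simp [hΦ, hΨ]

/-- The graph of the weak exterior derivative. -/
noncomputable def GW (q : ℕ) : Submodule ℝ (L2q q × L2q (q + 1)) :=
  ⨅ (ψ : {ψ : ℂ × ℂ → ℝ // IsTest T ψ}) (J : Fin (q + 1) ↪o Fin 4),
    LinearMap.ker (exists_lam ψ.2 J).choose.toLinearMap

lemma mem_GW {q : ℕ} {u : L2q q} {v : L2q (q + 1)} : (u, v) ∈ GW q ↔ WeakD q u v := by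
  unfold GW WeakD
  simp only [Submodule.mem_iInf, LinearMap.mem_ker, Subtype.forall]
  refine forall_congr' fun ψ => forall_congr' fun hψ => forall_congr' fun J => ?_
  have h1 := (exists_lam hψ J).choose_spec (u, v)
  change (exists_lam hψ J).choose (u, v) = 0 ↔ _
  rw [h1, ← eq_neg_iff_add_eq_zero]

lemma isClosed_GW (q : ℕ) : IsClosed (GW q : Set (L2q q × L2q (q + 1))) := by
  unfold GW
  rw [Submodule.coe_iInf]
  refine isClosed_iInter fun ψ => ?_
  rw [Submodule.coe_iInf]
  refine isClosed_iInter fun J => ?_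
  exact (exists_lam ψ.2 J).choose.isClosed_ker

lemma rel_GW (q : ℕ) : rel (GW q) = WeakD q := by
  funext u v
  exact propext mem_GW

/-- The form with the given coefficients, extended by zero. -/
noncomputable def toF (q : ℕ) (u : L2q q) : ℂ × ℂ → (ℂ × ℂ) [⋀^Fin q]→L[ℝ] ℝ :=
  T.indicator (fun x => fm q (u x))

lemma l2Form_toF (q : ℕ) (u : L2q q) : L2Form (toF q u) := by
  apply L2Form.of_memLp
  · exact (fm q).continuous.comp_stronglyMeasurable (Lp.stronglyMeasurable u)
  · exact (fm q).comp_memLp' (Lp.memLp u)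

lemma cf_toF (q : ℕ) (u : L2q q) : ∀ᵐ x ∂(volume.restrict T), cf q (toF q u x) = u x := by
  filter_upwards [ae_restrict_mem measurableSet_T] with x hx
  rw [toF, indicator_of_mem hx, cf_fm]

/-- The class of a form. -/
noncomputable def ofF {q : ℕ} {f : ℂ × ℂ → (ℂ × ℂ) [⋀^Fin q]→L[ℝ] ℝ} (hf : L2Form f) : L2q q :=
  ((cf q).comp_memLp' hf.memLp).toLp

lemma cf_ofF {q : ℕ} {f : ℂ × ℂ → (ℂ × ℂ) [⋀^Fin q]→L[ℝ] ℝ} (hf : L2Form f) :
    ∀ᵐ x ∂(volume.restrict T), cf q (f x) = ofF hf x := by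
  filter_upwards [((cf q).comp_memLp' hf.memLp).coeFn_toLp] with x hx
  exact hx.symm

lemma removeNth_e {q : ℕ} (J : Fin (q + 1) ↪o Fin 4) (k : Fin (q + 1)) :
    k.removeNth (fun i => e (J i)) =
      fun i => e (((Fin.succAboveOrderEmb k).trans J) i) := rfl

/-- The weak exterior derivative in terms of forms and in terms of coefficients. -/
lemma weakD_iff {q : ℕ} {u : L2q q} {v : L2q (q + 1)}
    {F : ℂ × ℂ → (ℂ × ℂ) [⋀^Fin q]→L[ℝ] ℝ} {G : ℂ × ℂ → (ℂ × ℂ) [⋀^Fin (q + 1)]→L[ℝ] ℝ}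
    (hF : L2Form F) (hG : L2Form G)
    (hu : ∀ᵐ x ∂(volume.restrict T), cf q (F x) = u x)
    (hv : ∀ᵐ x ∂(volume.restrict T), cf (q + 1) (G x) = v x) :
    WD T F G ↔ WeakD q u v := by
  unfold WD WeakD
  refine forall_congr' fun ψ => forall_congr' fun hψ => ?_
  have hψ1 := hψ.contDiff_one
  have hi1 := integrable_test_smul hG.integrableOn hψ1 hψ.compact
  have hi2 := integrable_test_wd hF.integrableOn hψ1 hψ.compact
  have e1 : ∀ J : Fin (q + 1) ↪o Fin 4, (∫ x in T, ψ x • G x) (fun i => e (J i)) =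
      ∫ x in T, ψ x * v x J := by
    intro J
    rw [integral_form_apply hi1]
    apply integral_congr_ae
    filter_upwards [hv] with x hx
    rw [← hx]
    rfl
  have e2 : ∀ J : Fin (q + 1) ↪o Fin 4,
      (- ∫ x in T, wd (fderiv ℝ ψ x) (F x)) (fun i => e (J i)) =
      - ∑ k : Fin (q + 1), (-1 : ℝ) ^ (k : ℕ) *
      ∫ x in T, fderiv ℝ ψ x (e (J k)) * u x ((Fin.succAboveOrderEmb k).trans J) := by
    intro J
    rw [ContinuousAlternatingMap.neg_apply, integral_form_apply hi2]
    congr 1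
    have e3 : ∀ k : Fin (q + 1),
        ∫ x in T, fderiv ℝ ψ x (e (J k)) * u x ((Fin.succAboveOrderEmb k).trans J) =
        ∫ x in T, fderiv ℝ ψ x (e (J k)) * F x (k.removeNth fun i => e (J i)) := by
      intro k
      apply integral_congr_ae
      filter_upwards [hu] with x hx
      rw [← hx]
      rfl
    simp_rw [e3, ← integral_const_mul]
    rw [← integral_finsetSum]
    · apply integral_congr_ae
      refine Eventually.of_forall fun x => ?_
      simp only [wd_apply]
    · intro k _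
      apply Integrable.const_mul
      have := integrable_test_smul hF.integrableOn (hψ.deriv (e (J k))).contDiff_one
        (hψ.deriv (e (J k))).compact
      exact (ev (k.removeNth fun i => e (J i))).integrable_comp this
  constructor
  · intro h J
    rw [← e1, ← e2, h]
  · intro h
    apply form_ext
    intro J
    rw [e1, e2]
    exact h J

end Pool.Agent.Lib.MP_05a445_an
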