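import Pool.Agent.Lib.MP_05a445_an.Mollify

/-!
The homotopy formula along a family of linear maps, tested against a function, first for smooth
forms and then for weakly closed integrable forms.
-/

set_option autoImplicit false

namespace Pool.Agent.Lib.MP_05a445_an

open MeasureTheory Set Filter Topology ContinuousAlternatingMap ContinuousLinearMap
open scoped ContDiff

variable {V : Type*} [NormedAddCommGroup V] [NormedSpace ℝ V]

lemma extDeriv_ct_apply {q : ℕ} (A B : V →L[ℝ] V) {f : V → V [⋀^Fin (q + 1)]→L[ℝ] ℝ} {x : V}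
    (hf : DifferentiableAt ℝ f (A x)) (v : Fin (q + 1) → V) :
    extDeriv (ct A B f) x v = ∑ i : Fin (q + 1), (-1 : ℝ) ^ (i : ℕ) *
      (fderiv ℝ f (A x) (A (v i)) (Fin.cons (B x) (fun j => A (i.removeNth v j))) +
        f (A x) (Fin.cons (B (v i)) (fun j => A (i.removeNth v j)))) := by
  rw [extDeriv, (hasFDerivAt_ct A B hf.hasFDerivAt).fderiv, alternatizeUncurryFin_apply]
  refine Finset.sum_congr rfl fun i _ => ?_
  rw [zsmul_eq_mul]
  push_cast
  rfl

lemma continuous_extDeriv_ct {q : ℕ} {F : V → V [⋀^Fin (q + 1)]→L[ℝ] ℝ} (hF : ContDiff ℝ 1 F)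
    {A B : ℝ → V →L[ℝ] V} (hA : Continuous A) (hB : Continuous B) (v : Fin (q + 1) → V) :
    Continuous (fun p : V × ℝ => extDeriv (ct (A p.2) (B p.2) F) p.1 v) := by
  have hd : ∀ y, DifferentiableAt ℝ F y := fun y => hF.differentiable (by norm_num) y
  simp_rw [fun p : V × ℝ => extDeriv_ct_apply (A p.2) (B p.2) (hd (A p.2 p.1)) v]
  have hfd : Continuous (fderiv ℝ F) := hF.continuous_fderiv (by norm_num)
  have hFc : Continuous F := hF.continuous
  have hAx : Continuous (fun p : V × ℝ => A p.2 p.1) :=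
    (hA.comp continuous_snd).clm_apply continuous_fst
  have hBx : Continuous (fun p : V × ℝ => B p.2 p.1) :=
    (hB.comp continuous_snd).clm_apply continuous_fst
  have hAv : ∀ w : V, Continuous (fun p : V × ℝ => A p.2 w) := fun w =>
    (hA.comp continuous_snd).clm_apply continuous_const
  have hBv : ∀ w : V, Continuous (fun p : V × ℝ => B p.2 w) := fun w =>
    (hB.comp continuous_snd).clm_apply continuous_const
  refine continuous_finsetSum _ fun i _ => continuous_const.mul (Continuous.add ?_ ?_)
  · apply Continuous.eval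
    · exact (hfd.comp hAx).clm_apply (hAv _)
    · refine continuous_pi fun j => ?_
      refine Fin.cases ?_ (fun j => ?_) j
      · simpa using hBx
      · simpa using hAv _
  · apply Continuous.eval
    · exact hFc.comp hAx
    · refine continuous_pi fun j => ?_
      refine Fin.cases ?_ (fun j => ?_) j
      · simpa using hBv _
      · simpa using hAv _

lemma contDiff_clm {E F G : Type*} [NormedAddCommGroup E] [NormedSpace ℝ E]
    [NormedAddCommGroup F] [NormedSpace ℝ F] [NormedAddCommGroup G] [NormedSpace ℝ G]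
    (L : F →L[ℝ] G) {g : E → F} {n : WithTop ℕ∞} (h : ContDiff ℝ n g) :
    ContDiff ℝ n (fun y => L (g y)) := L.contDiff.comp h

lemma pb_sub_eq_integral {q : ℕ} {F : V → V [⋀^Fin (q + 1)]→L[ℝ] ℝ} (hF : ContDiff ℝ 1 F)
    {A B : ℝ → V →L[ℝ] V} (hA : ∀ t, HasDerivAt A (B t) t) (hB : Continuous B) {a b : ℝ}
    (hab : a ≤ b) {x : V} (hcl : ∀ t ∈ Icc a b, extDeriv F (A t x) = 0) (v : Fin (q + 1) → V) :
    pb (A b) F x v - pb (A a) F x v = ∫ t in a..b, extDeriv (ct (A t) (B t) F) x v := by
  have hAc : Continuous A := continuous_iff_continuousAt.2 fun t => (hA t).continuousAt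
  symm
  apply intervalIntegral.integral_eq_sub_of_hasDerivAt (f := fun t => pb (A t) F x v)
  · intro t ht
    rw [uIcc_of_le hab] at ht
    have h1 := hasDerivAt_pb (hA t) (hF.differentiable (by norm_num) (A t x))
    have h2 : ct (A t) (B t) (extDeriv F) x = 0 := by
      unfold ct
      rw [hcl t ht]
      rfl
    rw [h2, add_zero] at h1
    exact (hasFDerivAt_clm (F := V [⋀^Fin (q + 1)]→L[ℝ] ℝ) (ev v) h1.hasFDerivAt).hasDerivAt
      |>.congr_deriv (by simp)
  · have h3 := (continuous_extDeriv_ct hF hAc hB v).comp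
      ((continuous_const (y := x)).prodMk continuous_id)
    exact h3.intervalIntegrable a b

variable [FiniteDimensional ℝ V]
  [MeasureSpace V] [BorelSpace V] [(volume : Measure V).IsAddHaarMeasure]

omit [FiniteDimensional ℝ V] [MeasureSpace V] [BorelSpace V]
  [(volume : Measure V).IsAddHaarMeasure] in
lemma contDiff_ct {q : ℕ} (A B : V →L[ℝ] V) {F : V → V [⋀^Fin (q + 1)]→L[ℝ] ℝ}
    (hF : ContDiff ℝ 1 F) : ContDiff ℝ 1 (ct A B F) := by
  have h1 : ContDiff ℝ 1 (fun x => F (A x)) := hF.comp A.contDiff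
  have h2 : ContDiff ℝ 1 (fun x => cl V q (F (A x))) :=
    contDiff_clm (F := V [⋀^Fin (q + 1)]→L[ℝ] ℝ) (G := V →L[ℝ] V [⋀^Fin q]→L[ℝ] ℝ) (cl V q) h1
  have h3 : ContDiff ℝ 1 (fun x => cl V q (F (A x)) (B x)) := h2.clm_apply B.contDiff
  exact (cc A).contDiff.comp h3

theorem star_smooth {q : ℕ} {F : V → V [⋀^Fin (q + 1)]→L[ℝ] ℝ} (hF : ContDiff ℝ 1 F)
    {A B : ℝ → V →L[ℝ] V} (hA : ∀ t, HasDerivAt A (B t) t) (hB : Continuous B)
    {ψ : V → ℝ} (hψ : ContDiff ℝ 1 ψ) (hc : HasCompactSupport ψ) {a b : ℝ} (hab : a ≤ b)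
    (hcl : ∀ t ∈ Icc a b, ∀ x ∈ tsupport ψ, extDeriv F (A t x) = 0) (v : Fin (q + 1) → V) :
    ∫ x, ψ x * (pb (A b) F x v - pb (A a) F x v) =
      - ∫ t in a..b, ∫ x, wd (fderiv ℝ ψ x) (ct (A t) (B t) F x) v := by
  have hAc : Continuous A := continuous_iff_continuousAt.2 fun t => (hA t).continuousAt
  set D : V → ℝ → ℝ := fun x t => extDeriv (ct (A t) (B t) F) x v with hD
  have hDc : Continuous (fun p : V × ℝ => D p.1 p.2) := continuous_extDeriv_ct hF hAc hB v
  have h1 : ∀ x, ψ x * (pb (A b) F x v - pb (A a) F x v) = ∫ t in a..b, ψ x * D x t := by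
    intro x
    rw [intervalIntegral.integral_const_mul]
    by_cases hx : x ∈ tsupport ψ
    · rw [pb_sub_eq_integral hF hA hB hab (fun t ht => hcl t ht x hx) v]
    · rw [image_eq_zero_of_notMem_tsupport hx]; ring
  have hint : Integrable (Function.uncurry fun x t => ψ x * D x t)
      ((volume : Measure V).prod (volume.restrict (Ioc a b))) := by
    have hcont : Continuous (Function.uncurry fun x t => ψ x * D x t) :=
      (hψ.continuous.comp continuous_fst).mul hDc
    have h2 : IntegrableOn (Function.uncurry fun x t => ψ x * D x t)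
        (tsupport ψ ×ˢ Icc a b) ((volume : Measure V).prod volume) :=
      hcont.continuousOn.integrableOn_compact (hc.isCompact.prod isCompact_Icc)
    have h3 : IntegrableOn (Function.uncurry fun x t => ψ x * D x t)
        (univ ×ˢ Icc a b) ((volume : Measure V).prod volume) := by
      apply h2.of_forall_sdiff_eq_zero (MeasurableSet.univ.prod measurableSet_Icc)
      rintro ⟨x, t⟩ ⟨⟨-, ht⟩, hn⟩
      have hx : x ∉ tsupport ψ := fun hx => hn ⟨hx, ht⟩
      simp [Function.uncurry, image_eq_zero_of_notMem_tsupport hx]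
    have h4 : IntegrableOn (Function.uncurry fun x t => ψ x * D x t)
        (univ ×ˢ Ioc a b) ((volume : Measure V).prod volume) :=
      h3.mono_set (Set.prod_mono le_rfl Ioc_subset_Icc_self)
    rw [IntegrableOn, ← Measure.prod_restrict, Measure.restrict_univ] at h4
    exact h4
  simp_rw [h1, intervalIntegral.integral_of_le hab]
  rw [integral_integral_swap hint, ← integral_neg]
  refine setIntegral_congr_fun measurableSet_Ioc fun t ht => ?_
  have h5 := integral_smul_extDeriv (μ := (volume : Measure V)) isOpen_univ hψ hc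
    (subset_univ _) (contDiff_ct (A t) (B t) hF).contDiffOn
  have hctc : Continuous (ct (A t) (B t) F) := (contDiff_ct (A t) (B t) hF).continuous
  have hedc : Continuous (extDeriv (ct (A t) (B t) F)) :=
    (alternatizeUncurryFinCLM ℝ V ℝ).continuous.comp
      ((contDiff_ct (A t) (B t) hF).continuous_fderiv (by norm_num))
  have hint1 : Integrable (fun x => ψ x • extDeriv (ct (A t) (B t) F) x) :=
    (hψ.continuous.smul hedc).integrable_of_hasCompactSupport hc.smul_right
  have hint2 : Integrable (fun x => wd (fderiv ℝ ψ x) (ct (A t) (B t) F x)) := by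
    apply Continuous.integrable_of_hasCompactSupport
    · exact ((wdL V q).continuous.comp (hψ.continuous_fderiv (by norm_num))).clm_apply hctc
    · refine (hc.fderiv (𝕜 := ℝ)).mono fun x hx => ?_
      simp only [Function.mem_support] at hx ⊢
      intro h
      exact hx (by rw [h, wd_zero_left])
  have h6 := congrArg (fun g => g v) h5
  simp only [ContinuousAlternatingMap.neg_apply] at h6
  rw [integral_form_apply hint1, integral_form_apply hint2] at h6
  exact h6

end Pool.Agent.Lib.MP_05a445_an
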