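import Pool.Agent.Lib.MP_05a445_an.Good

/-!
Logarithmic cutoffs at the tip of the triangle.
-/

set_option autoImplicit false
set_option linter.unusedSectionVars false

namespace Pool.Agent.Lib.MP_05a445_an

open MeasureTheory Set Filter Topology ContinuousAlternatingMap ContinuousLinearMap
open scoped ContDiff NNReal ENNReal

section weak

variable {H K : Type*} [NormedAddCommGroup H] [InnerProductSpace ℝ H]
  [NormedAddCommGroup K] [InnerProductSpace ℝ K] [CompleteSpace K]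

/-- A closed subspace of a product is stable under limits with a weakly null perturbation. -/
lemma mem_of_weak (S : Submodule ℝ (H × K)) (hS : IsClosed (S : Set (H × K))) {U : ℕ → H}
    {X R : ℕ → K} {U0 : H} {X0 : K} (hU : Tendsto U atTop (𝓝 U0)) (hX : Tendsto X atTop (𝓝 X0))
    (hR : ∀ G : K, Tendsto (fun n => inner ℝ G (R n)) atTop (𝓝 0))
    (hmem : ∀ n, (U n, X n + R n) ∈ S) : (U0, X0) ∈ S := by
  by_contra hcon
  obtain ⟨f, c, hf1, hf2⟩ := geometric_hahn_banach_closed_point S.convex hS hcon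
  have h0 : ∀ a ∈ S, f a = 0 := by
    intro a ha
    by_contra hne
    have h1 := hf1 ((c / f a) • a) (S.smul_mem _ ha)
    rw [map_smul, smul_eq_mul, div_mul_cancel₀ _ hne] at h1
    exact lt_irrefl _ h1
  have hc : 0 < c := by
    have := hf1 0 S.zero_mem
    rwa [_root_.map_zero] at this
  set φ : StrongDual ℝ K := f.comp (ContinuousLinearMap.inr ℝ H K) with hφ
  set G : K := (InnerProductSpace.toDual ℝ K).symm φ with hG
  have h2 : ∀ n, f (U n, X n) + inner ℝ G (R n) = 0 := by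
    intro n
    have h3 : inner ℝ G (R n) = f (0, R n) := InnerProductSpace.toDual_symm_apply
    rw [h3, ← map_add, Prod.mk_add_mk, add_zero]
    exact h0 _ (hmem n)
  have h4 : Tendsto (fun n => f (U n, X n) + inner ℝ G (R n)) atTop (𝓝 (f (U0, X0) + 0)) :=
    ((f.continuous.tendsto _).comp (hU.prodMk_nhds hX)).add (hR G)
  simp_rw [h2] at h4
  have h5 := tendsto_nhds_unique tendsto_const_nhds h4
  rw [add_zero] at h5
  rw [← h5] at hf2
  linarith

end weak

/-- The derivative of the smooth transition vanishes outside the unit interval. -/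
lemma dS_zero {t : ℝ} (ht : t < 0 ∨ 1 < t) : deriv Real.smoothTransition t = 0 := by
  rcases ht with h | h
  · have h1 : Real.smoothTransition =ᶠ[𝓝 t] fun _ => 0 := by
      filter_upwards [Iio_mem_nhds h] with s hs
      exact Real.smoothTransition.zero_of_nonpos hs.le
    rw [h1.deriv_eq, deriv_const]
  · have h1 : Real.smoothTransition =ᶠ[𝓝 t] fun _ => 1 := by
      filter_upwards [Ioi_mem_nhds h] with s hs
      exact Real.smoothTransition.one_of_one_le hs.le
    rw [h1.deriv_eq, deriv_const]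

lemma exists_bound_dS : ∃ C : ℝ, 0 ≤ C ∧ ∀ t, |deriv Real.smoothTransition t| ≤ C := by
  have hc : Continuous (deriv Real.smoothTransition) :=
    (Real.smoothTransition.contDiff (n := 1)).continuous_deriv (by norm_num)
  obtain ⟨C, hC⟩ := (isCompact_Icc (a := (0 : ℝ)) (b := 1)).exists_bound_of_continuousOn
    hc.continuousOn
  have hC0 : 0 ≤ C := (norm_nonneg _).trans (hC 0 (left_mem_Icc.2 zero_le_one))
  refine ⟨C, hC0, fun t => ?_⟩
  by_cases h0 : t < 0
  · rw [dS_zero (Or.inl h0), abs_zero]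
    exact hC0
  by_cases h1 : 1 < t
  · rw [dS_zero (Or.inr h1), abs_zero]
    exact hC0
  · exact hC t ⟨not_lt.1 h0, not_lt.1 h1⟩

/-- The logarithmic cutoff. -/
noncomputable def tip (n : ℕ) (x : ℂ × ℂ) : ℝ :=
  Real.smoothTransition (2 + Real.log (‖x.2‖ ^ 2 + Real.exp (-(4 * n)) / 2) / (2 * n))

lemma tip_arg_pos (n : ℕ) (x : ℂ × ℂ) : 0 < ‖x.2‖ ^ 2 + Real.exp (-(4 * n)) / 2 := by
  positivity

lemma contDiff_tip (n : ℕ) : ContDiff ℝ ∞ (tip n) := by
  unfold tip
  apply Real.smoothTransition.contDiff.comp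
  have h1 : ContDiff ℝ ∞ (fun z : ℂ × ℂ => ‖z.2‖ ^ 2) := contDiff_snd.norm_sq ℝ
  have h2 : ContDiff ℝ ∞ (fun z : ℂ × ℂ =>
      Real.log (‖z.2‖ ^ 2 + Real.exp (-(4 * (n : ℝ))) / 2)) :=
    (h1.add contDiff_const).log fun x => (tip_arg_pos n x).ne'
  exact contDiff_const.add (h2.div_const _)

lemma tip_nonneg (n : ℕ) (x : ℂ × ℂ) : 0 ≤ tip n x := Real.smoothTransition.nonneg _

lemma tip_le_one (n : ℕ) (x : ℂ × ℂ) : |tip n x| ≤ 1 := by
  rw [abs_of_nonneg (tip_nonneg n x)]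
  exact Real.smoothTransition.le_one _

/-- The cutoff vanishes near the tip. -/
lemma tip_zero {n : ℕ} (hn : 1 ≤ n) {x : ℂ × ℂ} (hx : ‖x.2‖ < Real.exp (-(3 * n))) :
    tip n x = 0 := by
  apply Real.smoothTransition.zero_of_nonpos
  have hn1 : (1 : ℝ) ≤ n := by exact_mod_cast hn
  have h1 : ‖x.2‖ ^ 2 ≤ Real.exp (-(4 * n)) / 2 := by
    have h2 : ‖x.2‖ ^ 2 ≤ Real.exp (-(3 * n)) ^ 2 := by gcongr
    refine h2.trans ?_
    rw [← Real.exp_nat_mul]
    have h3 : Real.exp (((2 : ℕ) : ℝ) * -(3 * n)) =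
        Real.exp (-(4 * n)) * Real.exp (-(2 * n)) := by
      rw [← Real.exp_add]; congr 1; push_cast; ring
    rw [h3, div_eq_mul_inv]
    have h4 : Real.exp (-(2 * (n : ℝ))) ≤ 2⁻¹ := by
      rw [Real.exp_neg]
      apply inv_anti₀ (by norm_num)
      have := Real.add_one_le_exp (2 * (n : ℝ))
      linarith
    gcongr
  have h5 : Real.log (‖x.2‖ ^ 2 + Real.exp (-(4 * n)) / 2) ≤ -(4 * n) := by
    rw [Real.log_le_iff_le_exp (tip_arg_pos n x)]
    linarith
  have h6 : Real.log (‖x.2‖ ^ 2 + Real.exp (-(4 * n)) / 2) / (2 * n) ≤ -2 := by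
    rw [div_le_iff₀ (by positivity)]
    linarith
  linarith

lemma tip_one {n : ℕ} (hn : 1 ≤ n) {x : ℂ × ℂ} (hx : Real.exp (-n) ≤ ‖x.2‖) :
    tip n x = 1 := by
  apply Real.smoothTransition.one_of_one_le
  have hn1 : (1 : ℝ) ≤ n := by exact_mod_cast hn
  have h5 : -(2 * n : ℝ) ≤ Real.log (‖x.2‖ ^ 2 + Real.exp (-(4 * n)) / 2) := by
    rw [Real.le_log_iff_exp_le (tip_arg_pos n x)]
    have h2 : Real.exp (-(2 * n : ℝ)) = Real.exp (-(n : ℝ)) ^ 2 := by
      rw [← Real.exp_nat_mul]; congr 1; push_cast; ring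
    have h3 : Real.exp (-(n : ℝ)) ^ 2 ≤ ‖x.2‖ ^ 2 := by gcongr
    have h4 : 0 < Real.exp (-(4 * (n : ℝ))) := Real.exp_pos _
    linarith
  have h6 : -1 ≤ Real.log (‖x.2‖ ^ 2 + Real.exp (-(4 * n)) / 2) / (2 * n) := by
    rw [le_div_iff₀ (by positivity)]
    linarith
  linarith

lemma tendsto_tip {x : ℂ × ℂ} (hx : x ∈ T) : Tendsto (fun n => tip n x) atTop (𝓝 1) := by
  apply tendsto_const_nhds.congr'
  have hx0 : 0 < ‖x.2‖ := snd_pos hx
  obtain ⟨N, hN⟩ := exists_nat_ge (-Real.log ‖x.2‖)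
  filter_upwards [eventually_ge_atTop (max N 1)] with n hn
  rw [tip_one (le_of_max_le_right hn)]
  have h1 : -Real.log ‖x.2‖ ≤ n := hN.trans (by exact_mod_cast le_of_max_le_left hn)
  rw [← Real.le_log_iff_exp_le hx0]
  linarith

lemma norm_lb_le (x : ℂ × ℂ) : ‖lb x‖ ≤ ‖x.2‖ := by
  apply ContinuousLinearMap.opNorm_le_bound _ (norm_nonneg _)
  intro v
  change ‖inner ℝ x.2 v.2‖ ≤ _
  refine (norm_inner_le_norm _ _).trans ?_
  gcongr
  exact norm_snd_le v

/-- The derivative of the cutoff. -/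
lemma exists_tip_deriv : ∃ C : ℝ, 0 ≤ C ∧ ∀ n : ℕ, 1 ≤ n → ∀ x : ℂ × ℂ,
    ‖fderiv ℝ (tip n) x‖ ≤ C / n * ‖x.2‖⁻¹ ∧
    (¬ (Real.exp (-(3 * n)) ≤ ‖x.2‖ ∧ ‖x.2‖ ≤ Real.exp (-n)) → fderiv ℝ (tip n) x = 0) := by
  obtain ⟨C, hC0, hC⟩ := exists_bound_dS
  refine ⟨C, hC0, fun n hn x => ?_⟩
  have hn1 : (1 : ℝ) ≤ n := by exact_mod_cast hn
  have hn0 : (0 : ℝ) < n := by linarith
  set A : ℝ := ‖x.2‖ ^ 2 + Real.exp (-(4 * n)) / 2 with hA
  have hA0 : 0 < A := tip_arg_pos n x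
  have h3 : HasFDerivAt (fun z : ℂ × ℂ =>
      2 + Real.log (‖z.2‖ ^ 2 + Real.exp (-(4 * (n : ℝ))) / 2) / (2 * n))
      ((2 * (n : ℝ))⁻¹ • (A⁻¹ • ((2 : ℝ) • lb x))) x := by
    have h4 := (hasFDerivAt_nb x).add_const (Real.exp (-(4 * (n : ℝ))) / 2)
    have h5 := (h4.log hA0.ne').const_mul (2 * (n : ℝ))⁻¹
    have h6 := h5.const_add 2
    refine h6.congr_of_eventuallyEq (Eventually.of_forall fun z => ?_)
    change 2 + Real.log (‖z.2‖ ^ 2 + Real.exp (-(4 * (n : ℝ))) / 2) / (2 * n) =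
      2 + (2 * (n : ℝ))⁻¹ * Real.log (‖z.2‖ ^ 2 + Real.exp (-(4 * (n : ℝ))) / 2)
    rw [div_eq_inv_mul]
  set τ : ℝ := 2 + Real.log A / (2 * n) with hτ
  have h4 : HasDerivAt Real.smoothTransition (deriv Real.smoothTransition τ) τ :=
    ((Real.smoothTransition.contDiff (n := 1)).differentiable (by norm_num) _).hasDerivAt
  have h5 : HasFDerivAt (tip n) (deriv Real.smoothTransition τ •
      ((2 * (n : ℝ))⁻¹ • (A⁻¹ • ((2 : ℝ) • lb x)))) x := h4.comp_hasFDerivAt x h3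
  rw [h5.fderiv]
  have hzero : ¬ (Real.exp (-(3 * n)) ≤ ‖x.2‖ ∧ ‖x.2‖ ≤ Real.exp (-n)) →
      deriv Real.smoothTransition τ = 0 := by
    intro hx
    apply dS_zero
    by_cases h6 : Real.exp (-(3 * n)) ≤ ‖x.2‖
    · right
      have h7 : Real.exp (-n) < ‖x.2‖ := by
        by_contra hcon
        exact hx ⟨h6, not_lt.1 hcon⟩
      have h8 : -(2 * n : ℝ) < Real.log A := by
        rw [Real.lt_log_iff_exp_lt hA0]
        have h2 : Real.exp (-(2 * n : ℝ)) = Real.exp (-(n : ℝ)) ^ 2 := by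
          rw [← Real.exp_nat_mul]; congr 1; push_cast; ring
        have h3 : Real.exp (-(n : ℝ)) ^ 2 ≤ ‖x.2‖ ^ 2 := by gcongr
        have h4 : 0 < Real.exp (-(4 * (n : ℝ))) := Real.exp_pos _
        rw [hA, h2]
        linarith
      have h9 : -1 < Real.log A / (2 * n) := by
        rw [lt_div_iff₀ (by positivity)]
        linarith
      rw [hτ]
      linarith
    · left
      have h7 : ‖x.2‖ < Real.exp (-(3 * n)) := not_le.1 h6
      have h8 : A < Real.exp (-(4 * n)) := by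
        have h2 : ‖x.2‖ ^ 2 < Real.exp (-(3 * n)) ^ 2 := by
          gcongr
        have h3 : Real.exp (-(3 * (n : ℝ))) ^ 2 =
            Real.exp (-(4 * n)) * Real.exp (-(2 * n)) := by
          rw [← Real.exp_nat_mul, ← Real.exp_add]; congr 1; push_cast; ring
        have h4 : Real.exp (-(2 * (n : ℝ))) ≤ 2⁻¹ := by
          rw [Real.exp_neg]
          apply inv_anti₀ (by norm_num)
          have := Real.add_one_le_exp (2 * (n : ℝ))
          linarith
        have h5 : 0 < Real.exp (-(4 * (n : ℝ))) := Real.exp_pos _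
        rw [h3] at h2
        rw [hA]
        nlinarith
      have h9 : Real.log A < -(4 * n) := by
        rw [Real.log_lt_iff_lt_exp hA0]
        exact h8
      have h10 : Real.log A / (2 * n) < -2 := by
        rw [div_lt_iff₀ (by positivity)]
        linarith
      rw [hτ]
      linarith
  refine ⟨?_, fun hx => by rw [hzero hx, zero_smul]⟩
  by_cases hx : ‖x.2‖ = 0
  · rw [hzero, zero_smul, norm_zero]
    · positivity
    · intro h
      rw [hx] at h
      exact absurd h.1 (not_le.2 (Real.exp_pos _))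
  · have hx0 : 0 < ‖x.2‖ := lt_of_le_of_ne (norm_nonneg _) (Ne.symm hx)
    rw [norm_smul, norm_smul, norm_smul, norm_smul, Real.norm_eq_abs, Real.norm_of_nonneg
      (by positivity), Real.norm_of_nonneg (by positivity), Real.norm_of_nonneg (by positivity)]
    have h1 := norm_lb_le x
    have h2 : A⁻¹ * ‖x.2‖ ≤ ‖x.2‖⁻¹ := by
      rw [inv_mul_le_iff₀ hA0, ← div_eq_mul_inv, le_div_iff₀ hx0, hA]
      have : 0 < Real.exp (-(4 * (n : ℝ))) := Real.exp_pos _
      nlinarith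
    calc |deriv Real.smoothTransition τ| * ((2 * (n : ℝ))⁻¹ * (A⁻¹ * (2 * ‖lb x‖)))
        ≤ C * ((2 * (n : ℝ))⁻¹ * (A⁻¹ * (2 * ‖x.2‖))) := by
          gcongr
          exact hC τ
      _ = C / n * (A⁻¹ * ‖x.2‖) := by
          field_simp
      _ ≤ C / n * ‖x.2‖⁻¹ := by gcongr

/-- Multiplication by a smooth bounded function. -/
lemma WD.mul_smooth {χ : ℂ × ℂ → ℝ} (hχ : ContDiff ℝ ∞ χ) (hb : ∀ x, |χ x| ≤ 1) {q : ℕ}
    {u : ℂ × ℂ → (ℂ × ℂ) [⋀^Fin q]→L[ℝ] ℝ} {g : ℂ × ℂ → (ℂ × ℂ) [⋀^Fin (q + 1)]→L[ℝ] ℝ}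
    (hu : IntegrableOn u T) (hg : IntegrableOn g T) (h : WD T u g) :
    WD T (fun x => χ x • u x) (fun x => χ x • g x + wd (fderiv ℝ χ x) (u x)) := by
  intro ψ hψ
  have hψ1 := hψ.contDiff_one
  have hχ1 : ContDiff ℝ 1 χ := hχ.of_le (by simp)
  have hp : IsTest T (fun x => ψ x * χ x) :=
    ⟨hψ.smooth.mul hχ, hψ.compact.mul_right, tsupport_mul_subset_left.trans hψ.supp⟩
  have hp1 := hp.contDiff_one
  have hd : ∀ x, fderiv ℝ (fun x => ψ x * χ x) x = ψ x • fderiv ℝ χ x + χ x • fderiv ℝ ψ x :=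
    fun x => fderiv_mul (hψ1.differentiable (by norm_num) x) (hχ1.differentiable (by norm_num) x)
  have hχu : IntegrableOn (fun x => χ x • u x) T :=
    hu.bdd_smul 1 hχ1.continuous.aestronglyMeasurable (Eventually.of_forall fun x => hb x)
  have i1 := integrable_test_smul hg hp1 hp.compact
  have i2 := integrable_test_wd hu hp1 hp.compact
  have i3 := integrable_test_wd hχu hψ1 hψ.compact
  have e1 : ∀ x, wd (fderiv ℝ (fun x => ψ x * χ x) x) (u x) =
      ψ x • wd (fderiv ℝ χ x) (u x) + wd (fderiv ℝ ψ x) (χ x • u x) := by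
    intro x
    rw [hd, wd_add_left, wd_smul_left, wd_smul_left, wd_smul_right]
  have i4 : Integrable (fun x => ψ x • wd (fderiv ℝ χ x) (u x)) (volume.restrict T) := by
    have h5 := Integrable.sub i2 i3
    refine h5.congr (Eventually.of_forall fun x => ?_)
    simp only [Pi.sub_apply]
    rw [e1, add_sub_cancel_right]
  have h6 := h _ hp
  simp_rw [e1] at h6
  rw [integral_add i4 i3] at h6
  have e2 : ∀ x, ψ x • (χ x • g x + wd (fderiv ℝ χ x) (u x)) =
      (ψ x * χ x) • g x + ψ x • wd (fderiv ℝ χ x) (u x) := by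
    intro x
    rw [smul_add, smul_smul]
  simp_rw [e2]
  rw [integral_add i1 i4, h6]
  abel

end Pool.Agent.Lib.MP_05a445_an
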